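import Pool.Agent.Lib.HFC.Defs

/-!
# Module HFC.AnL: analytic subsets of standard Borel spaces (MP_3091e6_lc)

PROOFS. `an_iff`: for a Polish space with its Borel sets: (→) `MeasurableSet.analyticSet` in `Z × NN` and
`AnalyticSet.image_of_continuous` for `Prod.fst`; (←) `A` is empty, or the range of a continuous `g : NN → Z`; then
`B = {p | g p.2 = p.1}` (closed). `an_preimage`: pull `B` back along `(f × id)`. `an_of_meas`: `B = A ×ˢ univ`. For the other
statements use `an_iff` after `letI := upgradeStandardBorel Z` (or `let := upgradeStandardBorel Z`) and Mathlib: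
`AnalyticSet.iInter`, `AnalyticSet.iUnion`, `AnalyticSet.measurableSet_of_compl`. `an_inter`, `an_union` from the countable
versions (over `Bool`), or see `Pool.Agent.Pf8fe2f.an_inter`. `an_proj`: with Polish topologies on `Z` and `Y` (then `Z × Y` is
Polish with its Borel sets), image under the continuous map `Prod.fst`. `an_range`: a nonempty analytic set is the image of
a measurable map `NN → Z`; with any Polish topology which gives the σ-algebra it is the range of a continuous map.
-/

set_option autoImplicit false

namespace Pool.Agent.Lib.HFC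

open MeasureTheory

theorem an_iff {Z : Type} [TopologicalSpace Z] [PolishSpace Z] [MeasurableSpace Z] [BorelSpace Z]
    {A : Set Z} : An A ↔ MeasureTheory.AnalyticSet A := by
  constructor
  · rintro ⟨B, hB, rfl⟩
    have h1 : AnalyticSet B := hB.analyticSet
    have h2 := h1.image_of_continuous (continuous_fst : Continuous (Prod.fst : Z × (ℕ → ℕ) → Z))
    convert h2 using 1
    ext z
    simp
  · intro h
    rw [AnalyticSet] at h
    rcases h with rfl | ⟨g, hg, rfl⟩
    · exact ⟨∅, MeasurableSet.empty, by ext z; simp⟩
    · refine ⟨{p | g p.2 = p.1}, ?_, ?_⟩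
      · exact (isClosed_eq (hg.comp continuous_snd) continuous_fst).measurableSet
      · ext z
        simp

theorem an_preimage {Z Y : Type} [MeasurableSpace Z] [MeasurableSpace Y] {A : Set Y} (hA : An A)
    {f : Z → Y} (hf : Measurable f) : An (f ⁻¹' A) := by
  obtain ⟨B, hB, rfl⟩ := hA
  refine ⟨(fun p : Z × (ℕ → ℕ) => (f p.1, p.2)) ⁻¹' B, ?_, ?_⟩
  · exact ((hf.comp measurable_fst).prodMk measurable_snd) hB
  · ext z
    simp

theorem an_of_meas {Z : Type} [MeasurableSpace Z] {A : Set Z} (hA : MeasurableSet A) : An A := by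
  refine ⟨Prod.fst ⁻¹' A, measurable_fst hA, ?_⟩
  ext z
  simp

theorem an_iInter {Z : Type} [MeasurableSpace Z] [StandardBorelSpace Z] {ι : Type} [Countable ι]
    {A : ι → Set Z} (hA : ∀ i, An (A i)) : An (⋂ i, A i) := by
  letI := upgradeStandardBorel Z
  cases isEmpty_or_nonempty ι
  · rw [Set.iInter_of_empty]
    exact an_of_meas MeasurableSet.univ
  · exact an_iff.2 (AnalyticSet.iInter fun i => an_iff.1 (hA i))

theorem an_iUnion {Z : Type} [MeasurableSpace Z] [StandardBorelSpace Z] {ι : Type} [Countable ι]
    {A : ι → Set Z} (hA : ∀ i, An (A i)) : An (⋃ i, A i) := by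
  letI := upgradeStandardBorel Z
  exact an_iff.2 (AnalyticSet.iUnion fun i => an_iff.1 (hA i))

theorem an_inter {Z : Type} [MeasurableSpace Z] [StandardBorelSpace Z] {A B : Set Z}
    (hA : An A) (hB : An B) : An (A ∩ B) := by
  have h := an_iInter (ι := Bool) (A := fun b => if b then A else B)
    (by intro b; cases b <;> simpa)
  convert h using 1
  ext z
  simp [Set.mem_iInter]
  tauto

theorem an_union {Z : Type} [MeasurableSpace Z] [StandardBorelSpace Z] {A B : Set Z}
    (hA : An A) (hB : An B) : An (A ∪ B) := by
  have h := an_iUnion (ι := Bool) (A := fun b => if b then A else B)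
    (by intro b; cases b <;> simpa)
  convert h using 1
  ext z
  simp [Set.mem_iUnion]
  tauto

theorem an_proj {Z Y : Type} [MeasurableSpace Z] [StandardBorelSpace Z] [MeasurableSpace Y]
    [StandardBorelSpace Y] {A : Set (Z × Y)} (hA : An A) : An {z | ∃ y, (z, y) ∈ A} := by
  letI := upgradeStandardBorel Z
  letI := upgradeStandardBorel Y
  have h1 : AnalyticSet A := an_iff.1 hA
  have h2 := h1.image_of_continuous (continuous_fst : Continuous (Prod.fst : Z × Y → Z))
  refine an_iff.2 ?_
  convert h2 using 1
  ext z
  simp

theorem meas_of_an {Z : Type} [MeasurableSpace Z] [StandardBorelSpace Z] {A : Set Z}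
    (hA : An A) (hB : An Aᶜ) : MeasurableSet A := by
  letI := upgradeStandardBorel Z
  exact (an_iff.1 hA).measurableSet_of_compl (an_iff.1 hB)

end Pool.Agent.Lib.HFC
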