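import Pool.Agent.Lib.HFC.RankA

/-!
# Module HFC.RankM: measurability of the ranks (MP_3091e6_lc)

`hasRank_meas`: strong induction on `β`; by `hasRank_iff` the set is a countable intersection of
countable unions of sets which are measurable by the induction hypothesis. `branch_acc`: from a
non accessible node there is a non accessible child, and this gives a branch; conversely the nodes
of a branch are not accessible.
-/

set_option autoImplicit false

namespace Pool.Agent.Lib.HFC

theorem hasRank_meas {Ω ι : Type} [MeasurableSpace Ω] [Countable ι] (R : Ω → ι → ι → Prop)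
    (hR : ∀ a b, MeasurableSet {ω | R ω a b}) {β : Ordinal.{0}} (hβ : Ctbl β) (a : ι) :
    MeasurableSet {ω | HasRank (R ω) a β} := by
  induction β using WellFoundedLT.induction generalizing a with
  | _ β ih =>
    haveI : Countable (Set.Iio β) := hβ.to_subtype
    have ih' : ∀ (γ : Set.Iio β) (b : ι), MeasurableSet {ω | HasRank (R ω) b γ.1} :=
      fun γ b => ih γ.1 γ.2 (ctbl_mono hβ (le_of_lt γ.2)) b
    have key : {ω | HasRank (R ω) a β} =
        (⋂ b : ι, ({ω | R ω b a}ᶜ ∪ ⋃ γ : Set.Iio β, {ω | HasRank (R ω) b γ.1})) ∩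
        ⋂ γ : Set.Iio β, ⋃ b : ι, ({ω | R ω b a} ∩
          ⋃ δ : {δ : Set.Iio β // γ ≤ δ}, {ω | HasRank (R ω) b δ.1.1}) := by
      ext ω
      simp only [Set.mem_setOf_eq, Set.mem_inter_iff, Set.mem_iInter, Set.mem_union,
        Set.mem_compl_iff, Set.mem_iUnion]
      constructor
      · intro h
        have h' := hasRank_iff.1 h
        refine ⟨fun b => ?_, fun γ => ?_⟩
        · by_cases hb : R ω b a
          · obtain ⟨γ, hγ, hr⟩ := h'.1 b hb
            exact Or.inr ⟨⟨γ, hγ⟩, hr⟩
          · exact Or.inl hb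
        · obtain ⟨b, hb, δ, hδ, hr⟩ := h'.2 γ.1 γ.2
          have hlt : δ < β := hasRank_lt h hr hb
          exact ⟨b, hb, ⟨⟨⟨δ, hlt⟩, hδ⟩, hr⟩⟩
      · rintro ⟨h1, h2⟩
        refine hasRank_iff.2 ⟨fun b hb => ?_, fun γ hγ => ?_⟩
        · rcases h1 b with h | ⟨γ, hγ⟩
          · exact absurd hb h
          · exact ⟨γ.1, γ.2, hγ⟩
        · obtain ⟨b, hb, δ, hr⟩ := h2 ⟨γ, hγ⟩
          exact ⟨b, hb, δ.1.1, δ.2, hr⟩
    rw [key]
    refine MeasurableSet.inter (MeasurableSet.iInter fun b => ?_)
      (MeasurableSet.iInter fun γ => MeasurableSet.iUnion fun b => ?_)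
    · exact (hR b a).compl.union (MeasurableSet.iUnion fun γ => ih' γ b)
    · exact (hR b a).inter (MeasurableSet.iUnion fun δ => ih' δ.1 b)

/-- the special case of trees -/
theorem hasRank_child_meas {Ω : Type} [MeasurableSpace Ω] {T : Ω → Tree} (hT : Measurable T)
    {β : Ordinal.{0}} (hβ : Ctbl β) (s : List ℕ) :
    MeasurableSet {ω | HasRank (child (T ω)) s β} := by
  refine hasRank_meas (fun ω => child (T ω)) (fun a b => ?_) hβ s
  have h : ∀ t : List ℕ, MeasurableSet {ω | T ω t = true} := fun t =>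
    (measurableSet_singleton true).preimage ((measurable_pi_apply t).comp hT)
  have h2 : {ω | child (T ω) a b} =
      {ω | T ω a = true} ∩ ({ω | T ω b = true} ∩ {_ω | ∃ n, a = n :: b}) := rfl
  rw [h2]
  exact (h a).inter ((h b).inter (MeasurableSet.const _))

/-- the special case of linear orders -/
theorem hasRank_lt_meas {Ω : Type} [MeasurableSpace Ω] {L : Ω → LOrd} (hL : Measurable L)
    {β : Ordinal.{0}} (hβ : Ctbl β) (a : ℕ) :
    MeasurableSet {ω | HasRank (lt (L ω)) a β} := by
  refine hasRank_meas (fun ω => lt (L ω)) (fun a b => ?_) hβ a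
  have h : MeasurableSet {ω | L ω a b = true} :=
    (measurableSet_singleton true).preimage
      ((measurable_pi_apply b).comp ((measurable_pi_apply a).comp hL))
  have h2 : {ω | lt (L ω) a b} = {ω | L ω a b = true} ∩ {_ω | a ≠ b} := rfl
  rw [h2]
  exact h.inter (MeasurableSet.const _)

theorem acc_child_iff {ι : Type} {r : ι → ι → Prop} {a : ι} :
    ¬ Acc r a → ∃ b, r b a ∧ ¬ Acc r b := by
  intro h
  by_contra hc
  push Not at hc
  exact h (Acc.intro a hc)

theorem branch_acc {T : Tree} : Acc (child T) [] ↔ ¬ ∃ u, Br T u := by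
  constructor
  · rintro hacc ⟨u, hu⟩
    have key : ∀ s, Acc (child T) s → ∀ n, s = PiNat.res u n → False := by
      intro s hs
      induction hs with
      | intro s _ ih =>
        intro n hn
        refine ih (PiNat.res u (n + 1)) ⟨hu (n + 1), ?_, u n, ?_⟩ (n + 1) rfl
        · rw [hn]; exact hu n
        · rw [hn]; rfl
    exact key [] hacc 0 rfl
  · intro hno
    by_contra hacc
    apply hno
    have step : ∀ s : {s : List ℕ // ¬ Acc (child T) s}, ∃ n : ℕ,
        child T (n :: s.1) s.1 ∧ ¬ Acc (child T) (n :: s.1) := by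
      rintro ⟨s, hs⟩
      obtain ⟨b, hb, hb'⟩ := acc_child_iff hs
      obtain ⟨h1, h2, n, rfl⟩ := hb
      exact ⟨n, ⟨h1, h2, n, rfl⟩, hb'⟩
    choose f hf using step
    let g : ℕ → {s : List ℕ // ¬ Acc (child T) s} := fun n =>
      Nat.rec ⟨[], hacc⟩ (fun _ s => ⟨f s :: s.1, (hf s).2⟩) n
    have hg : ∀ n, (g (n + 1)).1 = f (g n) :: (g n).1 := fun n => rfl
    refine ⟨fun n => f (g n), fun n => ?_⟩
    have hres : ∀ n, PiNat.res (fun n => f (g n)) n = (g n).1 := by
      intro n
      induction n with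
      | zero => rfl
      | succ n ihn => rw [hg n, PiNat.res_succ, ihn]
    rw [hres n]
    exact (hf (g n)).1.2.1

end Pool.Agent.Lib.HFC
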