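import Pool.Agent.Lib.HFC.RankA

/-!
# Module HFC.SimL: simulations (MP_3091e6_lc)

PROOFS. `sim_acc`: prove `∀ a', Acc r' a' → ∀ a, S a a' = true → Acc r a` by induction on `Acc r' a'` (`Acc.intro`: for
`r b a` the simulation gives `b'` with `r' b' a'`, `S b b' = true`). `sim_not_acc`: `S b b' = decide (¬ Acc r' b')`
(`open Classical`): a non accessible `b'` has a non accessible predecessor. `sim_rank`: `S b b' = decide (∃ β γ,
HasRank r b β ∧ HasRank r' b' γ ∧ β ≤ γ)`; for `r c b` the rank `δ` of `c` is `< β ≤ γ`, so by `hasRank_iff` for `b'` there is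
`c'` with `r' c' b'` and rank `≥ δ`. `sim_total`: `Acc r a` or not, `Acc r' a'` or not, compare the ranks.
-/

set_option autoImplicit false

namespace Pool.Agent.Lib.HFC

variable {ι ι' : Type} {r : ι → ι → Prop} {r' : ι' → ι' → Prop}

namespace SimLAux

theorem exists_pred {a : ι} (h : ¬ Acc r a) : ∃ b, r b a ∧ ¬ Acc r b := by
  by_contra hcon
  push Not at hcon
  exact h (Acc.intro a hcon)

end SimLAux

theorem sim_acc {a : ι} {a' : ι'} {S : ι → ι' → Bool} (h : Sim r r' a a' S)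
    (ha : Acc r' a') : Acc r a := by
  obtain ⟨h0, h1⟩ := h
  have key : ∀ a', Acc r' a' → ∀ a, S a a' = true → Acc r a := by
    intro a' ha'
    induction ha' with
    | intro x hx ih =>
      intro a haS
      refine Acc.intro a fun b hb => ?_
      obtain ⟨c', hc', hS⟩ := h1 a x b haS hb
      exact ih c' hc' b hS
  exact key a' ha a h0

theorem sim_not_acc {a : ι} {a' : ι'} (h : ¬ Acc r' a') : ∃ S, Sim r r' a a' S := by
  classical
  refine ⟨fun _ b' => decide (¬ Acc r' b'), by simpa using h, fun b b' c hb _ => ?_⟩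
  have hb' : ¬ Acc r' b' := by simpa using hb
  obtain ⟨c', hc', hn⟩ := SimLAux.exists_pred hb'
  exact ⟨c', hc', by simpa using hn⟩

theorem sim_rank {a : ι} {a' : ι'} {β γ : Ordinal.{0}} (h : HasRank r a β)
    (h' : HasRank r' a' γ) (hle : β ≤ γ) : ∃ S, Sim r r' a a' S := by
  classical
  refine ⟨fun b b' => decide (∃ β γ, HasRank r b β ∧ HasRank r' b' γ ∧ β ≤ γ), ?_, ?_⟩
  · exact decide_eq_true ⟨β, γ, h, h', hle⟩
  · intro b b' c hb hc
    obtain ⟨β1, γ1, h1, h2, h3⟩ := of_decide_eq_true hb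
    obtain ⟨δ, hδ, hcδ⟩ := (hasRank_iff.1 h1).1 c hc
    obtain ⟨c', hc', ε, hε, hcε⟩ := (hasRank_iff.1 h2).2 δ (hδ.trans_le h3)
    exact ⟨c', hc', decide_eq_true ⟨δ, ε, hcδ, hcε, hε⟩⟩

theorem sim_total (a : ι) (a' : ι') :
    (∃ S, Sim r r' a a' S) ∨ ∃ S, Sim r' r a' a S := by
  by_cases h1 : Acc r' a'
  · by_cases h2 : Acc r a
    · obtain ⟨β, hβ⟩ := hasRank_of_acc h2
      obtain ⟨γ, hγ⟩ := hasRank_of_acc h1
      rcases le_total β γ with h | h
      · exact Or.inl (sim_rank hβ hγ h)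
      · exact Or.inr (sim_rank hγ hβ h)
    · exact Or.inr (sim_not_acc h2)
  · exact Or.inl (sim_not_acc h1)

end Pool.Agent.Lib.HFC
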