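import Pool.Agent.Lib.HFC.FP
import Pool.Agent.Lib.HFC.RankM
import Pool.Agent.Lib.HFC.SimL

/-!
# Module HFC.Bd: boundedness (MP_3091e6_lc)

PROOF. Suppose that `Acc (lt p.1) p.2` for all `p ∈ S`. Let `W = {T : Tree | ∃ p S', p ∈ S ∧ Sim (child T) (lt p.1) [] p.2 S'}`.
If `T ∈ W` then `Acc (child T) []` (`sim_acc`). If `Acc (child T) []` then `[]` has a rank `β`, countable (`hasRank_ctbl`), `S` has an
element `p` with `HasRank (lt p.1) p.2 β`, and `sim_rank` gives `T ∈ W`. So `T ∈ W ↔ Acc (child T) []`. `W` is analytic: `an_proj`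
along `(LOrd × ℕ) × (List ℕ → ℕ → Bool)` of the intersection of the preimage of `S` and the measurable set
`{Sim (child T) (lt p.1) [] p.2 S'}` (`sim_meas`). Apply `fixed_point` with `Θ = Unit` (or `ℕ`) to `{q | q.2 ∈ W}`: a tree `V` with
`(∃ u, Br V u) ↔ V ∈ W ↔ Acc (child V) [] ↔ ¬ ∃ u, Br V u` (`branch_acc`), a contradiction.
`sim_meas`: `Sim` is a countable intersection of Boolean combinations of coordinates; the general form: for measurable
families of relations `R ω`, `R' ω` on countable types, a measurable `S : Ω → ι → ι' → Bool` and measurable `a`, `a'` with values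
in countable types.
-/

set_option autoImplicit false

namespace Pool.Agent.Lib.HFC

theorem sim_meas {Ω ι ι' : Type} [MeasurableSpace Ω] [Countable ι] [Countable ι']
    (R : Ω → ι → ι → Prop) (hR : ∀ a b, MeasurableSet {ω | R ω a b})
    (R' : Ω → ι' → ι' → Prop) (hR' : ∀ a b, MeasurableSet {ω | R' ω a b})
    (a : Ω → ι) (ha : ∀ i, MeasurableSet {ω | a ω = i})
    (a' : Ω → ι') (ha' : ∀ i, MeasurableSet {ω | a' ω = i})
    (S : Ω → ι → ι' → Bool) (hS : ∀ i j, MeasurableSet {ω | S ω i j = true}) :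
    MeasurableSet {ω | Sim (R ω) (R' ω) (a ω) (a' ω) (S ω)} := by
  have hR1 : ∀ b c, Measurable (fun ω => R ω b c) := fun b c => measurableSet_setOfPred.1 (hR b c)
  have hR2 : ∀ b c, Measurable (fun ω => R' ω b c) := fun b c => measurableSet_setOfPred.1 (hR' b c)
  have ha1 : ∀ i, Measurable (fun ω => a ω = i) := fun i => measurableSet_setOfPred.1 (ha i)
  have ha2 : ∀ i, Measurable (fun ω => a' ω = i) := fun i => measurableSet_setOfPred.1 (ha' i)
  have hS1 : ∀ i j, Measurable (fun ω => S ω i j = true) := fun i j =>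
    measurableSet_setOfPred.1 (hS i j)
  rw [measurableSet_setOfPred]
  refine Measurable.and ?_ ?_
  · have h : (fun ω => S ω (a ω) (a' ω) = true) =
        fun ω => ∃ i j, a ω = i ∧ a' ω = j ∧ S ω i j = true := by
      funext ω
      simp
    rw [h]
    exact Measurable.exists fun i => Measurable.exists fun j => (ha1 i).and ((ha2 j).and (hS1 i j))
  · exact Measurable.forall fun b => Measurable.forall fun b' => Measurable.forall fun c =>
      (hS1 b b').imp ((hR1 c b).imp (Measurable.exists fun c' => (hR2 c' b').and (hS1 c c')))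

namespace BdAux

/-- the trees with a simulation in an element of `S` -/
def W (S : Set (LOrd × ℕ)) : Set Tree :=
  {T | ∃ y : (LOrd × ℕ) × (List ℕ → ℕ → Bool), (T, y) ∈
    {q : Tree × ((LOrd × ℕ) × (List ℕ → ℕ → Bool)) |
      q.2.1 ∈ S ∧ Sim (child q.1) (lt q.2.1.1) [] q.2.1.2 q.2.2}}

theorem an_W {S : Set (LOrd × ℕ)} (h : An S) : An (W S) := by
  refine an_proj ?_
  refine an_inter (A := {q : Tree × ((LOrd × ℕ) × (List ℕ → ℕ → Bool)) | q.2.1 ∈ S})
    (an_preimage h (f := fun q : Tree × ((LOrd × ℕ) × (List ℕ → ℕ → Bool)) => q.2.1)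
      (measurable_fst.comp measurable_snd)) (an_of_meas ?_)
  refine sim_meas (fun q : Tree × ((LOrd × ℕ) × (List ℕ → ℕ → Bool)) => child q.1) ?_
    (fun q => lt q.2.1.1) ?_ (fun _ => []) ?_ (fun q => q.2.1.2) ?_ (fun q => q.2.2) ?_
  · intro s' s
    unfold child
    have h1 : ∀ t : List ℕ, MeasurableSet {q : Tree × ((LOrd × ℕ) × (List ℕ → ℕ → Bool)) |
        q.1 t = true} := by
      intro t
      have h2 : Measurable (fun q : Tree × ((LOrd × ℕ) × (List ℕ → ℕ → Bool)) => q.1 t) :=
        (measurable_pi_apply t).comp measurable_fst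
      exact h2 (measurableSet_singleton true)
    exact (h1 s').inter ((h1 s).inter (MeasurableSet.const _))
  · intro b c
    unfold lt
    have h1 : MeasurableSet {q : Tree × ((LOrd × ℕ) × (List ℕ → ℕ → Bool)) |
        q.2.1.1 b c = true} := by
      have h2 : Measurable (fun q : Tree × ((LOrd × ℕ) × (List ℕ → ℕ → Bool)) => q.2.1.1 b c) :=
        (measurable_pi_apply c).comp ((measurable_pi_apply b).comp
          (measurable_fst.comp (measurable_fst.comp measurable_snd)))
      exact h2 (measurableSet_singleton true)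
    exact h1.inter (MeasurableSet.const _)
  · intro i
    exact MeasurableSet.const _
  · intro i
    exact (measurable_snd.comp (measurable_fst.comp measurable_snd)) (measurableSet_singleton i)
  · intro i j
    have h2 : Measurable (fun q : Tree × ((LOrd × ℕ) × (List ℕ → ℕ → Bool)) => q.2.2 i j) :=
      (measurable_pi_apply j).comp ((measurable_pi_apply i).comp
        (measurable_snd.comp measurable_snd))
    exact h2 (measurableSet_singleton true)

end BdAux

open BdAux in
theorem bd {S : Set (LOrd × ℕ)} (h : An S)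
    (hr : ∀ β, Ctbl β → ∃ p ∈ S, HasRank (lt p.1) p.2 β) : ∃ p ∈ S, ¬ Acc (lt p.1) p.2 := by
  by_contra hc
  push Not at hc
  obtain ⟨V, -, -, hV⟩ := fixed_point (Θ := Unit) (X := Prod.snd ⁻¹' (W S))
    (an_preimage (an_W h) measurable_snd)
  have h1 := hV ()
  have h2 : V () ∈ W S ↔ ¬ ∃ u, Br (V ()) u := by
    rw [← branch_acc]
    constructor
    · rintro ⟨⟨p, S'⟩, hp, hS⟩
      exact sim_acc hS (hc p hp)
    · intro hacc
      obtain ⟨β, hβ⟩ := hasRank_of_acc hacc
      obtain ⟨p, hp, hpr⟩ := hr β (hasRank_ctbl hβ)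
      obtain ⟨S', hS'⟩ := sim_rank hβ hpr le_rfl
      exact ⟨(p, S'), hp, hS'⟩
  exact iff_not_self (h1.trans h2)

end Pool.Agent.Lib.HFC
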