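import Pool.Agent.Lib.HFC.ShoenB

/-!
# Module HFC.Shoen: the Shoenfield trees (MP_3091e6_lc)

PROOF. `A = {y | ∃ z, (y, z) ∉ C}`, `C` analytic; `K` from `tree_rep2`; `(∃ u, Br (TT K y z) u) ↔ (y, z) ∈ C` (`PiNat.res_length`).
`R = RR K`. The first three parts: `rr_meas`, `rr_closed`, `rr_nil`.
`y ∈ A`: `z` with `(y, z) ∉ C`, so `Acc (child (TT K y z)) []` (`branch_acc`), with rank `ρ`, countable; `α = ρ + 1`. If some pair
`(L0, a0)` with `IsLO L0`, `L0 a0 a0`, `HasRank (lt L0) a0 α` exists, let `β` be a countable ordinal larger than all the ranks of the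
nodes of `RR K y L0 a0` (`ctbl_sup` over `List ℕ`, with `f s` the rank of `s` if it exists and `0` otherwise; `hasRank_ctbl`);
otherwise `β = 0`. For `(L, a)` as in the statement: a branch exists by `rr_branch`: `z` and `r t` = an element `b` with
`lt L b a` of the rank of `t` (`TT K y z` is closed by the closure property of `K`, so every `t` in it is `[]` or below `[]` and has
a rank `≤ ρ < α`; `lo_below`; `r t' < r t` for a child `t'` by `lo_rank_lt_iff`). No node `s` has rank `β`: if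
`RR K y L a s = true`, by `rr_bisim` a node of `RR K y L0 a0` has rank `β`. If `RR K y L a s = false`, then `s` has no children and rank
`0`, but `β > 0` because the root of `RR K y L0 a0`... (choose `β > 0`: `β` is larger than the values `f s ≥ 0`; in the case
without `(L0, a0)` there is nothing to prove).
`y ∉ A`, `γ` countable: if a pair `(L0, a0)` with `a0` in the domain, of rank `γ` exists (it does by `code (ctbl_succ hγ)`), the tree
`RR K y L0 a0` has no branch by `rr_branch`: `TT K y z` has a branch `u` (as `(y, z) ∈ C`), and `r (res u n)` would be an infinite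
descending sequence below the accessible `a0` (`Acc` induction). So the root is accessible (`branch_acc`) with a rank `β`,
countable by `hasRank_ctbl`. For the other pairs use `rr_bisim_root`.
-/

set_option autoImplicit false

namespace Pool.Agent.Lib.HFC

/-- the properties of the Shoenfield trees of the set `A` -/
structure Sho (A : Set NN) (R : NN → LOrd → ℕ → Tree) : Prop where
  meas : ∀ s, MeasurableSet {p : NN × LOrd × ℕ | R p.1 p.2.1 p.2.2 s = true}
  closed : ∀ y L a, Closed (R y L a)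
  mem : ∀ y ∈ A, ∃ α β, Ctbl α ∧ Ctbl β ∧ ∀ L a, IsLO L → L a a = true →
    HasRank (lt L) a α → (∃ u, Br (R y L a) u) ∧ ∀ s, ¬ HasRank (child (R y L a)) s β
  not_mem : ∀ y, y ∉ A → ∀ γ, Ctbl γ → ∃ β, Ctbl β ∧ ∀ L a, IsLO L → L a a = true →
    HasRank (lt L) a γ → HasRank (child (R y L a)) [] β

namespace ShoenAux

theorem no_desc {ι : Type} {r : ι → ι → Prop} {a : ι} (h : Acc r a) :
    ∀ f : ℕ → ι, r (f 0) a → (∀ n, r (f (n + 1)) (f n)) → False := by
  induction h with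
  | intro a _ ih =>
    intro f h0 hf
    exact ih (f 0) h0 (fun n => f (n + 1)) (hf 0) (fun n => hf (n + 1))

theorem TT_closed {K : List ℕ → List ℕ → Tree}
    (hK : ∀ a b n p q s, K (a :: p) (b :: q) (n :: s) = true → K p q s = true) (y z : NN) :
    Closed (TT K y z) := by
  intro n s h
  unfold TT at h ⊢
  rw [List.length_cons, PiNat.res_succ, PiNat.res_succ] at h
  exact hK _ _ _ _ _ _ h

theorem TT_br {K : List ℕ → List ℕ → Tree} {C : Set (NN × NN)}
    (hKC : ∀ y z : NN, (∃ u : NN, ∀ n, K (PiNat.res y n) (PiNat.res z n) (PiNat.res u n) = true) ↔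
        (y, z) ∈ C) (y z : NN) : (∃ u, Br (TT K y z) u) ↔ (y, z) ∈ C := by
  rw [← hKC]
  unfold Br TT
  simp only [PiNat.res_length]

theorem rank_le {T : Tree} (hT : Closed T) {ρ : Ordinal.{0}} (hρ : HasRank (child T) [] ρ) :
    ∀ t, T t = true → ∃ γ ≤ ρ, HasRank (child T) t γ := by
  intro t
  induction t with
  | nil => exact fun _ => ⟨ρ, le_rfl, hρ⟩
  | cons n s ih =>
    intro h
    have hs := hT n s h
    obtain ⟨γ, hγ, hr⟩ := ih hs
    obtain ⟨γ', hγ', hr'⟩ := (hasRank_iff.mp hr).1 (n :: s) ⟨h, hs, n, rfl⟩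
    exact ⟨γ', hγ'.le.trans hγ, hr'⟩

theorem ex_branch {T : Tree} (hT : Closed T) {ρ : Ordinal.{0}} (hρ : HasRank (child T) [] ρ)
    {L : LOrd} (hL : IsLO L) {a : ℕ} (hr : HasRank (lt L) a (ρ + 1)) :
    ∃ r : List ℕ → ℕ, (∀ t, T t = true → lt L (r t) a) ∧
        ∀ t' t, child T t' t → lt L (r t') (r t) := by
  classical
  have key : ∀ t, ∃ b, T t = true → lt L b a ∧ ∃ γ, HasRank (child T) t γ ∧
      HasRank (lt L) b γ := by
    intro t
    by_cases h : T t = true
    · obtain ⟨γ, hγ, h1⟩ := rank_le hT hρ t h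
      obtain ⟨b, hb, h2⟩ := lo_below hL hr (Order.lt_add_one_iff.mpr hγ)
      exact ⟨b, fun _ => ⟨hb, γ, h1, h2⟩⟩
    · exact ⟨0, fun h' => absurd h' h⟩
  choose r h using key
  refine ⟨r, fun t ht => (h t ht).1, ?_⟩
  intro t' t hc
  obtain ⟨h1, γ', h2, h3⟩ := h t' hc.1
  obtain ⟨h4, γ, h5, h6⟩ := h t hc.2.1
  exact (lo_rank_lt_iff hL (hL.left _ _ (le_of_lt' h1)) (hL.left _ _ (le_of_lt' h4)) h3 h6).mpr
    (hasRank_lt h5 h2 hc)

theorem ctbl_zero : Ctbl (0 : Ordinal.{0}) := by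
  unfold Ctbl
  have : Set.Iio (0 : Ordinal.{0}) = ∅ := by
    ext x
    simp
  rw [this]
  exact Set.countable_empty

theorem ex_beta (T : Tree) : ∃ β, Ctbl β ∧ 0 < β ∧ ∀ s, ¬ HasRank (child T) s β := by
  classical
  have key : ∀ s, ∃ γ, Ctbl γ ∧ ∀ δ, HasRank (child T) s δ → δ = γ := by
    intro s
    by_cases h : ∃ δ, HasRank (child T) s δ
    · obtain ⟨δ, hδ⟩ := h
      exact ⟨δ, hasRank_ctbl hδ, fun δ' hδ' => hasRank_unique hδ' hδ⟩
    · exact ⟨0, ctbl_zero, fun δ hδ => absurd ⟨δ, hδ⟩ h⟩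
  choose f hf hf' using key
  obtain ⟨β, hβ, hfβ⟩ := ctbl_sup f hf
  refine ⟨β, hβ, lt_of_le_of_lt zero_le (hfβ []), ?_⟩
  intro s hs
  exact absurd (hf' s β hs) (hfβ s).ne'

end ShoenAux

theorem shoenfield {A : Set NN} (hA : Sigma12 A) : ∃ R : NN → LOrd → ℕ → Tree, Sho A R := by
  classical
  obtain ⟨C, hC, rfl⟩ := hA
  obtain ⟨K, hK, hKC⟩ := tree_rep2 hC
  refine ⟨RR K, ⟨rr_meas K, rr_closed K, ?_, ?_⟩⟩
  · rintro y ⟨z, hz⟩
    have hT := ShoenAux.TT_closed hK y z
    have hacc : Acc (child (TT K y z)) [] := by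
      rw [branch_acc, ShoenAux.TT_br hKC]
      exact hz
    obtain ⟨ρ, hρ⟩ := hasRank_of_acc hacc
    have hbr : ∀ L a, IsLO L → HasRank (lt L) a (ρ + 1) → ∃ u, Br (RR K y L a) u := by
      intro L a hL hr
      rw [rr_branch]
      obtain ⟨r, h1, h2⟩ := ShoenAux.ex_branch hT hρ hL hr
      exact ⟨z, r, h1, h2⟩
    by_cases hP : ∃ L0 a0, IsLO L0 ∧ L0 a0 a0 = true ∧ HasRank (lt L0) a0 (ρ + 1)
    · obtain ⟨L0, a0, hL0, ha0, hr0⟩ := hP
      obtain ⟨β, hβ, hβ0, hno⟩ := ShoenAux.ex_beta (RR K y L0 a0)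
      refine ⟨ρ + 1, β, ctbl_succ (hasRank_ctbl hρ), hβ, ?_⟩
      intro L a hL ha hr
      refine ⟨hbr L a hL hr, ?_⟩
      intro s hs
      by_cases hs' : RR K y L a s = true
      · obtain ⟨s', -, h2⟩ := rr_bisim K y hL hL0 ha ha0 hr hr0 hs' hs
        exact hno s' h2
      · obtain ⟨b, hb, -⟩ := (hasRank_iff.mp hs).2 0 hβ0
        exact hs' hb.2.1
    · refine ⟨ρ + 1, 0, ctbl_succ (hasRank_ctbl hρ), ShoenAux.ctbl_zero, ?_⟩
      intro L a hL ha hr
      exact absurd ⟨L, a, hL, ha, hr⟩ hP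
  · intro y hy γ hγ
    obtain ⟨L0, hL0, -, h0⟩ := code (ctbl_succ hγ)
    obtain ⟨a0, ha0, hr0⟩ := h0 γ (Order.lt_add_one_iff.mpr le_rfl)
    have hacc : Acc (child (RR K y L0 a0)) [] := by
      rw [branch_acc, rr_branch]
      rintro ⟨z, r, h1, h2⟩
      have hz : (y, z) ∈ C := by
        by_contra hz
        exact hy ⟨z, hz⟩
      rw [← ShoenAux.TT_br hKC] at hz
      obtain ⟨u, hu⟩ := hz
      refine ShoenAux.no_desc (hasRank_acc hr0) (fun n => r (PiNat.res u n)) (h1 _ (hu 0)) ?_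
      intro n
      refine h2 _ _ ⟨hu (n + 1), hu n, u n, ?_⟩
      rw [PiNat.res_succ]
    obtain ⟨β, hβ⟩ := hasRank_of_acc hacc
    refine ⟨β, hasRank_ctbl hβ, ?_⟩
    intro L a hL ha hr
    exact rr_bisim_root K y hL0 hL ha0 ha hr0 hr hβ

end Pool.Agent.Lib.HFC
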