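import Pool.Agent.Lib.HFC.Frame
import Pool.Agent.Lib.HFC.Shoen

/-!
# Module HFC.Beta: the case `y ∈ A` (MP_3091e6_lc)

PROOF. Let `α, β` be the ordinals of `Sho.mem` for `y`. `S = {q | Val (R y) V π q}` is measurable (`val_meas`, section at `y`),
and invariant under `FF E` (`hinv`). Let `S1 = {q ∈ S | ∀ b, lt q.1.1 b q.1.2.1 → ∃ γ < α, HasRank (lt q.1.1) b γ}`,
`S2 = S \ S1`, `S2a = {q ∈ S2 | ∃ b, lt q.1.1 b q.1.2.1 ∧ HasRank (lt q.1.1) b α}`, `S2b = S2 \ S2a`: measurable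
(`hasRank_lt_meas` and countable unions over `γ ∈ Set.Iio α`), and they depend only on `q.1`. By `hfon_union` it is enough
to treat the three parts.
`S1`: `hfon_of_noFail` with `c q = q.1.2.2.2`. Let `qs` be a sequence in `S1` in one class of `FF E`, so `qs j = (θ, w, ds j)`. As
`qs 0` is valid, `Op (V θ) θ.1 θ.2.1 w`; every `b` with `lt θ.1 b θ.2.1` is accessible, so `V θ` has no branch `u`: `w (res u n)`,
would be an infinite descending sequence (prove `∀ b, Acc (lt θ.1) b → ∀ n, w (PiNat.res u n) ≠ b` by `Acc` induction).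
By `hVX`, `(θ, V θ) ∉ XX E π A`, and so `Fail` is impossible (`w`, `ds` satisfy all the other conditions).
`S2b`: `hfon_pull` along `q ↦ q.2.2` to `h1 α`: `q ∈ S2b`, `L = q.1.1 = π q.2.2`, `a1 = q.1.2.1`; as `q ∉ S1` there is `b`, `lt L b a1`, without
a rank `γ < α`. It is not accessible: otherwise it has a rank `δ ≥ α`; `δ = α` contradicts `q ∉ S2a`, `δ > α` gives (`lo_below`)
`c` with `lt L c b` of rank `α`, `lt L c a1`, the same. `Ill α L` by `b`. `Short α L`: if `c` has rank `α`, then `lt L c b` or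
`L b c = true` (`lo_tri`); in the second case `b` is accessible (`lo_acc_le`); in the first case `lt L c a1`, `q ∈ S2a`.
`S2a`: `hfon_pull` to `h1 β`: there is `b`, `lt L b a1`, of rank `α`; by `Ok`, `Full L (R y L b) (κ b)`; `Sho.mem` gives a branch of
`R y L b` and no node of rank `β`; `full_ill` gives `Short β L ∧ Ill β L`.
-/

set_option autoImplicit false

namespace Pool.Agent.Lib.HFC

namespace BetaAux

private theorem lt_meas (b : ℕ) : MeasurableSet {θ : Par | lt θ.1 b θ.2.1} := by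
  have h : {θ : Par | lt θ.1 b θ.2.1} =
      ⋃ a : ℕ, ({θ : Par | θ.2.1 = a} ∩ {θ : Par | θ.1 b a = true}) ∩ {_θ | b ≠ a} := by
    ext θ
    simp only [Set.mem_setOf_eq, Set.mem_iUnion, Set.mem_inter_iff, lt]
    constructor
    · rintro ⟨h1, h2⟩
      exact ⟨θ.2.1, ⟨rfl, h1⟩, h2⟩
    · rintro ⟨a, ⟨h1, h2⟩, h3⟩
      subst h1
      exact ⟨h2, h3⟩
  rw [h]
  refine MeasurableSet.iUnion fun a => ((?_ : MeasurableSet _).inter ?_).inter
    (MeasurableSet.const _)
  · exact (measurableSet_singleton a).preimage (measurable_fst.comp measurable_snd)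
  · exact (measurableSet_singleton true).preimage
      ((measurable_pi_apply a).comp ((measurable_pi_apply b).comp measurable_fst))

private theorem rank_meas {α : Ordinal.{0}} (hα : Ctbl α) (b : ℕ) :
    MeasurableSet {θ : Par | HasRank (lt θ.1) b α} :=
  hasRank_lt_meas (L := fun θ : Par => θ.1) measurable_fst hα b

private def P1 (α : Ordinal.{0}) (θ : Par) : Prop :=
  ∀ b, lt θ.1 b θ.2.1 → ∃ γ < α, HasRank (lt θ.1) b γ

private def P2 (α : Ordinal.{0}) (θ : Par) : Prop :=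
  ∃ b, lt θ.1 b θ.2.1 ∧ HasRank (lt θ.1) b α

private theorem p1_meas {α : Ordinal.{0}} (hα : Ctbl α) : MeasurableSet {θ | P1 α θ} := by
  have h : {θ : Par | P1 α θ} = ⋂ b : ℕ, ({θ : Par | lt θ.1 b θ.2.1}ᶜ ∪
      ⋃ γ : Set.Iio α, {θ : Par | HasRank (lt θ.1) b γ.1}) := by
    ext θ
    simp only [Set.mem_setOf_eq, P1, Set.mem_iInter, Set.mem_union, Set.mem_compl_iff,
      Set.mem_iUnion, Subtype.exists, Set.mem_Iio, exists_prop]
    refine forall_congr' fun b => ?_
    rw [imp_iff_not_or]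
  rw [h]
  have : Countable (Set.Iio α) := hα.to_subtype
  refine MeasurableSet.iInter fun b => (lt_meas b).compl.union (MeasurableSet.iUnion fun γ => ?_)
  exact rank_meas (ctbl_mono hα (le_of_lt γ.2)) b

private theorem p2_meas {α : Ordinal.{0}} (hα : Ctbl α) : MeasurableSet {θ | P2 α θ} := by
  have h : {θ : Par | P2 α θ} = ⋃ b : ℕ, ({θ : Par | lt θ.1 b θ.2.1} ∩
      {θ : Par | HasRank (lt θ.1) b α}) := by
    ext θ
    simp only [Set.mem_setOf_eq, P2, Set.mem_iUnion, Set.mem_inter_iff]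
  rw [h]
  exact MeasurableSet.iUnion fun b => (lt_meas b).inter (rank_meas hα b)

private theorem no_desc {ι : Type} {r : ι → ι → Prop} {a : ι} (h : Acc r a) :
    ∀ f : ℕ → ι, r (f 0) a → (∀ n, r (f (n + 1)) (f n)) → False := by
  induction h with
  | intro a _ ih =>
    intro f h0 hf
    exact ih (f 0) h0 (fun n => f (n + 1)) (hf 0) (fun n => hf (n + 1))

/-- no branch, if everything below the bound is accessible -/
private theorem no_br {α : Ordinal.{0}} {θ : Par} (h : P1 α θ) {T : Tree} {w : List ℕ → ℕ}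
    (hw : Op T θ.1 θ.2.1 w) : ¬ ∃ u, Br T u := by
  rintro ⟨u, hu⟩
  have h0 : lt θ.1 (w (PiNat.res u 0)) θ.2.1 := hw.1 _ (hu 0)
  obtain ⟨γ, -, hγ⟩ := h _ h0
  have hs : ∀ n, lt θ.1 (w (PiNat.res u (n + 1))) (w (PiNat.res u n)) := fun n =>
    hw.2 _ _ ⟨hu (n + 1), hu n, u n, PiNat.res_succ u n⟩
  exact no_desc (hasRank_acc hγ) (fun n => w (PiNat.res u (n + 1))) (hs 0) fun n => hs (n + 1)

private theorem short_ill {α : Ordinal.{0}} {θ : Par} (hL : IsLO θ.1) (h1 : ¬ P1 α θ)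
    (h2 : ¬ P2 α θ) : Short α θ.1 ∧ Ill α θ.1 := by
  unfold P1 at h1
  push Not at h1
  obtain ⟨b, hb, hr⟩ := h1
  have hbb : θ.1 b b = true := hL.left _ _ hb.1
  have hacc : ¬ Acc (lt θ.1) b := by
    intro hacc
    obtain ⟨δ, hδ⟩ := hasRank_of_acc hacc
    rcases lt_trichotomy δ α with h | h | h
    · exact hr δ h hδ
    · exact h2 ⟨b, hb, h ▸ hδ⟩
    · obtain ⟨c, hc, hcr⟩ := lo_below hL hδ h
      exact h2 ⟨c, lt_trans' hL hc hb, hcr⟩
  refine ⟨fun c hcc hcr => ?_, b, hbb, hr⟩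
  rcases lo_tri hL hcc hbb with h | h
  · exact h2 ⟨c, lt_trans' hL h hb, hcr⟩
  · exact hacc (lo_acc_le h (hasRank_acc hcr))

end BetaAux

open BetaAux

theorem beta {D : Type} [MeasurableSpace D] [StandardBorelSpace D] {A : Set NN}
    {R : NN → LOrd → ℕ → Tree} (hR : Sho A R) {y : NN} (hy : y ∈ A) {E : D → D → Prop}
    (hE : CBER E) {π : D → LOrd} (hπ : Measurable π) (hinv : ∀ d d', E d d' → π d = π d')
    (h1 : ∀ β, Ctbl β → HFOn E {d | Short β (π d) ∧ Ill β (π d)})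
    {U : Set ((NN × NN) × (Pt D × Pt D × ℕ) × Bool)} (hU : Uni U) {V : Par → Tree}
    (hV : Measurable V) (hVX : ∀ θ, (∃ u, Br (V θ) u) ↔ (θ, V θ) ∈ XX E π U) :
    HFOn (FF E) {q | Val (R y) V π q} := by
  have hF : CBER (FF E) := ff_cber hE
  obtain ⟨α, β, hα, hβ, hmem⟩ := hR.mem y hy
  have hS : MeasurableSet {q : Pt D | Val (R y) V π q} :=
    (val_meas hR.meas hV hπ).preimage (measurable_const.prodMk measurable_id :
      Measurable fun q : Pt D => (y, q))
  have m1 : MeasurableSet {q : Pt D | P1 α q.1} := (p1_meas hα).preimage measurable_fst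
  have m2 : MeasurableSet {q : Pt D | P2 α q.1} := (p2_meas hα).preimage measurable_fst
  have e : {q : Pt D | Val (R y) V π q} =
      ({q : Pt D | Val (R y) V π q} ∩ {q | P1 α q.1}) ∪
      ((({q : Pt D | Val (R y) V π q} ∩ {q | P1 α q.1}ᶜ) ∩ {q | P2 α q.1}) ∪
      (({q : Pt D | Val (R y) V π q} ∩ {q | P1 α q.1}ᶜ) ∩ {q | P2 α q.1}ᶜ)) := by
    ext q
    simp only [Set.mem_union, Set.mem_inter_iff, Set.mem_compl_iff, Set.mem_setOf_eq]
    tauto
  have hpull : ∀ {S' : Set D} {S : Set (Pt D)}, HFOn E S' → MeasurableSet S →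
      (∀ q ∈ S, q.2.2 ∈ S') → HFOn (FF E) S := by
    intro S' S h hS hh
    refine hfon_pull (f := fun q : Pt D => q.2.2) h hF.equiv hF.meas hS
      (measurable_snd.comp measurable_snd) hh (fun x y _ _ hxy => hxy.2.2) ?_
    intro x y _ _ hxy he
    exact Prod.ext hxy.1 (Prod.ext hxy.2.1 he)
  rw [e]
  refine hfon_union ?_ (hfon_union ?_ ?_ hF.equiv ?_) hF.equiv ?_
  · -- the part `S1`
    refine hfon_of_noFail hU hF (hS.inter m1) (c := fun q : Pt D => q.1.2.2.2) ?_ ?_ ?_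
    · exact measurable_snd.comp (measurable_snd.comp (measurable_snd.comp measurable_fst))
    · intro x y hxy
      have := hxy.1
      change x.1.2.2.2 = y.1.2.2.2
      rw [this]
    · intro qs hqs hrel hfail
      have hq : qs = fun j => ((qs 0).1, (qs 0).2.1, (qs j).2.2) := by
        funext j
        exact Prod.ext (hrel j 0).1 (Prod.ext (hrel j 0).2.1 rfl)
      have hop : Op (V (qs 0).1) (qs 0).1.1 (qs 0).1.2.1 (qs 0).2.1 := (hqs 0).1.2.1
      refine no_br (hqs 0).2 hop ((hVX (qs 0).1).2 ?_)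
      refine ⟨(qs 0).2.1, fun j => (qs j).2.2, hop, fun j => ?_, fun i j => (hrel i j).2.2, ?_⟩
      · have h3 : π (qs j).2.2 = (qs j).1.1 := (hqs j).1.2.2
        change π (qs j).2.2 = (qs 0).1.1
        rw [h3, (hrel j 0).1]
      · change Fail U (qs 0).1.2.2.2 (fun j => ((qs 0).1, (qs 0).2.1, (qs j).2.2))
        rw [← hq]
        exact hfail
  · -- the part `S2a`
    refine hpull (h1 β hβ) ((hS.inter m1.compl).inter m2) ?_
    rintro q ⟨⟨hval, -⟩, b, hb, hbr⟩
    have hL : IsLO q.1.1 := hval.1.1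
    obtain ⟨hbr', hno⟩ := hmem q.1.1 b hL (hL.left _ _ hb.1) hbr
    have := full_ill hL (hval.1.2.2 b hb) hbr' hno
    change Short β (π q.2.2) ∧ Ill β (π q.2.2)
    rw [hval.2.2]
    exact this
  · -- the part `S2b`
    refine hpull (h1 α hα) ((hS.inter m1.compl).inter m2.compl) ?_
    rintro q ⟨⟨hval, hq1⟩, hq2⟩
    have := short_ill hval.1.1 hq1 hq2
    change Short α (π q.2.2) ∧ Ill α (π q.2.2)
    rw [hval.2.2]
    exact this
  · rintro x y ⟨-, hx⟩ ⟨-, hy'⟩ hxy
    apply hy'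
    change P2 α y.1
    rw [← hxy.1]
    exact hx
  · rintro x y ⟨-, hx⟩ hy' hxy
    have hy1 : ¬ P1 α y.1 := by
      rcases hy' with hy' | hy'
      · exact hy'.1.2
      · exact hy'.1.2
    apply hy1
    rw [← hxy.1]
    exact hx

end Pool.Agent.Lib.HFC
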