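import Pool.Agent.Lib.HFC.SgA

/-!
# Module HFC.CCs: finite levels of the hierarchy of C-sets (MP_3091e6_lc)

`CC 0` are the Borel sets, `CC (m + 1)` is the σ-algebra generated by the results of the Souslin operation applied to
sets in `CC m`. (`CC 1` is the σ-algebra generated by the analytic sets.)
-/

set_option autoImplicit false

namespace Pool.Agent.Lib.HFC

/-- the result of the Souslin operation -/
def Sou {Z : Type} (P : List ℕ → Set Z) : Set Z := {z | ∃ u : NN, ∀ n, z ∈ P (PiNat.res u n)}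

/-- the σ-algebras of the finite levels of the hierarchy of C-sets -/
@[reducible] def CC (Z : Type) [m0 : MeasurableSpace Z] : ℕ → MeasurableSpace Z
  | 0 => m0
  | m + 1 => MeasurableSpace.generateFrom
      {S | ∃ P : List ℕ → Set Z, (∀ s, @MeasurableSet Z (CC Z m) (P s)) ∧ S = Sou P}

theorem cc_mono (Z : Type) [MeasurableSpace Z] (m : ℕ) : CC Z m ≤ CC Z (m + 1) := by
  intro B hB
  refine MeasurableSpace.measurableSet_generateFrom ⟨fun _ => B, fun _ => hB, ?_⟩
  ext z
  exact ⟨fun h => ⟨fun _ => 0, fun _ => h⟩, fun ⟨_, h⟩ => h 0⟩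

theorem cc_borel {Z : Type} [MeasurableSpace Z] (m : ℕ) {B : Set Z} (hB : MeasurableSet B) :
    @MeasurableSet Z (CC Z m) B := by
  induction m with
  | zero => exact hB
  | succ m ih => exact cc_mono Z m B ih

/-- preimages -/
theorem cc_preimage {Z Z' : Type} [MeasurableSpace Z] [MeasurableSpace Z'] {f : Z' → Z}
    (hf : Measurable f) (m : ℕ) : ∀ B : Set Z, @MeasurableSet Z (CC Z m) B →
      @MeasurableSet Z' (CC Z' m) (f ⁻¹' B) := by
  induction m with
  | zero =>
    intro B hB
    exact hf hB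
  | succ m ih =>
    intro B hB
    induction B, hB using MeasurableSpace.generateFrom_induction with
    | hC t ht _ =>
      obtain ⟨P, hP, rfl⟩ := ht
      exact MeasurableSpace.measurableSet_generateFrom
        ⟨fun s => f ⁻¹' P s, fun s => ih _ (hP s), rfl⟩
    | empty =>
      rw [Set.preimage_empty]
      exact @MeasurableSet.empty _ (CC Z' (m + 1))
    | compl t _ h =>
      exact @MeasurableSet.compl _ _ (CC Z' (m + 1)) h
    | iUnion s _ h =>
      rw [Set.preimage_iUnion]
      exact @MeasurableSet.iUnion _ _ (CC Z' (m + 1)) _ _ h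

theorem res_meas (n : ℕ) : ∀ s : List ℕ, MeasurableSet {u : NN | PiNat.res u n = s} := by
  induction n with
  | zero =>
    intro s
    have h : {u : NN | PiNat.res u 0 = s} = {_u : NN | [] = s} := rfl
    rw [h]
    exact MeasurableSet.const _
  | succ n ih =>
    intro s
    cases s with
    | nil =>
      have h : {u : NN | PiNat.res u (n + 1) = []} = ∅ := by
        ext u
        simp [PiNat.res_succ]
      rw [h]
      exact MeasurableSet.empty
    | cons a s =>
      have h : {u : NN | PiNat.res u (n + 1) = a :: s} =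
          (fun u : NN => u n) ⁻¹' {a} ∩ {u : NN | PiNat.res u n = s} := by
        ext u
        simp [PiNat.res_succ]
      rw [h]
      exact ((measurable_pi_apply n) (MeasurableSet.singleton a)).inter (ih s)

/-- the result of the Souslin operation on Borel sets is analytic -/
theorem an_sou {Z : Type} [MeasurableSpace Z] {P : List ℕ → Set Z}
    (hP : ∀ s, MeasurableSet (P s)) : An (Sou P) := by
  refine ⟨{p : Z × NN | ∀ n, p.1 ∈ P (PiNat.res p.2 n)}, ?_, rfl⟩
  have h1 : {p : Z × NN | ∀ n, p.1 ∈ P (PiNat.res p.2 n)} =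
      ⋂ n, ⋃ s : List ℕ, {p : Z × NN | PiNat.res p.2 n = s} ∩ (Prod.fst ⁻¹' P s) := by
    ext p
    simp only [Set.mem_ofPred_eq, Set.mem_iInter, Set.mem_iUnion, Set.mem_inter_iff,
      Set.mem_preimage]
    constructor
    · intro h n
      exact ⟨_, rfl, h n⟩
    · intro h n
      obtain ⟨s, rfl, h2⟩ := h n
      exact h2
  rw [h1]
  refine MeasurableSet.iInter fun n => MeasurableSet.iUnion fun s => MeasurableSet.inter ?_ ?_
  · exact measurable_snd (res_meas n s)
  · exact measurable_fst (hP s)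

/-- the property of a family of analytic sets to reduce the level of `B` -/
def Trc {Z : Type} [MeasurableSpace Z] (m : ℕ) (A : ℕ → Set Z) (B : Set Z) : Prop :=
  ∀ Y : Set Z, MeasurableSet Y → (∀ k, MeasurableSet (A k ∩ Y)) →
    @MeasurableSet Z (CC Z m) (B ∩ Y)

/-- joining countably many families -/
theorem trc_join {Z : Type} [MeasurableSpace Z] {m : ℕ} {ι : Type} [Countable ι] [Nonempty ι]
    {B : ι → Set Z} (h : ∀ i, ∃ A : ℕ → Set Z, (∀ k, An (A k)) ∧ Trc m A (B i)) :
    ∃ A : ℕ → Set Z, (∀ k, An (A k)) ∧ ∀ i, Trc m A (B i) := by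
  choose A hA hT using h
  obtain ⟨e, he⟩ := exists_surjective_nat (ι × ℕ)
  refine ⟨fun j => A (e j).1 (e j).2, fun j => hA _ _, fun i Y hY hk => hT i Y hY fun k => ?_⟩
  obtain ⟨j, hj⟩ := he (i, k)
  have h1 : MeasurableSet (A (e j).1 (e j).2 ∩ Y) := hk j
  rw [hj] at h1
  exact h1

/-- the sets of `CC (m + 1)` on the Borel sets where countably many analytic sets are Borel -/
theorem cc_trace0 {Z : Type} [MeasurableSpace Z] (m : ℕ) : ∀ B : Set Z,
    @MeasurableSet Z (CC Z (m + 1)) B → ∃ A : ℕ → Set Z, (∀ k, An (A k)) ∧ Trc m A B := by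
  induction m with
  | zero =>
    intro B hB
    induction B, hB using MeasurableSpace.generateFrom_induction with
    | hC t ht _ =>
      obtain ⟨P, hP, rfl⟩ := ht
      exact ⟨fun _ => Sou P, fun _ => an_sou hP, fun Y _ hk => hk 0⟩
    | empty =>
      refine ⟨fun _ => ∅, fun _ => ⟨∅, MeasurableSet.empty, by simp⟩, fun Y _ _ => ?_⟩
      rw [Set.empty_inter]
      exact MeasurableSet.empty
    | compl t _ h =>
      obtain ⟨A, hA, hT⟩ := h
      refine ⟨A, hA, fun Y hY hk => ?_⟩
      have h1 : tᶜ ∩ Y = Y \ (t ∩ Y) := by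
        ext z
        simp only [Set.mem_inter_iff, Set.mem_compl_iff, Set.mem_sdiff]
        tauto
      rw [h1]
      exact MeasurableSet.diff hY (hT Y hY hk)
    | iUnion s _ h =>
      obtain ⟨A, hA, hT⟩ := trc_join h
      refine ⟨A, hA, fun Y hY hk => ?_⟩
      rw [Set.iUnion_inter]
      exact MeasurableSet.iUnion fun n => hT n Y hY hk
  | succ m ih =>
    intro B hB
    induction B, hB using MeasurableSpace.generateFrom_induction with
    | hC t ht _ =>
      obtain ⟨P, hP, rfl⟩ := ht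
      obtain ⟨A, hA, hT⟩ := trc_join (m := m) (B := P) (fun s => ih (P s) (hP s))
      refine ⟨A, hA, fun Y hY hk => ?_⟩
      refine MeasurableSpace.measurableSet_generateFrom
        ⟨fun s => P s ∩ Y, fun s => hT s Y hY hk, ?_⟩
      ext z
      constructor
      · rintro ⟨⟨u, hu⟩, hz⟩
        exact ⟨u, fun n => ⟨hu n, hz⟩⟩
      · rintro ⟨u, hu⟩
        exact ⟨⟨u, fun n => (hu n).1⟩, (hu 0).2⟩
    | empty =>
      refine ⟨fun _ => ∅, fun _ => ⟨∅, MeasurableSet.empty, by simp⟩, fun Y _ _ => ?_⟩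
      rw [Set.empty_inter]
      exact @MeasurableSet.empty _ (CC Z (m + 1))
    | compl t _ h =>
      obtain ⟨A, hA, hT⟩ := h
      refine ⟨A, hA, fun Y hY hk => ?_⟩
      have h1 : tᶜ ∩ Y = Y \ (t ∩ Y) := by
        ext z
        simp only [Set.mem_inter_iff, Set.mem_compl_iff, Set.mem_sdiff]
        tauto
      rw [h1]
      exact @MeasurableSet.diff _ (CC Z (m + 1)) _ _ (cc_borel (m + 1) hY) (hT Y hY hk)
    | iUnion s _ h =>
      obtain ⟨A, hA, hT⟩ := trc_join h
      refine ⟨A, hA, fun Y hY hk => ?_⟩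
      rw [Set.iUnion_inter]
      exact @MeasurableSet.iUnion _ _ (CC Z (m + 1)) _ _ fun n => hT n Y hY hk

/-- the same for sequences of sets, in terms of trees -/
theorem cc_trace {Z : Type} [MeasurableSpace Z] [StandardBorelSpace Z] (m : ℕ) {F : ℕ → Set Z}
    (h : ∀ n, @MeasurableSet Z (CC Z (m + 1)) (F n)) :
    ∃ T : ℕ → Z → Tree, (∀ k, Measurable (T k)) ∧
      ∀ Y : Set Z, MeasurableSet Y →
        (∀ k, MeasurableSet {z | z ∈ Y ∧ ∃ u, Br (T k z) u}) →
          ∀ n, @MeasurableSet Z (CC Z m) (F n ∩ Y) := by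
  obtain ⟨A, hA, hT⟩ := trc_join (m := m) (B := F) (fun n => cc_trace0 m (F n) (h n))
  choose T hT1 hT2 hT3 using fun k => tree_rep (hA k)
  refine ⟨T, hT1, fun Y hY hk n => hT n Y hY fun k => ?_⟩
  have h1 : A k ∩ Y = {z | z ∈ Y ∧ ∃ u, Br (T k z) u} := by
    ext z
    rw [Set.mem_inter_iff, Set.mem_ofPred_eq, hT3, and_comm]
  rw [h1]
  exact hk k

end Pool.Agent.Lib.HFC
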