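import Pool.Agent.Lib.HFC.LOr
import Pool.Agent.Lib.HFC.RankM

/-!
# Module HFC.Kon: König's lemma, and descending sequences in ill-founded orders (MP_3091e6_lc)

PROOF of `konig`: `Acc` induction on `s`: the children of `s` in `T` are finitely many (`hf`), each has a bound; take the maximum
plus `1`. For `τ ++ s` with `τ ≠ []`: `τ = τ' ++ [n]`, `τ ++ s = τ' ++ (n :: s)`, and `T (n :: s) = true` by `Closed` (drop the entries of `τ'`).
If `s` itself is not in `T` then no `τ ++ s` is in `T`.
PROOF of `desc`. For `L` let `P a` be: `L a a = true` and `a` has no rank `γ < β`. Define `b` by recursion (`open Classical`): `b 0` = the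
least `a` with `P a` (`0` if there is none), `b (n + 1)` = the least `a` with `P a` and `lt L a (b n)` (`0` if there is none). If `Short β L` and
`Ill β L` then all `b n` satisfy `P`, and `lt L (b (n + 1)) (b n)`: an element with `P` is not accessible (`lo_not_acc`), so it has a
predecessor which is not accessible (`acc_child_iff`), which satisfies `P`. Measurable: `{L | P a}` is measurable
(`hasRank_lt_meas`, countable intersection over `Set.Iio β`), and by induction on `n` the sets `{L | b L n = a}` are measurable.
-/

set_option autoImplicit false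

namespace Pool.Agent.Lib.HFC

namespace KonAux

theorem closed_app {T : Tree} (hT : Closed T) (τ s : List ℕ) (h : T (τ ++ s) = true) :
    T s = true := by
  induction τ with
  | nil => exact h
  | cons n τ ih => exact ih (hT n (τ ++ s) h)

theorem meas_sInf {Ω : Type} [MeasurableSpace Ω] (Q : Ω → ℕ → Prop)
    (hQ : ∀ a, MeasurableSet {ω | Q ω a}) : Measurable (fun ω => sInf {a | Q ω a}) := by
  have hQ' : ∀ a, Measurable (fun ω => Q ω a) := fun a => measurableSet_setOfPred.1 (hQ a)
  refine measurable_to_countable' fun n => ?_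
  have h : (fun ω => sInf {a | Q ω a}) ⁻¹' {n} =
      {ω | (Q ω n ∧ ∀ m : {m : ℕ // m < n}, ¬ Q ω m.1) ∨ (n = 0 ∧ ∀ m, ¬ Q ω m)} := by
    ext ω
    constructor
    · intro hω
      have hω' : sInf {a | Q ω a} = n := hω
      by_cases hne : ({a | Q ω a} : Set ℕ).Nonempty
      · left
        have h1 := Nat.sInf_mem hne
        rw [hω'] at h1
        refine ⟨h1, fun m hm => ?_⟩
        have h2 : m.1 < sInf {a | Q ω a} := by rw [hω']; exact m.2
        exact Nat.notMem_of_lt_sInf h2 hm
      · right
        rw [Set.not_nonempty_iff_eq_empty] at hne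
        refine ⟨?_, fun m hm => ?_⟩
        · rw [← hω', hne, Nat.sInf_empty]
        · have h3 : m ∈ {a | Q ω a} := hm
          rw [hne] at h3
          exact h3
    · rintro (⟨h1, h2⟩ | ⟨h1, h2⟩)
      · show sInf {a | Q ω a} = n
        refine le_antisymm (Nat.sInf_le h1) ?_
        by_contra hlt
        push Not at hlt
        exact h2 ⟨_, hlt⟩ (Nat.sInf_mem ⟨n, h1⟩)
      · show sInf {a | Q ω a} = n
        have h3 : {a | Q ω a} = ∅ := by
          ext m
          constructor
          · intro hm
            exact absurd hm (h2 m)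
          · intro hm
            exact absurd hm (Set.notMem_empty m)
        rw [h3, Nat.sInf_empty, h1]
  rw [h, measurableSet_setOfPred]
  exact ((hQ' n).and (Measurable.forall fun m : {m : ℕ // m < n} => (hQ' m.1).not)).or
    (measurable_const.and (Measurable.forall fun m => (hQ' m).not))

/-- in the domain, without a rank below `β` -/
def P (β : Ordinal.{0}) (L : LOrd) (a : ℕ) : Prop :=
  L a a = true ∧ ∀ γ < β, ¬ HasRank (lt L) a γ

/-- the descending sequence -/
noncomputable def bb (β : Ordinal.{0}) (L : LOrd) : ℕ → ℕ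
  | 0 => sInf {a | P β L a}
  | n + 1 => sInf {a | P β L a ∧ lt L a (bb β L n)}

theorem meas_le (a b : ℕ) : Measurable (fun L : LOrd => L a b = true) := by
  have h : Measurable (fun L : LOrd => L a b) := (measurable_pi_apply b).comp (measurable_pi_apply a)
  exact measurableSet_setOfPred.1 (h (measurableSet_singleton true))

theorem meas_P {β : Ordinal.{0}} (hβ : Ctbl β) (a : ℕ) : Measurable (fun L : LOrd => P β L a) := by
  have hc : Countable (Set.Iio β) := hβ.to_subtype
  refine (meas_le a a).and ?_
  have h : (fun L : LOrd => ∀ γ < β, ¬ HasRank (lt L) a γ) =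
      fun L : LOrd => ∀ γ : Set.Iio β, ¬ HasRank (lt L) a γ.1 := by
    funext L
    apply propext
    exact ⟨fun h γ => h γ.1 γ.2, fun h γ hγ => h ⟨γ, hγ⟩⟩
  rw [h]
  refine Measurable.forall fun γ => Measurable.not ?_
  exact measurableSet_setOfPred.1
    (hasRank_lt_meas (L := fun L : LOrd => L) measurable_id (ctbl_mono hβ (le_of_lt γ.2)) a)

theorem meas_bb {β : Ordinal.{0}} (hβ : Ctbl β) (n : ℕ) : Measurable (fun L : LOrd => bb β L n) := by
  induction n with
  | zero =>
    exact meas_sInf (fun L a => P β L a) fun a => measurableSet_setOfPred.2 (meas_P hβ a)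
  | succ n ih =>
    refine meas_sInf (fun L a => P β L a ∧ lt L a (bb β L n)) fun a =>
      measurableSet_setOfPred.2 ((meas_P hβ a).and ?_)
    have h : (fun L : LOrd => lt L a (bb β L n)) =
        fun L : LOrd => ∃ c, bb β L n = c ∧ L a c = true ∧ a ≠ c := by
      funext L
      apply propext
      constructor
      · rintro ⟨h1, h2⟩
        exact ⟨_, rfl, h1, h2⟩
      · rintro ⟨c, rfl, h1, h2⟩
        exact ⟨h1, h2⟩
    rw [h]
    refine Measurable.exists fun c => Measurable.and ?_ ((meas_le a c).and measurable_const)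
    exact measurableSet_setOfPred.1 (ih (measurableSet_singleton c))

end KonAux

open KonAux

theorem konig {T : Tree} (hT : Closed T)
    (hf : ∀ s, T s = true → {n | T (n :: s) = true}.Finite) {s : List ℕ}
    (ha : Acc (child T) s) : ∃ l : ℕ, ∀ τ : List ℕ, T (τ ++ s) = true → τ.length < l := by
  classical
  induction ha with
  | intro s _ ih =>
    by_cases hs : T s = true
    · have h1 : ∀ n : ℕ, ∃ l : ℕ, T (n :: s) = true → ∀ τ : List ℕ, T (τ ++ n :: s) = true →
          τ.length < l := by
        intro n
        by_cases hn : T (n :: s) = true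
        · obtain ⟨l, hl⟩ := ih (n :: s) ⟨hn, hs, n, rfl⟩
          exact ⟨l, fun _ => hl⟩
        · exact ⟨0, fun h => absurd h hn⟩
      choose f hf' using h1
      refine ⟨(hf s hs).toFinset.sup f + 1, fun τ hτ => ?_⟩
      rcases List.eq_nil_or_concat τ with h | ⟨τ', n, h⟩
      · subst h
        exact Nat.succ_pos _
      · rw [List.concat_eq_append] at h
        subst h
        rw [List.append_assoc, List.singleton_append] at hτ
        have hn : T (n :: s) = true := closed_app hT τ' _ hτ
        have h2 := hf' n hn τ' hτ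
        have h3 : f n ≤ (hf s hs).toFinset.sup f :=
          Finset.le_sup (f := f) ((hf s hs).mem_toFinset.2 hn)
        rw [List.length_append, List.length_singleton]
        omega
    · exact ⟨0, fun τ hτ => absurd (closed_app hT τ s hτ) hs⟩

theorem desc {β : Ordinal.{0}} (hβ : Ctbl β) : ∃ b : LOrd → NN, Measurable b ∧
    ∀ L, IsLO L → Short β L → Ill β L →
      (∀ n, L (b L n) (b L n) = true) ∧ ∀ n, lt L (b L (n + 1)) (b L n) := by
  refine ⟨bb β, measurable_pi_iff.2 fun n => meas_bb hβ n, ?_⟩
  intro L hL hs hi
  have hstep : ∀ a, P β L a → ({c | P β L c ∧ lt L c a} : Set ℕ).Nonempty := by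
    intro a ha
    obtain ⟨c, hc, hc'⟩ := acc_child_iff (lo_not_acc hL hs ha.1 ha.2)
    exact ⟨c, ⟨hL.left c a hc.1, fun γ _ hr => hc' (hasRank_acc hr)⟩, hc⟩
  have hP : ∀ n, P β L (bb β L n) := by
    intro n
    induction n with
    | zero => exact Nat.sInf_mem (s := {a | P β L a}) hi
    | succ n ih => exact (Nat.sInf_mem (hstep _ ih)).1
  exact ⟨fun n => (hP n).1, fun n => (Nat.sInf_mem (hstep _ (hP n))).2⟩

end Pool.Agent.Lib.HFC
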