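import Pool.Agent.Lib.HFC.Frame
import Pool.Agent.Lib.HFC.Shoen
import Pool.Agent.Lib.HFC.Bd

/-!
# Module HFC.Gamma: the case `y ∉ A` (MP_3091e6_lc)

PROOF. Suppose `h : HFOn (FF E) {q | Val (R y) V π q}`; `c` from `noFail_of_hfon`. Let `S` be the set of the pairs `(L, a)` such that
there are `κ` and `W : ℕ → List ℕ → Bool` with `Ok (R y) (L, a, κ, c)` and
`Sim (lt L) (child (V (L, a, κ, c))) a [] W`. `S` is analytic (`an_proj` of a measurable set: `ok_meas`, `sim_meas`, `hV`).
(1) For every countable `α` there is `(L, a) ∈ S` with `HasRank (lt L) a α`. For `γ < α` let `β_γ` be the ordinal of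
`Sho.not_mem`; let `δ` be a countable ordinal larger than `α` and all `β_γ` (`ctbl_sup` over `Option (Set.Iio α)`), `L` the code
of `δ` (`code`), a well order; `a` the element of rank `α`; `κ b = can L (R y L b)`. `Ok`: if `lt L b a` then `b` has a rank `γ < α`,
the root of `R y L b` has rank `β_γ < δ`, which is the rank of an element of `L`, and `can_full` applies. Let `θ = (L, a, κ, c)`.
(2) There is no `w` with `Op (V θ) L a w`: otherwise `d ↦ (θ, w, d)` maps `{d | π d = L}` in the valid points, and `hfon_pull`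
gives `HFOn E {d | π d = L}`, a contradiction to `h2`. (3) `V θ` has no branch: otherwise `(θ, V θ) ∈ XX E π U` (`hVX`), which
contains some `w` as in (2). So the root of `V θ` has a rank `ρ`. (4) `α ≤ ρ`: if `ρ < α`, let `w s` be an element of `L` of the rank
of `s` for `s` with `V θ s = true` (every such `s` is `[]` or below `[]`, by `hVc`, so it has a rank `≤ ρ < α`); `w s` is `< a`
and order preserving (`lo_rank_lt_iff`), a contradiction to (2). (5) `sim_rank` gives `W`. So `(L, a) ∈ S`.
By `bd` there is `(L, a) ∈ S` with `¬ Acc (lt L) a`; `κ`, `W`, `θ` as in the definition of `S`. By `sim_acc` the root of `V θ` is not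
accessible, so `V θ` has a branch (`branch_acc`) and `(θ, V θ) ∈ XX E π U`: there are `w`, `ds` with `Op (V θ) L a w`, `π (ds j) = L`,
`E (ds i) (ds j)` and `Fail U c (fun j => (θ, w, ds j))`. The points `(θ, w, ds j)` are valid, in one class of `FF E`, a
contradiction to the choice of `c`.
-/

set_option autoImplicit false

namespace Pool.Agent.Lib.HFC

namespace GammaAux

theorem rank_le {T : Tree} (hT : Closed T) {ρ : Ordinal.{0}} (hρ : HasRank (child T) [] ρ) :
    ∀ t, T t = true → ∃ γ ≤ ρ, HasRank (child T) t γ := by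
  intro t
  induction t with
  | nil => exact fun _ => ⟨ρ, le_rfl, hρ⟩
  | cons n s ih =>
    intro h
    have hs := hT n s h
    obtain ⟨γ, hγ, hr⟩ := ih hs
    obtain ⟨γ', hγ', hr'⟩ := (hasRank_iff.mp hr).1 (n :: s) ⟨h, hs, n, rfl⟩
    exact ⟨γ', hγ'.le.trans hγ, hr'⟩

/-- a tree of small rank has an order preserving map below an element of large rank -/
theorem ex_op {T : Tree} (hT : Closed T) {ρ α : Ordinal.{0}} (hρ : HasRank (child T) [] ρ)
    {L : LOrd} (hL : IsLO L) {a : ℕ} (hr : HasRank (lt L) a α) (hlt : ρ < α) :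
    ∃ w : List ℕ → ℕ, Op T L a w := by
  classical
  have key : ∀ t, ∃ b, T t = true → lt L b a ∧ ∃ γ, HasRank (child T) t γ ∧
      HasRank (lt L) b γ := by
    intro t
    by_cases h : T t = true
    · obtain ⟨γ, hγ, h1⟩ := rank_le hT hρ t h
      obtain ⟨b, hb, h2⟩ := lo_below hL hr (lt_of_le_of_lt hγ hlt)
      exact ⟨b, fun _ => ⟨hb, γ, h1, h2⟩⟩
    · exact ⟨0, fun h' => absurd h' h⟩
  choose w h using key
  refine ⟨w, fun t ht => (h t ht).1, ?_⟩
  intro t' t hc
  obtain ⟨h1, γ', h2, h3⟩ := h t' hc.1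
  obtain ⟨h4, γ, h5, h6⟩ := h t hc.2.1
  exact (lo_rank_lt_iff hL (hL.left _ _ (le_of_lt' h1)) (hL.left _ _ (le_of_lt' h4)) h3 h6).mpr
    (hasRank_lt h5 h2 hc)

/-- a countable ordinal larger than `α` and all the values `f γ`, `γ < α` -/
theorem ex_sup {α : Ordinal.{0}} (hα : Ctbl α) (f : Ordinal.{0} → Ordinal.{0})
    (hf : ∀ γ, Ctbl (f γ)) : ∃ δ, Ctbl δ ∧ α < δ ∧ ∀ γ < α, f γ < δ := by
  classical
  by_cases hne : (Set.Iio α).Nonempty
  · obtain ⟨g, hg⟩ := Set.Countable.exists_eq_range hα hne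
    obtain ⟨δ, hδ, h⟩ := ctbl_sup (κ := Option ℕ) (fun o => o.elim α (fun n => f (g n))) (by
      intro o
      cases o with
      | none => exact hα
      | some n => exact hf _)
    refine ⟨δ, hδ, h none, ?_⟩
    intro γ hγ
    have h1 : γ ∈ Set.range g := by
      rw [← hg]
      exact hγ
    obtain ⟨n, rfl⟩ := h1
    exact h (some n)
  · refine ⟨α + 1, ctbl_succ hα, Order.lt_add_one_iff.mpr le_rfl, ?_⟩
    intro γ hγ
    exact absurd ⟨γ, hγ⟩ hne

/-- the parameter with a given code -/
def par (c : NN × NN) (q : (LOrd × ℕ) × ((ℕ → List ℕ → ℕ) × (ℕ → List ℕ → Bool))) : Par :=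
  (q.1.1, q.1.2, q.2.1, c)

theorem par_meas (c : NN × NN) : Measurable (par c) := by
  unfold par
  refine Measurable.prodMk (measurable_fst.comp measurable_fst)
    (Measurable.prodMk (measurable_snd.comp measurable_fst)
      (Measurable.prodMk (measurable_fst.comp measurable_snd) measurable_const))

end GammaAux

theorem gamma {D : Type} [MeasurableSpace D] [StandardBorelSpace D] {A : Set NN}
    {R : NN → LOrd → ℕ → Tree} (hR : Sho A R) {y : NN} (hy : y ∉ A) {E : D → D → Prop}
    (hE : CBER E) {π : D → LOrd} (hπ : Measurable π)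
    (h2 : ∀ L, IsLO L → (∀ a, L a a = true → Acc (lt L) a) → ¬ HFOn E {d | π d = L})
    {U : Set ((NN × NN) × (Pt D × Pt D × ℕ) × Bool)} (hU : Uni U) {V : Par → Tree}
    (hV : Measurable V) (hVc : ∀ θ, Closed (V θ))
    (hVX : ∀ θ, (∃ u, Br (V θ) u) ↔ (θ, V θ) ∈ XX E π U) :
    ¬ HFOn (FF E) {q | Val (R y) V π q} := by
  classical
  intro h
  obtain ⟨c, hc⟩ := noFail_of_hfon hU h
  -- no branches
  have hA : ∀ L a κ, Ok (R y) (L, a, κ, c) → ¬ ∃ u, Br (V (L, a, κ, c)) u := by
    intro L a κ hok hbr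
    obtain ⟨w, ds, h3, h4, h5, h6⟩ := (hVX (L, a, κ, c)).1 hbr
    refine hc (fun j => ((L, a, κ, c), w, ds j)) ?_ ?_ h6
    · intro j
      exact ⟨hok, h3, h4 j⟩
    · intro i j
      exact ⟨rfl, rfl, h5 i j⟩
  -- the analytic set
  let S : Set (LOrd × ℕ) := {z | ∃ v : (ℕ → List ℕ → ℕ) × (ℕ → List ℕ → Bool), (z, v) ∈
    {q : (LOrd × ℕ) × ((ℕ → List ℕ → ℕ) × (ℕ → List ℕ → Bool)) |
      Ok (R y) (GammaAux.par c q) ∧
        Sim (lt q.1.1) (child (V (GammaAux.par c q))) q.1.2 [] q.2.2}}
  have hS : An S := by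
    refine an_proj (an_of_meas ?_)
    have m1 : MeasurableSet {q : (LOrd × ℕ) × ((ℕ → List ℕ → ℕ) × (ℕ → List ℕ → Bool)) |
        Ok (R y) (GammaAux.par c q)} := by
      have h3 := ok_meas hR.meas
      have h4 : Measurable fun q : (LOrd × ℕ) × ((ℕ → List ℕ → ℕ) × (ℕ → List ℕ → Bool)) =>
          (y, GammaAux.par c q) := measurable_const.prodMk (GammaAux.par_meas c)
      exact h4 h3
    have m2 : MeasurableSet {q : (LOrd × ℕ) × ((ℕ → List ℕ → ℕ) × (ℕ → List ℕ → Bool)) |
        Sim (lt q.1.1) (child (V (GammaAux.par c q))) q.1.2 [] q.2.2} := by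
      refine sim_meas (fun q : (LOrd × ℕ) × ((ℕ → List ℕ → ℕ) × (ℕ → List ℕ → Bool)) =>
        lt q.1.1) ?_ (fun q => child (V (GammaAux.par c q))) ?_ (fun q => q.1.2) ?_
        (fun _ => []) ?_ (fun q => q.2.2) ?_
      · intro b b'
        unfold lt
        have h3 : Measurable (fun q : (LOrd × ℕ) × ((ℕ → List ℕ → ℕ) × (ℕ → List ℕ → Bool)) =>
            q.1.1 b b') :=
          (measurable_pi_apply b').comp ((measurable_pi_apply b).comp
            (measurable_fst.comp measurable_fst))
        exact (h3 (measurableSet_singleton true)).inter (MeasurableSet.const _)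
      · intro s' s
        have h3 : ∀ t : List ℕ, MeasurableSet
            {q : (LOrd × ℕ) × ((ℕ → List ℕ → ℕ) × (ℕ → List ℕ → Bool)) |
              V (GammaAux.par c q) t = true} := by
          intro t
          have h4 : Measurable
              (fun q : (LOrd × ℕ) × ((ℕ → List ℕ → ℕ) × (ℕ → List ℕ → Bool)) =>
                V (GammaAux.par c q) t) :=
            (measurable_pi_apply t).comp (hV.comp (GammaAux.par_meas c))
          exact h4 (measurableSet_singleton true)
        unfold child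
        exact (h3 s').inter ((h3 s).inter (MeasurableSet.const _))
      · intro i
        exact (measurable_snd.comp measurable_fst) (measurableSet_singleton i)
      · intro i
        exact MeasurableSet.const _
      · intro i j
        have h4 : Measurable (fun q : (LOrd × ℕ) × ((ℕ → List ℕ → ℕ) × (ℕ → List ℕ → Bool)) =>
            q.2.2 i j) :=
          (measurable_pi_apply j).comp ((measurable_pi_apply i).comp
            (measurable_snd.comp measurable_snd))
        exact h4 (measurableSet_singleton true)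
    exact m1.inter m2
  -- all countable ranks occur
  have hrk : ∀ α, Ctbl α → ∃ p ∈ S, HasRank (lt p.1) p.2 α := by
    intro α hα
    have key : ∀ γ : Ordinal.{0}, ∃ β, Ctbl β ∧ (Ctbl γ → ∀ L a, IsLO L → L a a = true →
        HasRank (lt L) a γ → HasRank (child (R y L a)) [] β) := by
      intro γ
      by_cases hγ : Ctbl γ
      · obtain ⟨β, h3, h4⟩ := hR.not_mem y hy γ hγ
        exact ⟨β, h3, fun _ => h4⟩
      · exact ⟨α, hα, fun h' => absurd h' hγ⟩
    choose β hβ hβ' using key
    obtain ⟨δ, hδ, hαδ, hβδ⟩ := GammaAux.ex_sup hα β hβ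
    obtain ⟨L, hL, hLr, hLe⟩ := code hδ
    have hw : ∀ a, L a a = true → Acc (lt L) a := by
      intro a ha
      obtain ⟨γ, -, hγ⟩ := hLr a ha
      exact hasRank_acc hγ
    obtain ⟨a, ha, har⟩ := hLe α hαδ
    have hok : Ok (R y) (L, a, fun b => can L (R y L b), c) := by
      refine ⟨hL, ha, ?_⟩
      intro b hb
      obtain ⟨γ, hγα, hγ⟩ := (hasRank_iff.1 har).1 b hb
      have hbb : L b b = true := hL.left _ _ (le_of_lt' hb)
      have h3 := hβ' γ (ctbl_mono hα hγα.le) L b hL hbb hγ
      obtain ⟨a', ha', har'⟩ := hLe (β γ) (hβδ γ hγα)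
      exact can_full hL hw (hR.closed y L b) h3 ha' har'
    have hno : ¬ ∃ w, Op (V (L, a, fun b => can L (R y L b), c)) L a w := by
      rintro ⟨w, hop⟩
      refine h2 L hL hw ?_
      refine hfon_pull (f := fun d => ((L, a, fun b => can L (R y L b), c), w, d)) h hE.equiv
        hE.meas (hπ (measurableSet_singleton L)) ?_ ?_ ?_ ?_
      · exact measurable_const.prodMk (measurable_const.prodMk measurable_id)
      · intro d hd
        exact ⟨hok, hop, hd⟩
      · intro d d' _ _ hdd
        exact ⟨rfl, rfl, hdd⟩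
      · intro d d' _ _ _ hdd
        exact congrArg (fun q : Pt D => q.2.2) hdd
    obtain ⟨ρ, hρ⟩ := hasRank_of_acc (branch_acc.2 (hA L a _ hok))
    have hle : α ≤ ρ := by
      by_contra hlt
      exact hno (GammaAux.ex_op (hVc _) hρ hL har (not_le.1 hlt))
    obtain ⟨W, hW⟩ := sim_rank har hρ hle
    exact ⟨(L, a), ⟨(fun b => can L (R y L b), W), hok, hW⟩, har⟩
  obtain ⟨⟨L, a⟩, ⟨⟨κ, W⟩, hok, hW⟩, hacc⟩ := bd hS hrk
  refine hacc (sim_acc hW ?_)
  exact branch_acc.2 (hA L a κ hok)

end Pool.Agent.Lib.HFC
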