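import Pool.Agent.Lib.HFC.Defs

/-!
# Module HFC.HFT: restrictions, unions and preimages of hyperfinite relations (MP_3091e6_lc)

PROOFS. `hf_iff`: the same sequence `F`. `hfon_mono`: `F n x y ∧ x ∈ S' ∧ y ∈ S'`. `hfon_union`: `F n x y ∨ F' n x y`; `sub` of the
two witnesses and `hd` show that a point related by `F` is not related by `F'` (for `F n x y`, `F' n y z`: `y ∈ S`, `y ∈ S'`, and
`E y y` contradicts `hd`). `hfon_empty`: `F n x y = False`. `hfon_pull`: `F n x y = (x ∈ S ∧ y ∈ S ∧ E x y ∧ G n (f x) (f y))`;
measurable: `MeasurableSet.prod`-like preimages (`hf` for both coordinates, `E` measurable); finite classes: the map `f` is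
injective on the set `{y | F n x y}` (two such `y, y'` are `E`-related), and maps it in `{z | G n (f x) z}`. `hfon_id`: if the
classes in `S` are trivial: `F n x y = (x ∈ S ∧ x = y)` (measurable diagonal: `measurableSet_eq_fun`).
-/

set_option autoImplicit false

namespace Pool.Agent.Lib.HFC

variable {X Y : Type} [MeasurableSpace X] [MeasurableSpace Y]

theorem hf_iff {E : X → X → Prop} (hE : Equivalence E) : HF E ↔ HFOn E Set.univ := by
  constructor
  · rintro ⟨F, hF, hm⟩
    refine ⟨F, ?_, hm⟩
    exact
      { sub := fun n x y h => ⟨Set.mem_univ _, Set.mem_univ _, (hF.union x y).2 ⟨n, h⟩⟩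
        refl := fun n x _ => (hF.equiv n).refl x
        symm := fun n x y h => (hF.equiv n).symm h
        trans := fun n x y z h h' => (hF.equiv n).trans h h'
        fin := hF.fin
        mono := hF.mono
        union := fun x y _ _ h => (hF.union x y).1 h }
  · rintro ⟨F, hF, hm⟩
    refine ⟨F, ?_, hm⟩
    exact
      { equiv := fun n => ⟨fun x => hF.refl n x (Set.mem_univ _), fun h => hF.symm n _ _ h,
          fun h h' => hF.trans n _ _ _ h h'⟩
        fin := hF.fin
        mono := hF.mono
        union := fun x y => ⟨fun h => hF.union x y (Set.mem_univ _) (Set.mem_univ _) h,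
          fun ⟨n, h⟩ => (hF.sub n x y h).2.2⟩ }

theorem hfon_mono {E : X → X → Prop} {S S' : Set X} (h : HFOn E S) (hS : MeasurableSet S')
    (hs : S' ⊆ S) : HFOn E S' := by
  obtain ⟨F, hF, hm⟩ := h
  refine ⟨fun n x y => F n x y ∧ x ∈ S' ∧ y ∈ S', ?_, fun n => ?_⟩
  · exact
      { sub := fun n x y h => ⟨h.2.1, h.2.2, (hF.sub n x y h.1).2.2⟩
        refl := fun n x h => ⟨hF.refl n x (hs h), h, h⟩
        symm := fun n x y h => ⟨hF.symm n x y h.1, h.2.2, h.2.1⟩
        trans := fun n x y z h h' => ⟨hF.trans n x y z h.1 h'.1, h.2.1, h'.2.2⟩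
        fin := fun n x => (hF.fin n x).subset fun y h => h.1
        mono := fun n x y h => ⟨hF.mono n x y h.1, h.2⟩
        union := fun x y hx hy h => by
          obtain ⟨n, hn⟩ := hF.union x y (hs hx) (hs hy) h
          exact ⟨n, hn, hx, hy⟩ }
  · exact (hm n).inter ((measurable_fst hS).inter (measurable_snd hS))

theorem hfon_empty {E : X → X → Prop} : HFOn E ∅ := by
  refine ⟨fun _ _ _ => False, ?_, fun n => ?_⟩
  · exact
      { sub := fun n x y h => h.elim
        refl := fun n x h => h.elim
        symm := fun n x y h => h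
        trans := fun n x y z h _ => h
        fin := fun n x => by simp
        mono := fun n x y h => h
        union := fun x y hx _ _ => hx.elim }
  · simp

theorem hfon_union {E : X → X → Prop} {S S' : Set X} (h : HFOn E S) (h' : HFOn E S')
    (hE : Equivalence E) (hd : ∀ x y, x ∈ S → y ∈ S' → ¬ E x y) : HFOn E (S ∪ S') := by
  obtain ⟨F, hF, hm⟩ := h
  obtain ⟨F', hF', hm'⟩ := h'
  have hno : ∀ y, y ∈ S → y ∈ S' → False := fun y h1 h2 => hd y y h1 h2 (hE.refl y)
  refine ⟨fun n x y => F n x y ∨ F' n x y, ?_, fun n => (hm n).union (hm' n)⟩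
  exact
    { sub := fun n x y h => by
        rcases h with h | h
        · exact ⟨Or.inl (hF.sub n x y h).1, Or.inl (hF.sub n x y h).2.1, (hF.sub n x y h).2.2⟩
        · exact ⟨Or.inr (hF'.sub n x y h).1, Or.inr (hF'.sub n x y h).2.1,
            (hF'.sub n x y h).2.2⟩
      refl := fun n x h => by
        rcases h with h | h
        · exact Or.inl (hF.refl n x h)
        · exact Or.inr (hF'.refl n x h)
      symm := fun n x y h => by
        rcases h with h | h
        · exact Or.inl (hF.symm n x y h)
        · exact Or.inr (hF'.symm n x y h)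
      trans := fun n x y z h h' => by
        rcases h with h | h <;> rcases h' with h' | h'
        · exact Or.inl (hF.trans n x y z h h')
        · exact (hno y (hF.sub n x y h).2.1 (hF'.sub n y z h').1).elim
        · exact (hno y (hF.sub n y z h').1 (hF'.sub n x y h).2.1).elim
        · exact Or.inr (hF'.trans n x y z h h')
      fin := fun n x => ((hF.fin n x).union (hF'.fin n x)).subset fun y h => h
      mono := fun n x y h => by
        rcases h with h | h
        · exact Or.inl (hF.mono n x y h)
        · exact Or.inr (hF'.mono n x y h)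
      union := fun x y hx hy h => by
        rcases hx with hx | hx <;> rcases hy with hy | hy
        · obtain ⟨n, hn⟩ := hF.union x y hx hy h
          exact ⟨n, Or.inl hn⟩
        · exact (hd x y hx hy h).elim
        · exact (hd y x hy hx (hE.symm h)).elim
        · obtain ⟨n, hn⟩ := hF'.union x y hx hy h
          exact ⟨n, Or.inr hn⟩ }

/-- restrictions of relations in the argument `E` -/
theorem hfon_congr {E E' : X → X → Prop} {S : Set X} (h : HFOn E S)
    (hE : ∀ x y, x ∈ S → y ∈ S → (E x y ↔ E' x y)) : HFOn E' S := by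
  obtain ⟨F, hF, hm⟩ := h
  refine ⟨F, ?_, hm⟩
  exact
    { sub := fun n x y h => by
        obtain ⟨h1, h2, h3⟩ := hF.sub n x y h
        exact ⟨h1, h2, (hE x y h1 h2).1 h3⟩
      refl := hF.refl
      symm := hF.symm
      trans := hF.trans
      fin := hF.fin
      mono := hF.mono
      union := fun x y hx hy h => hF.union x y hx hy ((hE x y hx hy).2 h) }

theorem hfon_pull {E : X → X → Prop} {E' : Y → Y → Prop} {S : Set X} {S' : Set Y}
    (h : HFOn E' S') (hE : Equivalence E) (hEm : MeasurableSet {p : X × X | E p.1 p.2})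
    (hS : MeasurableSet S) {f : X → Y} (hf : Measurable f) (hfS : ∀ x ∈ S, f x ∈ S')
    (h1 : ∀ x y, x ∈ S → y ∈ S → E x y → E' (f x) (f y))
    (h2 : ∀ x y, x ∈ S → y ∈ S → E x y → f x = f y → x = y) : HFOn E S := by
  obtain ⟨G, hG, hm⟩ := h
  refine ⟨fun n x y => x ∈ S ∧ y ∈ S ∧ E x y ∧ G n (f x) (f y), ?_, fun n => ?_⟩
  · exact
      { sub := fun n x y h => ⟨h.1, h.2.1, h.2.2.1⟩
        refl := fun n x h => ⟨h, h, hE.refl x, hG.refl n _ (hfS x h)⟩
        symm := fun n x y h => ⟨h.2.1, h.1, hE.symm h.2.2.1, hG.symm n _ _ h.2.2.2⟩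
        trans := fun n x y z h h' => ⟨h.1, h'.2.1, hE.trans h.2.2.1 h'.2.2.1,
          hG.trans n _ _ _ h.2.2.2 h'.2.2.2⟩
        fin := fun n x => by
          refine Set.Finite.of_finite_image ((hG.fin n (f x)).subset ?_) (f := f) ?_
          · rintro _ ⟨y, hy, rfl⟩
            exact hy.2.2.2
          · intro y hy y' hy' hyy
            exact h2 y y' hy.2.1 hy'.2.1 (hE.trans (hE.symm hy.2.2.1) hy'.2.2.1) hyy
        mono := fun n x y h => ⟨h.1, h.2.1, h.2.2.1, hG.mono n _ _ h.2.2.2⟩
        union := fun x y hx hy h => by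
          obtain ⟨n, hn⟩ := hG.union (f x) (f y) (hfS x hx) (hfS y hy) (h1 x y hx hy h)
          exact ⟨n, hx, hy, h, hn⟩ }
  · have h3 : Measurable fun p : X × X => (f p.1, f p.2) :=
      (hf.comp measurable_fst).prodMk (hf.comp measurable_snd)
    exact (measurable_fst hS).inter ((measurable_snd hS).inter (hEm.inter (h3 (hm n))))

theorem hfon_id [StandardBorelSpace X] {E : X → X → Prop} {S : Set X} (hr : ∀ x, E x x)
    (hS : MeasurableSet S) (h : ∀ x y, x ∈ S → y ∈ S → E x y → x = y) : HFOn E S := by
  refine ⟨fun _ x y => x ∈ S ∧ x = y, ?_, fun n => ?_⟩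
  · exact
      { sub := fun n x y h => by
          obtain ⟨h1, rfl⟩ := h
          exact ⟨h1, h1, hr x⟩
        refl := fun n x h => ⟨h, rfl⟩
        symm := fun n x y h => by
          obtain ⟨h1, rfl⟩ := h
          exact ⟨h1, rfl⟩
        trans := fun n x y z h h' => by
          obtain ⟨h1, rfl⟩ := h
          exact h'
        fin := fun n x => (Set.finite_singleton x).subset fun y h => h.2.symm
        mono := fun n x y h => h
        union := fun x y hx hy hxy => ⟨0, hx, h x y hx hy hxy⟩ }
  · exact (measurable_fst hS).inter (measurableSet_eq_fun measurable_fst measurable_snd)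

end Pool.Agent.Lib.HFC
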