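import Pool.Agent.Lib.HFC.RedA
import Pool.Agent.Lib.HFC.HFT

/-!
# Module HFC.RedB: from families of relations to codes (MP_3091e6_lc)

PROOF. `e : Q ≃ᵐ NN` (`PolishSpace.measurableEquivOfNotCountable`; `NN` is not countable). `B = {(y, p) | G y (e.symm p.1)
(e.symm p.2)}` is measurable. `f` from `code_family`. If `y ∈ A` then `HF (G y)`; the relation `E u v = G y (e.symm u) (e.symm v)` is
a hyperfinite CBER (`cber_equiv`, `hf_equiv`), so `f y ∈ HFCodes`. If `f y ∈ HFCodes`, with `E`, then `E` is the relation above by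
`codes_unique`, so `G y` is hyperfinite by `hf_equiv` for `e`.
-/

set_option autoImplicit false

namespace Pool.Agent.Lib.HFC

theorem cber_equiv {X Y : Type} [MeasurableSpace X] [MeasurableSpace Y] (e : X ≃ᵐ Y)
    {E : Y → Y → Prop} (h : CBER E) : CBER fun x x' => E (e x) (e x') := by
  have hm : Measurable fun p : X × X => (e p.1, e p.2) :=
    (e.measurable.comp measurable_fst).prodMk (e.measurable.comp measurable_snd)
  exact
    { equiv := ⟨fun x => h.equiv.refl _, fun h' => h.equiv.symm h', fun h' h'' =>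
        h.equiv.trans h' h''⟩
      meas := hm h.meas
      ctbl := fun x => (h.ctbl (e x)).preimage_of_injOn e.injective.injOn }

theorem hf_equiv {X Y : Type} [MeasurableSpace X] [MeasurableSpace Y] (e : X ≃ᵐ Y)
    {E : Y → Y → Prop} (h : HF E) : HF fun x x' => E (e x) (e x') := by
  obtain ⟨F, hF, hFm⟩ := h
  have hm : Measurable fun p : X × X => (e p.1, e p.2) :=
    (e.measurable.comp measurable_fst).prodMk (e.measurable.comp measurable_snd)
  refine ⟨fun n x x' => F n (e x) (e x'), ?_, fun n => hm (hFm n)⟩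
  exact
    { equiv := fun n => ⟨fun x => (hF.equiv n).refl _, fun h' => (hF.equiv n).symm h',
        fun h' h'' => (hF.equiv n).trans h' h''⟩
      fin := fun n x => (hF.fin n (e x)).preimage e.injective.injOn
      mono := fun n x y h' => hF.mono n _ _ h'
      union := fun x y => hF.union _ _ }

theorem reduction {Q : Type} [MeasurableSpace Q] [StandardBorelSpace Q] (hQ : ¬ Countable Q)
    {G : NN → Q → Q → Prop} (hG : MeasurableSet {p : NN × Q × Q | G p.1 p.2.1 p.2.2})
    (hc : ∀ y, CBER (G y)) {A : Set NN} (hA : ∀ y, y ∈ A ↔ HF (G y)) :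
    ∃ f : NN → NN, Continuous f ∧ A = f ⁻¹' HFCodes := by
  have hN : ¬ Countable NN := by
    rw [← Cardinal.mk_le_aleph0_iff, not_le]
    have h1 : Cardinal.mk NN = Cardinal.aleph0 ^ Cardinal.aleph0 := by simp [NN]
    rw [h1]
    exact Cardinal.cantor' _ Cardinal.one_lt_aleph0
  let e : Q ≃ᵐ NN := PolishSpace.measurableEquivOfNotCountable hQ hN
  have hm : Measurable fun p : NN × (NN × NN) => (p.1, e.symm p.2.1, e.symm p.2.2) :=
    measurable_fst.prodMk ((e.symm.measurable.comp (measurable_fst.comp measurable_snd)).prodMk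
      (e.symm.measurable.comp (measurable_snd.comp measurable_snd)))
  have hB : MeasurableSet {p : NN × (NN × NN) | G p.1 (e.symm p.2.1) (e.symm p.2.2)} := hm hG
  obtain ⟨f, hf, hfc⟩ := code_family hB
  refine ⟨f, hf, ?_⟩
  ext y
  constructor
  · intro hy
    have h1 := (hA y).1 hy
    exact ⟨fun u v => G y (e.symm u) (e.symm v), hfc y, cber_equiv e.symm (hc y),
      hf_equiv e.symm h1⟩
  · rintro ⟨E, hE1, hE2, hE3⟩
    rw [hA]
    have h1 := codes_unique hE1 (hfc y)
    have h2 : ∀ u v, E u v ↔ G y (e.symm u) (e.symm v) := fun u v =>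
      Set.ext_iff.1 h1 (u, v)
    have h3 := hf_equiv e hE3
    have h4 : (fun x x' => E (e x) (e x')) = G y := by
      funext x x'
      apply propext
      rw [h2, e.symm_apply_apply, e.symm_apply_apply]
    rw [h4] at h3
    exact h3

end Pool.Agent.Lib.HFC
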