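import Pool.Agent.Lib.HFC.Beta
import Pool.Agent.Lib.HFC.Gamma
import Pool.Agent.Lib.HFC.RedB

/-!
# Module HFC.Master: the general criterion (MP_3091e6_lc)

PROOF. Let `A` be `Σ¹₂`, `R` from `shoenfield`, `U` from `universal (Pt D × Pt D × ℕ)`, `V` from `fixed_point` for `XX E π U`
(`an_xx`). `G y q q' = (q = q' ∨ (FF E q q' ∧ Val (R y) V π q))`. It is a CBER (validity is invariant under `FF E`: `q.1`, `q.2.1` are
the same and `π` is invariant; classes: `{q} ∪` class of `FF E`), `{(y, q, q')}` is measurable (`val_meas`). `HF (G y) ↔ HFOn (FF E)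
{q | Val (R y) V π q}`: (→) `hf_iff`, `hfon_mono`, `hfon_congr`; (←) the valid points by `hfon_congr`, the other points by
`hfon_id`, together by `hfon_union`. Then `beta`, `gamma` and `reduction` (`Pt D` is not countable if `D` is nonempty: it
contains a copy of `NN`; `D` is nonempty by `h2` for the empty order `L = fun _ _ => false`, since `HFOn E ∅`: if `D` is empty then
`{d | π d = L} = ∅`).
-/

set_option autoImplicit false

namespace Pool.Agent.Lib.HFC

namespace MasterAux

theorem nn_not_countable : ¬ Countable NN := by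
  intro h
  obtain ⟨g, hg⟩ := exists_surjective_nat NN
  obtain ⟨n, hn⟩ := hg (fun k => g k k + 1)
  have := congrFun hn n
  omega

theorem pt_not_countable {D : Type} (d : D) : ¬ Countable (Pt D) := by
  intro h
  refine nn_not_countable ?_
  refine Function.Injective.countable (β := Pt D)
    (f := fun f => ((fun _ _ => false, 0, fun _ _ => 0, (f, f)), fun _ => 0, d)) ?_
  intro f g hfg
  exact congrArg (fun q : Pt D => q.1.2.2.2.1) hfg

theorem val_inv {D : Type} {E : D → D → Prop} {π : D → LOrd}
    (hinv : ∀ d d', E d d' → π d = π d') {R : LOrd → ℕ → Tree} {V : Par → Tree} {q q' : Pt D}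
    (h : FF E q q') (hq : Val R V π q) : Val R V π q' := by
  obtain ⟨h1, h2, h3⟩ := h
  obtain ⟨k1, k2, k3⟩ := hq
  refine ⟨?_, ?_, ?_⟩
  · rw [← h1]; exact k1
  · rw [← h1, ← h2]; exact k2
  · rw [← h1, ← hinv _ _ h3]; exact k3

/-- the constructed relation -/
def G {D : Type} (E : D → D → Prop) (S : Set (Pt D)) (q q' : Pt D) : Prop :=
  q = q' ∨ (FF E q q' ∧ q ∈ S)

variable {D : Type} [MeasurableSpace D] [StandardBorelSpace D]

theorem g_equiv {E : D → D → Prop} (hE : CBER E) {S : Set (Pt D)}
    (hS : ∀ q q', FF E q q' → q ∈ S → q' ∈ S) : Equivalence (G E S) := by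
  have hF := (ff_cber hE).equiv
  refine ⟨fun q => Or.inl rfl, ?_, ?_⟩
  · rintro q q' (h | ⟨h, h'⟩)
    · exact Or.inl h.symm
    · exact Or.inr ⟨hF.symm h, hS _ _ h h'⟩
  · rintro q q' q'' (h | ⟨h, h'⟩) (k | ⟨k, k'⟩)
    · exact Or.inl (h.trans k)
    · subst h
      exact Or.inr ⟨k, k'⟩
    · subst k
      exact Or.inr ⟨h, h'⟩
    · exact Or.inr ⟨hF.trans h k, h'⟩

theorem g_cber {E : D → D → Prop} (hE : CBER E) {S : Set (Pt D)}
    (hS : ∀ q q', FF E q q' → q ∈ S → q' ∈ S) (hm : MeasurableSet S) : CBER (G E S) := by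
  refine ⟨g_equiv hE hS, ?_, ?_⟩
  · have h1 : MeasurableSet {p : Pt D × Pt D | p.1 = p.2} :=
      measurableSet_eq_fun measurable_fst measurable_snd
    have h2 := (ff_cber hE).meas
    have h3 : MeasurableSet {p : Pt D × Pt D | p.1 ∈ S} := measurable_fst hm
    exact h1.union (h2.inter h3)
  · intro q
    refine Set.Countable.mono ?_ ((Set.countable_singleton q).union ((ff_cber hE).ctbl q))
    rintro q' (h | ⟨h, -⟩)
    · exact Or.inl h.symm
    · exact Or.inr h

theorem g_hf {E : D → D → Prop} (hE : CBER E) {S : Set (Pt D)}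
    (hS : ∀ q q', FF E q q' → q ∈ S → q' ∈ S) (hm : MeasurableSet S) :
    HF (G E S) ↔ HFOn (FF E) S := by
  have heq := g_equiv hE hS
  have hF := (ff_cber hE).equiv
  rw [hf_iff heq]
  constructor
  · intro h
    refine hfon_congr (hfon_mono h hm (Set.subset_univ _)) ?_
    intro x y hx hy
    constructor
    · rintro (h | ⟨h, -⟩)
      · subst h
        exact hF.refl _
      · exact h
    · intro h
      exact Or.inr ⟨h, hx⟩
  · intro h
    have h1 : HFOn (G E S) S := by
      refine hfon_congr h ?_
      intro x y hx hy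
      constructor
      · intro h
        exact Or.inr ⟨h, hx⟩
      · rintro (h | ⟨h, -⟩)
        · subst h
          exact hF.refl _
        · exact h
    have h2 : HFOn (G E S) Sᶜ := by
      refine hfon_id heq.refl hm.compl ?_
      rintro x y hx hy (h | ⟨-, h⟩)
      · exact h
      · exact absurd h hx
    have h3 := hfon_union h1 h2 heq ?_
    · rwa [Set.union_compl_self] at h3
    · rintro x y hx hy (h | ⟨h, h'⟩)
      · subst h
        exact hy hx
      · exact hy (hS _ _ h h')

end MasterAux

open MasterAux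

theorem master {D : Type} [MeasurableSpace D] [StandardBorelSpace D] {E : D → D → Prop}
    (hE : CBER E) {π : D → LOrd} (hπ : Measurable π) (hinv : ∀ d d', E d d' → π d = π d')
    (h1 : ∀ β, Ctbl β → HFOn E {d | Short β (π d) ∧ Ill β (π d)})
    (h2 : ∀ L, IsLO L → (∀ a, L a a = true → Acc (lt L) a) → ¬ HFOn E {d | π d = L}) :
    Hard HFCodes := by
  intro A hA
  obtain ⟨R, hR⟩ := shoenfield hA
  obtain ⟨U, hU⟩ := universal (Pt D × Pt D × ℕ)
  obtain ⟨V, hV, hVc, hVX⟩ := fixed_point (an_xx hE hπ hU)
  have hD : Nonempty D := by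
    by_contra hD
    rw [not_nonempty_iff] at hD
    refine h2 (fun _ _ => false) ⟨?_, ?_, ?_, ?_, ?_⟩ ?_ ?_
    · intro a b h; simp at h
    · intro a b h; simp at h
    · intro a b c h; simp at h
    · intro a b h; simp at h
    · intro a b h; simp at h
    · intro a h; simp at h
    · have : {d : D | π d = fun _ _ => false} = ∅ := Set.eq_empty_of_isEmpty _
      rw [this]
      exact hfon_empty
  obtain ⟨d0⟩ := hD
  have hvm := val_meas hR.meas hV hπ
  have hSm : ∀ y, MeasurableSet {q : Pt D | Val (R y) V π q} := fun y =>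
    (measurable_const.prodMk measurable_id : Measurable fun q : Pt D => (y, q)) hvm
  have hSi : ∀ y (q q' : Pt D), FF E q q' → q ∈ {q : Pt D | Val (R y) V π q} →
      q' ∈ {q : Pt D | Val (R y) V π q} := fun y q q' h hq => val_inv hinv h hq
  refine reduction (Q := Pt D) (pt_not_countable d0)
    (G := fun y => G E {q : Pt D | Val (R y) V π q}) ?_ (fun y => g_cber hE (hSi y) (hSm y)) ?_
  · have k1 : MeasurableSet {p : NN × Pt D × Pt D | p.2.1 = p.2.2} :=
      measurableSet_eq_fun (measurable_fst.comp measurable_snd) (measurable_snd.comp measurable_snd)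
    have k2 : MeasurableSet {p : NN × Pt D × Pt D | FF E p.2.1 p.2.2} :=
      measurable_snd (ff_cber hE).meas
    have k3 : MeasurableSet {p : NN × Pt D × Pt D | Val (R p.1) V π p.2.1} :=
      (measurable_fst.prodMk (measurable_fst.comp measurable_snd) :
        Measurable fun p : NN × Pt D × Pt D => (p.1, p.2.1)) hvm
    exact k1.union (k2.inter k3)
  · intro y
    rw [g_hf hE (hSi y) (hSm y)]
    constructor
    · intro hy
      exact beta hR hy hE hπ hinv h1 hU hV hVX
    · intro h
      by_contra hy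
      exact gamma hR hy hE hπ h2 hU hV hVc hVX h

end Pool.Agent.Lib.HFC
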