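import Pool.Agent.Lib.HFC.Eng
import Pool.Agent.Lib.HFC.Kon
import Pool.Agent.Lib.HFC.Master

/-!
# Module HFC.EngD: increasing unions of hyperfinite relations, final part (MP_3091e6_lc)

`BT L x m` is the tree of the finite sequences (in the reverse order) which are descending in `L` and, from the place `m` on, not
good for `x`: `BT L x Gd m []` always; `n :: s` belongs to it if `s` does, `L n n`, (`s = c :: _ → lt L n c`), and (`m ≤ s.length → ¬ Gd x s n`).
`DD` is the set of the pairs `(L, x)` with `IsLO L` and such that for all `i m s` with `m ≤ s.length` there is `l` such that no extension `τ ++ s` in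
`BT L (g i x) m` has `l ≤ τ.length`.
PROOF of `union_hard`. `K`, `Gd` from `engine`, `g` from `lusin_novikov hE`. Apply `master` to `D = {p : LOrd × X // p ∈ DD}` (measurable: all
conditions are countable combinations of measurable ones), relation `p.1 = p'.1 ∧ E p.2 p'.2` (a `CBER`), `π = Prod.fst`.
(i) `β` countable: `b` from `desc`. On `{p | Short β p.1 ∧ Ill β p.1}` let `F n p p'` be: both in this set, `p.1 = p'.1` and
`K (PiNat.res (b p.1) n) p.2 p'.2`. Measurable (countable union over the values `σ` of `PiNat.res (b L) n`). Increasing by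
`Engine.mono` (`PiNat.res_succ`). Union: let `E p.2 p'.2`, `L = p.1`, `x = p.2`; by `Engine.good` it is enough that for every `N` there is
`n ≥ N` with `Gd x (res b n) (b n)`. Otherwise for some `N` all the `res b n` are in `BT L x N` (`x = g i x` for some `i`), which contradicts
the definition of `DD` for `s = res b N`, `m = N` (`res b (N + l) = τ ++ res b N` with `τ.length = l`).
(ii) `L` a well order: `hfon_pull` along `x ↦ (L, x)`: `(L, x) ∈ DD` for all `x`: the tree `T` of all `s` in `BT L x' m` is closed;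
the nodes `s` with `m ≤ s.length` have finitely many children (`Engine.large`); `Acc (child T) s` for all `s` (a branch of `T` would be
an infinite descending sequence in `L`; or by `Acc` induction on the first element of `s`, and for `s = []` on all children). To apply
`konig` (which asks finitely many children for all nodes) use the tree of the nodes of `T` which are extensions of `s` or
initial segments of `s` (for these the finiteness is clear), or prove the bound directly by `Acc` induction. So `HFOn E univ`, and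
`HF E` (`hf_iff`), a contradiction.
-/

set_option autoImplicit false

namespace Pool.Agent.Lib.HFC

/-- descending sequences which are not good from the place `m` on -/
def BT {X : Type} (Gd : X → List ℕ → ℕ → Prop) (L : LOrd) (x : X) (m : ℕ) : List ℕ → Prop
  | [] => True
  | n :: s => BT Gd L x m s ∧ L n n = true ∧ (∀ c, s.head? = some c → lt L n c) ∧
      (m ≤ s.length → ¬ Gd x s n)

/-- pairs `(L, x)` for which the bad sequences are bounded -/
def DD {X : Type} (Gd : X → List ℕ → ℕ → Prop) (g : ℕ → X → X) : Set (LOrd × X) :=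
  {p | IsLO p.1 ∧ ∀ (i m : ℕ) (s : List ℕ), m ≤ s.length →
    ∃ l : ℕ, ∀ τ : List ℕ, BT Gd p.1 (g i p.2) m (τ ++ s) → τ.length < l}

namespace EngDAux

/-! ### The tree of the bad descending sequences is of bounded height over well orders -/

section bound

variable {X : Type} {Gd : X → List ℕ → ℕ → Prop} {L : LOrd} {x : X} {m : ℕ}

theorem bt_drop : ∀ (τ s : List ℕ), BT Gd L x m (τ ++ s) → BT Gd L x m s
  | [], _, h => h
  | n :: τ, s, h => bt_drop τ s (by
      rw [List.cons_append] at h
      exact h.1)

theorem step (hl : ∀ σ, ∃ k0, ∀ k, k0 ≤ k → Gd x σ k) (s : List ℕ) (hs : m ≤ s.length)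
    (h : ∀ n, BT Gd L x m (n :: s) →
      ∃ l : ℕ, ∀ τ : List ℕ, BT Gd L x m (τ ++ (n :: s)) → τ.length < l) :
    ∃ l : ℕ, ∀ τ : List ℕ, BT Gd L x m (τ ++ s) → τ.length < l := by
  classical
  obtain ⟨k0, hk0⟩ := hl s
  have h' : ∀ n, ∃ l : ℕ, BT Gd L x m (n :: s) →
      ∀ τ : List ℕ, BT Gd L x m (τ ++ (n :: s)) → τ.length < l := by
    intro n
    by_cases hn : BT Gd L x m (n :: s)
    · obtain ⟨l, hl⟩ := h n hn
      exact ⟨l, fun _ => hl⟩
    · exact ⟨0, fun h => (hn h).elim⟩
  choose l hl' using h'
  refine ⟨(Finset.range k0).sup l + 1, fun τ hτ => ?_⟩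
  rcases List.eq_nil_or_concat τ with rfl | ⟨τ', n, rfl⟩
  · exact Nat.succ_pos _
  · rw [List.concat_eq_append] at hτ ⊢
    rw [List.append_assoc, List.singleton_append] at hτ
    have h1 : BT Gd L x m (n :: s) := bt_drop τ' (n :: s) hτ
    have h2 : ¬ Gd x s n := h1.2.2.2 hs
    have h3 : n < k0 := by
      by_contra hc
      exact h2 (hk0 n (not_lt.1 hc))
    have h4 : τ'.length < l n := hl' n h1 τ' hτ
    have h5 : l n ≤ (Finset.range k0).sup l := Finset.le_sup (Finset.mem_range.2 h3)
    rw [List.length_append, List.length_singleton]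
    omega

theorem bound_cons (hl : ∀ σ, ∃ k0, ∀ k, k0 ≤ k → Gd x σ k) : ∀ c : ℕ, Acc (lt L) c →
    ∀ s : List ℕ, m ≤ (c :: s).length →
      ∃ l : ℕ, ∀ τ : List ℕ, BT Gd L x m (τ ++ (c :: s)) → τ.length < l := by
  intro c hc
  induction hc with
  | intro c _ ih =>
    intro s hs
    refine step hl (c :: s) hs fun n hn => ?_
    have h1 : lt L n c := hn.2.2.1 c rfl
    exact ih n h1 (c :: s) (hs.trans (by simp))

theorem bound (hl : ∀ σ, ∃ k0, ∀ k, k0 ≤ k → Gd x σ k) (hL : ∀ a, L a a = true → Acc (lt L) a)
    (s : List ℕ) (hs : m ≤ s.length) :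
    ∃ l : ℕ, ∀ τ : List ℕ, BT Gd L x m (τ ++ s) → τ.length < l :=
  step hl s hs fun n hn => bound_cons hl n (hL n hn.2.1) s (hs.trans (by simp))

end bound

/-! ### Initial segments of a sequence -/

theorem res_add (b : NN) (N : ℕ) : ∀ l : ℕ, ∃ τ : List ℕ, τ.length = l ∧
    PiNat.res b (N + l) = τ ++ PiNat.res b N := by
  intro l
  induction l with
  | zero => exact ⟨[], rfl, rfl⟩
  | succ l ih =>
    obtain ⟨τ, h1, h2⟩ := ih
    refine ⟨b (N + l) :: τ, by rw [List.length_cons, h1], ?_⟩
    rw [← Nat.add_assoc, PiNat.res_succ, h2, List.cons_append]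

theorem bt_res {X : Type} {Gd : X → List ℕ → ℕ → Prop} {L : LOrd} {x : X} {b : NN} {N : ℕ}
    (h1 : ∀ n, L (b n) (b n) = true) (h2 : ∀ n, lt L (b (n + 1)) (b n))
    (h3 : ∀ n, N ≤ n → ¬ Gd x (PiNat.res b n) (b n)) :
    ∀ n, BT Gd L x N (PiNat.res b n) := by
  intro n
  induction n with
  | zero => exact trivial
  | succ n ih =>
    rw [PiNat.res_succ]
    refine ⟨ih, h1 n, ?_, ?_⟩
    · intro c hc
      cases n with
      | zero =>
        rw [PiNat.res_zero] at hc
        simp at hc
      | succ n =>
        rw [PiNat.res_succ, List.head?_cons, Option.some.injEq] at hc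
        rw [← hc]
        exact h2 n
    · intro hN
      rw [PiNat.res_length] at hN
      exact h3 n hN

theorem res_meas' (n : ℕ) : ∀ s : List ℕ, MeasurableSet {u : NN | PiNat.res u n = s} := by
  induction n with
  | zero =>
    intro s
    have h : {u : NN | PiNat.res u 0 = s} = {_u : NN | [] = s} := rfl
    rw [h]
    exact MeasurableSet.const _
  | succ n ih =>
    intro s
    cases s with
    | nil =>
      have h : {u : NN | PiNat.res u (n + 1) = []} = ∅ := by
        ext u
        simp [PiNat.res_succ]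
      rw [h]
      exact MeasurableSet.empty
    | cons a s =>
      have h : {u : NN | PiNat.res u (n + 1) = a :: s} =
          (fun u : NN => u n) ⁻¹' {a} ∩ {u : NN | PiNat.res u n = s} := by
        ext u
        simp [PiNat.res_succ]
      rw [h]
      exact ((measurable_pi_apply n) (MeasurableSet.singleton a)).inter (ih s)

/-! ### Measurability -/

open FrameAux

section meas

variable {X : Type} [MeasurableSpace X]

theorem bt_meas {Gd : X → List ℕ → ℕ → Prop} (hG : ∀ σ k, MeasurableSet {x | Gd x σ k})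
    {f : X → X} (hf : Measurable f) (m : ℕ) : ∀ s : List ℕ,
    Measurable fun p : LOrd × X => BT Gd p.1 (f p.2) m s
  | [] => m_const True
  | n :: s => by
    have h1 := bt_meas hG hf m s
    have hL : Measurable fun p : LOrd × X => p.1 := measurable_fst
    have h2 : Measurable fun p : LOrd × X => Gd (f p.2) s n :=
      measurableSet_setOfPred.1 ((hf.comp measurable_snd) (hG s n))
    have h3 : Measurable fun p : LOrd × X => ∀ c, s.head? = some c → lt p.1 n c :=
      Measurable.forall fun c => (m_const _).imp (m_lt hL measurable_const measurable_const)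
    exact h1.and ((m_ap2 hL n n).and (h3.and ((m_const _).imp h2.not)))

theorem dd_meas {Gd : X → List ℕ → ℕ → Prop} (hG : ∀ σ k, MeasurableSet {x | Gd x σ k})
    {g : ℕ → X → X} (hg : ∀ i, Measurable (g i)) : MeasurableSet (DD Gd g) := by
  have h : Measurable fun p : LOrd × X => IsLO p.1 ∧ ∀ (i m : ℕ) (s : List ℕ), m ≤ s.length →
      ∃ l : ℕ, ∀ τ : List ℕ, BT Gd p.1 (g i p.2) m (τ ++ s) → τ.length < l := by
    refine (measurableSet_setOfPred.1 (islo_meas measurable_fst)).and ?_
    exact Measurable.forall fun i => Measurable.forall fun m => Measurable.forall fun s =>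
      (m_const _).imp (Measurable.exists fun l => Measurable.forall fun τ =>
        (bt_meas hG (hg i) m (τ ++ s)).imp (m_const _))
  exact measurableSet_setOfPred.2 h

theorem short_meas {Ω : Type} [MeasurableSpace Ω] {L : Ω → LOrd} (hL : Measurable L)
    {β : Ordinal.{0}} (hβ : Ctbl β) : MeasurableSet {ω | Short β (L ω)} := by
  refine measurableSet_setOfPred.2 ?_
  exact Measurable.forall fun b => (m_ap2 hL b b).imp
    (measurableSet_setOfPred.1 (hasRank_lt_meas hL hβ b)).not

theorem ill_meas {Ω : Type} [MeasurableSpace Ω] {L : Ω → LOrd} (hL : Measurable L)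
    {β : Ordinal.{0}} (hβ : Ctbl β) : MeasurableSet {ω | Ill β (L ω)} := by
  haveI : Countable (Set.Iio β) := hβ.to_subtype
  have h : {ω | Ill β (L ω)} =
      {ω | ∃ b, L ω b b = true ∧ ∀ γ : Set.Iio β, ¬ HasRank (lt (L ω)) b γ.1} := by
    ext ω
    constructor
    · rintro ⟨b, h1, h2⟩
      exact ⟨b, h1, fun γ => h2 γ.1 γ.2⟩
    · rintro ⟨b, h1, h2⟩
      exact ⟨b, h1, fun γ hγ => h2 ⟨γ, hγ⟩⟩
  rw [h]
  refine measurableSet_setOfPred.2 ?_
  exact Measurable.exists fun b => (m_ap2 hL b b).and (Measurable.forall fun γ =>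
    (measurableSet_setOfPred.1 (hasRank_lt_meas hL (ctbl_mono hβ (le_of_lt γ.2)) b)).not)

end meas

/-! ### The relation on the pairs -/

/-- the relation on the pairs `(L, x)` -/
def EE {X : Type} (E : X → X → Prop) {D : Set (LOrd × X)} (p p' : D) : Prop :=
  p.1.1 = p'.1.1 ∧ E p.1.2 p'.1.2

section rel

variable {X : Type} [MeasurableSpace X]

theorem m1 {D : Set (LOrd × X)} : Measurable fun p : D × D => p.1.1.1 :=
  measurable_fst.comp (measurable_subtype_coe.comp measurable_fst)

theorem m2 {D : Set (LOrd × X)} : Measurable fun p : D × D => p.2.1.1 :=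
  measurable_fst.comp (measurable_subtype_coe.comp measurable_snd)

theorem m12 {D : Set (LOrd × X)} : Measurable fun p : D × D => (p.1.1.2, p.2.1.2) :=
  (measurable_snd.comp (measurable_subtype_coe.comp measurable_fst)).prodMk
    (measurable_snd.comp (measurable_subtype_coe.comp measurable_snd))

theorem ee_cber {E : X → X → Prop} (hE : CBER E) (D : Set (LOrd × X)) :
    CBER (EE E (D := D)) := by
  refine ⟨⟨fun p => ⟨rfl, hE.equiv.refl _⟩, fun h => ⟨h.1.symm, hE.equiv.symm h.2⟩,
    fun h h' => ⟨h.1.trans h'.1, hE.equiv.trans h.2 h'.2⟩⟩, ?_, fun p => ?_⟩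
  · have h1 : MeasurableSet {p : D × D | p.1.1.1 = p.2.1.1} := measurableSet_eq_fun m1 m2
    exact h1.inter (m12 hE.meas)
  · refine Set.MapsTo.countable_of_injOn (f := fun p' : D => p'.1.2)
      (t := {y | E p.1.2 y}) (fun p' h => h.2) ?_ (hE.ctbl _)
    rintro a ha b hb hab
    exact Subtype.ext (Prod.ext (ha.1.symm.trans hb.1) hab)

end rel

end EngDAux

open EngDAux

theorem union_hard {X : Type} [MeasurableSpace X] [StandardBorelSpace X] {E : X → X → Prop}
    (hE : CBER E) (hn : ¬ HF E) {H : ℕ → X → X → Prop} (hH : ∀ n, CBER (H n))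
    (hHF : ∀ n, HF (H n)) (hmono : ∀ n x y, H n x y → H (n + 1) x y)
    (hun : ∀ x y, E x y ↔ ∃ n, H n x y) : Hard HFCodes := by
  obtain ⟨K, Gd, hG⟩ := engine hE hH hHF hmono hun
  obtain ⟨g, hg, hgE⟩ := lusin_novikov hE
  have hDm : MeasurableSet (DD Gd g) := dd_meas hG.gmeas hg
  haveI : StandardBorelSpace (DD Gd g) := hDm.standardBorel
  have hπ : Measurable fun p : DD Gd g => p.1.1 := measurable_fst.comp measurable_subtype_coe
  refine master (D := DD Gd g) (ee_cber hE (DD Gd g)) hπ (fun d d' h => h.1) ?_ ?_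
  · -- countable `β`
    intro β hβ
    obtain ⟨b, hb, hb'⟩ := desc hβ
    refine ⟨fun n p p' => (Short β p.1.1 ∧ Ill β p.1.1) ∧ (Short β p'.1.1 ∧ Ill β p'.1.1) ∧
      p.1.1 = p'.1.1 ∧ K (PiNat.res (b p.1.1) n) p.1.2 p'.1.2, ?_, fun n => ?_⟩
    · exact
        { sub := fun n p p' h => ⟨h.1, h.2.1, h.2.2.1, hG.sub _ _ _ h.2.2.2⟩
          refl := fun n p h => ⟨h, h, rfl, (hG.equiv _).refl _⟩
          symm := fun n p p' h => ⟨h.2.1, h.1, h.2.2.1.symm, by
            rw [← h.2.2.1]
            exact (hG.equiv _).symm h.2.2.2⟩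
          trans := fun n p p' p'' h h' => ⟨h.1, h'.2.1, h.2.2.1.trans h'.2.2.1, by
            have h1 := h'.2.2.2
            rw [← h.2.2.1] at h1
            exact (hG.equiv _).trans h.2.2.2 h1⟩
          fin := fun n p => by
            refine Set.Finite.of_injOn (f := fun p' : DD Gd g => p'.1.2)
              (t := {y | K (PiNat.res (b p.1.1) n) p.1.2 y}) (fun p' h => h.2.2.2) ?_
              (hG.fin _ _)
            rintro a ha c hc hac
            exact Subtype.ext (Prod.ext (ha.2.2.1.symm.trans hc.2.2.1) hac)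
          mono := fun n p p' h => ⟨h.1, h.2.1, h.2.2.1, by
            rw [PiNat.res_succ]
            exact hG.mono _ _ _ _ h.2.2.2⟩
          union := fun p p' h h' hEE => by
            obtain ⟨hL, hx⟩ := hEE
            obtain ⟨hd1, hd2⟩ := hb' p.1.1 p.2.1 h.1 h.2
            have key : ∀ N, ∃ n, N ≤ n ∧
                Gd p.1.2 (PiNat.res (b p.1.1) n) (b p.1.1 n) := by
              by_contra hc
              push Not at hc
              obtain ⟨N, hN⟩ := hc
              have h3 := bt_res hd1 hd2 hN
              obtain ⟨i, hi⟩ := (hgE p.1.2 p.1.2).1 (hE.equiv.refl _)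
              obtain ⟨l, hl⟩ := p.2.2 i N (PiNat.res (b p.1.1) N)
                (by rw [PiNat.res_length])
              obtain ⟨τ, hτ1, hτ2⟩ := res_add (b p.1.1) N l
              have h4 := h3 (N + l)
              rw [hτ2] at h4
              have h5 := hl τ (by rw [hi]; exact h4)
              omega
            obtain ⟨n, hn⟩ := hG.good (b p.1.1) p.1.2 p'.1.2 hx key
            exact ⟨n, h, h', hL, hn⟩ }
    · have hs1 : MeasurableSet {q : DD Gd g × DD Gd g | Short β q.1.1.1} := short_meas m1 hβ
      have hs2 : MeasurableSet {q : DD Gd g × DD Gd g | Ill β q.1.1.1} := ill_meas m1 hβ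
      have hs3 : MeasurableSet {q : DD Gd g × DD Gd g | Short β q.2.1.1} := short_meas m2 hβ
      have hs4 : MeasurableSet {q : DD Gd g × DD Gd g | Ill β q.2.1.1} := ill_meas m2 hβ
      have hs5 : MeasurableSet {q : DD Gd g × DD Gd g | q.1.1.1 = q.2.1.1} :=
        measurableSet_eq_fun m1 m2
      have hs6 : MeasurableSet {q : DD Gd g × DD Gd g |
          K (PiNat.res (b q.1.1.1) n) q.1.1.2 q.2.1.2} := by
        have h6 : {q : DD Gd g × DD Gd g | K (PiNat.res (b q.1.1.1) n) q.1.1.2 q.2.1.2} =
            ⋃ σ : List ℕ, {q : DD Gd g × DD Gd g | PiNat.res (b q.1.1.1) n = σ} ∩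
              {q : DD Gd g × DD Gd g | K σ q.1.1.2 q.2.1.2} := by
          ext q
          simp only [Set.mem_iUnion]
          constructor
          · intro h
            exact ⟨_, rfl, h⟩
          · rintro ⟨σ, h1, h2⟩
            change PiNat.res (b q.1.1.1) n = σ at h1
            change K σ q.1.1.2 q.2.1.2 at h2
            change K (PiNat.res (b q.1.1.1) n) q.1.1.2 q.2.1.2
            rw [h1]
            exact h2
        rw [h6]
        exact MeasurableSet.iUnion fun σ =>
          ((hb.comp m1) (res_meas' n σ)).inter (m12 (hG.meas σ))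
      exact (hs1.inter hs2).inter ((hs3.inter hs4).inter (hs5.inter hs6))
  · -- well orders
    intro L hL hacc hHFL
    apply hn
    have hmem : ∀ x : X, (L, x) ∈ DD Gd g := fun x =>
      ⟨hL, fun i m s hs => bound (fun σ => hG.large (g i x) σ) hacc s hs⟩
    refine (hf_iff hE.equiv).2 (hfon_pull hHFL hE.equiv hE.meas MeasurableSet.univ
      (f := fun x => (⟨(L, x), hmem x⟩ : DD Gd g))
      (Measurable.subtype_mk (measurable_const.prodMk measurable_id)) (fun x _ => rfl)
      (fun x y _ _ h => ⟨rfl, h⟩) ?_)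
    intro x y _ _ _ hxy
    exact congrArg (fun p : DD Gd g => p.1.2) hxy

end Pool.Agent.Lib.HFC
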