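import Pool.Agent.Lib.HFC.SgB

/-!
# Module HFC.Sub: restrictions to Borel subsets (MP_3091e6_lc)
-/

set_option autoImplicit false

namespace Pool.Agent.Lib.HFC

/-- the parts of the trees over `Xa α` are Borel -/
theorem xa_trace {X : Type} [MeasurableSpace X] [StandardBorelSpace X] {E : X → X → Prop}
    (hE : CBER E) {g : ℕ → X → X} (hg : ∀ i, Measurable (g i))
    (hgE : ∀ x y, E x y ↔ ∃ i, g i x = y) {T : ℕ → X × X → Tree} (hT : ∀ k, Measurable (T k))
    {α : Ordinal.{0}} (hα : Ctbl α) (k : ℕ) :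
    MeasurableSet {z : X × X | z ∈ {p : X × X | p.1 ∈ Xa g T α ∧ E p.1 p.2} ∧
      ∃ u, Br (T k z) u} := by
  have hY : MeasurableSet {p : X × X | p.1 ∈ Xa g T α ∧ E p.1 p.2} :=
    (measurable_fst (xa_meas hg hT hα)).inter hE.meas
  have h1 : {z : X × X | z ∈ {p : X × X | p.1 ∈ Xa g T α ∧ E p.1 p.2} ∧ ∃ u, Br (T k z) u} =
      {p : X × X | p.1 ∈ Xa g T α ∧ E p.1 p.2} ∩
        ((T k) ⁻¹' {t : Tree | t [] = true} ∩
          (⋃ γ : Set.Iio α, {z : X × X | HasRank (child (T k z)) [] γ.1})ᶜ) := by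
    ext ⟨x, y⟩
    simp only [Set.mem_ofPred_eq, Set.mem_inter_iff, Set.mem_preimage, Set.mem_compl_iff,
      Set.mem_iUnion, Subtype.exists, Set.mem_Iio, exists_prop]
    constructor
    · rintro ⟨⟨h2, h3⟩, h4⟩
      exact ⟨⟨h2, h3⟩, (xa_branch hE.equiv hgE h2 h3 k).1 h4⟩
    · rintro ⟨⟨h2, h3⟩, h4⟩
      exact ⟨⟨h2, h3⟩, (xa_branch hE.equiv hgE h2 h3 k).2 h4⟩
  rw [h1]
  have : Countable (Set.Iio α) := hα.to_subtype
  refine hY.inter (MeasurableSet.inter ?_ (MeasurableSet.compl (MeasurableSet.iUnion fun γ => ?_)))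
  · have h2 : MeasurableSet ((fun t : Tree => t []) ⁻¹' {true}) :=
      (measurable_pi_apply (X := fun _ : List ℕ => Bool) []) (MeasurableSet.singleton true)
    exact hT k h2
  · exact hasRank_child_meas (hT k) (ctbl_mono hα (le_of_lt γ.2)) []

theorem cber_sub {X : Type} [MeasurableSpace X] {E : X → X → Prop} (hE : CBER E) (S : Set X) :
    CBER fun x y : S => E x y := by
  have hi : Measurable fun p : S × S => ((p.1 : X), (p.2 : X)) :=
    (measurable_subtype_coe.comp measurable_fst).prodMk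
      (measurable_subtype_coe.comp measurable_snd)
  exact
    { equiv := ⟨fun x => hE.equiv.refl _, fun h => hE.equiv.symm h, fun h h' =>
        hE.equiv.trans h h'⟩
      meas := hi hE.meas
      ctbl := fun x => (hE.ctbl x).preimage_of_injOn Subtype.val_injective.injOn }

theorem hfon_sub {X : Type} [MeasurableSpace X] {E : X → X → Prop} {S : Set X}
    (hS : MeasurableSet S) (h : HF fun x y : S => E x y) : HFOn E S := by
  obtain ⟨G, hG, hGm⟩ := h
  refine ⟨fun n x y => ∃ (hx : x ∈ S) (hy : y ∈ S), G n ⟨x, hx⟩ ⟨y, hy⟩, ?_, fun n => ?_⟩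
  · exact
      { sub := fun n x y ⟨hx, hy, h⟩ => ⟨hx, hy, (hG.union ⟨x, hx⟩ ⟨y, hy⟩).2 ⟨n, h⟩⟩
        refl := fun n x hx => ⟨hx, hx, (hG.equiv n).refl _⟩
        symm := fun n x y ⟨hx, hy, h⟩ => ⟨hy, hx, (hG.equiv n).symm h⟩
        trans := fun n x y z ⟨hx, hy, h⟩ ⟨_, hz, h'⟩ => ⟨hx, hz, (hG.equiv n).trans h h'⟩
        fin := fun n x => by
          by_cases hx : x ∈ S
          · refine ((hG.fin n ⟨x, hx⟩).image Subtype.val).subset ?_
            rintro y ⟨_, hy, h⟩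
            exact ⟨⟨y, hy⟩, h, rfl⟩
          · have h5 : {y | ∃ (hx : x ∈ S) (hy : y ∈ S), G n ⟨x, hx⟩ ⟨y, hy⟩} = ∅ := by
              ext y
              simp [hx]
            rw [h5]
            exact Set.finite_empty
        mono := fun n x y ⟨hx, hy, h⟩ => ⟨hx, hy, hG.mono n _ _ h⟩
        union := fun x y hx hy h => by
          obtain ⟨n, hn'⟩ := (hG.union ⟨x, hx⟩ ⟨y, hy⟩).1 h
          exact ⟨n, hx, hy, hn'⟩ }
  · have hemb : MeasurableEmbedding fun p : S × S => ((p.1 : X), (p.2 : X)) :=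
      (MeasurableEmbedding.subtype_coe hS).prodMap (MeasurableEmbedding.subtype_coe hS)
    have h6 := hemb.measurableSet_image.2 (hGm n)
    have h7 : (fun p : S × S => ((p.1 : X), (p.2 : X))) '' {p | G n p.1 p.2} =
        {p : X × X | ∃ (hx : p.1 ∈ S) (hy : p.2 ∈ S), G n ⟨p.1, hx⟩ ⟨p.2, hy⟩} := by
      ext ⟨x, y⟩
      constructor
      · rintro ⟨⟨a, b⟩, hab, h8⟩
        have h9 : (a : X) = x := congrArg Prod.fst h8
        have h10 : (b : X) = y := congrArg Prod.snd h8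
        subst h9 h10
        exact ⟨a.2, b.2, hab⟩
      · rintro ⟨hx, hy, h8⟩
        exact ⟨(⟨x, hx⟩, ⟨y, hy⟩), h8, rfl⟩
    rw [h7] at h6
    exact h6

end Pool.Agent.Lib.HFC
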