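import Pool.Agent.Lib.HFC.Final
import Pool.Agent.Lib.HFC.CCs
import Pool.Agent.Lib.HFC.Sub
import Pool.Agent.Lib.HFC.EngD

/-!
# Module HFC.DecK: closure under unions and under the decision of analytic sets (MP_3091e6_lc)

`KK m` is the smallest class of relations which contains the finite equivalence relations of level `m` of the hierarchy of
C-sets, the unions of the increasing sequences of its elements, and the countable Borel equivalence relations `E` such that
for some analytic sets `A k` the class contains all the restrictions of `E` to the invariant Borel sets on which the sets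
`A k` are Borel.
-/

set_option autoImplicit false

namespace Pool.Agent.Lib.HFC

/-- the restriction of `E` to `Z`, as a relation on the whole space -/
def Cut {X : Type} (Z : Set X) (E : X → X → Prop) : X → X → Prop :=
  fun x y => x = y ∨ (x ∈ Z ∧ y ∈ Z ∧ E x y)

/-- the class -/
inductive KK {X : Type} [MeasurableSpace X] (m : ℕ) : (X → X → Prop) → Prop
  | fin (F : X → X → Prop) (h1 : Equivalence F) (h2 : ∀ x, {y | F x y}.Finite)
      (h3 : @MeasurableSet (X × X) (CC (X × X) m) {p : X × X | F p.1 p.2}) : KK m F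
  | union (F : ℕ → X → X → Prop) (h : ∀ n, KK m (F n))
      (hm : ∀ n x y, F n x y → F (n + 1) x y) : KK m fun x y => ∃ n, F n x y
  | dec (E : X → X → Prop) (hE : CBER E) (A : ℕ → Set (X × X)) (hA : ∀ k, An (A k))
      (h : ∀ Z : Set X, MeasurableSet Z → (∀ x y, E x y → x ∈ Z → y ∈ Z) →
        (∀ k, MeasurableSet (A k ∩ {p : X × X | p.1 ∈ Z ∧ E p.1 p.2})) → KK m (Cut Z E)) :
      KK m E

theorem mono_le {X : Type} {F : ℕ → X → X → Prop} (hm : ∀ n x y, F n x y → F (n + 1) x y)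
    {n n' : ℕ} (h : n ≤ n') {x y : X} (hxy : F n x y) : F n' x y := by
  induction n', h using Nat.le_induction with
  | base => exact hxy
  | succ k _ ih => exact hm k x y ih

theorem equiv_union {X : Type} {F : ℕ → X → X → Prop} (h : ∀ n, Equivalence (F n))
    (hm : ∀ n x y, F n x y → F (n + 1) x y) : Equivalence fun x y => ∃ n, F n x y :=
  ⟨fun x => ⟨0, (h 0).refl x⟩, fun ⟨n, hn⟩ => ⟨n, (h n).symm hn⟩, fun ⟨n, hn⟩ ⟨n', hn'⟩ =>
    ⟨max n n', (h _).trans (mono_le hm (le_max_left n n') hn)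
      (mono_le hm (le_max_right n n') hn')⟩⟩

theorem cber_fin {X : Type} [MeasurableSpace X] {F : X → X → Prop} (h1 : Equivalence F)
    (h2 : ∀ x, {y | F x y}.Finite) (h3 : MeasurableSet {p : X × X | F p.1 p.2}) :
    CBER F ∧ HF F :=
  ⟨⟨h1, h3, fun x => (h2 x).countable⟩, fun _ => F,
    ⟨fun _ => h1, fun _ => h2, fun _ _ _ h => h, fun x y => ⟨fun h => ⟨0, h⟩, fun ⟨_, h⟩ => h⟩⟩,
    fun _ => h3⟩

theorem cber_union {X : Type} [MeasurableSpace X] {F : ℕ → X → X → Prop}
    (h : ∀ n, CBER (F n)) (hm : ∀ n x y, F n x y → F (n + 1) x y) :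
    CBER fun x y => ∃ n, F n x y := by
  refine ⟨equiv_union (fun n => (h n).equiv) hm, ?_, fun x => ?_⟩
  · have h1 : {p : X × X | ∃ n, F n p.1 p.2} = ⋃ n, {p : X × X | F n p.1 p.2} := by
      ext p
      simp
    rw [h1]
    exact MeasurableSet.iUnion fun n => (h n).meas
  · have h1 : {y | ∃ n, F n x y} = ⋃ n, {y | F n x y} := by
      ext y
      simp
    rw [h1]
    exact Set.countable_iUnion fun n => (h n).ctbl x

theorem cut_equiv {X : Type} {E : X → X → Prop} (hE : Equivalence E) (Z : Set X) :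
    Equivalence (Cut Z E) := by
  refine ⟨fun x => Or.inl rfl, ?_, ?_⟩
  · rintro x y (h | ⟨hx, hy, h⟩)
    · exact Or.inl h.symm
    · exact Or.inr ⟨hy, hx, hE.symm h⟩
  · rintro x y z (h | ⟨hx, hy, h⟩) h'
    · rw [h]
      exact h'
    · rcases h' with h' | ⟨_, hz, h'⟩
      · rw [← h']
        exact Or.inr ⟨hx, hy, h⟩
      · exact Or.inr ⟨hx, hz, hE.trans h h'⟩

theorem cut_le {X : Type} {E E0 : X → X → Prop} (hE0 : Equivalence E0)
    (h : ∀ x y, E x y → E0 x y) (Z : Set X) : ∀ x y, Cut Z E x y → E0 x y := by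
  rintro x y (h' | ⟨_, _, h'⟩)
  · rw [h']
    exact hE0.refl y
  · exact h x y h'

theorem cut_cber {X : Type} [MeasurableSpace X] [StandardBorelSpace X] {E : X → X → Prop}
    (hE : CBER E) {Z : Set X} (hZ : MeasurableSet Z) : CBER (Cut Z E) := by
  refine ⟨cut_equiv hE.equiv Z, ?_, fun x => ?_⟩
  · have h1 : {p : X × X | Cut Z E p.1 p.2} = {p : X × X | p.1 = p.2} ∪
        ((Prod.fst ⁻¹' Z) ∩ ((Prod.snd ⁻¹' Z) ∩ {p : X × X | E p.1 p.2})) := by
      ext p
      rfl
    rw [h1]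
    exact (measurableSet_eq_fun measurable_fst measurable_snd).union
      ((measurable_fst hZ).inter ((measurable_snd hZ).inter hE.meas))
  · refine (hE.ctbl x).mono ?_
    intro y hy
    exact cut_le hE.equiv (fun _ _ h => h) Z x y hy

/-- a witness for the restriction -/
theorem cut_hfon {X : Type} [MeasurableSpace X] {E : X → X → Prop} (hE : Equivalence E)
    {Z : Set X} (hZ : MeasurableSet Z) (h : HF (Cut Z E)) : HFOn E Z := by
  obtain ⟨F, hF, hFm⟩ := h
  refine ⟨fun n x y => x ∈ Z ∧ y ∈ Z ∧ F n x y, ?_, fun n => ?_⟩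
  · exact
      { sub := fun n x y ⟨hx, hy, h⟩ => by
          refine ⟨hx, hy, ?_⟩
          rcases (hF.union x y).2 ⟨n, h⟩ with h' | ⟨_, _, h'⟩
          · rw [h']
            exact hE.refl y
          · exact h'
        refl := fun n x hx => ⟨hx, hx, (hF.equiv n).refl x⟩
        symm := fun n x y ⟨hx, hy, h⟩ => ⟨hy, hx, (hF.equiv n).symm h⟩
        trans := fun n x y z ⟨hx, hy, h⟩ ⟨_, hz, h'⟩ => ⟨hx, hz, (hF.equiv n).trans h h'⟩
        fin := fun n x => (hF.fin n x).subset fun y ⟨_, _, h⟩ => h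
        mono := fun n x y ⟨hx, hy, h⟩ => ⟨hx, hy, hF.mono n x y h⟩
        union := fun x y hx hy h => by
          obtain ⟨n, hn⟩ := (hF.union x y).1 (Or.inr ⟨hx, hy, h⟩)
          exact ⟨n, hx, hy, hn⟩ }
  · have h1 : {p : X × X | p.1 ∈ Z ∧ p.2 ∈ Z ∧ F n p.1 p.2} =
        (Prod.fst ⁻¹' Z) ∩ ((Prod.snd ⁻¹' Z) ∩ {p : X × X | F n p.1 p.2}) := by
      ext p
      rfl
    rw [h1]
    exact (measurable_fst hZ).inter ((measurable_snd hZ).inter (hFm n))

theorem cut_union {X : Type} (Z : Set X) (F : ℕ → X → X → Prop) :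
    Cut Z (fun x y => ∃ n, F n x y) = fun x y => ∃ n, Cut Z (F n) x y := by
  funext x y
  apply propext
  constructor
  · rintro (h | ⟨hx, hy, n, h⟩)
    · exact ⟨0, Or.inl h⟩
    · exact ⟨n, Or.inr ⟨hx, hy, h⟩⟩
  · rintro ⟨n, h | ⟨hx, hy, h⟩⟩
    · exact Or.inl h
    · exact Or.inr ⟨hx, hy, n, h⟩

theorem cut_cut {X : Type} (Z Z' : Set X) (E : X → X → Prop) :
    Cut Z (Cut Z' E) = Cut (Z ∩ Z') E := by
  funext x y
  apply propext
  constructor
  · rintro (h | ⟨hx, hy, h | ⟨hx', hy', h⟩⟩)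
    · exact Or.inl h
    · exact Or.inl h
    · exact Or.inr ⟨⟨hx, hx'⟩, ⟨hy, hy'⟩, h⟩
  · rintro (h | ⟨⟨hx, hx'⟩, ⟨hy, hy'⟩, h⟩)
    · exact Or.inl h
    · exact Or.inr ⟨hx, hy, Or.inr ⟨hx', hy', h⟩⟩

/-- finite relations of level `m` -/
theorem kk_cut_fin {X : Type} [MeasurableSpace X] [StandardBorelSpace X] {m : ℕ}
    {F : X → X → Prop} (h1 : Equivalence F) (h2 : ∀ x, {y | F x y}.Finite) {Z : Set X}
    (hZ : MeasurableSet Z) {B : Set (X × X)} (hB : @MeasurableSet (X × X) (CC (X × X) m) B)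
    (hB' : ∀ p : X × X, p.1 ∈ Z → F p.1 p.2 → p ∈ B) (hB2 : ∀ p ∈ B, F p.1 p.2) :
    KK m (Cut Z F) := by
  refine KK.fin _ (cut_equiv h1 Z) (fun x => ?_) ?_
  · refine (h2 x).subset ?_
    intro y hy
    exact cut_le h1 (fun _ _ h => h) Z x y hy
  · have h3 : {p : X × X | Cut Z F p.1 p.2} = {p : X × X | p.1 = p.2} ∪
        ((Prod.fst ⁻¹' Z ∩ Prod.snd ⁻¹' Z) ∩ B) := by
      ext p
      constructor
      · rintro (h | ⟨hx, hy, h⟩)
        · exact Or.inl h
        · exact Or.inr ⟨⟨hx, hy⟩, hB' p hx h⟩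
      · rintro (h | ⟨⟨hx, hy⟩, h⟩)
        · exact Or.inl h
        · exact Or.inr ⟨hx, hy, hB2 p h⟩
    rw [h3]
    refine @MeasurableSet.union _ (CC (X × X) m) _ _
      (cc_borel m (measurableSet_eq_fun measurable_fst measurable_snd))
      (@MeasurableSet.inter _ (CC (X × X) m) _ _
        (cc_borel m ((measurable_fst hZ).inter (measurable_snd hZ))) hB)

/-- restrictions to invariant Borel sets -/
theorem kk_cut {X : Type} [MeasurableSpace X] [StandardBorelSpace X] {m : ℕ}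
    {E : X → X → Prop} (h : KK m E) : ∀ Y : Set X, MeasurableSet Y →
      (∀ x y, E x y → x ∈ Y → y ∈ Y) → KK m (Cut Y E) := by
  induction h with
  | fin F h1 h2 h3 =>
    intro Y hY _
    exact kk_cut_fin h1 h2 hY h3 (fun _ _ h => h) fun _ h => h
  | union F _ hm ih =>
    intro Y hY hi
    rw [cut_union]
    refine KK.union (fun n => Cut Y (F n)) (fun n => ih n Y hY fun x y h => hi x y ⟨n, h⟩) ?_
    rintro n x y (h | ⟨hx, hy, h⟩)
    · exact Or.inl h
    · exact Or.inr ⟨hx, hy, hm n x y h⟩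
  | dec E hE A hA h _ =>
    intro Y hY hi
    refine KK.dec (Cut Y E) (cut_cber hE hY) A hA fun Z hZ hZi hk => ?_
    rw [cut_cut]
    refine h (Z ∩ Y) (hZ.inter hY) ?_ fun k => ?_
    · rintro x y hxy ⟨h1, h2⟩
      have h3 := hi x y hxy h2
      exact ⟨hZi x y (Or.inr ⟨h2, h3, hxy⟩) h1, h3⟩
    · have h1 : A k ∩ {p : X × X | p.1 ∈ Z ∩ Y ∧ E p.1 p.2} =
          (A k ∩ {p : X × X | p.1 ∈ Z ∧ Cut Y E p.1 p.2}) ∩ (Prod.fst ⁻¹' Y) := by
        ext p
        constructor
        · rintro ⟨h2, ⟨h3, h4⟩, h5⟩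
          exact ⟨⟨h2, h3, Or.inr ⟨h4, hi _ _ h5 h4, h5⟩⟩, h4⟩
        · rintro ⟨⟨h2, h3, h5⟩, h4⟩
          exact ⟨h2, ⟨h3, h4⟩, cut_le hE.equiv (fun _ _ h => h) Y _ _ h5⟩
      rw [h1]
      exact (hk k).inter (measurable_fst hY)

/-- the restrictions to the sets where countably many analytic sets are Borel have a smaller level -/
theorem kk_trace {X : Type} [MeasurableSpace X] [StandardBorelSpace X] {m : ℕ}
    {E : X → X → Prop} (h : KK (m + 1) E) :
    ∃ A : ℕ → Set (X × X), (∀ k, An (A k)) ∧ ∀ (E0 : X → X → Prop) (Y : Set X),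
      (∀ x y, E x y → E0 x y) → MeasurableSet Y → (∀ x y, E0 x y → x ∈ Y → y ∈ Y) →
        MeasurableSet {p : X × X | p.1 ∈ Y ∧ E0 p.1 p.2} →
          (∀ k, MeasurableSet (A k ∩ {p : X × X | p.1 ∈ Y ∧ E0 p.1 p.2})) →
            KK m (Cut Y E) := by
  induction h with
  | fin F h1 h2 h3 =>
    obtain ⟨A, hA, hT⟩ := cc_trace0 m _ h3
    refine ⟨A, hA, fun E0 Y hE0 hY _ hYm hk => ?_⟩
    exact kk_cut_fin h1 h2 hY (hT _ hYm hk) (fun p hp h => ⟨h, hp, hE0 _ _ h⟩)
      fun _ h => h.1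
  | union F _ hm ih =>
    choose A hA hT using ih
    refine ⟨fun j => A (Nat.unpair j).1 (Nat.unpair j).2, fun j => hA _ _,
      fun E0 Y hE0 hY hi hYm hk => ?_⟩
    rw [cut_union]
    refine KK.union (fun n => Cut Y (F n)) (fun n => ?_) ?_
    · refine hT n E0 Y (fun x y h => hE0 x y ⟨n, h⟩) hY hi hYm fun k => ?_
      have h1 := hk (Nat.pair n k)
      simp only [Nat.unpair_pair] at h1
      exact h1
    · rintro n x y (h | ⟨hx, hy, h⟩)
      · exact Or.inl h
      · exact Or.inr ⟨hx, hy, hm n x y h⟩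
  | dec E hE A hA _ ih =>
    have h1 : KK m E := by
      refine KK.dec E hE A hA fun Z hZ hi hk => ?_
      obtain ⟨B, hB, hBT⟩ := ih Z hZ hi hk
      have hC := cut_cber hE hZ
      refine KK.dec (Cut Z E) hC B hB fun Z' hZ' hi' hk' => ?_
      exact hBT (Cut Z E) Z' (fun _ _ h => h) hZ' hi' ((measurable_fst hZ').inter hC.meas) hk'
    refine ⟨A, hA, fun E0 Y hE0 hY hi _ _ => ?_⟩
    exact kk_cut h1 Y hY fun x y h => hi x y (hE0 x y h)

/-- Borel relations of the class of level `m` belong to the class of level `0` -/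
theorem kk_red {X : Type} [MeasurableSpace X] [StandardBorelSpace X] {m : ℕ}
    {E : X → X → Prop} (hE : CBER E) (h : KK m E) : KK 0 E := by
  induction m with
  | zero => exact h
  | succ m ih =>
    obtain ⟨A, hA, hT⟩ := kk_trace h
    exact ih (KK.dec E hE A hA fun Z hZ hi hk =>
      hT E Z (fun _ _ h => h) hZ hi ((measurable_fst hZ).inter hE.meas) hk)

/-- if the set of the codes is not hard, then the relations of level `0` are hyperfinite -/
theorem kk_zero {X : Type} [MeasurableSpace X] [StandardBorelSpace X] {E : X → X → Prop}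
    (h : KK 0 E) (hc : ¬ Hard HFCodes) : CBER E ∧ HF E := by
  induction h with
  | fin F h1 h2 h3 => exact cber_fin h1 h2 h3
  | union F _ hm ih =>
    have h1 := cber_union (fun n => (ih n).1) hm
    refine ⟨h1, ?_⟩
    by_contra hn
    exact hc (union_hard h1 hn (fun n => (ih n).1) (fun n => (ih n).2) hm fun x y => Iff.rfl)
  | dec E hE A hA _ ih =>
    refine ⟨hE, ?_⟩
    by_contra hn
    obtain ⟨g, hg, hgE⟩ := lusin_novikov hE
    choose T hT hTc hTA using fun k => tree_rep (hA k)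
    refine hc (rank_hard hE hn hg hgE hT fun β hβ => ?_)
    have hXm : MeasurableSet (Xa g T β) := xa_meas hg hT hβ
    refine cut_hfon hE.equiv hXm (ih (Xa g T β) hXm
      (fun x y hxy hx => xa_inv hE.equiv hgE hx hxy) fun k => ?_).2
    have h1 := xa_trace hE hg hgE hT hβ k
    have h2 : A k ∩ {p : X × X | p.1 ∈ Xa g T β ∧ E p.1 p.2} =
        {z : X × X | z ∈ {p : X × X | p.1 ∈ Xa g T β ∧ E p.1 p.2} ∧ ∃ u, Br (T k z) u} := by
      ext z
      constructor
      · rintro ⟨h3, h4⟩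
        exact ⟨h4, (hTA k z).2 h3⟩
      · rintro ⟨h3, h4⟩
        exact ⟨(hTA k z).1 h4, h3⟩
    rw [h2]
    exact h1

/-- **Theorem.** If the class of level `m` contains a countable Borel equivalence relation which is
not hyperfinite, then every `Σ¹₂` set is a continuous preimage of the set of the codes of the
hyperfinite relations. -/
theorem kk_hard (m : ℕ) {X : Type} [MeasurableSpace X] [StandardBorelSpace X]
    {E : X → X → Prop} (hE : CBER E) (hU : KK m E) (hn : ¬ HF E) : Hard HFCodes := by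
  by_contra hc
  exact hn (kk_zero (kk_red hE hU) hc).2

end Pool.Agent.Lib.HFC
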