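import Mathlib

/-!
# Complexity of hyperfiniteness: definitions (MP_3091e6_lc)
-/

set_option autoImplicit false

namespace Pool.Agent.Lib.HFC

/-! ### Countable Borel equivalence relations -/

/-- countable Borel equivalence relations -/
structure CBER {X : Type} [MeasurableSpace X] (E : X → X → Prop) : Prop where
  equiv : Equivalence E
  meas : MeasurableSet {p : X × X | E p.1 p.2}
  ctbl : ∀ x, {y | E x y}.Countable

/-- `E` is the union of the increasing sequence `F` of finite equivalence relations -/
structure Wit {X : Type} (E : X → X → Prop) (F : ℕ → X → X → Prop) : Prop where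
  equiv : ∀ n, Equivalence (F n)
  fin : ∀ n x, {y | F n x y}.Finite
  mono : ∀ n x y, F n x y → F (n + 1) x y
  union : ∀ x y, E x y ↔ ∃ n, F n x y

/-- hyperfinite relations -/
def HF {X : Type} [MeasurableSpace X] (E : X → X → Prop) : Prop :=
  ∃ F : ℕ → X → X → Prop, Wit E F ∧ ∀ n, MeasurableSet {p : X × X | F n p.1 p.2}

/-- analytic sets: projections of Borel sets -/
def An {Z : Type} [MeasurableSpace Z] (A : Set Z) : Prop :=
  ∃ B : Set (Z × (ℕ → ℕ)), MeasurableSet B ∧ A = {z | ∃ u, (z, u) ∈ B}

/-- hyperfiniteness with a witness in the σ-algebra generated by the analytic sets -/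
def SHF {X : Type} [MeasurableSpace X] (E : X → X → Prop) : Prop :=
  ∃ F : ℕ → X → X → Prop, Wit E F ∧
    ∀ n, @MeasurableSet (X × X) (MeasurableSpace.generateFrom {A : Set (X × X) | An A})
      {p : X × X | F n p.1 p.2}

/-- hyperfiniteness of the restriction of `E` to the set `S`, as a property of a sequence `F` -/
structure WitOn {X : Type} (E : X → X → Prop) (S : Set X) (F : ℕ → X → X → Prop) : Prop where
  sub : ∀ n x y, F n x y → x ∈ S ∧ y ∈ S ∧ E x y
  refl : ∀ n x, x ∈ S → F n x x
  symm : ∀ n x y, F n x y → F n y x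
  trans : ∀ n x y z, F n x y → F n y z → F n x z
  fin : ∀ n x, {y | F n x y}.Finite
  mono : ∀ n x y, F n x y → F (n + 1) x y
  union : ∀ x y, x ∈ S → y ∈ S → E x y → ∃ n, F n x y

/-- the restriction of `E` to the set `S` is hyperfinite -/
def HFOn {X : Type} [MeasurableSpace X] (E : X → X → Prop) (S : Set X) : Prop :=
  ∃ F : ℕ → X → X → Prop, WitOn E S F ∧ ∀ n, MeasurableSet {p : X × X | F n p.1 p.2}

/-! ### Codes and complexity -/

/-- the Baire space -/
abbrev NN : Type := ℕ → ℕ

/-- the `k`-th basic clopen subset of the square of the Baire space: `k` codes the initial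
segments of two sequences -/
def Basic (k : ℕ) : Set (NN × NN) :=
  {p | PiNat.res p.1 (Denumerable.ofNat (List ℕ × List ℕ) k).1.length =
      (Denumerable.ofNat (List ℕ × List ℕ) k).1 ∧
    PiNat.res p.2 (Denumerable.ofNat (List ℕ × List ℕ) k).2.length =
      (Denumerable.ofNat (List ℕ × List ℕ) k).2}

/-- Borel codes: `c` codes the set `B` -/
inductive Codes : NN → Set (NN × NN) → Prop
  | basic (c : NN) (h : c 0 = 0) : Codes c (Basic (c 1))
  | compl (c : NN) (B : Set (NN × NN)) (h : c 0 = 1) (hB : Codes (fun k => c (k + 1)) B) :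
      Codes c Bᶜ
  | union (c : NN) (B : ℕ → Set (NN × NN)) (h : 2 ≤ c 0)
      (hB : ∀ n, Codes (fun k => c (Nat.pair n k + 1)) (B n)) : Codes c (⋃ n, B n)

/-- the codes of hyperfinite countable Borel equivalence relations on the Baire space -/
def HFCodes : Set NN :=
  {c | ∃ E : NN → NN → Prop, Codes c {p | E p.1 p.2} ∧ CBER E ∧ HF E}

/-- the class `Σ¹₂`: projections of complements of analytic sets -/
def Sigma12 (S : Set NN) : Prop :=
  ∃ C : Set (NN × NN), An C ∧ S = {y | ∃ z, (y, z) ∉ C}

/-- every `Σ¹₂` set is a continuous preimage of `S` -/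
def Hard (S : Set NN) : Prop :=
  ∀ A : Set NN, Sigma12 A → ∃ f : NN → NN, Continuous f ∧ A = f ⁻¹' S

/-! ### Trees, linear orders and ranks -/

/-- sets of finite sequences, written in the reverse order as in `PiNat.res` -/
abbrev Tree : Type := List ℕ → Bool

/-- `s'` is a child of `s` in `T` -/
def child (T : Tree) (s' s : List ℕ) : Prop := T s' = true ∧ T s = true ∧ ∃ n, s' = n :: s

/-- `T` is closed under initial segments -/
def Closed (T : Tree) : Prop := ∀ n s, T (n :: s) = true → T s = true

/-- `u` is an infinite branch of `T` -/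
def Br (T : Tree) (u : NN) : Prop := ∀ n, T (PiNat.res u n) = true

/-- relations on `ℕ`: `L a b` is `a ≤ b`, and `L a a` says that `a` is in the domain -/
abbrev LOrd : Type := ℕ → ℕ → Bool

/-- linear orders of a subset of `ℕ` -/
structure IsLO (L : LOrd) : Prop where
  left : ∀ a b, L a b = true → L a a = true
  right : ∀ a b, L a b = true → L b b = true
  trans : ∀ a b c, L a b = true → L b c = true → L a c = true
  antisymm : ∀ a b, L a b = true → L b a = true → a = b
  total : ∀ a b, L a a = true → L b b = true → L a b = true ∨ L b a = true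

/-- the strict order -/
def lt (L : LOrd) (a b : ℕ) : Prop := L a b = true ∧ a ≠ b

/-- `a` is accessible, of rank `β` -/
def HasRank {ι : Type} (r : ι → ι → Prop) (a : ι) (β : Ordinal.{0}) : Prop :=
  ∃ h : Acc r a, h.rank = β

/-- countable ordinals -/
def Ctbl (β : Ordinal.{0}) : Prop := (Set.Iio β).Countable

/-- no element of `L` has rank `β` -/
def Short (β : Ordinal.{0}) (L : LOrd) : Prop := ∀ b, L b b = true → ¬ HasRank (lt L) b β

/-- some element of `L` has no rank `γ < β` -/
def Ill (β : Ordinal.{0}) (L : LOrd) : Prop :=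
  ∃ b, L b b = true ∧ ∀ γ < β, ¬ HasRank (lt L) b γ

/-- `κ` is an exact rank function on `T` with values in `L` (`b + 1` stands for the element `b`)
or `∞` (`0` stands for `∞`) -/
structure Exact (L : LOrd) (T : Tree) (κ : List ℕ → ℕ) : Prop where
  dom : ∀ s b, T s = true → κ s = b + 1 → L b b = true
  dec : ∀ s b s', T s = true → κ s = b + 1 → child T s' s → ∃ b', κ s' = b' + 1 ∧ lt L b' b
  cof : ∀ s b c, T s = true → κ s = b + 1 → lt L c b →
    ∃ s' b', child T s' s ∧ κ s' = b' + 1 ∧ L c b' = true
  inf : ∀ s, T s = true → κ s = 0 → (∃ s', child T s' s ∧ κ s' = 0) ∨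
    ∀ c, L c c = true → ∃ s' b', child T s' s ∧ κ s' = b' + 1 ∧ L c b' = true

/-- an exact rank function without the value `∞`, all of whose predecessors of the value of the
root are values -/
def Full (L : LOrd) (T : Tree) (κ : List ℕ → ℕ) : Prop :=
  Exact L T κ ∧ (∀ s, T s = true → κ s ≠ 0) ∧
    ∀ b c, κ [] = b + 1 → lt L c b → ∃ t, T t = true ∧ κ t = c + 1

/-- `S` is a simulation of `(r, a)` in `(r', a')` -/
def Sim {ι ι' : Type} (r : ι → ι → Prop) (r' : ι' → ι' → Prop) (a : ι) (a' : ι')
    (S : ι → ι' → Bool) : Prop :=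
  S a a' = true ∧ ∀ b b' c, S b b' = true → r c b → ∃ c', r' c' b' ∧ S c c' = true

/-- `w` is an order preserving map of `T` in the initial segment of `L` below `a` -/
def Op (T : Tree) (L : LOrd) (a : ℕ) (w : List ℕ → ℕ) : Prop :=
  (∀ s, T s = true → lt L (w s) a) ∧ ∀ s' s, child T s' s → lt L (w s') (w s)

end Pool.Agent.Lib.HFC
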