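import Pool.Agent.Lib.HFC.Sel

/-!
# Module HFC.Eng: increasing unions of hyperfinite relations (MP_3091e6_lc)

The idea of Frisch, Shinko and Vidnyánszky. `E` is the increasing union of the hyperfinite relations `H n`.
PROOF. `G n` the witness of `H n` (`choose`), `g` the enumeration of the classes of `E` (`lusin_novikov`). By recursion on the
list `σ` (in the reverse order) define a finite Borel equivalence relation `K σ` together with a Borel selector `t σ` (`selector`):
`K [] x y ↔ x = y`, and `K (k :: σ) x y ↔ G σ.length k (t σ x) (t σ y)`. (Formally: recursion in the type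
`{K : X → X → Prop // Equivalence K ∧ measurable ∧ finite classes}`, `t σ` by `Classical.choose` of `selector`.) It is an equivalence
relation with finite classes: `{y | G n k (t x) (t y)}` is the set of the `y` with `t y` in a finite set, and `{y | t y = z} ⊆ {y | K σ z y}`
(`K y (t y)`). Measurable: preimage. `K σ x y → K (k :: σ) x y` as `t σ x = t σ y`. `K σ x y → E x y`: `K (k :: σ) x y → E (t σ x) (t σ y)`, and
`K σ x (t σ x)` gives `E x (t σ x)`. Also (needed below) `K σ x y → H σ.length x y` (`K σ ⊆ H (σ.length)`; induction, `H n ⊆ H (n + 1)`).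
`Gd x σ k`: for all `i ≤ σ.length`, `H σ.length x (g i x) → G σ.length k (t σ x) (t σ (g i x))`. Measurable. For given `x, σ` all large `k`
satisfy it: if `H n x (g i x)`, `n = σ.length`, then `H n (t σ x) (t σ (g i x))` (as `K σ ⊆ H n`), so `G n k (t σ x) (t σ (g i x))` for all
large `k` (`Wit.union`, `Wit.mono`), and only finitely many `i` occur. The last part: let `E x y`, `y = g i x`, `H n0 x y`. Take
`n ≥ max i n0` with `Gd x (PiNat.res b n) (b n)`. `H n x (g i x)`, so `G n (b n) (t σ x) (t σ y)` with `σ = res b n`, i.e.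
`K (b n :: σ) x y`, and `b n :: res b n = res b (n + 1)`.
-/

set_option autoImplicit false

namespace Pool.Agent.Lib.HFC

/-- the data given by the construction -/
structure Engine {X : Type} [MeasurableSpace X] (E : X → X → Prop)
    (K : List ℕ → X → X → Prop) (Gd : X → List ℕ → ℕ → Prop) : Prop where
  equiv : ∀ σ, Equivalence (K σ)
  meas : ∀ σ, MeasurableSet {p : X × X | K σ p.1 p.2}
  fin : ∀ σ x, {y | K σ x y}.Finite
  mono : ∀ k σ x y, K σ x y → K (k :: σ) x y
  sub : ∀ σ x y, K σ x y → E x y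
  gmeas : ∀ σ k, MeasurableSet {x | Gd x σ k}
  large : ∀ x σ, ∃ k0, ∀ k, k0 ≤ k → Gd x σ k
  good : ∀ (b : NN) x y, E x y → (∀ N, ∃ n, N ≤ n ∧ Gd x (PiNat.res b n) (b n)) →
    ∃ n, K (PiNat.res b n) x y

namespace EngAux

variable {X : Type} [MeasurableSpace X]

/-- finite Borel equivalence relations -/
abbrev FKt (X : Type) [MeasurableSpace X] : Type :=
  {K : X → X → Prop // Equivalence K ∧ MeasurableSet {p : X × X | K p.1 p.2} ∧
    ∀ x, {y | K x y}.Finite}

/-- a Borel selector -/
noncomputable def sel [StandardBorelSpace X] (K : FKt X) : X → X :=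
  Classical.choose (selector K.2.1 K.2.2.1 K.2.2.2)

theorem sel_spec [StandardBorelSpace X] (K : FKt X) :
    Measurable (sel K) ∧ (∀ x, K.1 x (sel K x)) ∧ ∀ x y, K.1 x y → sel K x = sel K y :=
  Classical.choose_spec (selector K.2.1 K.2.2.1 K.2.2.2)

/-- one step of the construction -/
noncomputable def step [StandardBorelSpace X] (F : FKt X) (K : FKt X) : FKt X :=
  ⟨fun x y => F.1 (sel K x) (sel K y), by
    refine ⟨⟨fun x => F.2.1.refl _, fun h => F.2.1.symm h, fun h h' => F.2.1.trans h h'⟩, ?_, ?_⟩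
    · have h1 : Measurable fun p : X × X => (sel K p.1, sel K p.2) :=
        ((sel_spec K).1.comp measurable_fst).prodMk ((sel_spec K).1.comp measurable_snd)
      exact h1 F.2.2.1
    · intro x
      refine ((F.2.2.2 (sel K x)).biUnion fun z _ => K.2.2.2 z).subset ?_
      intro y hy
      refine Set.mem_biUnion (show sel K y ∈ {z | F.1 (sel K x) z} from hy) ?_
      exact K.2.1.symm ((sel_spec K).2.1 y)⟩

/-- the equality -/
noncomputable def eqK (X : Type) [MeasurableSpace X] [StandardBorelSpace X] : FKt X :=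
  ⟨fun x y => x = y, by
    refine ⟨eq_equivalence, ?_, fun x => ?_⟩
    · exact measurableSet_eq_fun measurable_fst measurable_snd
    · exact Set.finite_singleton x |>.subset fun y hy => (Eq.symm hy)⟩

/-- the relations `K σ` -/
noncomputable def Kf [StandardBorelSpace X] (G : ℕ → ℕ → FKt X) : List ℕ → FKt X
  | [] => eqK X
  | k :: σ => step (G σ.length k) (Kf G σ)

theorem Kf_cons [StandardBorelSpace X] (G : ℕ → ℕ → FKt X) (k : ℕ) (σ : List ℕ) (x y : X) :
    (Kf G (k :: σ)).1 x y ↔ (G σ.length k).1 (sel (Kf G σ) x) (sel (Kf G σ) y) := Iff.rfl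

theorem Kf_mono [StandardBorelSpace X] (G : ℕ → ℕ → FKt X) (k : ℕ) (σ : List ℕ) (x y : X)
    (h : (Kf G σ).1 x y) : (Kf G (k :: σ)).1 x y := by
  rw [Kf_cons, (sel_spec (Kf G σ)).2.2 x y h]
  exact (G σ.length k).2.1.refl _

theorem Kf_sub [StandardBorelSpace X] (G : ℕ → ℕ → FKt X) {H : ℕ → X → X → Prop}
    (hH : ∀ n, Equivalence (H n)) (hG : ∀ n k x y, (G n k).1 x y → H n x y)
    (hmono : ∀ n x y, H n x y → H (n + 1) x y) (σ : List ℕ) :
    ∀ x y, (Kf G σ).1 x y → H σ.length x y := by
  induction σ with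
  | nil =>
    intro x y h
    have h1 : x = y := h
    rw [h1]
    exact (hH 0).refl y
  | cons k σ ih =>
    intro x y h
    rw [Kf_cons] at h
    have h1 := ih x _ ((sel_spec (Kf G σ)).2.1 x)
    have h2 := ih y _ ((sel_spec (Kf G σ)).2.1 y)
    exact hmono _ _ _ ((hH _).trans h1 ((hH _).trans (hG _ _ _ _ h) ((hH _).symm h2)))

end EngAux

open EngAux

theorem engine {X : Type} [MeasurableSpace X] [StandardBorelSpace X] {E : X → X → Prop}
    (hE : CBER E) {H : ℕ → X → X → Prop} (hH : ∀ n, CBER (H n)) (hHF : ∀ n, HF (H n))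
    (hmono : ∀ n x y, H n x y → H (n + 1) x y) (hun : ∀ x y, E x y ↔ ∃ n, H n x y) :
    ∃ (K : List ℕ → X → X → Prop) (Gd : X → List ℕ → ℕ → Prop), Engine E K Gd := by
  choose G' hG' hGm using hHF
  obtain ⟨g, hg, hgE⟩ := lusin_novikov hE
  let G : ℕ → ℕ → FKt X := fun n k => ⟨G' n k, (hG' n).equiv k, hGm n k, (hG' n).fin k⟩
  have hGH : ∀ n k x y, (G n k).1 x y → H n x y := fun n k x y h =>
    ((hG' n).union x y).2 ⟨k, h⟩
  have hGmono : ∀ n k k' x y, k ≤ k' → (G n k).1 x y → (G n k').1 x y := by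
    intro n k k' x y hk h
    induction k', hk using Nat.le_induction with
    | base => exact h
    | succ m _ ih => exact (hG' n).mono m x y ih
  have hHmono : ∀ n m x y, n ≤ m → H n x y → H m x y := by
    intro n m x y hnm h
    induction m, hnm using Nat.le_induction with
    | base => exact h
    | succ m _ ih => exact hmono m x y ih
  have hsub : ∀ σ x y, (Kf G σ).1 x y → H σ.length x y :=
    Kf_sub G (fun n => (hH n).equiv) hGH hmono
  refine ⟨fun σ => (Kf G σ).1, fun x σ k => ∀ i ≤ σ.length, H σ.length x (g i x) →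
    (G σ.length k).1 (sel (Kf G σ) x) (sel (Kf G σ) (g i x)), ?_⟩
  refine ⟨fun σ => (Kf G σ).2.1, fun σ => (Kf G σ).2.2.1, fun σ => (Kf G σ).2.2.2,
    fun k σ x y h => Kf_mono G k σ x y h, fun σ x y h => (hun x y).2 ⟨_, hsub σ x y h⟩,
    fun σ k => ?_, fun x σ => ?_, fun b x y hxy hb => ?_⟩
  · have h1 : {x | ∀ i ≤ σ.length, H σ.length x (g i x) →
        (G σ.length k).1 (sel (Kf G σ) x) (sel (Kf G σ) (g i x))} =
        ⋂ i, ⋂ (_ : i ≤ σ.length), ({x | H σ.length x (g i x)}ᶜ ∪
          {x | (G σ.length k).1 (sel (Kf G σ) x) (sel (Kf G σ) (g i x))}) := by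
      ext x
      rw [Set.mem_iInter₂]
      exact forall₂_congr fun i _ => imp_iff_not_or
    rw [h1]
    refine MeasurableSet.iInter fun i => MeasurableSet.iInter fun _ => ?_
    refine MeasurableSet.union (MeasurableSet.compl ?_) ?_
    · exact (measurable_id.prodMk (hg i)) (hH σ.length).meas
    · have h2 : Measurable fun x => (sel (Kf G σ) x, sel (Kf G σ) (g i x)) :=
        (sel_spec (Kf G σ)).1.prodMk ((sel_spec (Kf G σ)).1.comp (hg i))
      exact h2 (G σ.length k).2.2.1
  · have h1 : ∀ i, ∃ k0, ∀ k, k0 ≤ k → H σ.length x (g i x) →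
        (G σ.length k).1 (sel (Kf G σ) x) (sel (Kf G σ) (g i x)) := by
      intro i
      by_cases h : H σ.length x (g i x)
      · have h2 := hsub σ x _ ((sel_spec (Kf G σ)).2.1 x)
        have h3 := hsub σ (g i x) _ ((sel_spec (Kf G σ)).2.1 (g i x))
        have h4 := (hH σ.length).equiv.trans ((hH σ.length).equiv.symm h2)
          ((hH σ.length).equiv.trans h h3)
        obtain ⟨k0, hk0⟩ := ((hG' σ.length).union _ _).1 h4
        exact ⟨k0, fun k hk _ => hGmono _ _ _ _ _ hk hk0⟩
      · exact ⟨0, fun k _ h' => absurd h' h⟩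
    choose kk hkk using h1
    refine ⟨(Finset.range (σ.length + 1)).sup kk, fun k hk i hi h => hkk i k ?_ h⟩
    exact le_trans (Finset.le_sup (Finset.mem_range.2 (by omega))) hk
  · obtain ⟨i, hi⟩ := (hgE x y).1 hxy
    obtain ⟨n0, hn0⟩ := (hun x y).1 hxy
    obtain ⟨n, hn, hGd⟩ := hb (max i n0)
    refine ⟨n + 1, ?_⟩
    have hlen : (PiNat.res b n).length = n := PiNat.res_length b n
    have h1 : H (PiNat.res b n).length x (g i x) := by
      rw [hlen, hi]
      exact hHmono n0 n x y (le_trans (le_max_right _ _) hn) hn0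
    have h2 := hGd i (by rw [hlen]; exact le_trans (le_max_left _ _) hn) h1
    rw [hi] at h2
    rw [PiNat.res_succ]
    exact h2

end Pool.Agent.Lib.HFC
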