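import Pool.Agent.Lib.HFC.RankA

/-!
# Module HFC.LOr: ranks in linear orders (MP_3091e6_lc)

PROOFS. `lt_trans'`: `IsLO.trans`, and `a ≠ c` by antisymmetry. `lo_below`: `hasRank_below` and `TransGen` of a transitive
relation. `lo_acc_le`: `a = b`, or `lt L a b` and `Acc.inv`. `lo_rank_le`: `a = b` or `hasRank_lt`. `lo_rank_lt_iff`: linearity
(`lo_tri`). `lo_eq`: `lo_tri` and `hasRank_lt`. `lo_not_acc` (`b` has no rank `γ < β`, no element has rank `β`): if `Acc` then
`b` has a rank `δ`, `δ ≥ β`, `δ ≠ β`, and `lo_below` gives an element of rank `β` (it is in the domain by `IsLO.left`).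
`code` : `Set.Iio δ` is countable, so there is an injection `e : Set.Iio δ → ℕ` (`Countable.exists_injective_nat`); let
`L a b = decide (∃ γ γ' : Set.Iio δ, a = e γ ∧ b = e γ' ∧ γ ≤ γ')` (`open Classical`). `HasRank (lt L) (e γ) γ` by strong
induction on `γ` with `hasRank_iff`: the predecessors of `e γ` are the `e γ'`, `γ' < γ`.
-/

set_option autoImplicit false

namespace Pool.Agent.Lib.HFC

variable {L : LOrd}

theorem lt_trans' (hL : IsLO L) {a b c : ℕ} (h : lt L a b) (h' : lt L b c) : lt L a c := by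
  refine ⟨hL.trans _ _ _ h.1 h'.1, ?_⟩
  rintro rfl
  exact h.2 (hL.antisymm _ _ h.1 h'.1)

theorem le_of_lt' {a b : ℕ} (h : lt L a b) : L a b = true := h.1

theorem lt_of_le_of_lt' (hL : IsLO L) {a b c : ℕ} (h : L a b = true) (h' : lt L b c) :
    lt L a c := by
  refine ⟨hL.trans _ _ _ h h'.1, ?_⟩
  rintro rfl
  exact h'.2 (hL.antisymm _ _ h'.1 h)

theorem lt_of_lt_of_le' (hL : IsLO L) {a b c : ℕ} (h : lt L a b) (h' : L b c = true) :
    lt L a c := by
  refine ⟨hL.trans _ _ _ h.1 h', ?_⟩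
  rintro rfl
  exact h.2 (hL.antisymm _ _ h.1 h')

theorem lt_irrefl' (a : ℕ) : ¬ lt L a a := fun h => h.2 rfl

theorem lo_tri (hL : IsLO L) {a b : ℕ} (ha : L a a = true) (hb : L b b = true) :
    lt L a b ∨ L b a = true := by
  rcases hL.total a b ha hb with h | h
  · by_cases hab : a = b
    · subst hab
      exact Or.inr h
    · exact Or.inl ⟨h, hab⟩
  · exact Or.inr h

theorem lo_below (hL : IsLO L) {a : ℕ} {β γ : Ordinal.{0}} (h : HasRank (lt L) a β)
    (hγ : γ < β) : ∃ b, lt L b a ∧ HasRank (lt L) b γ := by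
  obtain ⟨b, hb, hr⟩ := hasRank_below h hγ
  refine ⟨b, ?_, hr⟩
  clear hr h
  induction hb with
  | single h => exact h
  | tail _ h ih => exact lt_trans' hL ih h

theorem lo_acc_le {a b : ℕ} (h : L a b = true) (hb : Acc (lt L) b) : Acc (lt L) a := by
  by_cases hab : a = b
  · subst hab
    exact hb
  · exact hb.inv ⟨h, hab⟩

theorem lo_rank_le {a b : ℕ} {β γ : Ordinal.{0}} (h : L a b = true) (ha : HasRank (lt L) a β)
    (hb : HasRank (lt L) b γ) : β ≤ γ := by
  by_cases hab : a = b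
  · subst hab
    exact (hasRank_unique ha hb).le
  · exact (hasRank_lt hb ha ⟨h, hab⟩).le

theorem lo_rank_lt_iff (hL : IsLO L) {a b : ℕ} {β γ : Ordinal.{0}} (ha' : L a a = true)
    (hb' : L b b = true) (ha : HasRank (lt L) a β) (hb : HasRank (lt L) b γ) :
    lt L a b ↔ β < γ := by
  constructor
  · exact fun h => hasRank_lt hb ha h
  · intro h
    rcases lo_tri hL ha' hb' with h' | h'
    · exact h'
    · exact absurd (lo_rank_le h' hb ha) (not_le.mpr h)

theorem lo_eq (hL : IsLO L) {a b : ℕ} {β : Ordinal.{0}} (ha' : L a a = true)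
    (hb' : L b b = true) (ha : HasRank (lt L) a β) (hb : HasRank (lt L) b β) : a = b := by
  by_contra hab
  rcases lo_tri hL ha' hb' with h' | h'
  · exact lt_irrefl β (hasRank_lt hb ha h')
  · exact lt_irrefl β (hasRank_lt ha hb ⟨h', fun e => hab e.symm⟩)

theorem lo_not_acc (hL : IsLO L) {β : Ordinal.{0}} (hs : Short β L) {b : ℕ}
    (hb : L b b = true) (hr : ∀ γ < β, ¬ HasRank (lt L) b γ) : ¬ Acc (lt L) b := by
  intro hacc
  obtain ⟨δ, hδ⟩ := hasRank_of_acc hacc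
  rcases lt_trichotomy δ β with h | h | h
  · exact hr δ h hδ
  · subst h
    exact hs b hb hδ
  · obtain ⟨c, hc, hcr⟩ := lo_below hL hδ h
    exact hs c (hL.left _ _ hc.1) hcr

/-- codes of countable ordinals -/
theorem code {δ : Ordinal.{0}} (hδ : Ctbl δ) : ∃ L : LOrd, IsLO L ∧
    (∀ a, L a a = true → ∃ γ < δ, HasRank (lt L) a γ) ∧
      ∀ γ < δ, ∃ a, L a a = true ∧ HasRank (lt L) a γ := by
  classical
  have hc : Countable (Set.Iio δ) := hδ.to_subtype
  obtain ⟨e, he⟩ := Countable.exists_injective_nat (Set.Iio δ)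
  set L : LOrd := fun a b => decide (∃ γ γ' : Set.Iio δ, a = e γ ∧ b = e γ' ∧ γ ≤ γ') with hLdef
  have hLi : ∀ a b, L a b = true ↔ ∃ γ γ' : Set.Iio δ, a = e γ ∧ b = e γ' ∧ γ ≤ γ' := by
    intro a b
    simp only [hLdef, decide_eq_true_eq]
  have hLO : IsLO L := by
    refine ⟨?_, ?_, ?_, ?_, ?_⟩
    · intro a b h
      obtain ⟨γ, γ', rfl, rfl, _⟩ := (hLi _ _).1 h
      exact (hLi _ _).2 ⟨γ, γ, rfl, rfl, le_rfl⟩
    · intro a b h
      obtain ⟨γ, γ', rfl, rfl, _⟩ := (hLi _ _).1 h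
      exact (hLi _ _).2 ⟨γ', γ', rfl, rfl, le_rfl⟩
    · intro a b c h h'
      obtain ⟨γ, γ', rfl, rfl, h1⟩ := (hLi _ _).1 h
      obtain ⟨γ2, γ3, h2, rfl, h3⟩ := (hLi _ _).1 h'
      have := he h2
      subst this
      exact (hLi _ _).2 ⟨γ, γ3, rfl, rfl, h1.trans h3⟩
    · intro a b h h'
      obtain ⟨γ, γ', rfl, rfl, h1⟩ := (hLi _ _).1 h
      obtain ⟨γ2, γ3, h2, h4, h3⟩ := (hLi _ _).1 h'
      have := he h2
      subst this
      have := he h4
      subst this
      rw [le_antisymm h1 h3]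
    · intro a b h h'
      obtain ⟨γ, _, rfl, _, _⟩ := (hLi _ _).1 h
      obtain ⟨γ2, _, rfl, _, _⟩ := (hLi _ _).1 h'
      rcases le_total γ γ2 with h1 | h1
      · exact Or.inl ((hLi _ _).2 ⟨γ, γ2, rfl, rfl, h1⟩)
      · exact Or.inr ((hLi _ _).2 ⟨γ2, γ, rfl, rfl, h1⟩)
  have hrk : ∀ γ : Ordinal.{0}, ∀ h : γ < δ, HasRank (lt L) (e ⟨γ, h⟩) γ := by
    intro γ
    induction γ using WellFoundedLT.induction with
    | ind γ ih =>
      intro h
      rw [hasRank_iff]
      constructor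
      · intro b hb
        obtain ⟨γ1, γ2, h1, h2, h3⟩ := (hLi _ _).1 hb.1
        have h4 := he h2
        have h5 : γ1 ≠ γ2 := by
          intro h6
          apply hb.2
          rw [h1, h2, h6]
        have h6 : (γ1 : Ordinal.{0}) < γ := by
          have h7 : γ1 < γ2 := lt_of_le_of_ne h3 h5
          rw [← h4] at h7
          exact h7
        refine ⟨γ1, h6, ?_⟩
        rw [h1]
        exact ih γ1 h6 γ1.2
      · intro γ' hγ'
        refine ⟨e ⟨γ', hγ'.trans h⟩, ⟨(hLi _ _).2 ⟨_, _, rfl, rfl, ?_⟩, ?_⟩, γ', le_rfl,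
          ih γ' hγ' _⟩
        · exact hγ'.le
        · intro h1
          have h2 := he h1
          have h3 : γ' = γ := congrArg Subtype.val h2
          exact hγ'.ne h3
  refine ⟨L, hLO, ?_, ?_⟩
  · intro a ha
    obtain ⟨γ, _, rfl, _, _⟩ := (hLi _ _).1 ha
    exact ⟨γ, γ.2, hrk γ γ.2⟩
  · intro γ hγ
    exact ⟨e ⟨γ, hγ⟩, (hLi _ _).2 ⟨_, _, rfl, rfl, le_rfl⟩, hrk γ hγ⟩

end Pool.Agent.Lib.HFC
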