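import Pool.Agent.Lib.HFC.RankM
import Pool.Agent.Lib.HFC.LOr

/-!
# Module HFC.ExactL: exact rank functions (MP_3091e6_lc)

PROOFS. `exact_rank`: strong induction on `β` (generalize `t b`), `hasRank_iff` for `t`: a child `s'` has `κ s' = b' + 1`,
`lt L b' b` (`Exact.dec`), and `b'` has a rank `γ < β` (`hasRank_iff` for `b`), so `s'` has rank `γ` by induction. If `γ < β` then
there is `c` with `lt L c b`, of rank `δ ≥ γ`; `Exact.cof` gives a child `s'` with `κ s' = b' + 1`, `L c b' = true`; `lt L b' b`, so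
`b'` has a rank `δ'`, `δ ≤ δ'` (`lo_rank_le`), and `s'` has rank `δ'` by induction.
`exact_rank'`: strong induction on `β` (generalize `t`). All children `s'` have ranks `< β`, so `κ s' = b' + 1` with `b'` of
the same rank. If `κ t = 0` then `Exact.inf`: a child with value `0` is impossible; otherwise for the non accessible `c` there is
a child with `L c b' = true`, and `c` is accessible by `lo_acc_le`. So `κ t = b + 1`; `HasRank (lt L) b β` by `hasRank_iff`:
`lt L c b` gives (`Exact.cof`) a child `s'` with `L c b' = true`, the rank of `c` is `≤` the rank of `b'`, which is the rank of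
`s'`, `< β` (`lo_acc_le`, `lo_rank_le`); for `γ < β` there is a child `s'` of rank `δ ≥ γ`, `κ s' = b' + 1`, `lt L b' b` (`Exact.dec`).
`can_eq`: `can L T s = b + 1` for `b` in the domain with the same rank as `s`; `b` is unique by `lo_eq`. `can_exact`: `L` is a
well order. `dom`: clear. `dec`: a child `s'` of `s` has a rank `γ'` smaller than the rank `γ` of `b`; `lo_below` gives `b'` of rank
`γ'`, `lt L b' b`. `cof`: `c` has a rank `γ' < γ`; `hasRank_iff` for `s` gives a child of rank `δ ≥ γ'`, `δ < γ`; `b'` of rank `δ`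
(`lo_below`), and `L c b' = true` by `lo_tri` (otherwise `lt L b' c`, `δ < γ'`). `inf`: `can L T s = 0`. If `s` is not accessible, a
child is not accessible (`acc_child_iff`) and has value `0`. If `s` has rank `γ` then all `c` in the domain have ranks `< γ`
(otherwise `γ` is a rank of an element, `lo_below`). If some child has value `0` done; otherwise for `c` of rank `γ' < γ` there
is a child of rank `δ ≥ γ'`, with value `b' + 1`, `b'` of rank `δ`, and `L c b' = true`.
`can_full`: every `s` with `T s = true` is `[]` or a `TransGen` predecessor of `[]` (`Closed`, induction on `s`), so it has a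
rank `≤ β` (`hasRank_lt` along the chain); the ranks `≤ β` are ranks of elements (`lo_below`). Third part: `κ [] = b + 1`, `b` of
rank `β`, `c` of rank `γ < β`, `hasRank_below` gives `t` of rank `γ`, with `T t = true`, and `can L T t = c + 1`.
`can_meas`: for each `s` the map `ω ↦ can L (T ω) s` has countable range and `{can L (T ω) s = b + 1}` is
`{HasRank (child (T ω)) s β}` with `β` the rank of `b` (or empty if `b` is not in the domain); `hasRank_child_meas`,
`measurable_to_countable'`; `Ctbl β` by `hasRank_ctbl`.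
`full_ill`: `κ [] = b + 1`. `b` is not accessible: otherwise `[]` is accessible (`exact_rank` with the rank of `b`), contradiction
to `branch_acc`. `Short β L`: if `c` is in the domain with rank `β`, then `lt L c b` (by `lo_tri`, as `b` is not accessible), so
`κ t = c + 1` for some `t`, and `t` has rank `β` by `exact_rank`. `Ill β L`: `b` has no rank at all.
-/

set_option autoImplicit false

namespace Pool.Agent.Lib.HFC

theorem exact_rank {L : LOrd} {T : Tree} {κ : List ℕ → ℕ} (hL : IsLO L) (h : Exact L T κ)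
    {t : List ℕ} {b : ℕ} {β : Ordinal.{0}} (ht : T t = true) (hb : κ t = b + 1)
    (hr : HasRank (lt L) b β) : HasRank (child T) t β := by
  induction β using WellFoundedLT.induction generalizing t b with
  | ind β ih =>
    rw [hasRank_iff]
    constructor
    · intro s' hs'
      obtain ⟨b', hb', hlt⟩ := h.dec t b s' ht hb hs'
      obtain ⟨γ, hγ, hr'⟩ := (hasRank_iff.1 hr).1 b' hlt
      exact ⟨γ, hγ, ih γ hγ hs'.1 hb' hr'⟩
    · intro γ hγ
      obtain ⟨c, hc, δ, hγδ, hrc⟩ := (hasRank_iff.1 hr).2 γ hγ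
      obtain ⟨s', b', hs', hb', hcb⟩ := h.cof t b c ht hb hc
      obtain ⟨b'', hb'', hlt⟩ := h.dec t b s' ht hb hs'
      have h1 : b'' = b' := by omega
      subst h1
      obtain ⟨δ', hδ', hr'⟩ := (hasRank_iff.1 hr).1 b'' hlt
      exact ⟨s', hs', δ', hγδ.trans (lo_rank_le hcb hrc hr'), ih δ' hδ' hs'.1 hb' hr'⟩

theorem exact_rank' {L : LOrd} {T : Tree} {κ : List ℕ → ℕ} (hL : IsLO L) (h : Exact L T κ)
    {c : ℕ} (hc : L c c = true) (hc' : ¬ Acc (lt L) c) {t : List ℕ} {β : Ordinal.{0}}
    (ht : T t = true) (hr : HasRank (child T) t β) :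
    ∃ b, κ t = b + 1 ∧ HasRank (lt L) b β := by
  induction β using WellFoundedLT.induction generalizing t with
  | ind β ih =>
    obtain ⟨h1, h2⟩ := hasRank_iff.1 hr
    have h3 : ∀ s', child T s' t → ∃ γ < β, HasRank (child T) s' γ ∧
        ∃ b', κ s' = b' + 1 ∧ HasRank (lt L) b' γ := by
      intro s' hs'
      obtain ⟨γ, hγ, hrs⟩ := h1 s' hs'
      exact ⟨γ, hγ, hrs, ih γ hγ hs'.1 hrs⟩
    obtain ⟨b, hb⟩ : ∃ b, κ t = b + 1 := by
      by_contra hcon
      have h0 : κ t = 0 := by
        by_contra h0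
        exact hcon ⟨κ t - 1, by omega⟩
      rcases h.inf t ht h0 with ⟨s', hs', hs0⟩ | h4
      · obtain ⟨γ, -, -, b', hb', -⟩ := h3 s' hs'
        omega
      · obtain ⟨s', b', hs', hb', hcb⟩ := h4 c hc
        obtain ⟨γ, -, -, b'', hb'', hr''⟩ := h3 s' hs'
        have h5 : b'' = b' := by omega
        subst h5
        exact hc' (lo_acc_le hcb (hasRank_acc hr''))
    refine ⟨b, hb, ?_⟩
    rw [hasRank_iff]
    constructor
    · intro e he
      obtain ⟨s', b', hs', hb', heb⟩ := h.cof t b e ht hb he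
      obtain ⟨γ, hγ, -, b'', hb'', hr''⟩ := h3 s' hs'
      have h5 : b'' = b' := by omega
      subst h5
      obtain ⟨δ, hδ⟩ := hasRank_of_acc (lo_acc_le heb (hasRank_acc hr''))
      exact ⟨δ, (lo_rank_le heb hδ hr'').trans_lt hγ, hδ⟩
    · intro γ hγ
      obtain ⟨s', hs', δ, hγδ, hrs⟩ := h2 γ hγ
      obtain ⟨γ', hγ', hrs', b', hb', hr'⟩ := h3 s' hs'
      have h6 : δ = γ' := hasRank_unique hrs hrs'
      subst h6
      obtain ⟨b'', hb'', hlt⟩ := h.dec t b s' ht hb hs'
      have h5 : b'' = b' := by omega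
      subst h5
      exact ⟨b'', hlt, δ, hγδ, hr'⟩

open Classical in
/-- the canonical exact rank function with values in a well order -/
noncomputable def can (L : LOrd) (T : Tree) (s : List ℕ) : ℕ :=
  if h : ∃ b, L b b = true ∧ ∃ β, HasRank (lt L) b β ∧ HasRank (child T) s β then
    h.choose + 1 else 0

theorem can_eq {L : LOrd} (hL : IsLO L) {T : Tree} {s : List ℕ} {b : ℕ} :
    can L T s = b + 1 ↔ L b b = true ∧ ∃ β, HasRank (lt L) b β ∧ HasRank (child T) s β := by
  unfold can
  split_ifs with h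
  · obtain ⟨h1, β1, h2, h3⟩ := h.choose_spec
    constructor
    · intro h4
      have h5 : h.choose = b := by omega
      rw [h5] at h1 h2
      exact ⟨h1, β1, h2, h3⟩
    · rintro ⟨h4, β, h5, h6⟩
      have h7 : β1 = β := hasRank_unique h3 h6
      subst h7
      rw [lo_eq hL h1 h4 h2 h5]
  · constructor
    · intro h4
      exact h4.elim
    · intro h4
      exact absurd ⟨b, h4⟩ h

theorem can_exact {L : LOrd} (hL : IsLO L) (hw : ∀ a, L a a = true → Acc (lt L) a) (T : Tree) :
    Exact L T (can L T) := by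
  constructor
  · intro s b _ hb
    exact ((can_eq hL).1 hb).1
  · intro s b s' _ hb hs'
    obtain ⟨hbb, γ, hbγ, hsγ⟩ := (can_eq hL).1 hb
    obtain ⟨γ', hγ', hrs⟩ := (hasRank_iff.1 hsγ).1 s' hs'
    obtain ⟨b', hlt, hb'⟩ := lo_below hL hbγ hγ'
    exact ⟨b', (can_eq hL).2 ⟨hL.left b' b hlt.1, γ', hb', hrs⟩, hlt⟩
  · intro s b c _ hb hcb
    obtain ⟨hbb, γ, hbγ, hsγ⟩ := (can_eq hL).1 hb
    obtain ⟨γ', hγ', hrc⟩ := (hasRank_iff.1 hbγ).1 c hcb
    obtain ⟨s', hs', δ, hγδ, hrs⟩ := (hasRank_iff.1 hsγ).2 γ' hγ'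
    obtain ⟨b', hlt, hb'⟩ := lo_below hL hbγ (hasRank_lt hsγ hrs hs')
    have hb'b' : L b' b' = true := hL.left b' b hlt.1
    refine ⟨s', b', hs', (can_eq hL).2 ⟨hb'b', δ, hb', hrs⟩, ?_⟩
    rcases lo_tri hL hb'b' (hL.left c b hcb.1) with h1 | h1
    · exact absurd (hasRank_lt hrc hb' h1) (not_lt.2 hγδ)
    · exact h1
  · intro s _ h0
    by_cases hacc : Acc (child T) s
    · obtain ⟨γ, hsγ⟩ := hasRank_of_acc hacc
      have hall : ∀ c, L c c = true → ∃ γ' < γ, HasRank (lt L) c γ' := by
        intro c hc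
        obtain ⟨γc, hγc⟩ := hasRank_of_acc (hw c hc)
        refine ⟨γc, ?_, hγc⟩
        by_contra hle
        rw [not_lt] at hle
        rcases hle.eq_or_lt with h1 | h1
        · subst h1
          have h2 := (can_eq hL (T := T) (s := s) (b := c)).2 ⟨hc, γ, hγc, hsγ⟩
          omega
        · obtain ⟨b', hlt, hb'⟩ := lo_below hL hγc h1
          have h2 := (can_eq hL (T := T) (s := s) (b := b')).2
            ⟨hL.left b' c hlt.1, γ, hb', hsγ⟩
          omega
      by_cases hz : ∃ s', child T s' s ∧ can L T s' = 0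
      · exact Or.inl hz
      · refine Or.inr fun c hc => ?_
        obtain ⟨γ', hγ', hrc⟩ := hall c hc
        obtain ⟨s', hs', δ, hγδ, hrs⟩ := (hasRank_iff.1 hsγ).2 γ' hγ'
        obtain ⟨b', hb'⟩ : ∃ b', can L T s' = b' + 1 := by
          refine ⟨can L T s' - 1, ?_⟩
          have h1 : can L T s' ≠ 0 := fun h1 => hz ⟨s', hs', h1⟩
          omega
        obtain ⟨hb'b', δ', hbδ', hsδ'⟩ := (can_eq hL).1 hb'
        have h6 : δ = δ' := hasRank_unique hrs hsδ'
        subst h6
        refine ⟨s', b', hs', hb', ?_⟩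
        rcases lo_tri hL hb'b' hc with h1 | h1
        · exact absurd (hasRank_lt hrc hbδ' h1) (not_lt.2 hγδ)
        · exact h1
    · obtain ⟨s', hs', hn⟩ := acc_child_iff hacc
      refine Or.inl ⟨s', hs', ?_⟩
      by_contra h1
      obtain ⟨b', hb'⟩ : ∃ b', can L T s' = b' + 1 := ⟨can L T s' - 1, by omega⟩
      obtain ⟨-, δ', -, hsδ'⟩ := (can_eq hL).1 hb'
      exact hn (hasRank_acc hsδ')

theorem can_full {L : LOrd} (hL : IsLO L) (hw : ∀ a, L a a = true → Acc (lt L) a) {T : Tree}
    (hT : Closed T) {β : Ordinal.{0}} (hr : HasRank (child T) [] β) {a : ℕ}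
    (ha : L a a = true) (hb : HasRank (lt L) a β) : Full L T (can L T) := by
  refine ⟨can_exact hL hw T, ?_, ?_⟩
  · have h1 : ∀ s, T s = true → ∃ γ ≤ β, HasRank (child T) s γ := by
      intro s
      induction s with
      | nil => exact fun _ => ⟨β, le_rfl, hr⟩
      | cons n s ih =>
        intro hs
        obtain ⟨γ, hγ, hrs⟩ := ih (hT n s hs)
        obtain ⟨γ', hγ', hrs'⟩ := (hasRank_iff.1 hrs).1 (n :: s) ⟨hs, hT n s hs, n, rfl⟩
        exact ⟨γ', hγ'.le.trans hγ, hrs'⟩
    intro s hs h0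
    obtain ⟨γ, hγ, hrs⟩ := h1 s hs
    rcases hγ.eq_or_lt with h2 | h2
    · subst h2
      have h3 := (can_eq hL (T := T) (s := s) (b := a)).2 ⟨ha, γ, hb, hrs⟩
      omega
    · obtain ⟨b', hlt, hb'⟩ := lo_below hL hb h2
      have h3 := (can_eq hL (T := T) (s := s) (b := b')).2 ⟨hL.left b' a hlt.1, γ, hb', hrs⟩
      omega
  · intro b c hbc hcb
    obtain ⟨hbb, β', hbβ', hsβ'⟩ := (can_eq hL).1 hbc
    obtain ⟨γ, hγ, hrc⟩ := (hasRank_iff.1 hbβ').1 c hcb
    obtain ⟨t, ht, hrt⟩ := hasRank_below hsβ' hγ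
    obtain ⟨x, hx, -⟩ := Relation.TransGen.head'_iff.1 ht
    exact ⟨t, hx.1, (can_eq hL).2 ⟨hL.left c b hcb.1, γ, hrc, hrt⟩⟩

theorem can_meas {Ω : Type} [MeasurableSpace Ω] {L : LOrd} (hL : IsLO L)
    (hw : ∀ a, L a a = true → Acc (lt L) a) {T : Ω → Tree} (hT : Measurable T) :
    Measurable fun ω => can L (T ω) := by
  rw [measurable_pi_iff]
  intro s
  have h1 : ∀ b : ℕ, MeasurableSet {ω | can L (T ω) s = b + 1} := by
    intro b
    by_cases hb : L b b = true
    · obtain ⟨β, hβ⟩ := hasRank_of_acc (hw b hb)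
      have h2 : {ω | can L (T ω) s = b + 1} = {ω | HasRank (child (T ω)) s β} := by
        ext ω
        constructor
        · intro h3
          obtain ⟨-, β', h4, h5⟩ := (can_eq hL).1 h3
          rw [hasRank_unique hβ h4]
          exact h5
        · intro h3
          exact (can_eq hL).2 ⟨hb, β, hβ, h3⟩
      rw [h2]
      exact hasRank_child_meas hT (hasRank_ctbl hβ) s
    · have h2 : {ω | can L (T ω) s = b + 1} = ∅ := by
        ext ω
        constructor
        · intro h3
          exact absurd ((can_eq hL).1 h3).1 hb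
        · intro h3
          exact absurd h3 (Set.notMem_empty ω)
      rw [h2]
      exact MeasurableSet.empty
  refine measurable_to_countable' fun n => ?_
  cases n with
  | zero =>
    have h2 : (fun ω => can L (T ω) s) ⁻¹' {0} = (⋃ b : ℕ, {ω | can L (T ω) s = b + 1})ᶜ := by
      ext ω
      simp only [Set.mem_preimage, Set.mem_singleton_iff, Set.mem_compl_iff, Set.mem_iUnion,
        Set.mem_ofPred_eq, not_exists]
      constructor
      · intro h3 b
        omega
      · intro h3
        by_contra h4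
        exact h3 (can L (T ω) s - 1) (by omega)
    rw [h2]
    exact (MeasurableSet.iUnion h1).compl
  | succ b => exact h1 b

theorem full_ill {L : LOrd} {T : Tree} {κ : List ℕ → ℕ} (hL : IsLO L) (h : Full L T κ)
    (hb : ∃ u, Br T u) {β : Ordinal.{0}} (hβ : ∀ s, ¬ HasRank (child T) s β) :
    Short β L ∧ Ill β L := by
  obtain ⟨hE, hne, hfull⟩ := h
  have hroot : T [] = true := by
    obtain ⟨u, hu⟩ := hb
    exact hu 0
  obtain ⟨b, hκ⟩ : ∃ b, κ [] = b + 1 := by
    have h1 := hne [] hroot
    exact ⟨κ [] - 1, by omega⟩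
  have hbb : L b b = true := hE.dom [] b hroot hκ
  have hnacc : ¬ Acc (lt L) b := by
    intro hacc
    obtain ⟨γ, hγ⟩ := hasRank_of_acc hacc
    exact (branch_acc.1 (hasRank_acc (exact_rank hL hE hroot hκ hγ))) hb
  constructor
  · intro c hc hcr
    rcases lo_tri hL hc hbb with h1 | h1
    · obtain ⟨t, ht, hκt⟩ := hfull b c hκ h1
      exact hβ t (exact_rank hL hE ht hκt hcr)
    · exact hnacc (lo_acc_le h1 (hasRank_acc hcr))
  · exact ⟨b, hbb, fun γ _ hγ => hnacc (hasRank_acc hγ)⟩

end Pool.Agent.Lib.HFC
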