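import Pool.Agent.Lib.HFC.AnL

/-!
# Module HFC.FP: the fixed point lemma for trees (MP_3091e6_lc)

PROOF of `fixed_point`. `letI := upgradeStandardBorel Θ`. `𝒳 ⊆ Θ × Tree` (`Tree = List ℕ → Bool` is a Polish space) is
analytic (`an_iff`). If it is empty take `V θ s = false`. Otherwise `𝒳 = range g`, `g : NN → Θ × Tree` continuous. Fix a metric
on `Θ`. Define `V θ s = true` by recursion on `s.length` iff (C) there is `u : NN` with `PiNat.res u s.length = s`,
`dist (g u).1 θ < 1 / (s.length + 1)`, and `(g u).2 t = V θ t` for all `t` shorter than `s` and with code `< s.length`.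
`Closed`: the conditions for `n :: s` imply those for `s` (same `u`). Branches: if `g u = (θ, V θ)` then `u` is a branch. If `u`
is a branch, choose `u_n` for `PiNat.res u n`; `u_n → u`, so `g u_n → g u`, and `(g u_n).1 → θ`,
`(g u_n).2 t = V θ t` for large `n`; limits are unique, so `g u = (θ, V θ) ∈ 𝒳`.
Measurability: `{θ | V θ s = true}` is measurable, by strong induction on the length: it is the union over the
functions `σ : Fin s.length → Bool` of `{θ | V θ (decode i) = σ i for all i}` and the open set of the `θ` for which there is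
`u` with `res u s.length = s`, `dist (g u).1 θ < ..`, `(g u).2 (decode i) = σ i` (union of balls).
`tree_rep`: `fixed_point` for `{p | p.1 ∈ A}` (`an_preimage`).
`tree_rep2`: `K p q s = true` iff there is `u` with `res u s.length = s`, `res (g u).1 p.length = p`,
`res (g u).2 q.length = q`.
-/

set_option autoImplicit false

namespace Pool.Agent.Lib.HFC

namespace FPAux

open Filter Topology

theorem polish_tree : PolishSpace Tree := { }

/-- sequences with prescribed initial segments converge -/
theorem tendsto_of_res {u : NN} {v : ℕ → NN} (h : ∀ n, PiNat.res (v n) n = PiNat.res u n) :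
    Tendsto v atTop (𝓝 u) := by
  rw [tendsto_pi_nhds]
  intro m
  refine tendsto_const_nhds.congr' ?_
  filter_upwards [eventually_gt_atTop m] with n hn
  exact (PiNat.res_eq_res.1 (h n) hn).symm

/-- a limit along prescribed initial segments -/
theorem eq_of_res {y y' : NN} {w : ℕ → NN} (h : ∀ n, PiNat.res (w n) n = PiNat.res y n)
    (h' : Tendsto w atTop (𝓝 y')) : y' = y :=
  tendsto_nhds_unique h' (tendsto_of_res h)

variable {Θ : Type}

/-- the condition (C) -/
def CC [MetricSpace Θ] (g : NN → Θ × Tree) (θ : Θ) (W : Tree) (s : List ℕ) : Prop :=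
  ∃ u : NN, PiNat.res u s.length = s ∧ dist (g u).1 θ < 1 / ((s.length : ℝ) + 1) ∧
    ∀ i < s.length, (Denumerable.ofNat (List ℕ) i).length < s.length →
      (g u).2 (Denumerable.ofNat (List ℕ) i) = W (Denumerable.ofNat (List ℕ) i)

open Classical in
/-- the levels -/
noncomputable def Lv [MetricSpace Θ] (g : NN → Θ × Tree) (θ : Θ) : ℕ → Tree
  | 0 => fun _ => false
  | n + 1 => fun t => if t.length = n then decide (CC g θ (Lv g θ n) t) else Lv g θ n t

/-- the tree -/
noncomputable def VV [MetricSpace Θ] (g : NN → Θ × Tree) (θ : Θ) : Tree :=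
  fun t => Lv g θ (t.length + 1) t

theorem Lv_eq [MetricSpace Θ] (g : NN → Θ × Tree) (θ : Θ) (t : List ℕ) :
    ∀ n, t.length < n → Lv g θ n t = VV g θ t := by
  intro n hn
  induction n with
  | zero => omega
  | succ n ih =>
    by_cases h : t.length = n
    · subst h
      rfl
    · have h1 : Lv g θ (n + 1) t = Lv g θ n t := by
        conv_lhs => unfold Lv
        rw [if_neg h]
      rw [h1]
      exact ih (by omega)

theorem VV_iff [MetricSpace Θ] (g : NN → Θ × Tree) (θ : Θ) (s : List ℕ) :
    VV g θ s = true ↔ CC g θ (VV g θ) s := by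
  classical
  have h1 : VV g θ s = decide (CC g θ (Lv g θ s.length) s) := by
    unfold VV
    conv_lhs => unfold Lv
    rw [if_pos rfl]
  rw [h1, decide_eq_true_iff]
  unfold CC
  constructor
  · rintro ⟨u, hu1, hu2, hu3⟩
    refine ⟨u, hu1, hu2, fun i hi hl => ?_⟩
    rw [hu3 i hi hl]
    exact Lv_eq g θ _ _ hl
  · rintro ⟨u, hu1, hu2, hu3⟩
    refine ⟨u, hu1, hu2, fun i hi hl => ?_⟩
    rw [hu3 i hi hl]
    exact (Lv_eq g θ _ _ hl).symm

theorem VV_closed [MetricSpace Θ] (g : NN → Θ × Tree) (θ : Θ) : Closed (VV g θ) := by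
  intro n s h
  rw [VV_iff] at h ⊢
  obtain ⟨u, hu1, hu2, hu3⟩ := h
  rw [List.length_cons] at hu1 hu2 hu3
  rw [PiNat.res_succ, List.cons.injEq] at hu1
  refine ⟨u, hu1.2, hu2.trans_le ?_, fun i hi hl => hu3 i (by omega) (by omega)⟩
  push_cast
  apply one_div_le_one_div_of_le
  · positivity
  · linarith

theorem VV_br [MetricSpace Θ] {g : NN → Θ × Tree} (hg : Continuous g) (θ : Θ) :
    (∃ u, Br (VV g θ) u) ↔ ∃ u, g u = (θ, VV g θ) := by
  constructor
  · rintro ⟨u, hu⟩
    have h1 : ∀ n, CC g θ (VV g θ) (PiNat.res u n) := fun n => (VV_iff g θ _).1 (hu n)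
    choose v hv1 hv2 hv3 using h1
    simp only [PiNat.res_length] at hv1 hv2 hv3
    have h2 : Tendsto v atTop (𝓝 u) := tendsto_of_res hv1
    have h3 : Tendsto (fun n => g (v n)) atTop (𝓝 (g u)) := (hg.tendsto u).comp h2
    refine ⟨u, Prod.ext ?_ ?_⟩
    · have h4 : Tendsto (fun n => (g (v n)).1) atTop (𝓝 (g u).1) :=
        (continuous_fst.tendsto _).comp h3
      have h5 : Tendsto (fun n => (g (v n)).1) atTop (𝓝 θ) := by
        rw [tendsto_iff_dist_tendsto_zero]
        refine squeeze_zero (fun _ => dist_nonneg) (fun n => (hv2 n).le) ?_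
        exact tendsto_one_div_add_atTop_nhds_zero_nat
      exact tendsto_nhds_unique h4 h5
    · funext t
      have h4 : Tendsto (fun n => (g (v n)).2 t) atTop (𝓝 ((g u).2 t)) :=
        (((continuous_apply t).comp continuous_snd).tendsto _).comp h3
      have h5 : Tendsto (fun n => (g (v n)).2 t) atTop (𝓝 (VV g θ t)) := by
        refine tendsto_const_nhds.congr' ?_
        filter_upwards [eventually_gt_atTop t.length,
          eventually_gt_atTop (Encodable.encode t)] with n hn1 hn2
        have h6 := hv3 n (Encodable.encode t) hn2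
        rw [Denumerable.ofNat_encode] at h6
        exact (h6 hn1).symm
      exact tendsto_nhds_unique h4 h5
  · rintro ⟨u, hu⟩
    refine ⟨u, fun n => ?_⟩
    rw [VV_iff]
    refine ⟨u, ?_, ?_, fun i _ _ => ?_⟩
    · rw [PiNat.res_length]
    · rw [hu, dist_self]
      positivity
    · rw [hu]

theorem VV_meas [MetricSpace Θ] [MeasurableSpace Θ] [BorelSpace Θ] (g : NN → Θ × Tree) :
    Measurable (VV g) := by
  rw [measurable_pi_iff]
  have key : ∀ n, ∀ s : List ℕ, s.length = n → MeasurableSet {θ | VV g θ s = true} := by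
    intro n
    induction n using Nat.strong_induction_on with
    | _ n ih =>
      intro s hs
      have h1 : {θ | VV g θ s = true} = ⋃ σ : Fin n → Bool,
          (⋂ i : Fin n, {θ | (Denumerable.ofNat (List ℕ) i).length < n →
            VV g θ (Denumerable.ofNat (List ℕ) i) = σ i}) ∩
          ⋃ u ∈ {u : NN | PiNat.res u n = s ∧ ∀ i : Fin n,
            (Denumerable.ofNat (List ℕ) i).length < n →
              (g u).2 (Denumerable.ofNat (List ℕ) i) = σ i},
            Metric.ball (g u).1 (1 / ((n : ℝ) + 1)) := by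
        ext θ
        simp only [Set.mem_ofPred_eq, Set.mem_iUnion, Set.mem_inter_iff, Set.mem_iInter,
          Metric.mem_ball]
        rw [VV_iff]
        unfold CC
        rw [hs]
        constructor
        · rintro ⟨u, hu1, hu2, hu3⟩
          refine ⟨fun i => VV g θ (Denumerable.ofNat (List ℕ) i), fun i _ => rfl,
            u, ⟨hu1, fun i hi => hu3 i i.2 hi⟩, ?_⟩
          rw [dist_comm]
          exact hu2
        · rintro ⟨σ, hσ, u, ⟨hu1, hu2⟩, hu3⟩
          refine ⟨u, hu1, ?_, fun i hi hl => ?_⟩
          · rw [dist_comm]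
            exact hu3
          · rw [hu2 ⟨i, hi⟩ hl, hσ ⟨i, hi⟩ hl]
      rw [h1]
      refine MeasurableSet.iUnion fun σ => MeasurableSet.inter ?_ ?_
      · refine MeasurableSet.iInter fun i => ?_
        by_cases hl : (Denumerable.ofNat (List ℕ) (i : ℕ)).length < n
        · have h2 : MeasurableSet {θ | VV g θ (Denumerable.ofNat (List ℕ) i) = true} :=
            ih _ hl _ rfl
          have h3 : {θ | (Denumerable.ofNat (List ℕ) (i : ℕ)).length < n →
              VV g θ (Denumerable.ofNat (List ℕ) i) = σ i} =
              {θ | VV g θ (Denumerable.ofNat (List ℕ) i) = σ i} := by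
            ext θ
            simp only [Set.mem_ofPred_eq]
            exact ⟨fun h => h hl, fun h _ => h⟩
          rw [h3]
          cases h4 : σ i with
          | true => exact h2
          | false =>
            have h5 : {θ | VV g θ (Denumerable.ofNat (List ℕ) i) = false} =
                {θ | VV g θ (Denumerable.ofNat (List ℕ) i) = true}ᶜ := by
              ext θ
              simp
            rw [h5]
            exact h2.compl
        · have h3 : {θ | (Denumerable.ofNat (List ℕ) (i : ℕ)).length < n →
              VV g θ (Denumerable.ofNat (List ℕ) i) = σ i} = Set.univ := by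
            ext θ
            simp only [Set.mem_ofPred_eq, Set.mem_univ, iff_true]
            exact fun h => absurd h hl
          rw [h3]
          exact MeasurableSet.univ
      · exact (isOpen_biUnion fun u _ => Metric.isOpen_ball).measurableSet
  intro s
  refine measurable_to_bool ?_
  exact key s.length s rfl

end FPAux

open FPAux in
theorem fixed_point {Θ : Type} [MeasurableSpace Θ] [StandardBorelSpace Θ] {X : Set (Θ × Tree)}
    (h : An X) : ∃ V : Θ → Tree, Measurable V ∧ (∀ θ, Closed (V θ)) ∧
      ∀ θ, (∃ u, Br (V θ) u) ↔ (θ, V θ) ∈ X := by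
  let := upgradeStandardBorel Θ
  have hT : PolishSpace Tree := polish_tree
  have h1 : MeasureTheory.AnalyticSet X := an_iff.1 h
  rw [MeasureTheory.AnalyticSet] at h1
  rcases h1 with h1 | ⟨g, hg, rfl⟩
  · refine ⟨fun _ _ => false, measurable_const, fun θ n s hs => absurd hs (by simp), fun θ => ?_⟩
    constructor
    · rintro ⟨u, hu⟩
      exact absurd (hu 0) (by simp)
    · intro h2
      rw [h1] at h2
      exact absurd h2 (Set.notMem_empty _)
  · let m : MetricSpace Θ := TopologicalSpace.metrizableSpaceMetric Θ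
    have hB : @BorelSpace Θ m.toUniformSpace.toTopologicalSpace _ :=
      inferInstanceAs (@BorelSpace Θ (upgradeStandardBorel Θ).toTopologicalSpace _)
    refine ⟨VV g, VV_meas g, VV_closed g, fun θ => ?_⟩
    rw [VV_br hg]
    rfl

theorem tree_rep {Θ : Type} [MeasurableSpace Θ] [StandardBorelSpace Θ] {A : Set Θ}
    (h : An A) : ∃ T : Θ → Tree, Measurable T ∧ (∀ θ, Closed (T θ)) ∧
      ∀ θ, (∃ u, Br (T θ) u) ↔ θ ∈ A := by
  have h1 : An ((Prod.fst : Θ × Tree → Θ) ⁻¹' A) := an_preimage h measurable_fst
  exact fixed_point h1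

open FPAux Filter Topology in
theorem tree_rep2 {C : Set (NN × NN)} (h : An C) : ∃ K : List ℕ → List ℕ → Tree,
    (∀ a b n p q s, K (a :: p) (b :: q) (n :: s) = true → K p q s = true) ∧
      ∀ y z : NN, (∃ u : NN, ∀ n, K (PiNat.res y n) (PiNat.res z n) (PiNat.res u n) = true) ↔
        (y, z) ∈ C := by
  classical
  have h1 : MeasureTheory.AnalyticSet C := an_iff.1 h
  rw [MeasureTheory.AnalyticSet] at h1
  rcases h1 with h1 | ⟨g, hg, rfl⟩
  · refine ⟨fun _ _ _ => false, fun a b n p q s hs => absurd hs (by simp), fun y z => ?_⟩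
    constructor
    · rintro ⟨u, hu⟩
      exact absurd (hu 0) (by simp)
    · intro h2
      rw [h1] at h2
      exact absurd h2 (Set.notMem_empty _)
  · refine ⟨fun p q s => decide (∃ u : NN, PiNat.res u s.length = s ∧
      PiNat.res (g u).1 p.length = p ∧ PiNat.res (g u).2 q.length = q), ?_, fun y z => ?_⟩
    · intro a b n p q s hs
      rw [decide_eq_true_iff] at hs ⊢
      obtain ⟨u, hu1, hu2, hu3⟩ := hs
      rw [List.length_cons, PiNat.res_succ, List.cons.injEq] at hu1 hu2 hu3
      exact ⟨u, hu1.2, hu2.2, hu3.2⟩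
    · constructor
      · rintro ⟨u, hu⟩
        have h2 : ∀ n, ∃ v : NN, PiNat.res v n = PiNat.res u n ∧
            PiNat.res (g v).1 n = PiNat.res y n ∧ PiNat.res (g v).2 n = PiNat.res z n := by
          intro n
          have h3 := hu n
          rw [decide_eq_true_iff] at h3
          simpa only [PiNat.res_length] using h3
        choose v hv1 hv2 hv3 using h2
        have h3 : Tendsto v atTop (𝓝 u) := tendsto_of_res hv1
        have h4 : Tendsto (fun n => g (v n)) atTop (𝓝 (g u)) := (hg.tendsto u).comp h3
        have h5 : (g u).1 = y := eq_of_res hv2 ((continuous_fst.tendsto _).comp h4)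
        have h6 : (g u).2 = z := eq_of_res hv3 ((continuous_snd.tendsto _).comp h4)
        exact ⟨u, Prod.ext h5 h6⟩
      · rintro ⟨u, hu⟩
        refine ⟨u, fun n => ?_⟩
        rw [decide_eq_true_iff]
        refine ⟨u, ?_, ?_, ?_⟩
        · rw [PiNat.res_length]
        · rw [PiNat.res_length, hu]
        · rw [PiNat.res_length, hu]

end Pool.Agent.Lib.HFC
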