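import Pool.Agent.Lib.HFC.Univ
import Pool.Agent.Lib.HFC.HFT

/-!
# Module HFC.FailL: codes of witnesses and their failures (MP_3091e6_lc)

`A` is a set of triples (code, point of `Q × Q × ℕ`, value); `Fail A c qs`: the code `c` fails at the sequence of points
`qs`: some matrix `m` of possible values is bad, or has another possible value at some place.
PROOF of `an_fail`: `an_proj` along the space `ℕ → ℕ → ℕ → Bool` of the matrices; the first condition is a countable
intersection of preimages of `A` under the maps `(c, qs, m) ↦ (c, (qs i, qs j, n), m i j n)` (measurable; for the Boolean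
coordinate write `A` as the union of the two preimages for `m i j n = true / false`, or use measurability of evaluation),
the second one a union of measurable and analytic sets (`qs i ≠ qs j`: `measurableSet_eq_fun`, complement).
PROOF of `hfon_of_noFail`: (1) for `x y ∈ S` with `E x y` and `n : ℕ` exactly one of `(c x, (x, y, n), true) ∈ A`,
`(c x, (x, y, n), false) ∈ A` holds: at least one by `Uni.tot`; if both hold take `qs 0 = x`, `qs i = y` for `i > 0`, and any matrix
`m` of values (`m i j n` chosen by `Uni.tot`), and the last alternative with `i = 0`, `j = 1`. (2) `F n x y = (x ∈ S ∧ y ∈ S ∧ E x y ∧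
(c x, (x, y, n), true) ∈ A)`. It is analytic, its complement in the measurable set `{x ∈ S, y ∈ S, E x y}` is analytic by (1),
so it is measurable (`meas_of_an`). (3) For points `x, y, z, ...` in `S` of one class the matrix of the values at a sequence
listing these points is not bad: this gives reflexivity, symmetry (`c x = c y`), transitivity, `F n ⊆ F (n + 1)`, and
`E x y → ∃ n, F n x y`. Finite classes: if `{y | F n x y}` is infinite, choose an injective sequence `qs` in it with `qs 0 = x`
(`x` is in the set; e.g. an injection `ℕ → {y | F n x y} \ {x}` shifted by one), the matrix of values has `m 0 j n = true` for all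
`j`, so it is bad.
PROOF of `noFail_of_hfon`: `G` the witness; `B = {(x, y, n) | G n x y}` is measurable in `Q × Q × ℕ` (`measurableSet` via
`measurable_from_prod_countable`-like argument: `B = ⋃ n, {(x, y, k) | k = n ∧ G n x y}`); `c` is the code of `B` in `Uni.code`. For
`qs` in `S` in one class the only matrix of values is `m i j n = decide (G n (qs i) (qs j))`; the last alternative is
impossible, and `Bad` contradicts the properties of `G`: an infinite set `{qs j}` in `{y | G n (qs 0) y}`, etc.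
-/

set_option autoImplicit false

namespace Pool.Agent.Lib.HFC

/-- the matrix `m` of values at the points `qs` is not the matrix of a witness -/
def Bad {Q : Type} (qs : ℕ → Q) (m : ℕ → ℕ → ℕ → Bool) : Prop :=
  (∃ n, (∀ i j, i ≠ j → qs i ≠ qs j) ∧ ∀ j, m 0 j n = true) ∨
  (∃ i j, ∀ n, m i j n = false) ∨
  (∃ i n, m i i n = false) ∨
  (∃ i j n, m i j n = true ∧ m j i n = false) ∨
  (∃ i j k n, m i j n = true ∧ m j k n = true ∧ m i k n = false) ∨
  ∃ i j n, m i j n = true ∧ m i j (n + 1) = false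

/-- the code `c` fails at the points `qs` -/
def Fail {Q : Type} (A : Set ((NN × NN) × (Q × Q × ℕ) × Bool)) (c : NN × NN) (qs : ℕ → Q) :
    Prop :=
  ∃ m : ℕ → ℕ → ℕ → Bool, (∀ i j n, (c, (qs i, qs j, n), m i j n) ∈ A) ∧
    (Bad qs m ∨ ∃ i j n, (c, (qs i, qs j, n), !(m i j n)) ∈ A)

theorem an_fail {Q : Type} [MeasurableSpace Q] [StandardBorelSpace Q]
    {A : Set ((NN × NN) × (Q × Q × ℕ) × Bool)} (hA : Uni A) :
    An {p : (NN × NN) × (ℕ → Q) | Fail A p.1 p.2} := by
  have hm : ∀ i j n : ℕ, Measurable fun z : ((NN × NN) × (ℕ → Q)) × (ℕ → ℕ → ℕ → Bool) =>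
      z.2 i j n := fun i j n =>
    (measurable_pi_apply n).comp ((measurable_pi_apply j).comp
      ((measurable_pi_apply i).comp measurable_snd))
  have hq : ∀ i : ℕ, Measurable fun z : ((NN × NN) × (ℕ → Q)) × (ℕ → ℕ → ℕ → Bool) =>
      z.1.2 i := fun i => (measurable_pi_apply i).comp (measurable_snd.comp measurable_fst)
  have hc : Measurable fun z : ((NN × NN) × (ℕ → Q)) × (ℕ → ℕ → ℕ → Bool) => z.1.1 :=
    measurable_fst.comp measurable_fst
  have hn : Measurable fun b : Bool => !b := measurable_of_countable _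
  have hg : ∀ i j n : ℕ, Measurable fun z : ((NN × NN) × (ℕ → Q)) × (ℕ → ℕ → ℕ → Bool) =>
      (z.1.1, (z.1.2 i, z.1.2 j, n), z.2 i j n) := fun i j n =>
    hc.prodMk (((hq i).prodMk ((hq j).prodMk measurable_const)).prodMk (hm i j n))
  have hg' : ∀ i j n : ℕ, Measurable fun z : ((NN × NN) × (ℕ → Q)) × (ℕ → ℕ → ℕ → Bool) =>
      (z.1.1, (z.1.2 i, z.1.2 j, n), !(z.2 i j n)) := fun i j n =>
    hc.prodMk (((hq i).prodMk ((hq j).prodMk measurable_const)).prodMk (hn.comp (hm i j n)))
  have e1 : ∀ (i j n : ℕ) (b : Bool),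
      Measurable fun z : ((NN × NN) × (ℕ → Q)) × (ℕ → ℕ → ℕ → Bool) => z.2 i j n = b :=
    fun i j n b => measurableSet_setOf.1 ((hm i j n) (measurableSet_singleton b))
  have e2 : ∀ i j : ℕ, Measurable fun z : ((NN × NN) × (ℕ → Q)) × (ℕ → ℕ → ℕ → Bool) =>
      z.1.2 i ≠ z.1.2 j :=
    fun i j => (measurableSet_setOf.1 (measurableSet_eq_fun (hq i) (hq j))).not
  have hB : Measurable fun z : ((NN × NN) × (ℕ → Q)) × (ℕ → ℕ → ℕ → Bool) =>
      Bad z.1.2 z.2 := by
    unfold Bad
    refine Measurable.or (Measurable.exists fun n => Measurable.and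
      (Measurable.forall fun i => Measurable.forall fun j =>
        Measurable.imp measurable_const (e2 i j)) (Measurable.forall fun j => e1 _ _ _ _)) ?_
    refine Measurable.or (Measurable.exists fun i => Measurable.exists fun j =>
      Measurable.forall fun n => e1 _ _ _ _) ?_
    refine Measurable.or (Measurable.exists fun i => Measurable.exists fun n => e1 _ _ _ _) ?_
    refine Measurable.or (Measurable.exists fun i => Measurable.exists fun j =>
      Measurable.exists fun n => Measurable.and (e1 _ _ _ _) (e1 _ _ _ _)) ?_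
    refine Measurable.or (Measurable.exists fun i => Measurable.exists fun j =>
      Measurable.exists fun k => Measurable.exists fun n =>
      Measurable.and (e1 _ _ _ _) (Measurable.and (e1 _ _ _ _) (e1 _ _ _ _))) ?_
    exact Measurable.exists fun i => Measurable.exists fun j => Measurable.exists fun n =>
      Measurable.and (e1 _ _ _ _) (e1 _ _ _ _)
  have h1 : An (⋂ i : ℕ, ⋂ j : ℕ, ⋂ n : ℕ,
      (fun z : ((NN × NN) × (ℕ → Q)) × (ℕ → ℕ → ℕ → Bool) =>
        (z.1.1, (z.1.2 i, z.1.2 j, n), z.2 i j n)) ⁻¹' A) :=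
    an_iInter fun i => an_iInter fun j => an_iInter fun n => an_preimage hA.an (hg i j n)
  have h2 : An (⋃ i : ℕ, ⋃ j : ℕ, ⋃ n : ℕ,
      (fun z : ((NN × NN) × (ℕ → Q)) × (ℕ → ℕ → ℕ → Bool) =>
        (z.1.1, (z.1.2 i, z.1.2 j, n), !(z.2 i j n))) ⁻¹' A) :=
    an_iUnion fun i => an_iUnion fun j => an_iUnion fun n => an_preimage hA.an (hg' i j n)
  have h3 : An {z : ((NN × NN) × (ℕ → Q)) × (ℕ → ℕ → ℕ → Bool) | Bad z.1.2 z.2} :=
    an_of_meas (measurableSet_setOf.2 hB)
  have h4 := an_proj (an_inter h1 (an_union h3 h2))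
  convert h4 using 1
  ext p
  simp only [Fail, Set.mem_setOf_eq, Set.mem_inter_iff, Set.mem_union, Set.mem_iInter,
    Set.mem_iUnion, Set.mem_preimage]

theorem hfon_of_noFail {Q : Type} [MeasurableSpace Q] [StandardBorelSpace Q]
    {A : Set ((NN × NN) × (Q × Q × ℕ) × Bool)} (hA : Uni A) {E : Q → Q → Prop} (hE : CBER E)
    {S : Set Q} (hS : MeasurableSet S) {c : Q → NN × NN} (hc : Measurable c)
    (hci : ∀ x y, E x y → c x = c y)
    (hf : ∀ qs : ℕ → Q, (∀ i, qs i ∈ S) → (∀ i j, E (qs i) (qs j)) → ¬ Fail A (c (qs 0)) qs) :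
    HFOn E S := by
  classical
  -- the matrix of the values at a sequence
  have key : ∀ qs : ℕ → Q, (∀ i, qs i ∈ S) → (∀ i j, E (qs i) (qs j)) →
      ¬ (Bad qs (fun i j n => decide ((c (qs 0), (qs i, qs j, n), true) ∈ A)) ∨
        ∃ i j n, (c (qs 0), (qs i, qs j, n),
          !(decide ((c (qs 0), (qs i, qs j, n), true) ∈ A))) ∈ A) := by
    intro qs h1 h2 h3
    refine hf qs h1 h2 ⟨fun i j n => decide ((c (qs 0), (qs i, qs j, n), true) ∈ A), ?_, h3⟩
    intro i j n
    by_cases h4 : (c (qs 0), (qs i, qs j, n), true) ∈ A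
    · simpa [h4] using h4
    · have h5 := (hA.tot (c (qs 0)) (qs i, qs j, n)).resolve_left h4
      simpa [h4] using h5
  have key2 : ∀ qs : ℕ → Q, (∀ i, qs i ∈ S) → (∀ i j, E (qs i) (qs j)) →
      ¬ Bad qs (fun i j n => decide ((c (qs 0), (qs i, qs j, n), true) ∈ A)) :=
    fun qs h1 h2 h3 => key qs h1 h2 (Or.inl h3)
  -- sequences of three points
  have tri : ∀ x y z : Q, x ∈ S → y ∈ S → z ∈ S → E x y → E x z →
      ∃ qs : ℕ → Q, qs 0 = x ∧ qs 1 = y ∧ qs 2 = z ∧ (∀ i, qs i ∈ S) ∧
        ∀ i j, E (qs i) (qs j) := by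
    intro x y z hx hy hz hxy hxz
    have h1 : ∀ i, E x ((fun i : ℕ => if i = 0 then x else if i = 1 then y else z) i) := by
      intro i
      by_cases h2 : i = 0
      · simp only [h2, if_true]
        exact hE.equiv.refl x
      · by_cases h3 : i = 1
        · simp only [h3, if_true]
          exact hxy
        · simp only [h2, h3, if_false]
          exact hxz
    refine ⟨fun i => if i = 0 then x else if i = 1 then y else z, rfl, rfl, rfl, ?_, ?_⟩
    · intro i
      by_cases h2 : i = 0
      · simp only [h2, if_true]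
        exact hx
      · by_cases h3 : i = 1
        · simp only [h3, if_true]
          exact hy
        · simp only [h2, h3, if_false]
          exact hz
    · intro i j
      exact hE.equiv.trans (hE.equiv.symm (h1 i)) (h1 j)
  have excl : ∀ x y n, x ∈ S → y ∈ S → E x y → (c x, (x, y, n), true) ∈ A →
      (c x, (x, y, n), false) ∈ A → False := by
    intro x y n hx hy hxy h1 h2
    obtain ⟨qs, q0, q1, -, hqS, hqE⟩ := tri x y y hx hy hy hxy hxy
    refine key qs hqS hqE (Or.inr ⟨0, 1, n, ?_⟩)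
    rw [q0, q1]
    have h3 : decide ((c x, (x, y, n), true) ∈ A) = true := decide_eq_true h1
    rw [h3]
    exact h2
  have hrefl : ∀ x n, x ∈ S → (c x, (x, x, n), true) ∈ A := by
    intro x n hx
    obtain ⟨qs, q0, -, -, hqS, hqE⟩ := tri x x x hx hx hx (hE.equiv.refl x) (hE.equiv.refl x)
    by_contra h1
    refine key2 qs hqS hqE (Or.inr (Or.inr (Or.inl ⟨0, n, ?_⟩)))
    show decide ((c (qs 0), (qs 0, qs 0, n), true) ∈ A) = false
    rw [q0]
    exact decide_eq_false h1
  refine ⟨fun n x y => x ∈ S ∧ y ∈ S ∧ E x y ∧ (c x, (x, y, n), true) ∈ A, ?_, ?_⟩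
  · refine ⟨fun n x y h => ⟨h.1, h.2.1, h.2.2.1⟩, ?_, ?_, ?_, ?_, ?_, ?_⟩
    · intro n x hx
      exact ⟨hx, hx, hE.equiv.refl x, hrefl x n hx⟩
    · rintro n x y ⟨hx, hy, hxy, h1⟩
      refine ⟨hy, hx, hE.equiv.symm hxy, ?_⟩
      obtain ⟨qs, q0, q1, -, hqS, hqE⟩ := tri x y y hx hy hy hxy hxy
      by_contra h2
      rw [← hci x y hxy] at h2
      refine key2 qs hqS hqE (Or.inr (Or.inr (Or.inr (Or.inl ⟨0, 1, n, ?_, ?_⟩))))
      · show decide ((c (qs 0), (qs 0, qs 1, n), true) ∈ A) = true
        rw [q0, q1]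
        exact decide_eq_true h1
      · show decide ((c (qs 0), (qs 1, qs 0, n), true) ∈ A) = false
        rw [q0, q1]
        exact decide_eq_false h2
    · rintro n x y z ⟨hx, hy, hxy, h1⟩ ⟨-, hz, hyz, h2⟩
      have hxz := hE.equiv.trans hxy hyz
      refine ⟨hx, hz, hxz, ?_⟩
      obtain ⟨qs, q0, q1, q2, hqS, hqE⟩ := tri x y z hx hy hz hxy hxz
      by_contra h3
      rw [← hci x y hxy] at h2
      refine key2 qs hqS hqE (Or.inr (Or.inr (Or.inr (Or.inr (Or.inl
        ⟨0, 1, 2, n, ?_, ?_, ?_⟩)))))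
      · show decide ((c (qs 0), (qs 0, qs 1, n), true) ∈ A) = true
        rw [q0, q1]
        exact decide_eq_true h1
      · show decide ((c (qs 0), (qs 1, qs 2, n), true) ∈ A) = true
        rw [q0, q1, q2]
        exact decide_eq_true h2
      · show decide ((c (qs 0), (qs 0, qs 2, n), true) ∈ A) = false
        rw [q0, q2]
        exact decide_eq_false h3
    · intro n x
      by_contra hinf
      have hinf' : {y | x ∈ S ∧ y ∈ S ∧ E x y ∧ (c x, (x, y, n), true) ∈ A}.Infinite := hinf
      obtain ⟨y0, hx, -, -, -⟩ := hinf'.nonempty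
      have hinf2 : ({y | x ∈ S ∧ y ∈ S ∧ E x y ∧ (c x, (x, y, n), true) ∈ A} \ {x}).Infinite :=
        hinf'.diff (Set.finite_singleton x)
      let f := hinf2.natEmbedding
      have hfm : ∀ i, ((f i : Q) ∈ S ∧ E x (f i) ∧ (c x, (x, (f i : Q), n), true) ∈ A) ∧
          (f i : Q) ≠ x := by
        intro i
        have h1 := (f i).2
        exact ⟨⟨h1.1.2.1, h1.1.2.2.1, h1.1.2.2.2⟩, fun h2 => h1.2 h2⟩
      let qs : ℕ → Q := fun i => Nat.casesOn i x (fun k => (f k : Q))
      have q0 : qs 0 = x := rfl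
      have qS : ∀ i, qs i ∈ S := by
        intro i
        cases i with
        | zero => exact hx
        | succ k => exact (hfm k).1.1
      have qx : ∀ i, E x (qs i) := by
        intro i
        cases i with
        | zero => exact hE.equiv.refl x
        | succ k => exact (hfm k).1.2.1
      have qE : ∀ i j, E (qs i) (qs j) := fun i j =>
        hE.equiv.trans (hE.equiv.symm (qx i)) (qx j)
      refine key2 qs qS qE (Or.inl ⟨n, ?_, ?_⟩)
      · intro i j hij hc'
        cases i with
        | zero =>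
          cases j with
          | zero => exact hij rfl
          | succ k => exact (hfm k).2 hc'.symm
        | succ k =>
          cases j with
          | zero => exact (hfm k).2 hc'
          | succ l =>
            have h2 : f k = f l := Subtype.ext hc'
            exact hij (by rw [f.injective h2])
      · intro j
        show decide ((c (qs 0), (qs 0, qs j, n), true) ∈ A) = true
        rw [q0]
        cases j with
        | zero => exact decide_eq_true (hrefl x n hx)
        | succ k => exact decide_eq_true (hfm k).1.2.2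
    · rintro n x y ⟨hx, hy, hxy, h1⟩
      refine ⟨hx, hy, hxy, ?_⟩
      obtain ⟨qs, q0, q1, -, hqS, hqE⟩ := tri x y y hx hy hy hxy hxy
      by_contra h2
      refine key2 qs hqS hqE (Or.inr (Or.inr (Or.inr (Or.inr (Or.inr ⟨0, 1, n, ?_, ?_⟩)))))
      · show decide ((c (qs 0), (qs 0, qs 1, n), true) ∈ A) = true
        rw [q0, q1]
        exact decide_eq_true h1
      · show decide ((c (qs 0), (qs 0, qs 1, n + 1), true) ∈ A) = false
        rw [q0, q1]
        exact decide_eq_false h2
    · intro x y hx hy hxy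
      obtain ⟨qs, q0, q1, -, hqS, hqE⟩ := tri x y y hx hy hy hxy hxy
      by_contra h2
      push Not at h2
      refine key2 qs hqS hqE (Or.inr (Or.inl ⟨0, 1, ?_⟩))
      intro n
      show decide ((c (qs 0), (qs 0, qs 1, n), true) ∈ A) = false
      rw [q0, q1]
      exact decide_eq_false (h2 n hx hy hxy)
  · intro n
    have hP : MeasurableSet {p : Q × Q | p.1 ∈ S ∧ p.2 ∈ S ∧ E p.1 p.2} :=
      (measurable_fst hS).inter ((measurable_snd hS).inter hE.meas)
    have hg : ∀ b : Bool, Measurable fun p : Q × Q => (c p.1, (p.1, p.2, n), b) := fun b =>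
      (hc.comp measurable_fst).prodMk ((measurable_fst.prodMk
        (measurable_snd.prodMk measurable_const)).prodMk measurable_const)
    have e1 : {p : Q × Q | p.1 ∈ S ∧ p.2 ∈ S ∧ E p.1 p.2 ∧ (c p.1, (p.1, p.2, n), true) ∈ A} =
        {p : Q × Q | p.1 ∈ S ∧ p.2 ∈ S ∧ E p.1 p.2} ∩
          (fun p : Q × Q => (c p.1, (p.1, p.2, n), true)) ⁻¹' A := by
      ext p
      simp only [Set.mem_setOf_eq, Set.mem_inter_iff, Set.mem_preimage, and_assoc]
    have e2 : {p : Q × Q | p.1 ∈ S ∧ p.2 ∈ S ∧ E p.1 p.2 ∧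
        (c p.1, (p.1, p.2, n), true) ∈ A}ᶜ = {p : Q × Q | p.1 ∈ S ∧ p.2 ∈ S ∧ E p.1 p.2}ᶜ ∪
          (fun p : Q × Q => (c p.1, (p.1, p.2, n), false)) ⁻¹' A ∩
            {p : Q × Q | p.1 ∈ S ∧ p.2 ∈ S ∧ E p.1 p.2} := by
      ext p
      simp only [Set.mem_compl_iff, Set.mem_setOf_eq, Set.mem_inter_iff, Set.mem_preimage,
        Set.mem_union]
      constructor
      · intro h1
        by_cases h2 : p.1 ∈ S ∧ p.2 ∈ S ∧ E p.1 p.2
        · right
          refine ⟨?_, h2⟩
          refine (hA.tot (c p.1) (p.1, p.2, n)).resolve_left fun h3 => ?_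
          exact h1 ⟨h2.1, h2.2.1, h2.2.2, h3⟩
        · exact Or.inl h2
      · rintro (h1 | ⟨h1, h2⟩) ⟨h3, h4, h5, h6⟩
        · exact h1 ⟨h3, h4, h5⟩
        · exact excl p.1 p.2 n h3 h4 h5 h6 h1
    refine meas_of_an ?_ ?_
    · show An {p : Q × Q | p.1 ∈ S ∧ p.2 ∈ S ∧ E p.1 p.2 ∧ (c p.1, (p.1, p.2, n), true) ∈ A}
      rw [e1]
      exact an_inter (an_of_meas hP) (an_preimage hA.an (hg true))
    · show An {p : Q × Q | p.1 ∈ S ∧ p.2 ∈ S ∧ E p.1 p.2 ∧ (c p.1, (p.1, p.2, n), true) ∈ A}ᶜ
      rw [e2]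
      exact an_union (an_of_meas hP.compl) (an_inter (an_preimage hA.an (hg false))
        (an_of_meas hP))

theorem noFail_of_hfon {Q : Type} [MeasurableSpace Q] [StandardBorelSpace Q]
    {A : Set ((NN × NN) × (Q × Q × ℕ) × Bool)} (hA : Uni A) {E : Q → Q → Prop} {S : Set Q}
    (h : HFOn E S) : ∃ c : NN × NN, ∀ qs : ℕ → Q, (∀ i, qs i ∈ S) →
      (∀ i j, E (qs i) (qs j)) → ¬ Fail A c qs := by
  obtain ⟨G, hG, hm⟩ := h
  have hB : MeasurableSet {u : Q × Q × ℕ | G u.2.2 u.1 u.2.1} := by
    have h1 : {u : Q × Q × ℕ | G u.2.2 u.1 u.2.1} =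
        ⋃ n : ℕ, {u : Q × Q × ℕ | u.2.2 = n} ∩
          (fun u : Q × Q × ℕ => (u.1, u.2.1)) ⁻¹' {p : Q × Q | G n p.1 p.2} := by
      ext u
      simp only [Set.mem_setOf_eq, Set.mem_iUnion, Set.mem_inter_iff, Set.mem_preimage]
      constructor
      · intro h2
        exact ⟨u.2.2, rfl, h2⟩
      · rintro ⟨n, h2, h3⟩
        rw [h2]
        exact h3
    rw [h1]
    refine MeasurableSet.iUnion fun n => MeasurableSet.inter ?_ ?_
    · exact (measurable_snd.comp measurable_snd) (measurableSet_singleton n)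
    · exact (measurable_fst.prodMk (measurable_fst.comp measurable_snd)) (hm n)
  obtain ⟨c, hc⟩ := hA.code _ hB
  refine ⟨c, ?_⟩
  rintro qs hqS hqE ⟨m, hmA, hbad⟩
  have hval : ∀ i j n, m i j n = true ↔ G n (qs i) (qs j) := by
    intro i j n
    have h1 := hmA i j n
    constructor
    · intro h2
      rw [h2] at h1
      exact (hc _).1.1 h1
    · intro h2
      by_contra h3
      rw [Bool.not_eq_true] at h3
      rw [h3] at h1
      exact (hc _).2.1 h1 h2
  have hval' : ∀ i j n, m i j n = false ↔ ¬ G n (qs i) (qs j) := by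
    intro i j n
    rw [← hval, Bool.not_eq_true]
  rcases hbad with (⟨n, h1, h2⟩ | ⟨i, j, h1⟩ | ⟨i, n, h1⟩ | ⟨i, j, n, h1, h2⟩ |
    ⟨i, j, k, n, h1, h2, h3⟩ | ⟨i, j, n, h1, h2⟩) | ⟨i, j, n, h1⟩
  · have hinj : Function.Injective qs := by
      intro i j hij
      by_contra hc'
      exact h1 i j hc' hij
    have h3 : (Set.range qs).Finite := by
      refine (hG.fin n (qs 0)).subset ?_
      rintro _ ⟨j, rfl⟩
      exact (hval 0 j n).1 (h2 j)
    exact Set.infinite_range_of_injective hinj h3
  · obtain ⟨n, hn⟩ := hG.union (qs i) (qs j) (hqS i) (hqS j) (hqE i j)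
    exact (hval' i j n).1 (h1 n) hn
  · exact (hval' i i n).1 h1 (hG.refl n _ (hqS i))
  · exact (hval' j i n).1 h2 (hG.symm n _ _ ((hval i j n).1 h1))
  · exact (hval' i k n).1 h3 (hG.trans n _ _ _ ((hval i j n).1 h1) ((hval j k n).1 h2))
  · exact (hval' i j (n + 1)).1 h2 (hG.mono n _ _ ((hval i j n).1 h1))
  · cases hmv : m i j n with
    | true =>
      rw [hmv] at h1
      exact (hc _).2.1 h1 ((hval i j n).1 hmv)
    | false =>
      rw [hmv] at h1
      exact (hval' i j n).1 hmv ((hc _).1.1 h1)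

end Pool.Agent.Lib.HFC
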