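import Pool.Agent.Lib.HFC.Defs
import Pool.Agent.Lib.Pf8fe2f.Reflect

/-!
# Module HFC.LN: enumeration of the classes of a countable Borel equivalence relation (MP_3091e6_lc)

The Lusin-Novikov theorem for equivalence relations, from the covering lemma of MP_f8fe2f_lc
(`Pool.Agent.Pf8fe2f.covering`).
PROOF. Let `i : X → ℝ` be a measurable embedding (`MeasureTheory.exists_measurableEmbedding_real`, `MeasurableEmbedding`), and
`h x = fun _ => i x : ℕ → ℝ` (constant sequences): a measurable injection in `Z = ℕ → ℝ`; for constant sequences `E1`, `EN k` and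
equality are the same. `P = {(h x, h y) | E x y} ⊆ Z × Z` is analytic (image of a Borel set under a measurable map:
`MeasurableSet.analyticSet_image`), even Borel (injective image). Its sections are contained in countable unions of `E1`-classes
(countable classes). `covering` gives Borel sets `S j ⊇` covering `P`, with sections in one `EN (k j)`-class. So `W j = S j ∩ P` has at
most one point in every section (constant sequences); `exists_fun` gives Borel `D j`, `g' j` with graph `W j` on `D j`. Let
`g j x = h⁻¹ (g' j (h x))` if `h x ∈ D j` and `x` otherwise: with `p : Z → X` a measurable left inverse of `h` (`X` nonempty;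
`MeasurableEmbedding.exists_measurable_extend` or `hi.invFun`), `g j x = if h x ∈ D j then p (g' j (h x)) else x`, which is
measurable. `E x (g j x)` in both cases, and `E x y` gives `j` with `(h x, h y) ∈ S j`, so `g j x = y`.
-/

set_option autoImplicit false

namespace Pool.Agent.Lib.HFC

open Set MeasureTheory Topology Pool.Agent.Pf8fe2f in
theorem lusin_novikov {X : Type} [MeasurableSpace X] [StandardBorelSpace X] {E : X → X → Prop}
    (hE : CBER E) : ∃ g : ℕ → X → X, (∀ i, Measurable (g i)) ∧ ∀ x y, E x y ↔ ∃ i, g i x = y := by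
  classical
  rcases isEmpty_or_nonempty X with hX | hX
  · exact ⟨fun _ x => x, fun _ => measurable_id, fun x => (IsEmpty.false x).elim⟩
  obtain ⟨i, hi⟩ := MeasureTheory.exists_measurableEmbedding_real X
  let h : X → Pool.Agent.Pf8fe2f.Z := fun x _ => i x
  have hm : Measurable h := measurable_pi_iff.2 fun _ => hi.measurable
  have hinj : Function.Injective h := fun a b hab => hi.injective (congrFun hab 0)
  have hemb : MeasurableEmbedding h := Measurable.measurableEmbedding hm hinj
  obtain ⟨p, hp, hpc⟩ := hemb.exists_measurable_extend (g := fun x : X => x) measurable_id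
    (fun _ => hX)
  have hph : ∀ x, p (h x) = x := fun x => congrFun hpc x
  let f : X × X → Pool.Agent.Pf8fe2f.Z × Pool.Agent.Pf8fe2f.Z := fun q => (h q.1, h q.2)
  have hf : Measurable f := (hm.comp measurable_fst).prodMk (hm.comp measurable_snd)
  have hfinj : Function.Injective f := by
    rintro ⟨a, b⟩ ⟨c, d⟩ hq
    have h1 : h a = h c := congrArg Prod.fst hq
    have h2 : h b = h d := congrArg Prod.snd hq
    rw [hinj h1, hinj h2]
  let P : Set (Pool.Agent.Pf8fe2f.Z × Pool.Agent.Pf8fe2f.Z) := f '' {q | E q.1 q.2}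
  have hPm : MeasurableSet P := hE.meas.image_of_measurable_injOn hf hfinj.injOn
  have hPmem : ∀ x z, (h x, z) ∈ P ↔ ∃ y, E x y ∧ h y = z := by
    intro x z
    constructor
    · rintro ⟨⟨a, b⟩, hab, heq⟩
      have h1 : h a = h x := congrArg Prod.fst heq
      have h2 : h b = z := congrArg Prod.snd heq
      have h3 : a = x := hinj h1
      subst h3
      exact ⟨b, hab, h2⟩
    · rintro ⟨y, hxy, rfl⟩
      exact ⟨(x, y), hxy, rfl⟩
  have hPr : ∀ v z, (v, z) ∈ P → ∃ x, h x = v := by
    rintro v z ⟨⟨a, b⟩, hab, heq⟩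
    exact ⟨a, congrArg Prod.fst heq⟩
  obtain ⟨S, k, hS, hk, hPS⟩ := covering hPm.analyticSet (by
    intro v
    refine ⟨{z | (v, z) ∈ P}, ?_, fun z hz => ⟨z, hz, E1.refl z⟩⟩
    by_cases hv : ∃ x, h x = v
    · obtain ⟨x, rfl⟩ := hv
      refine ((hE.ctbl x).image h).mono ?_
      intro z hz
      obtain ⟨y, hy, hyz⟩ := (hPmem x z).1 hz
      exact ⟨y, hy, hyz⟩
    · convert Set.countable_empty
      rw [Set.eq_empty_iff_forall_notMem]
      intro z hz
      exact hv (hPr v z hz))
  have key : ∀ j, ∃ (D : Set Pool.Agent.Pf8fe2f.Z)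
      (g : Pool.Agent.Pf8fe2f.Z → Pool.Agent.Pf8fe2f.Z), MeasurableSet D ∧ Measurable g ∧
      (∀ z ∈ D, (z, g z) ∈ S j ∩ P) ∧ ∀ z y, (z, y) ∈ S j ∩ P → z ∈ D ∧ g z = y := by
    intro j
    refine exists_fun ((hS j).inter hPm) ?_
    rintro z y y' ⟨h1, h2⟩ ⟨h3, h4⟩
    obtain ⟨x, rfl⟩ := hPr _ _ h2
    obtain ⟨a, -, rfl⟩ := (hPmem _ _).1 h2
    obtain ⟨b, -, rfl⟩ := (hPmem _ _).1 h4
    have h5 := hk j _ _ _ h1 h3 (k j) le_rfl
    have h6 : i a = i b := h5
    rw [hi.injective h6]
  choose D g hD hg h1 h2 using key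
  refine ⟨fun j x => if h x ∈ D j then p (g j (h x)) else x, fun j => ?_, fun x y => ?_⟩
  · exact Measurable.ite (hm (hD j)) (hp.comp ((hg j).comp hm)) measurable_id
  · constructor
    · intro hxy
      have h3 : (h x, h y) ∈ P := (hPmem _ _).2 ⟨y, hxy, rfl⟩
      obtain ⟨j, hj⟩ := Set.mem_iUnion.1 (hPS h3)
      obtain ⟨h4, h5⟩ := h2 j _ _ ⟨hj, h3⟩
      refine ⟨j, ?_⟩
      dsimp only
      rw [if_pos h4, h5, hph]
    · rintro ⟨j, hj⟩
      dsimp only at hj
      by_cases h4 : h x ∈ D j
      · rw [if_pos h4] at hj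
        obtain ⟨y', h5, h6⟩ := (hPmem _ _).1 (h1 j _ h4).2
        rw [← h6, hph] at hj
        rw [← hj]
        exact h5
      · rw [if_neg h4] at hj
        rw [← hj]
        exact hE.equiv.refl x

end Pool.Agent.Lib.HFC
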