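import Pool.Agent.Lib.HFC.FailL
import Pool.Agent.Lib.HFC.ExactL

/-!
# Module HFC.Frame: the points of the constructed relations (MP_3091e6_lc)

PROOFS. `ff_cber`: product of equalities and `E`; the classes are countable as images of classes of `E`; measurable:
`measurableSet_eq_fun` and preimages. `an_xx`: `an_proj` along `(List ℕ → ℕ) × (ℕ → D)` of the intersection of measurable sets
(`op_meas`, equalities, preimages of `E`) and the preimage of `an_fail` under
`((θ, V), w, ds) ↦ (θ.2.2.2, fun j => (θ, w, ds j))` (measurable: `measurable_pi_iff`, products). `op_meas`, `full_meas`, `islo_meas`: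
unfold; countable intersections and unions of sets given by finitely many coordinates (`child` in `T` is given by coordinates
of `T`; conditions like `κ s = b + 1` are measurable as `κ s` is a measurable function to `ℕ`).
`ok_meas`: from these (for `∀ a, lt θ.1 a θ.2.1 → ..` a countable intersection over `a` with `θ.2.1 = b` fixed, union over `b`); the
map `(y, θ) ↦ R y θ.1 a` is measurable by `hR` for every `s`, composed with a measurable map. `val_meas`: the same.
-/

set_option autoImplicit false

namespace Pool.Agent.Lib.HFC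

/-- parameters: a linear order, an element, a family of rank functions, a code -/
abbrev Par : Type := LOrd × ℕ × (ℕ → List ℕ → ℕ) × (NN × NN)

/-- points -/
abbrev Pt (D : Type) : Type := Par × (List ℕ → ℕ) × D

/-- the relation on points -/
def FF {D : Type} (E : D → D → Prop) (q q' : Pt D) : Prop :=
  q.1 = q'.1 ∧ q.2.1 = q'.2.1 ∧ E q.2.2 q'.2.2

/-- conditions on the parameter -/
def Ok (R : LOrd → ℕ → Tree) (θ : Par) : Prop :=
  IsLO θ.1 ∧ θ.1 θ.2.1 θ.2.1 = true ∧ ∀ a, lt θ.1 a θ.2.1 → Full θ.1 (R θ.1 a) (θ.2.2.1 a)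

/-- valid points -/
def Val {D : Type} (R : LOrd → ℕ → Tree) (V : Par → Tree) (π : D → LOrd) (q : Pt D) : Prop :=
  Ok R q.1 ∧ Op (V q.1) q.1.1 q.1.2.1 q.2.1 ∧ π q.2.2 = q.1.1

/-- the analytic set for the fixed point lemma -/
def XX {D : Type} (E : D → D → Prop) (π : D → LOrd)
    (A : Set ((NN × NN) × (Pt D × Pt D × ℕ) × Bool)) : Set (Par × Tree) :=
  {p | ∃ (w : List ℕ → ℕ) (ds : ℕ → D), Op p.2 p.1.1 p.1.2.1 w ∧ (∀ j, π (ds j) = p.1.1) ∧
    (∀ i j, E (ds i) (ds j)) ∧ Fail A p.1.2.2.2 (fun j => (p.1, w, ds j))}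

namespace FrameAux

section

variable {Ω : Type} [MeasurableSpace Ω]

theorem m_eq {x : Ω → ℕ} (hx : Measurable x) (i : ℕ) : Measurable fun ω => x ω = i :=
  measurableSet_setOfPred.1 (hx (measurableSet_singleton i))

theorem m_tt {x : Ω → Bool} (hx : Measurable x) : Measurable fun ω => x ω = true :=
  measurableSet_setOfPred.1 (hx (measurableSet_singleton true))

theorem m_const (p : Prop) : Measurable fun _ : Ω => p := measurable_const

theorem m_ap {T : Ω → Tree} (hT : Measurable T) (s : List ℕ) :
    Measurable fun ω => T ω s = true :=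
  m_tt ((measurable_pi_apply s).comp hT)

theorem m_ap2 {L : Ω → LOrd} (hL : Measurable L) (a b : ℕ) :
    Measurable fun ω => L ω a b = true :=
  m_tt ((measurable_pi_apply b).comp ((measurable_pi_apply a).comp hL))

theorem m_app2 {L : Ω → LOrd} (hL : Measurable L) {x y : Ω → ℕ} (hx : Measurable x)
    (hy : Measurable y) : Measurable fun ω => L ω (x ω) (y ω) = true := by
  have h : (fun ω => L ω (x ω) (y ω) = true) =
      fun ω => ∃ i j, x ω = i ∧ y ω = j ∧ L ω i j = true := by
    funext ω
    simp
  rw [h]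
  exact Measurable.exists fun i => Measurable.exists fun j =>
    (m_eq hx i).and ((m_eq hy j).and (m_ap2 hL i j))

theorem m_lt {L : Ω → LOrd} (hL : Measurable L) {x y : Ω → ℕ} (hx : Measurable x)
    (hy : Measurable y) : Measurable fun ω => lt (L ω) (x ω) (y ω) := by
  unfold lt
  refine (m_app2 hL hx hy).and (Measurable.not ?_)
  have h : (fun ω => x ω = y ω) = fun ω => ∃ i, x ω = i ∧ y ω = i := by
    funext ω
    simp [eq_comm]
  rw [h]
  exact Measurable.exists fun i => (m_eq hx i).and (m_eq hy i)

theorem m_child {T : Ω → Tree} (hT : Measurable T) (s' s : List ℕ) :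
    Measurable fun ω => child (T ω) s' s := by
  unfold child
  exact (m_ap hT s').and ((m_ap hT s).and (m_const _))

theorem m_k {κ : Ω → List ℕ → ℕ} (hκ : Measurable κ) (s : List ℕ) (b : ℕ) :
    Measurable fun ω => κ ω s = b :=
  m_eq ((measurable_pi_apply s).comp hκ) b

end

theorem isLO_iff (L : LOrd) : IsLO L ↔
    (∀ a b, L a b = true → L a a = true) ∧ (∀ a b, L a b = true → L b b = true) ∧
    (∀ a b c, L a b = true → L b c = true → L a c = true) ∧
    (∀ a b, L a b = true → L b a = true → a = b) ∧
    (∀ a b, L a a = true → L b b = true → L a b = true ∨ L b a = true) :=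
  ⟨fun h => ⟨h.left, h.right, h.trans, h.antisymm, h.total⟩,
    fun h => ⟨h.1, h.2.1, h.2.2.1, h.2.2.2.1, h.2.2.2.2⟩⟩

theorem exact_iff (L : LOrd) (T : Tree) (κ : List ℕ → ℕ) : Exact L T κ ↔
    (∀ s b, T s = true → κ s = b + 1 → L b b = true) ∧
    (∀ s b s', T s = true → κ s = b + 1 → child T s' s → ∃ b', κ s' = b' + 1 ∧ lt L b' b) ∧
    (∀ s b c, T s = true → κ s = b + 1 → lt L c b →
      ∃ s' b', child T s' s ∧ κ s' = b' + 1 ∧ L c b' = true) ∧
    (∀ s, T s = true → κ s = 0 → (∃ s', child T s' s ∧ κ s' = 0) ∨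
      ∀ c, L c c = true → ∃ s' b', child T s' s ∧ κ s' = b' + 1 ∧ L c b' = true) :=
  ⟨fun h => ⟨h.dom, h.dec, h.cof, h.inf⟩, fun h => ⟨h.1, h.2.1, h.2.2.1, h.2.2.2⟩⟩

end FrameAux

open FrameAux

variable {D : Type} [MeasurableSpace D] [StandardBorelSpace D]

theorem ff_cber {E : D → D → Prop} (hE : CBER E) : CBER (FF E) := by
  refine ⟨⟨fun q => ⟨rfl, rfl, hE.equiv.refl _⟩, fun h => ⟨h.1.symm, h.2.1.symm,
    hE.equiv.symm h.2.2⟩, fun h h' => ⟨h.1.trans h'.1, h.2.1.trans h'.2.1,
    hE.equiv.trans h.2.2 h'.2.2⟩⟩, ?_, fun q => ?_⟩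
  · unfold FF
    have h1 : MeasurableSet {p : Pt D × Pt D | p.1.1 = p.2.1} :=
      measurableSet_eq_fun (measurable_fst.comp measurable_fst)
        (measurable_fst.comp measurable_snd)
    have h2 : MeasurableSet {p : Pt D × Pt D | p.1.2.1 = p.2.2.1} :=
      measurableSet_eq_fun (measurable_fst.comp (measurable_snd.comp measurable_fst))
        (measurable_fst.comp (measurable_snd.comp measurable_snd))
    have h3 : MeasurableSet {p : Pt D × Pt D | E p.1.2.2 p.2.2.2} := by
      have h4 : Measurable (fun p : Pt D × Pt D => (p.1.2.2, p.2.2.2)) :=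
        (measurable_snd.comp (measurable_snd.comp measurable_fst)).prodMk
          (measurable_snd.comp (measurable_snd.comp measurable_snd))
      exact h4 hE.meas
    exact h1.inter (h2.inter h3)
  · refine Set.Countable.mono ?_ ((hE.ctbl q.2.2).image fun d => (q.1, q.2.1, d))
    rintro ⟨θ, w, d⟩ ⟨h1, h2, h3⟩
    exact ⟨d, h3, by simp only at h1 h2; rw [h1, h2]⟩

theorem op_meas {Ω : Type} [MeasurableSpace Ω] {T : Ω → Tree} (hT : Measurable T) {L : Ω → LOrd}
    (hL : Measurable L) {a : Ω → ℕ} (ha : Measurable a) {w : Ω → List ℕ → ℕ}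
    (hw : Measurable w) : MeasurableSet {ω | Op (T ω) (L ω) (a ω) (w ω)} := by
  rw [measurableSet_setOfPred]
  unfold Op
  have hw' : ∀ s, Measurable fun ω => w ω s := fun s => (measurable_pi_apply s).comp hw
  exact (Measurable.forall fun s => (m_ap hT s).imp (m_lt hL (hw' s) ha)).and
    (Measurable.forall fun s' => Measurable.forall fun s =>
      (m_child hT s' s).imp (m_lt hL (hw' s') (hw' s)))

theorem islo_meas {Ω : Type} [MeasurableSpace Ω] {L : Ω → LOrd} (hL : Measurable L) :
    MeasurableSet {ω | IsLO (L ω)} := by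
  rw [measurableSet_setOfPred]
  simp only [isLO_iff]
  refine Measurable.and ?_ (Measurable.and ?_ (Measurable.and ?_ (Measurable.and ?_ ?_)))
  · exact Measurable.forall fun a => Measurable.forall fun b => (m_ap2 hL a b).imp (m_ap2 hL a a)
  · exact Measurable.forall fun a => Measurable.forall fun b => (m_ap2 hL a b).imp (m_ap2 hL b b)
  · exact Measurable.forall fun a => Measurable.forall fun b => Measurable.forall fun c =>
      (m_ap2 hL a b).imp ((m_ap2 hL b c).imp (m_ap2 hL a c))
  · exact Measurable.forall fun a => Measurable.forall fun b =>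
      (m_ap2 hL a b).imp ((m_ap2 hL b a).imp (m_const _))
  · exact Measurable.forall fun a => Measurable.forall fun b =>
      (m_ap2 hL a a).imp ((m_ap2 hL b b).imp ((m_ap2 hL a b).or (m_ap2 hL b a)))

theorem exact_meas {Ω : Type} [MeasurableSpace Ω] {T : Ω → Tree} (hT : Measurable T)
    {L : Ω → LOrd} (hL : Measurable L) {κ : Ω → List ℕ → ℕ} (hκ : Measurable κ) :
    MeasurableSet {ω | Exact (L ω) (T ω) (κ ω)} := by
  rw [measurableSet_setOfPred]
  simp only [exact_iff]
  have hl : ∀ a b : ℕ, Measurable fun ω => lt (L ω) a b := fun a b =>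
    m_lt hL measurable_const measurable_const
  refine Measurable.and ?_ (Measurable.and ?_ (Measurable.and ?_ ?_))
  · exact Measurable.forall fun s => Measurable.forall fun b =>
      (m_ap hT s).imp ((m_k hκ s (b + 1)).imp (m_ap2 hL b b))
  · exact Measurable.forall fun s => Measurable.forall fun b => Measurable.forall fun s' =>
      (m_ap hT s).imp ((m_k hκ s (b + 1)).imp ((m_child hT s' s).imp
        (Measurable.exists fun b' => (m_k hκ s' (b' + 1)).and (hl b' b))))
  · exact Measurable.forall fun s => Measurable.forall fun b => Measurable.forall fun c =>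
      (m_ap hT s).imp ((m_k hκ s (b + 1)).imp ((hl c b).imp
        (Measurable.exists fun s' => Measurable.exists fun b' =>
          (m_child hT s' s).and ((m_k hκ s' (b' + 1)).and (m_ap2 hL c b')))))
  · exact Measurable.forall fun s => (m_ap hT s).imp ((m_k hκ s 0).imp (Measurable.or
      (Measurable.exists fun s' => (m_child hT s' s).and (m_k hκ s' 0))
      (Measurable.forall fun c => (m_ap2 hL c c).imp
        (Measurable.exists fun s' => Measurable.exists fun b' =>
          (m_child hT s' s).and ((m_k hκ s' (b' + 1)).and (m_ap2 hL c b'))))))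

theorem full_meas {Ω : Type} [MeasurableSpace Ω] {T : Ω → Tree} (hT : Measurable T)
    {L : Ω → LOrd} (hL : Measurable L) {κ : Ω → List ℕ → ℕ} (hκ : Measurable κ) :
    MeasurableSet {ω | Full (L ω) (T ω) (κ ω)} := by
  rw [measurableSet_setOfPred]
  unfold Full
  refine (measurableSet_setOfPred.1 (exact_meas hT hL hκ)).and (Measurable.and ?_ ?_)
  · exact Measurable.forall fun s => (m_ap hT s).imp (m_k hκ s 0).not
  · exact Measurable.forall fun b => Measurable.forall fun c =>
      (m_k hκ [] (b + 1)).imp ((m_lt hL measurable_const measurable_const).imp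
        (Measurable.exists fun t => (m_ap hT t).and (m_k hκ t (c + 1))))

theorem an_xx {E : D → D → Prop} (hE : CBER E) {π : D → LOrd} (hπ : Measurable π)
    {A : Set ((NN × NN) × (Pt D × Pt D × ℕ) × Bool)} (hA : Uni A) : An (XX E π A) := by
  have hXX : XX E π A = {p : Par × Tree | ∃ y : (List ℕ → ℕ) × (ℕ → D), (p, y) ∈
      ({z : (Par × Tree) × ((List ℕ → ℕ) × (ℕ → D)) |
        Op z.1.2 z.1.1.1 z.1.1.2.1 z.2.1 ∧ (∀ j, π (z.2.2 j) = z.1.1.1) ∧
          (∀ i j, E (z.2.2 i) (z.2.2 j))} ∩
        (fun z : (Par × Tree) × ((List ℕ → ℕ) × (ℕ → D)) =>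
          (z.1.1.2.2.2, fun j => (z.1.1, z.2.1, z.2.2 j))) ⁻¹'
            {q : (NN × NN) × (ℕ → Pt D) | Fail A q.1 q.2})} := by
    ext p
    simp only [XX, Set.mem_ofPred_eq, Set.mem_inter_iff, Set.mem_preimage, Prod.exists, and_assoc]
  rw [hXX]
  refine an_proj (an_inter (an_of_meas ?_) (an_preimage (an_fail hA) ?_))
  · have m11 : Measurable fun z : (Par × Tree) × ((List ℕ → ℕ) × (ℕ → D)) => z.1.1 :=
      measurable_fst.comp measurable_fst
    have mL : Measurable fun z : (Par × Tree) × ((List ℕ → ℕ) × (ℕ → D)) => z.1.1.1 :=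
      measurable_fst.comp m11
    have mT : Measurable fun z : (Par × Tree) × ((List ℕ → ℕ) × (ℕ → D)) => z.1.2 :=
      measurable_snd.comp measurable_fst
    have md : ∀ j, Measurable fun z : (Par × Tree) × ((List ℕ → ℕ) × (ℕ → D)) => z.2.2 j :=
      fun j => (measurable_pi_apply j).comp (measurable_snd.comp measurable_snd)
    have h1 : ∀ j, MeasurableSet {z : (Par × Tree) × ((List ℕ → ℕ) × (ℕ → D)) |
        π (z.2.2 j) = z.1.1.1} := fun j => measurableSet_eq_fun (hπ.comp (md j)) mL
    have h2 : ∀ i j, MeasurableSet {z : (Par × Tree) × ((List ℕ → ℕ) × (ℕ → D)) |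
        E (z.2.2 i) (z.2.2 j)} := fun i j => ((md i).prodMk (md j)) hE.meas
    rw [measurableSet_setOfPred]
    refine Measurable.and (measurableSet_setOfPred.1 (op_meas mT mL
      (measurable_fst.comp (measurable_snd.comp m11)) (measurable_fst.comp measurable_snd)))
      (Measurable.and ?_ ?_)
    · exact Measurable.forall fun j => measurableSet_setOfPred.1 (h1 j)
    · exact Measurable.forall fun i => Measurable.forall fun j =>
        measurableSet_setOfPred.1 (h2 i j)
  · refine Measurable.prodMk ?_ ?_
    · exact measurable_snd.comp (measurable_snd.comp (measurable_snd.comp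
        (measurable_fst.comp measurable_fst)))
    · refine measurable_pi_iff.2 fun j => ?_
      exact (measurable_fst.comp measurable_fst).prodMk
        ((measurable_fst.comp measurable_snd).prodMk
          ((measurable_pi_apply j).comp (measurable_snd.comp measurable_snd)))

namespace FrameAux

theorem tree_meas {R : NN → LOrd → ℕ → Tree}
    (hR : ∀ s, MeasurableSet {p : NN × LOrd × ℕ | R p.1 p.2.1 p.2.2 s = true}) {Ω : Type}
    [MeasurableSpace Ω] {y : Ω → NN} (hy : Measurable y) {L : Ω → LOrd} (hL : Measurable L)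
    (a : ℕ) : Measurable fun ω => R (y ω) (L ω) a := by
  refine measurable_pi_iff.2 fun s => measurable_to_bool ?_
  have h : Measurable fun ω => (y ω, L ω, a) := hy.prodMk (hL.prodMk measurable_const)
  exact h (hR s)

end FrameAux

theorem ok_meas {R : NN → LOrd → ℕ → Tree}
    (hR : ∀ s, MeasurableSet {p : NN × LOrd × ℕ | R p.1 p.2.1 p.2.2 s = true}) :
    MeasurableSet {p : NN × Par | Ok (R p.1) p.2} := by
  rw [measurableSet_setOfPred]
  unfold Ok
  have mL : Measurable fun p : NN × Par => p.2.1 := measurable_fst.comp measurable_snd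
  have mb : Measurable fun p : NN × Par => p.2.2.1 :=
    measurable_fst.comp (measurable_snd.comp measurable_snd)
  have mk : ∀ a, Measurable fun p : NN × Par => p.2.2.2.1 a := fun a =>
    (measurable_pi_apply a).comp (measurable_fst.comp (measurable_snd.comp
      (measurable_snd.comp measurable_snd)))
  refine (measurableSet_setOfPred.1 (islo_meas mL)).and ((m_app2 mL mb mb).and ?_)
  refine Measurable.forall fun a => (m_lt mL measurable_const mb).imp ?_
  exact measurableSet_setOfPred.1 (full_meas (tree_meas hR measurable_fst mL a) mL (mk a))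

theorem val_meas {R : NN → LOrd → ℕ → Tree}
    (hR : ∀ s, MeasurableSet {p : NN × LOrd × ℕ | R p.1 p.2.1 p.2.2 s = true})
    {V : Par → Tree} (hV : Measurable V) {π : D → LOrd} (hπ : Measurable π) :
    MeasurableSet {p : NN × Pt D | Val (R p.1) V π p.2} := by
  have m1 : Measurable fun p : NN × Pt D => p.2.1 := measurable_fst.comp measurable_snd
  have mL : Measurable fun p : NN × Pt D => p.2.1.1 := measurable_fst.comp m1
  have mb : Measurable fun p : NN × Pt D => p.2.1.2.1 := measurable_fst.comp (measurable_snd.comp m1)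
  have h1 : MeasurableSet {p : NN × Pt D | Ok (R p.1) p.2.1} := by
    have h : Measurable fun p : NN × Pt D => (p.1, p.2.1) := measurable_fst.prodMk m1
    exact h (ok_meas hR)
  have h2 : MeasurableSet {p : NN × Pt D | Op (V p.2.1) p.2.1.1 p.2.1.2.1 p.2.2.1} :=
    op_meas (hV.comp m1) mL mb (measurable_fst.comp (measurable_snd.comp measurable_snd))
  have h3 : MeasurableSet {p : NN × Pt D | π p.2.2.2 = p.2.1.1} :=
    measurableSet_eq_fun (hπ.comp (measurable_snd.comp (measurable_snd.comp measurable_snd))) mL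
  exact h1.inter (h2.inter h3)

end Pool.Agent.Lib.HFC
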