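import Pool.Agent.Lib.HFC.SgB
import Pool.Agent.Lib.HFC.Frame

/-!
# Module HFC.SgC: the space of the rank functions over a class (MP_3091e6_lc)

A point `(L, x, ρ)` of `Tr X` is good if `L` is a linear order, `ρ i j k` is an exact rank function of the tree
`T k (g i x, g j x)` with values in `L` (or `∞`), and `ρ i j` depends only on the points `g i x`, `g j x`.
The relation `Rel` on the good triples is a countable Borel equivalence relation; its restriction to the
ill-founded orders without element of rank `β` maps to `E` restricted to `Xa g T β`; its restriction to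
the triples over a well order contains a copy of `E`.
-/

set_option autoImplicit false

namespace Pool.Agent.Lib.HFC

/-- triples of a linear order, a point and rank functions -/
abbrev Tr (X : Type) : Type := LOrd × X × (ℕ → ℕ → ℕ → List ℕ → ℕ)

/-- good triples -/
structure Good {X : Type} (g : ℕ → X → X) (T : ℕ → X × X → Tree) (d : Tr X) : Prop where
  lo : IsLO d.1
  exact : ∀ i j k, Exact d.1 (T k (g i d.2.1, g j d.2.1)) (d.2.2 i j k)
  cons : ∀ i j i' j', g i d.2.1 = g i' d.2.1 → g j d.2.1 = g j' d.2.1 →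
    d.2.2 i j = d.2.2 i' j'

/-- the relation on the good triples -/
def Rel {X : Type} (E : X → X → Prop) (g : ℕ → X → X) (d d' : Tr X) : Prop :=
  d.1 = d'.1 ∧ E d.2.1 d'.2.1 ∧ ∀ i j i' j', g i d.2.1 = g i' d'.2.1 →
    g j d.2.1 = g j' d'.2.1 → d.2.2 i j = d'.2.2 i' j'

namespace SgCAux

theorem good_iff {X : Type} (g : ℕ → X → X) (T : ℕ → X × X → Tree) (d : Tr X) :
    Good g T d ↔ IsLO d.1 ∧ (∀ i j k, Exact d.1 (T k (g i d.2.1, g j d.2.1)) (d.2.2 i j k)) ∧
      ∀ i j i' j', g i d.2.1 = g i' d.2.1 → g j d.2.1 = g j' d.2.1 → d.2.2 i j = d.2.2 i' j' :=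
  ⟨fun h => ⟨h.lo, h.exact, h.cons⟩, fun h => ⟨h.1, h.2.1, h.2.2⟩⟩

theorem m_eqf {Ω Y : Type} [MeasurableSpace Ω] [MeasurableSpace Y] [StandardBorelSpace Y]
    {f g : Ω → Y} (hf : Measurable f) (hg : Measurable g) : Measurable fun ω => f ω = g ω :=
  measurableSet_setOfPred.1 (measurableSet_eq_fun hf hg)

theorem rel_eq {X : Type} {E : X → X → Prop} {g : ℕ → X → X} {d d' : Tr X}
    (h : Rel E g d d') (hx : d.2.1 = d'.2.1) : d = d' := by
  refine Prod.ext h.1 (Prod.ext hx ?_)
  funext i j
  exact h.2.2 i j i j (by rw [hx]) (by rw [hx])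

theorem rel_equiv {X : Type} {E : X → X → Prop} (hE : Equivalence E) {g : ℕ → X → X}
    (hgE : ∀ x y, E x y ↔ ∃ i, g i x = y) {T : ℕ → X × X → Tree} :
    Equivalence fun d d' : {d : Tr X // Good g T d} => Rel E g d.1 d'.1 := by
  refine ⟨fun d => ⟨rfl, hE.refl _, d.2.cons⟩, ?_, ?_⟩
  · rintro d d' ⟨h1, h2, h3⟩
    exact ⟨h1.symm, hE.symm h2, fun i j i' j' hi hj => (h3 i' j' i j hi.symm hj.symm).symm⟩
  · rintro d d' d'' ⟨h1, h2, h3⟩ ⟨h1', h2', h3'⟩
    refine ⟨h1.trans h1', hE.trans h2 h2', fun i j i'' j'' hi hj => ?_⟩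
    obtain ⟨i', hi'⟩ := (hgE d'.1.2.1 (g i d.1.2.1)).1
      (hE.trans (hE.symm h2) ((hgE _ _).2 ⟨i, rfl⟩))
    obtain ⟨j', hj'⟩ := (hgE d'.1.2.1 (g j d.1.2.1)).1
      (hE.trans (hE.symm h2) ((hgE _ _).2 ⟨j, rfl⟩))
    exact (h3 i j i' j' hi'.symm hj'.symm).trans (h3' i' j' i'' j'' (hi'.trans hi) (hj'.trans hj))

end SgCAux

open SgCAux FrameAux

variable {X : Type} [MeasurableSpace X] [StandardBorelSpace X]

theorem good_meas {g : ℕ → X → X} (hg : ∀ i, Measurable (g i)) {T : ℕ → X × X → Tree}
    (hT : ∀ k, Measurable (T k)) : MeasurableSet {d : Tr X | Good g T d} := by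
  have mx : Measurable fun d : Tr X => d.2.1 := measurable_fst.comp measurable_snd
  have mρ : Measurable fun d : Tr X => d.2.2 := measurable_snd.comp measurable_snd
  have h1 : Measurable fun d : Tr X => IsLO d.1 :=
    measurableSet_setOfPred.1 (islo_meas measurable_fst)
  have h2 : ∀ i j k, Measurable fun d : Tr X =>
      Exact d.1 (T k (g i d.2.1, g j d.2.1)) (d.2.2 i j k) := fun i j k =>
    measurableSet_setOfPred.1 (exact_meas
      ((hT k).comp (((hg i).comp mx).prodMk ((hg j).comp mx))) measurable_fst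
      ((measurable_pi_apply k).comp ((measurable_pi_apply j).comp
        ((measurable_pi_apply i).comp mρ))))
  have h3 : ∀ i j i' j', Measurable fun d : Tr X =>
      (g i d.2.1 = g i' d.2.1 → g j d.2.1 = g j' d.2.1 → d.2.2 i j = d.2.2 i' j') :=
    fun i j i' j' =>
      (m_eqf ((hg i).comp mx) ((hg i').comp mx)).imp
        ((m_eqf ((hg j).comp mx) ((hg j').comp mx)).imp
          (m_eqf ((measurable_pi_apply j).comp ((measurable_pi_apply i).comp mρ))
            ((measurable_pi_apply j').comp ((measurable_pi_apply i').comp mρ))))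
  have e : {d : Tr X | Good g T d} = {d | IsLO d.1 ∧
      (∀ i j k, Exact d.1 (T k (g i d.2.1, g j d.2.1)) (d.2.2 i j k)) ∧
      ∀ i j i' j', g i d.2.1 = g i' d.2.1 → g j d.2.1 = g j' d.2.1 →
        d.2.2 i j = d.2.2 i' j'} := by
    ext d
    exact good_iff g T d
  rw [e]
  refine measurableSet_setOfPred.2 (h1.and (Measurable.and ?_ ?_))
  · exact Measurable.forall fun i => Measurable.forall fun j => Measurable.forall fun k => h2 i j k
  · exact Measurable.forall fun i => Measurable.forall fun j => Measurable.forall fun i' =>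
      Measurable.forall fun j' => h3 i j i' j'

theorem rel_cber {E : X → X → Prop} (hE : CBER E) {g : ℕ → X → X} (hg : ∀ i, Measurable (g i))
    (hgE : ∀ x y, E x y ↔ ∃ i, g i x = y) {T : ℕ → X × X → Tree} (hT : ∀ k, Measurable (T k)) :
    CBER fun d d' : {d : Tr X // Good g T d} => Rel E g d.1 d'.1 := by
  refine ⟨rel_equiv hE.equiv hgE, ?_, fun d => ?_⟩
  · let P : Type := {d : Tr X // Good g T d} × {d : Tr X // Good g T d}
    have m1 : Measurable fun p : P => p.1.1 := measurable_subtype_coe.comp measurable_fst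
    have m2 : Measurable fun p : P => p.2.1 := measurable_subtype_coe.comp measurable_snd
    have m1L : Measurable fun p : P => p.1.1.1 := measurable_fst.comp m1
    have m2L : Measurable fun p : P => p.2.1.1 := measurable_fst.comp m2
    have m1x : Measurable fun p : P => p.1.1.2.1 :=
      (measurable_fst.comp measurable_snd).comp m1
    have m2x : Measurable fun p : P => p.2.1.2.1 :=
      (measurable_fst.comp measurable_snd).comp m2
    have m1r : Measurable fun p : P => p.1.1.2.2 :=
      (measurable_snd.comp measurable_snd).comp m1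
    have m2r : Measurable fun p : P => p.2.1.2.2 :=
      (measurable_snd.comp measurable_snd).comp m2
    have hEm : Measurable fun p : P => E p.1.1.2.1 p.2.1.2.1 :=
      measurableSet_setOfPred.1 ((m1x.prodMk m2x) hE.meas)
    change MeasurableSet {p : P | p.1.1.1 = p.2.1.1 ∧ E p.1.1.2.1 p.2.1.2.1 ∧
      ∀ i j i' j', g i p.1.1.2.1 = g i' p.2.1.2.1 → g j p.1.1.2.1 = g j' p.2.1.2.1 →
        p.1.1.2.2 i j = p.2.1.2.2 i' j'}
    refine measurableSet_setOfPred.2 ((m_eqf m1L m2L).and (hEm.and ?_))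
    exact Measurable.forall fun i => Measurable.forall fun j => Measurable.forall fun i' =>
      Measurable.forall fun j' =>
        (m_eqf ((hg i).comp m1x) ((hg i').comp m2x)).imp
          ((m_eqf ((hg j).comp m1x) ((hg j').comp m2x)).imp
            (m_eqf ((measurable_pi_apply j).comp ((measurable_pi_apply i).comp m1r))
              ((measurable_pi_apply j').comp ((measurable_pi_apply i').comp m2r))))
  · refine Set.MapsTo.countable_of_injOn (f := fun d' : {d : Tr X // Good g T d} => d'.1.2.1)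
      (t := {y | E d.1.2.1 y}) (fun d' hd' => hd'.2.1) ?_ (hE.ctbl d.1.2.1)
    intro d' hd' d'' hd'' hx
    exact Subtype.ext (rel_eq ((rel_equiv hE.equiv hgE).trans
      ((rel_equiv hE.equiv hgE).symm hd') hd'') hx)

theorem rel_ill {E : X → X → Prop} (hE : CBER E) {g : ℕ → X → X} (hg : ∀ i, Measurable (g i))
    (hgE : ∀ x y, E x y ↔ ∃ i, g i x = y) {T : ℕ → X × X → Tree} (hT : ∀ k, Measurable (T k))
    {β : Ordinal.{0}} (hβ : Ctbl β) (hX : HFOn E (Xa g T β)) :
    HFOn (fun d d' : {d : Tr X // Good g T d} => Rel E g d.1 d'.1)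
      {d | Short β d.1.1 ∧ Ill β d.1.1} := by
  have mL : Measurable fun d : {d : Tr X // Good g T d} => d.1.1 :=
    measurable_fst.comp measurable_subtype_coe
  have mr : ∀ (b : ℕ) (γ : Ordinal.{0}), Ctbl γ →
      Measurable fun d : {d : Tr X // Good g T d} => HasRank (lt d.1.1) b γ :=
    fun b γ hγ => measurableSet_setOfPred.1 (hasRank_lt_meas mL hγ b)
  have hS : MeasurableSet {d : {d : Tr X // Good g T d} | Short β d.1.1 ∧ Ill β d.1.1} := by
    have e : {d : {d : Tr X // Good g T d} | Short β d.1.1 ∧ Ill β d.1.1} =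
        {d | (∀ b, d.1.1 b b = true → ¬ HasRank (lt d.1.1) b β) ∧
          ∃ b, d.1.1 b b = true ∧ ∀ γ : Set.Iio β, ¬ HasRank (lt d.1.1) b γ.1} := by
      ext d
      simp only [Set.mem_setOf_eq, Short, Ill]
      refine and_congr Iff.rfl (exists_congr fun b => and_congr Iff.rfl ?_)
      exact ⟨fun h γ => h γ.1 γ.2, fun h γ hγ => h ⟨γ, hγ⟩⟩
    rw [e]
    haveI : Countable (Set.Iio β) := hβ.to_subtype
    refine measurableSet_setOfPred.2 (Measurable.and ?_ ?_)
    · exact Measurable.forall fun b => (m_ap2 mL b b).imp (mr b β hβ).not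
    · exact Measurable.exists fun b => (m_ap2 mL b b).and
        (Measurable.forall fun γ => (mr b γ.1 (ctbl_mono hβ (le_of_lt γ.2))).not)
  refine hfon_pull (E' := E) (f := fun d : {d : Tr X // Good g T d} => d.1.2.1) hX
    (rel_equiv hE.equiv hgE) (rel_cber hE hg hgE hT).meas hS
    ((measurable_fst.comp measurable_snd).comp measurable_subtype_coe) ?_
    (fun d d' _ _ h => h.2.1) (fun d d' _ _ h hx => Subtype.ext (rel_eq h hx))
  rintro d ⟨hs, b, hb, hγ⟩ i j k s hT' hr
  have hna := lo_not_acc d.2.lo hs hb hγ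
  obtain ⟨b', h1, h2⟩ := exact_rank' d.2.lo (d.2.exact i j k) hb hna hT' hr
  exact hs b' ((d.2.exact i j k).dom s b' hT' h1) h2

theorem rel_wo {E : X → X → Prop} (hE : CBER E) (hn : ¬ HF E) {g : ℕ → X → X}
    (hg : ∀ i, Measurable (g i)) (hgE : ∀ x y, E x y ↔ ∃ i, g i x = y)
    {T : ℕ → X × X → Tree} (hT : ∀ k, Measurable (T k)) {L : LOrd} (hL : IsLO L)
    (hw : ∀ a, L a a = true → Acc (lt L) a) :
    ¬ HFOn (fun d d' : {d : Tr X // Good g T d} => Rel E g d.1 d'.1) {d | d.1.1 = L} := by
  intro h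
  apply hn
  have hgood : ∀ x : X, Good g T (L, x, fun i j k => can L (T k (g i x, g j x))) := fun x =>
    { lo := hL
      exact := fun i j k => can_exact hL hw _
      cons := fun i j i' j' hi hj => by
        funext k
        simp only at hi hj
        simp only [hi, hj] }
  refine (hf_iff hE.equiv).2 (hfon_pull (S := Set.univ)
    (f := fun x : X => (⟨(L, x, fun i j k => can L (T k (g i x, g j x))), hgood x⟩ :
      {d : Tr X // Good g T d})) h hE.equiv hE.meas MeasurableSet.univ ?_ (fun x _ => rfl) ?_ ?_)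
  · refine Measurable.subtype_mk (measurable_const.prodMk (measurable_id.prodMk ?_))
    refine measurable_pi_iff.2 fun i => measurable_pi_iff.2 fun j => measurable_pi_iff.2 fun k => ?_
    exact can_meas hL hw ((hT k).comp ((hg i).prodMk (hg j)))
  · intro x y _ _ hxy
    refine ⟨rfl, hxy, fun i j i' j' hi hj => ?_⟩
    funext k
    simp only at hi hj
    simp only [hi, hj]
  · intro x y _ _ _ hxy
    exact congrArg (fun d : {d : Tr X // Good g T d} => d.1.2.1) hxy

end Pool.Agent.Lib.HFC
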