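import Pool.Agent.Lib.HFC.Master
import Pool.Agent.Lib.HFC.SgC
import Pool.Agent.Lib.HFC.LN

/-!
# Module HFC.Final: relations with a witness in the σ-algebra generated by the analytic sets (MP_3091e6_lc)
-/

set_option autoImplicit false

namespace Pool.Agent.Lib.HFC

/-- the version with a decomposition -/
theorem rank_hard {X : Type} [MeasurableSpace X] [StandardBorelSpace X] {E : X → X → Prop}
    (hE : CBER E) (hn : ¬ HF E) {g : ℕ → X → X} (hg : ∀ i, Measurable (g i))
    (hgE : ∀ x y, E x y ↔ ∃ i, g i x = y) {T : ℕ → X × X → Tree} (hT : ∀ k, Measurable (T k))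
    (hX : ∀ β, Ctbl β → HFOn E (Xa g T β)) : Hard HFCodes := by
  have : StandardBorelSpace {d : Tr X // Good g T d} := (good_meas hg hT).standardBorel
  refine master (D := {d : Tr X // Good g T d}) (π := fun d => d.1.1) (rel_cber hE hg hgE hT)
    (measurable_fst.comp measurable_subtype_coe) (fun d d' h => h.1) ?_ ?_
  · intro β hβ
    exact rel_ill hE hg hgE hT hβ (hX β hβ)
  · intro L hL hw
    exact rel_wo hE hn hg hgE hT hL hw

theorem sigma_hard {X : Type} [MeasurableSpace X] [StandardBorelSpace X] {E : X → X → Prop}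
    (hE : CBER E) (h1 : SHF E) (h2 : ¬ HF E) : Hard HFCodes := by
  obtain ⟨g, hg, hgE⟩ := lusin_novikov hE
  obtain ⟨F, hF, hFm⟩ := h1
  obtain ⟨T, hT, -, hTF⟩ := tree_family hFm
  exact rank_hard hE h2 hg hgE hT fun β hβ => hfon_xa hE hg hgE hF hT hTF hβ

end Pool.Agent.Lib.HFC
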