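import Pool.Agent.Lib.HFC.Defs

/-!
# Module HFC.RankA: ranks of accessible elements (MP_3091e6_lc)

PROOFS. `hasRank_iff` (→): `h : Acc r a`, `h.rank = β`; `Acc.rank_lt_of_rel`, and `Acc.rank_eq` with
`Ordinal.lt_iSup_iff` (`γ < β = ⨆ succ (rank b)` gives `b` with `γ < succ (rank b)`, i.e. `γ ≤ rank b`). (←): `Acc.intro`
(every `b` with `r b a` has a rank, so is accessible), and `rank = β` by `le_antisymm`: `Acc.rank_eq`, `Ordinal.iSup_le`
(`succ (rank b) ≤ β` as `rank b < β`; ranks are unique), and if `rank < β` take `γ = rank` in the second condition.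
`hasRank_unique`: `Acc` proofs are equal. `hasRank_below`: `Acc.mem_range_rank_of_le`, or induction: by `hasRank_iff` there
is `b` with `r b a` and `γ ≤ δ`, `HasRank r b δ`; if `γ = δ` done, otherwise induction. `hasRank_ctbl`: every `γ < β` is the
rank of some element (`Acc.mem_range_rank_of_le`), so `Set.Iio β` is the image of a subset of the countable type `ι`.
`hasRank_bisim`: strong induction on `β` with `hasRank_iff` for both directions. (All statements for `β` generalize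
`a a'`.) `ctbl_sup`: `β = (⨆ i, f i) + 1`; `Set.Iio β ⊆ ⋃ i, Set.Iio (f i) ∪ {β - 1}`: precisely `γ < ⨆ i, f i` gives `i` with
`γ < f i` (`Ordinal.lt_iSup_iff`), so `Set.Iio (⨆ f) = ⋃ Set.Iio (f i)` is countable and `Ctbl` is kept by `+ 1`.
-/

set_option autoImplicit false

namespace Pool.Agent.Lib.HFC

variable {ι ι' : Type} {r : ι → ι → Prop} {r' : ι' → ι' → Prop}

theorem hasRank_unique {a : ι} {β γ : Ordinal.{0}} (h : HasRank r a β) (h' : HasRank r a γ) :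
    β = γ := by
  obtain ⟨_, rfl⟩ := h
  obtain ⟨_, rfl⟩ := h'
  rfl

theorem hasRank_of_acc {a : ι} (h : Acc r a) : ∃ β, HasRank r a β :=
  ⟨_, h, rfl⟩

theorem hasRank_acc {a : ι} {β : Ordinal.{0}} (h : HasRank r a β) : Acc r a :=
  h.1

theorem hasRank_lt {a b : ι} {β γ : Ordinal.{0}} (h : HasRank r a β) (h' : HasRank r b γ)
    (hr : r b a) : γ < β := by
  obtain ⟨ha, rfl⟩ := h
  obtain ⟨_, rfl⟩ := h'
  exact ha.rank_lt_of_rel hr

theorem hasRank_iff {a : ι} {β : Ordinal.{0}} : HasRank r a β ↔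
    (∀ b, r b a → ∃ γ < β, HasRank r b γ) ∧
      ∀ γ < β, ∃ b, r b a ∧ ∃ δ, γ ≤ δ ∧ HasRank r b δ := by
  constructor
  · rintro ⟨ha, rfl⟩
    refine ⟨fun b hb => ⟨_, ha.rank_lt_of_rel hb, _, rfl⟩, fun γ hγ => ?_⟩
    rw [ha.rank_eq, Ordinal.lt_iSup_iff] at hγ
    obtain ⟨⟨b, hb⟩, hγ⟩ := hγ
    rw [Order.lt_succ_iff] at hγ
    exact ⟨b, hb, _, hγ, _, rfl⟩
  · rintro ⟨h1, h2⟩
    have ha : Acc r a := Acc.intro _ fun b hb => by
      obtain ⟨_, _, h, _⟩ := h1 b hb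
      exact h
    refine ⟨ha, le_antisymm ?_ ?_⟩
    · rw [ha.rank_eq]
      refine Ordinal.iSup_le ?_
      rintro ⟨b, hb⟩
      obtain ⟨γ, hγ, hb'⟩ := h1 b hb
      have h3 : (ha.inv hb).rank = γ := hasRank_unique ⟨ha.inv hb, rfl⟩ hb'
      rw [h3]
      exact Order.succ_le_of_lt hγ
    · by_contra hlt
      rw [not_le] at hlt
      obtain ⟨b, hb, δ, hδ, hb'⟩ := h2 _ hlt
      have h3 : δ < ha.rank := hasRank_lt ⟨ha, rfl⟩ hb' hb
      exact absurd hδ (not_le.2 h3)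

theorem hasRank_below {a : ι} {β γ : Ordinal.{0}} (h : HasRank r a β) (hγ : γ < β) :
    ∃ b, Relation.TransGen r b a ∧ HasRank r b γ := by
  have key : ∀ a : ι, Acc r a → ∀ β : Ordinal.{0}, HasRank r a β → γ < β →
      ∃ b, Relation.TransGen r b a ∧ HasRank r b γ := by
    intro a ha
    induction ha with
    | intro a _ ih =>
      intro β h hγ
      obtain ⟨b, hb, δ, hδ, hb'⟩ := (hasRank_iff.1 h).2 γ hγ
      obtain rfl | hδ := hδ.eq_or_lt
      · exact ⟨b, Relation.TransGen.single hb, hb'⟩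
      · obtain ⟨c, hc, hc'⟩ := ih b hb δ hb' hδ
        exact ⟨c, hc.tail hb, hc'⟩
  exact key a h.1 β h hγ

theorem hasRank_ctbl [Countable ι] {a : ι} {β : Ordinal.{0}} (h : HasRank r a β) : Ctbl β := by
  unfold Ctbl
  classical
  have h1 : ∀ γ : Set.Iio β, ∃ b, HasRank r b γ := fun γ => by
    obtain ⟨b, _, hb⟩ := hasRank_below h γ.2
    exact ⟨b, hb⟩
  choose f hf using h1
  have h2 : Function.Injective f := fun γ δ hγ => by
    have h3 := hf γ
    rw [hγ] at h3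
    exact Subtype.ext (hasRank_unique h3 (hf δ))
  exact h2.countable

theorem hasRank_bisim (Z : ι → ι' → Prop)
    (h1 : ∀ a a' b, Z a a' → r b a → ∃ b', r' b' a' ∧ Z b b')
    (h2 : ∀ a a' b', Z a a' → r' b' a' → ∃ b, r b a ∧ Z b b') {a : ι} {a' : ι'}
    {β : Ordinal.{0}} (hZ : Z a a') (h : HasRank r a β) : HasRank r' a' β := by
  have key : ∀ a : ι, Acc r a → ∀ (a' : ι') (β : Ordinal.{0}), Z a a' → HasRank r a β →
      HasRank r' a' β := by
    intro a ha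
    induction ha with
    | intro a _ ih =>
      intro a' β hZ h
      have h3 := hasRank_iff.1 h
      rw [hasRank_iff]
      refine ⟨fun b' hb' => ?_, fun γ hγ => ?_⟩
      · obtain ⟨b, hb, hbb⟩ := h2 a a' b' hZ hb'
        obtain ⟨γ, hγ, hbγ⟩ := h3.1 b hb
        exact ⟨γ, hγ, ih b hb b' γ hbb hbγ⟩
      · obtain ⟨b, hb, δ, hδ, hbδ⟩ := h3.2 γ hγ
        obtain ⟨b', hb', hbb⟩ := h1 a a' b hZ hb
        exact ⟨b', hb', δ, hδ, ih b hb b' δ hbb hbδ⟩
  exact key a h.1 a' β hZ h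

theorem ctbl_mono {β γ : Ordinal.{0}} (h : Ctbl β) (hγ : γ ≤ β) : Ctbl γ :=
  Set.Countable.mono (Set.Iio_subset_Iio hγ) h

theorem ctbl_succ {β : Ordinal.{0}} (h : Ctbl β) : Ctbl (β + 1) := by
  unfold Ctbl at h ⊢
  refine Set.Countable.mono ?_ (h.insert β)
  intro γ hγ
  rw [Set.mem_Iio, ← Order.succ_eq_add_one, Order.lt_succ_iff] at hγ
  rcases hγ.eq_or_lt with rfl | hγ
  · exact Set.mem_insert _ _
  · exact Set.mem_insert_of_mem _ hγ

theorem ctbl_sup {κ : Type} [Countable κ] (f : κ → Ordinal.{0}) (h : ∀ i, Ctbl (f i)) :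
    ∃ β, Ctbl β ∧ ∀ i, f i < β := by
  refine ⟨(⨆ i, f i) + 1, ctbl_succ ?_, fun i => ?_⟩
  · unfold Ctbl at h ⊢
    refine Set.Countable.mono ?_ (Set.countable_iUnion h)
    intro γ hγ
    rw [Set.mem_Iio, Ordinal.lt_iSup_iff] at hγ
    obtain ⟨i, hi⟩ := hγ
    exact Set.mem_iUnion.2 ⟨i, hi⟩
  · rw [← Order.succ_eq_add_one, Order.lt_succ_iff]
    exact Ordinal.le_iSup f i

end Pool.Agent.Lib.HFC
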