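import Pool.Agent.Lib.HFC.Defs

/-!
# Module HFC.RedA: codes of the sections of a Borel set (MP_3091e6_lc)
-/

set_option autoImplicit false

namespace Pool.Agent.Lib.HFC

theorem codes_unique {c : NN} {B B' : Set (NN × NN)} (h : Codes c B) (h' : Codes c B') :
    B = B' := by
  induction h generalizing B' with
  | basic c h =>
    cases h' with
    | basic _ h2 => rfl
    | compl _ B2 h2 hB2 => omega
    | union _ B2 h2 hB2 => omega
  | compl c B h hB ih =>
    cases h' with
    | basic _ h2 => omega
    | compl _ B2 h2 hB2 => rw [ih hB2]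
    | union _ B2 h2 hB2 => omega
  | union c B h hB ih =>
    cases h' with
    | basic _ h2 => omega
    | compl _ B2 h2 hB2 => omega
    | union _ B2 h2 hB2 =>
      have h3 : ∀ n, B n = B2 n := fun n => ih n (hB2 n)
      rw [funext h3]

namespace RedAAux

/-- the sections of `B` have continuous codes -/
private def P (B : Set (NN × (NN × NN))) : Prop :=
  ∃ f : NN → NN, Continuous f ∧ ∀ y, Codes (f y) {p | (y, p) ∈ B}

private def shift (a : ℕ) (c : NN) : NN := fun k => Nat.casesOn k a c

private lemma P_compl {B : Set (NN × (NN × NN))} (h : P B) : P Bᶜ := by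
  obtain ⟨f, hf, hc⟩ := h
  refine ⟨fun y => shift 1 (f y), ?_, fun y => ?_⟩
  · refine continuous_pi fun k => ?_
    cases k with
    | zero => exact continuous_const
    | succ k => exact (continuous_apply k).comp hf
  · exact Codes.compl (shift 1 (f y)) _ rfl (hc y)

private lemma P_union {B : ℕ → Set (NN × (NN × NN))} (h : ∀ n, P (B n)) : P (⋃ n, B n) := by
  choose f hf hc using h
  refine ⟨fun y => shift 2 fun k => f (Nat.unpair k).1 y (Nat.unpair k).2, ?_, fun y => ?_⟩
  · refine continuous_pi fun k => ?_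
    cases k with
    | zero => exact continuous_const
    | succ k => exact (continuous_apply _).comp (hf _)
  · have h1 : {p | (y, p) ∈ ⋃ n, B n} = ⋃ n, {p | (y, p) ∈ B n} := by
      ext p
      simp
    rw [h1]
    refine Codes.union _ _ le_rfl fun n => ?_
    have h2 : (fun k => shift 2 (fun k => f (Nat.unpair k).1 y (Nat.unpair k).2)
        (Nat.pair n k + 1)) = f n y := by
      funext k
      change f (Nat.unpair (Nat.pair n k)).1 y (Nat.unpair (Nat.pair n k)).2 = f n y k
      rw [Nat.unpair_pair]
    rw [h2]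
    exact hc n y

private def cB (m : ℕ) : NN := fun k => if k = 1 then m else 0

private lemma codes_cB (m : ℕ) : Codes (cB m) (Basic m) :=
  Codes.basic (cB m) rfl

private def cE : NN := shift 1 (cB (Encodable.encode (([], []) : List ℕ × List ℕ)))

private lemma codes_cE : Codes cE ∅ := by
  have h1 : Basic (Encodable.encode (([], []) : List ℕ × List ℕ)) = Set.univ := by
    ext p
    simp only [Basic, Denumerable.ofNat_encode, Set.mem_ofPred_eq, Set.mem_univ, iff_true]
    exact ⟨rfl, rfl⟩
  have h2 : (∅ : Set (NN × NN)) =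
      (Basic (Encodable.encode (([], []) : List ℕ × List ℕ)))ᶜ := by
    rw [h1, Set.compl_univ]
  rw [h2]
  exact Codes.compl cE _ rfl (codes_cB _)

private lemma P_basic (k : ℕ) (s : List ℕ) (m : ℕ) :
    P {q : NN × (NN × NN) | PiNat.res q.1 k = s ∧ q.2 ∈ Basic m} := by
  classical
  refine ⟨fun y => if PiNat.res y k = s then cB m else cE, ?_, fun y => ?_⟩
  · apply IsLocallyConstant.continuous
    rw [IsLocallyConstant.iff_exists_open]
    intro y
    refine ⟨PiNat.cylinder y k, PiNat.isOpen_cylinder _ y k, PiNat.self_mem_cylinder y k, ?_⟩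
    intro x hx
    rw [PiNat.cylinder_eq_res] at hx
    change PiNat.res x k = PiNat.res y k at hx
    rw [hx]
  · by_cases h : PiNat.res y k = s
    · have h1 : {p | (y, p) ∈ {q : NN × (NN × NN) | PiNat.res q.1 k = s ∧ q.2 ∈ Basic m}} =
          Basic m := by
        ext p
        exact ⟨fun h => h.2, fun h' => ⟨h, h'⟩⟩
      rw [h1]
      simp only [h, if_true]
      exact codes_cB m
    · have h1 : {p | (y, p) ∈ {q : NN × (NN × NN) | PiNat.res q.1 k = s ∧ q.2 ∈ Basic m}} =
          ∅ := by
        ext p
        exact ⟨fun h' => h h'.1, fun h' => h'.elim⟩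
      rw [h1]
      simp only [h, if_false]
      exact codes_cE

end RedAAux

open RedAAux in
theorem code_family {B : Set (NN × (NN × NN))} (hB : MeasurableSet B) :
    ∃ f : NN → NN, Continuous f ∧ ∀ y, Codes (f y) {p | (y, p) ∈ B} := by
  have hb1 : TopologicalSpace.IsTopologicalBasis
      {s : Set NN | ∃ (x : NN) (n : ℕ), s = PiNat.cylinder x n} :=
    PiNat.isTopologicalBasis_cylinders (fun _ : ℕ => ℕ)
  have hb : TopologicalSpace.IsTopologicalBasis (α := NN × (NN × NN)) _ := hb1.prod (hb1.prod hb1)
  have : BorelSpace NN := Pi.borelSpace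
  have : BorelSpace (NN × NN) := Prod.borelSpace
  have : BorelSpace (NN × (NN × NN)) := Prod.borelSpace
  have hb2 := hb.borel_eq_generateFrom
  rw [← BorelSpace.measurable_eq (α := NN × (NN × NN))] at hb2
  rw [hb2] at hB
  change P B
  refine MeasurableSpace.generateFrom_induction _ (fun t _ => P t) ?_ ?_ ?_ ?_ B hB
  · intro t ht _
    obtain ⟨a, ⟨x, n, rfl⟩, b, ⟨c, ⟨u, i, rfl⟩, d, ⟨v, j, rfl⟩, rfl⟩, rfl⟩ := ht
    have h1 : PiNat.cylinder x n ×ˢ (PiNat.cylinder u i ×ˢ PiNat.cylinder v j) =
        {q : NN × (NN × NN) | PiNat.res q.1 n = PiNat.res x n ∧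
          q.2 ∈ Basic (Encodable.encode (PiNat.res u i, PiNat.res v j))} := by
      ext q
      simp only [Basic, Denumerable.ofNat_encode, PiNat.cylinder_eq_res, Set.mem_prod,
        Set.mem_ofPred_eq, PiNat.res_length]
    change P (PiNat.cylinder x n ×ˢ (PiNat.cylinder u i ×ˢ PiNat.cylinder v j))
    rw [h1]
    exact P_basic _ _ _
  · have h := P_compl (P_union fun n => P_compl (P_basic 0 [] (Encodable.encode
      (([], []) : List ℕ × List ℕ))))
    have h2 := P_compl (P_basic 0 [] (Encodable.encode (([], []) : List ℕ × List ℕ)))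
    have h3 : {q : NN × (NN × NN) | PiNat.res q.1 0 = [] ∧
        q.2 ∈ Basic (Encodable.encode (([], []) : List ℕ × List ℕ))}ᶜ = ∅ := by
      rw [Set.compl_empty_iff]
      ext q
      simp only [Basic, Denumerable.ofNat_encode, Set.mem_ofPred_eq, Set.mem_univ, iff_true]
      exact ⟨rfl, rfl, rfl⟩
    rw [h3] at h2
    exact h2
  · intro t _ ht
    exact P_compl ht
  · intro g _ hg
    exact P_union hg

end Pool.Agent.Lib.HFC
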