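import Pool.Agent.Lib.HFC.AnL
import Pool.Agent.Lib.HFC.RedA

/-!
# Module HFC.S12: the set of codes is `Σ¹₂` (MP_3091e6_lc)

`sub c s` is the subcode of `c` at the node `s` (in the reverse order), `Nod c s` says that `s` is a node of the code tree.
`Ev c p e`: `e` is an evaluation of the code `c` at the point `p`.
-/

set_option autoImplicit false

namespace Pool.Agent.Lib.HFC

/-- the subcode at a node -/
def sub (c : NN) : List ℕ → NN
  | [] => c
  | n :: s => if sub c s 0 = 1 then fun k => sub c s (k + 1)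
      else fun k => sub c s (Nat.pair n k + 1)

/-- nodes of the code tree -/
def Nod (c : NN) : List ℕ → Prop
  | [] => True
  | n :: s => Nod c s ∧ sub c s 0 ≠ 0 ∧ (sub c s 0 = 1 → n = 0)

/-- `e` is an evaluation of the code `c` at `p` -/
def Ev (c : NN) (p : NN × NN) (e : List ℕ → Bool) : Prop :=
  ∀ s, Nod c s → (sub c s 0 = 0 → (e s = true ↔ p ∈ Basic (sub c s 1))) ∧
    (sub c s 0 = 1 → (e s = true ↔ e (0 :: s) = false)) ∧
      (2 ≤ sub c s 0 → (e s = true ↔ ∃ n, e (n :: s) = true))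

namespace S12Aux

theorem res_meas (k : ℕ) : ∀ s : List ℕ, MeasurableSet {x : NN | PiNat.res x k = s} := by
  induction k with
  | zero => intro s; simp only [PiNat.res_zero]; exact MeasurableSet.const _
  | succ k ih =>
    intro s
    cases s with
    | nil =>
      have : {x : NN | PiNat.res x (k + 1) = []} = ∅ := by
        ext x; simp [PiNat.res_succ]
      rw [this]
      exact MeasurableSet.empty
    | cons a s =>
      have : {x : NN | PiNat.res x (k + 1) = a :: s} = {x | x k = a} ∩ {x | PiNat.res x k = s} := by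
        ext x; simp [PiNat.res_succ]
      rw [this]
      exact ((measurable_pi_apply k) (measurableSet_singleton a)).inter (ih s)

theorem basic_meas (k : ℕ) : MeasurableSet (Basic k) :=
  ((res_meas _ _).preimage measurable_fst).inter ((res_meas _ _).preimage measurable_snd)

theorem cases_zero {c : NN} (h0 : c 0 = 0) {B : Set (NN × NN)} (h : Codes c B) :
    B = Basic (c 1) := by
  cases h with
  | basic _ h => rfl
  | compl _ B h hB => omega
  | union _ B h hB => omega

theorem cases_one {c : NN} (h0 : c 0 = 1) {B : Set (NN × NN)} (h : Codes c B) :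
    ∃ B', Codes (fun k => c (k + 1)) B' ∧ B = B'ᶜ := by
  cases h with
  | basic _ h => omega
  | compl _ B h hB => exact ⟨B, hB, rfl⟩
  | union _ B h hB => omega

theorem cases_two {c : NN} (h0 : 2 ≤ c 0) {B : Set (NN × NN)} (h : Codes c B) :
    ∃ B' : ℕ → Set (NN × NN), (∀ n, Codes (fun k => c (Nat.pair n k + 1)) (B' n)) ∧
      B = ⋃ n, B' n := by
  cases h with
  | basic _ h => omega
  | compl _ B h hB => omega
  | union _ B h hB => exact ⟨B, hB, rfl⟩

theorem sub_one {c : NN} {s : List ℕ} (h : sub c s 0 = 1) (n : ℕ) :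
    sub c (n :: s) = fun k => sub c s (k + 1) := by
  rw [sub, if_pos h]

theorem sub_two {c : NN} {s : List ℕ} (h : 2 ≤ sub c s 0) (n : ℕ) :
    sub c (n :: s) = fun k => sub c s (Nat.pair n k + 1) := by
  rw [sub, if_neg (by omega)]

theorem nod_codes {c : NN} {B : Set (NN × NN)} (h : Codes c B) :
    ∀ s, Nod c s → ∃ B', Codes (sub c s) B' := by
  intro s
  induction s with
  | nil => intro _; exact ⟨B, h⟩
  | cons n s ih =>
    rintro ⟨hN, h0, h1⟩
    obtain ⟨B', hB'⟩ := ih hN
    by_cases h2 : sub c s 0 = 1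
    · obtain ⟨B'', hB'', _⟩ := cases_one h2 hB'
      rw [sub_one h2]
      exact ⟨B'', hB''⟩
    · have h3 : 2 ≤ sub c s 0 := by omega
      obtain ⟨B'', hB'', _⟩ := cases_two h3 hB'
      rw [sub_two h3]
      exact ⟨B'' n, hB'' n⟩

theorem val_iff {c : NN} {B : Set (NN × NN)} (h : Codes c B) (p : NN × NN) :
    (∃ B', Codes c B' ∧ p ∈ B') ↔ p ∈ B := by
  constructor
  · rintro ⟨B', h', hp⟩
    rw [codes_unique h h']
    exact hp
  · exact fun hp => ⟨B, h, hp⟩

open Classical in
theorem ev_exists {c : NN} {B : Set (NN × NN)} (h : Codes c B) (p : NN × NN) :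
    ∃ e, Ev c p e := by
  refine ⟨fun s => decide (∃ B', Codes (sub c s) B' ∧ p ∈ B'), fun s hs => ?_⟩
  obtain ⟨B', hB'⟩ := nod_codes h s hs
  refine ⟨fun h0 => ?_, fun h1 => ?_, fun h2 => ?_⟩
  · simp only [decide_eq_true_eq]
    rw [val_iff hB', cases_zero h0 hB']
  · simp only [decide_eq_true_eq, decide_eq_false_iff_not]
    obtain ⟨B'', hB'', rfl⟩ := cases_one h1 hB'
    rw [val_iff hB', sub_one h1, val_iff hB'']
    rfl
  · simp only [decide_eq_true_eq]
    obtain ⟨B'', hB'', rfl⟩ := cases_two h2 hB'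
    rw [val_iff hB']
    simp only [sub_two h2, val_iff (hB'' _), Set.mem_iUnion]

theorem ev_unique {c : NN} {p : NN × NN} {e : List ℕ → Bool} (he : Ev c p e) {c' : NN}
    {B' : Set (NN × NN)} (h : Codes c' B') :
    ∀ s, sub c s = c' → Nod c s → (e s = true ↔ p ∈ B') := by
  induction h with
  | basic c' h =>
    intro s hs hN
    have h0 : sub c s 0 = 0 := by rw [hs]; exact h
    rw [(he s hN).1 h0, hs]
  | compl c' B h hB ih =>
    intro s hs hN
    have h0 : sub c s 0 = 1 := by rw [hs]; exact h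
    have h1 : Nod c (0 :: s) := ⟨hN, by omega, fun _ => rfl⟩
    have h2 := ih (0 :: s) (by rw [sub_one h0, hs]) h1
    rw [(he s hN).2.1 h0, Set.mem_compl_iff, ← h2, Bool.not_eq_true]
  | union c' B h hB ih =>
    intro s hs hN
    have h0 : 2 ≤ sub c s 0 := by rw [hs]; exact h
    rw [(he s hN).2.2 h0, Set.mem_iUnion]
    refine exists_congr fun n => ?_
    exact ih n (n :: s) (by rw [sub_two h0, hs]) ⟨hN, by omega, fun h' => by omega⟩

theorem no_branch {c : NN} {c' : NN} {B' : Set (NN × NN)} (h : Codes c' B') :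
    ∀ s, sub c s = c' → Nod c s → ∀ u : NN, PiNat.res u s.length = s →
      ¬ ∀ n, Nod c (PiNat.res u n) := by
  induction h with
  | basic c' h =>
    intro s hs hN u hu hb
    have h1 := hb (s.length + 1)
    rw [PiNat.res_succ, hu] at h1
    exact h1.2.1 (by rw [hs]; exact h)
  | compl c' B h hB ih =>
    intro s hs hN u hu hb
    have h0 : sub c s 0 = 1 := by rw [hs]; exact h
    have h1 := hb (s.length + 1)
    rw [PiNat.res_succ, hu] at h1
    exact ih (u s.length :: s) (by rw [sub_one h0, hs]) h1 u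
      (by rw [List.length_cons, PiNat.res_succ, hu]) hb
  | union c' B h hB ih =>
    intro s hs hN u hu hb
    have h0 : 2 ≤ sub c s 0 := by rw [hs]; exact h
    have h1 := hb (s.length + 1)
    rw [PiNat.res_succ, hu] at h1
    exact ih (u s.length) (u s.length :: s) (by rw [sub_two h0, hs]) h1 u
      (by rw [List.length_cons, PiNat.res_succ, hu]) hb

theorem step {c : NN} {s : List ℕ} (hN : Nod c s) (h : ¬ ∃ B, Codes (sub c s) B) :
    ∃ n, Nod c (n :: s) ∧ ¬ ∃ B, Codes (sub c (n :: s)) B := by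
  by_cases h0 : sub c s 0 = 0
  · exact absurd ⟨_, Codes.basic _ h0⟩ h
  by_cases h1 : sub c s 0 = 1
  · refine ⟨0, ⟨hN, h0, fun _ => rfl⟩, ?_⟩
    rintro ⟨B, hB⟩
    rw [sub_one h1] at hB
    exact h ⟨_, Codes.compl _ B h1 hB⟩
  · have h2 : 2 ≤ sub c s 0 := by omega
    by_contra h3
    push Not at h3
    have h4 : ∀ n, ∃ B, Codes (sub c (n :: s)) B := fun n => h3 n ⟨hN, h0, fun h' => by omega⟩
    choose B hB using h4
    refine h ⟨_, Codes.union _ B h2 fun n => ?_⟩
    have := hB n
    rw [sub_two h2] at this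
    exact this

theorem exists_code {B : Set (NN × NN)} (hB : MeasurableSet B) : ∃ c, Codes c B := by
  obtain ⟨f, _, hf⟩ := code_family (B := Set.univ ×ˢ B) (MeasurableSet.univ.prod hB)
  refine ⟨f fun _ => 0, ?_⟩
  have := hf fun _ => 0
  simpa using this

end S12Aux

open S12Aux

theorem codes_meas {c : NN} {B : Set (NN × NN)} (h : Codes c B) : MeasurableSet B := by
  induction h with
  | basic c h => exact basic_meas _
  | compl c B h hB ih => exact ih.compl
  | union c B h hB ih => exact MeasurableSet.iUnion ih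

theorem codes_ev {c : NN} {B : Set (NN × NN)} (h : Codes c B) (p : NN × NN) :
    (∃ e, Ev c p e) ∧ ∀ e, Ev c p e → (e [] = true ↔ p ∈ B) :=
  ⟨ev_exists h p, fun _ he => ev_unique he h [] rfl trivial⟩

theorem codes_iff {c : NN} : (∃ B, Codes c B) ↔ ¬ ∃ u : NN, ∀ n, Nod c (PiNat.res u n) := by
  constructor
  · rintro ⟨B, hB⟩ ⟨u, hu⟩
    exact no_branch hB [] rfl trivial u rfl hu
  · intro h
    by_contra h0
    apply h
    have hstep : ∀ s : {s : List ℕ // Nod c s ∧ ¬ ∃ B, Codes (sub c s) B},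
        ∃ n, Nod c (n :: s.1) ∧ ¬ ∃ B, Codes (sub c (n :: s.1)) B :=
      fun s => step s.2.1 s.2.2
    choose g hg using hstep
    let S : ℕ → {s : List ℕ // Nod c s ∧ ¬ ∃ B, Codes (sub c s) B} := fun k =>
      Nat.rec ⟨[], trivial, h0⟩ (fun _ s => ⟨g s :: s.1, hg s⟩) k
    have hS : ∀ k, PiNat.res (fun k => g (S k)) k = (S k).1 := by
      intro k
      induction k with
      | zero => rfl
      | succ k ih =>
        rw [PiNat.res_succ, ih]
    refine ⟨fun k => g (S k), fun n => ?_⟩
    rw [hS]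
    exact (S n).2.1

namespace S12Aux

theorem sub_meas (s : List ℕ) : Measurable fun c : NN => sub c s := by
  induction s with
  | nil => exact measurable_id
  | cons n s ih =>
    have h1 : ∀ k, Measurable fun c : NN => sub c s k := fun k => (measurable_pi_apply k).comp ih
    refine measurable_pi_lambda _ fun k => ?_
    have h2 : (fun c : NN => sub c (n :: s) k) =
        fun c => if sub c s 0 = 1 then sub c s (k + 1) else sub c s (Nat.pair n k + 1) := by
      funext c
      rw [sub]
      split_ifs <;> rfl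
    rw [h2]
    exact Measurable.ite ((h1 0) (measurableSet_singleton 1)) (h1 _) (h1 _)

theorem sub_meas' (s : List ℕ) (k : ℕ) : Measurable fun c : NN => sub c s k :=
  (measurable_pi_apply k).comp (sub_meas s)

theorem nod_meas (s : List ℕ) : MeasurableSet {c : NN | Nod c s} := by
  induction s with
  | nil => exact MeasurableSet.univ
  | cons n s ih =>
    have h0 : MeasurableSet {c : NN | sub c s 0 = 0} := (sub_meas' s 0) (measurableSet_singleton 0)
    have h1 : MeasurableSet {c : NN | sub c s 0 = 1} := (sub_meas' s 0) (measurableSet_singleton 1)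
    have h2 : {c : NN | Nod c (n :: s)} = {c | Nod c s} ∩ ({c : NN | sub c s 0 = 0}ᶜ ∩
        ({c : NN | sub c s 0 = 1}ᶜ ∪ {_c : NN | n = 0})) := by
      ext c
      simp only [Nod, Set.mem_ofPred_eq, Set.mem_inter_iff, Set.mem_compl_iff, Set.mem_union,
        imp_iff_not_or, ne_eq]
    rw [h2]
    exact ih.inter (h0.compl.inter (h1.compl.union (MeasurableSet.const _)))

theorem val_meas (s : List ℕ) (b : Bool) :
    MeasurableSet {q : (NN × (NN × NN)) × (List ℕ → Bool) | q.2 s = b} := by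
  have h1 : Measurable fun q : (NN × (NN × NN)) × (List ℕ → Bool) => q.2 s :=
    (measurable_pi_apply s).comp measurable_snd
  exact h1 (measurableSet_singleton b)

theorem ev_meas : MeasurableSet {q : (NN × (NN × NN)) × (List ℕ → Bool) |
    Ev q.1.1 q.1.2 q.2} := by
  have hN : ∀ s, MeasurableSet {q : (NN × (NN × NN)) × (List ℕ → Bool) | Nod q.1.1 s} :=
    fun s => (nod_meas s).preimage (measurable_fst.comp measurable_fst)
  have hs : ∀ s k m, MeasurableSet {q : (NN × (NN × NN)) × (List ℕ → Bool) |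
      sub q.1.1 s k = m} :=
    fun s k m => ((sub_meas' s k).comp (measurable_fst.comp measurable_fst))
      (measurableSet_singleton m)
  have hs2 : ∀ s, MeasurableSet {q : (NN × (NN × NN)) × (List ℕ → Bool) |
      2 ≤ sub q.1.1 s 0} :=
    fun s => ((sub_meas' s 0).comp (measurable_fst.comp measurable_fst))
      (DiscreteMeasurableSpace.forall_measurableSet (Set.Ici 2))
  have he : ∀ s b, MeasurableSet {q : (NN × (NN × NN)) × (List ℕ → Bool) | q.2 s = b} :=
    fun s b => val_meas s b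
  have hB : ∀ s, MeasurableSet {q : (NN × (NN × NN)) × (List ℕ → Bool) |
      q.1.2 ∈ Basic (sub q.1.1 s 1)} := by
    intro s
    have : {q : (NN × (NN × NN)) × (List ℕ → Bool) | q.1.2 ∈ Basic (sub q.1.1 s 1)} =
        ⋃ k, ({q | sub q.1.1 s 1 = k} ∩ {q | q.1.2 ∈ Basic k}) := by
      ext q
      simp
    rw [this]
    exact MeasurableSet.iUnion fun k => (hs s 1 k).inter
      ((basic_meas k).preimage (measurable_snd.comp measurable_fst))
  simp only [measurableSet_setOfPred] at hN hs hs2 he hB ⊢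
  unfold Ev
  exact Measurable.forall fun s => (hN s).imp (((hs s 0 0).imp ((he s true).iff (hB s))).and
    (((hs s 0 1).imp ((he s true).iff (he (0 :: s) false))).and
      ((hs2 s).imp ((he s true).iff (Measurable.exists fun n => he (n :: s) true)))))

/-- the pairs of a code and a point with an evaluation with value `b` -/
def Q (b : Bool) : Set (NN × (NN × NN)) := {q | ∃ e, Ev q.1 q.2 e ∧ e [] = b}

theorem an_Q (b : Bool) : An (Q b) := by
  refine an_proj (A := {q : (NN × (NN × NN)) × (List ℕ → Bool) |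
    Ev q.1.1 q.1.2 q.2 ∧ q.2 [] = b}) (an_of_meas ?_)
  exact ev_meas.inter (val_meas [] b)

/-- the sequences which are not codes -/
def NC : Set NN := {c | ∃ u : NN, ∀ n, Nod c (PiNat.res u n)}

theorem an_NC : An NC := by
  refine an_proj (A := {q : NN × NN | ∀ n, Nod q.1 (PiNat.res q.2 n)}) (an_of_meas ?_)
  have h1 : ∀ n s, MeasurableSet {q : NN × NN | PiNat.res q.2 n = s} :=
    fun n s => (res_meas n s).preimage measurable_snd
  have h2 : ∀ s, MeasurableSet {q : NN × NN | Nod q.1 s} :=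
    fun s => (nod_meas s).preimage measurable_fst
  have h3 : {q : NN × NN | ∀ n, Nod q.1 (PiNat.res q.2 n)} =
      ⋂ n, ⋃ s, ({q : NN × NN | PiNat.res q.2 n = s} ∩ {q : NN × NN | Nod q.1 s}) := by
    ext q
    simp
  rw [h3]
  exact MeasurableSet.iInter fun n => MeasurableSet.iUnion fun s => (h1 n s).inter (h2 s)

theorem Q_true {c : NN} {B : Set (NN × NN)} (h : Codes c B) (p : NN × NN) :
    (c, p) ∈ Q true ↔ p ∈ B := by
  constructor
  · rintro ⟨e, he, h1⟩
    exact ((codes_ev h p).2 e he).1 h1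
  · intro hp
    obtain ⟨e, he⟩ := (codes_ev h p).1
    exact ⟨e, he, ((codes_ev h p).2 e he).2 hp⟩

theorem Q_false {c : NN} {B : Set (NN × NN)} (h : Codes c B) (p : NN × NN) :
    (c, p) ∈ Q false ↔ p ∉ B := by
  constructor
  · rintro ⟨e, he, h1⟩ hp
    rw [((codes_ev h p).2 e he).2 hp] at h1
    exact Bool.noConfusion h1
  · intro hp
    obtain ⟨e, he⟩ := (codes_ev h p).1
    refine ⟨e, he, ?_⟩
    rw [← Bool.not_eq_true]
    exact fun h1 => hp (((codes_ev h p).2 e he).1 h1)

/-- the `n`-th code -/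
def dd (d : NN) (n : ℕ) : NN := fun k => d (Nat.pair n k)

theorem dd_meas (n : ℕ) : Measurable fun d : NN => dd d n :=
  measurable_pi_lambda _ fun _ => measurable_pi_apply _

/-- the codes of failures -/
def CC : Set (NN × NN) :=
  {q | q.1 ∈ NC} ∪ (⋃ n, {q | dd q.2 n ∈ NC}) ∪
  {q | ∃ p : NN × NN, (q.1, p) ∈ Q true ∧ ∀ n, (dd q.2 n, p) ∈ Q false} ∪
  (⋃ n, {q | ∃ p : NN × NN, (dd q.2 n, p) ∈ Q true ∧ (q.1, p) ∈ Q false}) ∪
  (⋃ n, {q | ∃ x : NN, (dd q.2 n, (x, x)) ∈ Q false}) ∪
  (⋃ n, {q | ∃ p : NN × NN, (dd q.2 n, p) ∈ Q true ∧ (dd q.2 n, p.swap) ∈ Q false}) ∪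
  (⋃ n, {q | ∃ p : NN × NN × NN, ((dd q.2 n, (p.1, p.2.1)) ∈ Q true ∧
    (dd q.2 n, (p.2.1, p.2.2)) ∈ Q true) ∧ (dd q.2 n, (p.1, p.2.2)) ∈ Q false}) ∪
  (⋃ n, {q | ∃ p : NN × NN, (dd q.2 n, p) ∈ Q true ∧ (dd q.2 (n + 1), p) ∈ Q false}) ∪
  ⋃ n, {q | ∃ p : NN × (ℕ → NN), (∀ i, (dd q.2 n, (p.1, p.2 i)) ∈ Q true) ∧
    Function.Injective p.2}

theorem an_CC : An CC := by
  have m1 {Y : Type} [MeasurableSpace Y] : Measurable fun q : (NN × NN) × Y => q.1.1 :=
    measurable_fst.comp measurable_fst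
  have m2 {Y : Type} [MeasurableSpace Y] (n : ℕ) :
      Measurable fun q : (NN × NN) × Y => dd q.1.2 n :=
    (dd_meas n).comp (measurable_snd.comp measurable_fst)
  refine an_union (an_union (an_union (an_union (an_union (an_union (an_union (an_union ?_ ?_)
    ?_) ?_) ?_) ?_) ?_) ?_) ?_
  · exact an_preimage an_NC measurable_fst
  · exact an_iUnion fun n => an_preimage an_NC ((dd_meas n).comp measurable_snd)
  · refine an_proj (A := {q : (NN × NN) × (NN × NN) | (q.1.1, q.2) ∈ Q true ∧
      ∀ n, (dd q.1.2 n, q.2) ∈ Q false}) ?_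
    refine an_inter (A := {q : (NN × NN) × (NN × NN) | (q.1.1, q.2) ∈ Q true})
      (B := {q : (NN × NN) × (NN × NN) | ∀ n, (dd q.1.2 n, q.2) ∈ Q false}) ?_ ?_
    · exact an_preimage (an_Q true) (m1.prodMk measurable_snd)
    · rw [Set.ofPred_forall]
      exact an_iInter fun n => an_preimage (an_Q false) ((m2 n).prodMk measurable_snd)
  · refine an_iUnion fun n => ?_
    refine an_proj (A := {q : (NN × NN) × (NN × NN) | (dd q.1.2 n, q.2) ∈ Q true ∧
      (q.1.1, q.2) ∈ Q false}) ?_
    exact an_inter (an_preimage (an_Q true) ((m2 n).prodMk measurable_snd))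
      (an_preimage (an_Q false) (m1.prodMk measurable_snd))
  · refine an_iUnion fun n => ?_
    refine an_proj (A := {q : (NN × NN) × NN | (dd q.1.2 n, (q.2, q.2)) ∈ Q false}) ?_
    exact an_preimage (an_Q false) ((m2 n).prodMk (measurable_snd.prodMk measurable_snd))
  · refine an_iUnion fun n => ?_
    refine an_proj (A := {q : (NN × NN) × (NN × NN) | (dd q.1.2 n, q.2) ∈ Q true ∧
      (dd q.1.2 n, q.2.swap) ∈ Q false}) ?_
    exact an_inter (an_preimage (an_Q true) ((m2 n).prodMk measurable_snd))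
      (an_preimage (an_Q false) ((m2 n).prodMk (measurable_swap.comp measurable_snd)))
  · refine an_iUnion fun n => ?_
    refine an_proj (A := {q : (NN × NN) × (NN × NN × NN) |
      ((dd q.1.2 n, (q.2.1, q.2.2.1)) ∈ Q true ∧ (dd q.1.2 n, (q.2.2.1, q.2.2.2)) ∈ Q true) ∧
        (dd q.1.2 n, (q.2.1, q.2.2.2)) ∈ Q false}) ?_
    have a1 : Measurable fun q : (NN × NN) × (NN × NN × NN) => q.2.1 :=
      measurable_fst.comp measurable_snd
    have a2 : Measurable fun q : (NN × NN) × (NN × NN × NN) => q.2.2.1 :=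
      measurable_fst.comp (measurable_snd.comp measurable_snd)
    have a3 : Measurable fun q : (NN × NN) × (NN × NN × NN) => q.2.2.2 :=
      measurable_snd.comp (measurable_snd.comp measurable_snd)
    exact an_inter (an_inter (an_preimage (an_Q true) ((m2 n).prodMk (a1.prodMk a2)))
      (an_preimage (an_Q true) ((m2 n).prodMk (a2.prodMk a3))))
      (an_preimage (an_Q false) ((m2 n).prodMk (a1.prodMk a3)))
  · refine an_iUnion fun n => ?_
    refine an_proj (A := {q : (NN × NN) × (NN × NN) | (dd q.1.2 n, q.2) ∈ Q true ∧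
      (dd q.1.2 (n + 1), q.2) ∈ Q false}) ?_
    exact an_inter (an_preimage (an_Q true) ((m2 n).prodMk measurable_snd))
      (an_preimage (an_Q false) ((m2 (n + 1)).prodMk measurable_snd))
  · refine an_iUnion fun n => ?_
    refine an_proj (A := {q : (NN × NN) × (NN × (ℕ → NN)) |
      (∀ i, (dd q.1.2 n, (q.2.1, q.2.2 i)) ∈ Q true) ∧ Function.Injective q.2.2}) ?_
    refine an_inter (A := {q : (NN × NN) × (NN × (ℕ → NN)) |
      ∀ i, (dd q.1.2 n, (q.2.1, q.2.2 i)) ∈ Q true})
      (B := {q : (NN × NN) × (NN × (ℕ → NN)) | Function.Injective q.2.2}) ?_ ?_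
    · rw [Set.ofPred_forall]
      refine an_iInter fun i => an_preimage (an_Q true) ((m2 n).prodMk
        ((measurable_fst.comp measurable_snd).prodMk ?_))
      exact (measurable_pi_apply i).comp (measurable_snd.comp measurable_snd)
    · refine an_of_meas ?_
      have h1 : {q : (NN × NN) × (NN × (ℕ → NN)) | Function.Injective q.2.2} =
          ⋂ i, ⋂ j, ({q : (NN × NN) × (NN × (ℕ → NN)) | q.2.2 i = q.2.2 j}ᶜ ∪
            {_q : (NN × NN) × (NN × (ℕ → NN)) | i = j}) := by
        ext q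
        simp only [Function.Injective, Set.mem_ofPred_eq, Set.mem_iInter, Set.mem_union,
          Set.mem_compl_iff, imp_iff_not_or]
      rw [h1]
      refine MeasurableSet.iInter fun i => MeasurableSet.iInter fun j => ?_
      refine MeasurableSet.union (MeasurableSet.compl ?_) (MeasurableSet.const _)
      exact measurableSet_eq_fun
        ((measurable_pi_apply i).comp (measurable_snd.comp measurable_snd))
        ((measurable_pi_apply j).comp (measurable_snd.comp measurable_snd))

end S12Aux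

theorem hfcodes_sigma12 : Sigma12 HFCodes := by
  refine ⟨CC, an_CC, ?_⟩
  ext c
  constructor
  · rintro ⟨E, hc, hE, F, hF, hFm⟩
    choose d hd using fun n => exists_code (hFm n)
    have hdd : ∀ n, dd (fun m => d m.unpair.1 m.unpair.2) n = d n := by
      intro n
      funext k
      simp [dd]
    refine ⟨fun m => d m.unpair.1 m.unpair.2, ?_⟩
    intro hC
    simp only [CC, Set.mem_union, Set.mem_iUnion, Set.mem_ofPred_eq, hdd, Q_true hc, Q_false hc,
      Q_true (hd _), Q_false (hd _)] at hC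
    rcases hC with (((((((h | h) | h) | h) | h) | h) | h) | h) | h
    · exact codes_iff.1 ⟨_, hc⟩ h
    · obtain ⟨n, h⟩ := h
      exact codes_iff.1 ⟨_, hd n⟩ h
    · obtain ⟨p, h1, h2⟩ := h
      obtain ⟨n, hn⟩ := (hF.union _ _).1 h1
      exact h2 n hn
    · obtain ⟨n, p, h1, h2⟩ := h
      exact h2 ((hF.union _ _).2 ⟨n, h1⟩)
    · obtain ⟨n, x, h1⟩ := h
      exact h1 ((hF.equiv n).refl x)
    · obtain ⟨n, p, h1, h2⟩ := h
      exact h2 ((hF.equiv n).symm h1)
    · obtain ⟨n, p, ⟨h1, h2⟩, h3⟩ := h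
      exact h3 ((hF.equiv n).trans h1 h2)
    · obtain ⟨n, p, h1, h2⟩ := h
      exact h2 (hF.mono n _ _ h1)
    · obtain ⟨n, p, h1, h2⟩ := h
      exact Set.infinite_of_injective_forall_mem h2 h1 (hF.fin n p.1)
  · rintro ⟨d, hC⟩
    simp only [CC, Set.mem_union, Set.mem_iUnion, Set.mem_ofPred_eq, not_or] at hC
    obtain ⟨⟨⟨⟨⟨⟨⟨⟨h1, h2⟩, h3⟩, h4⟩, h5⟩, h6⟩, h7⟩, h8⟩, h9⟩ := hC
    obtain ⟨B, hB⟩ := codes_iff.2 h1
    have h2' : ∀ n, ∃ B, Codes (dd d n) B := fun n => codes_iff.2 fun h => h2 ⟨n, h⟩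
    choose D hD using h2'
    simp only [Q_true hB, Q_false hB, Q_true (hD _), Q_false (hD _)] at h3 h4 h5 h6 h7 h8 h9
    push Not at h3 h4 h5 h6 h7 h8 h9
    have hmono : ∀ m n, m ≤ n → ∀ p, p ∈ D m → p ∈ D n := by
      intro m n hmn
      induction hmn with
      | refl => exact fun p hp => hp
      | step _ ih => exact fun p hp => h8 _ p (ih p hp)
    have hW : Wit (fun x y => (x, y) ∈ B) fun n x y => (x, y) ∈ D n := by
      refine ⟨fun n => ⟨fun x => h5 n x, fun {x y} h => h6 n (x, y) h,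
        fun {x y z} h h' => h7 n (x, y, z) ⟨h, h'⟩⟩, fun n x => ?_, fun n x y h => h8 n (x, y) h,
        fun x y => ⟨fun h => h3 (x, y) h, fun ⟨n, h⟩ => h4 n (x, y) h⟩⟩
      by_contra hinf
      have hinf' : {y | (x, y) ∈ D n}.Infinite := hinf
      exact h9 n (x, fun i => (hinf'.natEmbedding _ i : NN))
        (fun i => (hinf'.natEmbedding _ i).2)
        (Subtype.val_injective.comp (hinf'.natEmbedding _).injective)
    refine ⟨fun x y => (x, y) ∈ B, hB, ⟨⟨?_, ?_, ?_⟩, codes_meas hB, ?_⟩, _, hW,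
      fun n => codes_meas (hD n)⟩
    · exact fun x => (hW.union _ _).2 ⟨0, (hW.equiv 0).refl x⟩
    · intro x y h
      obtain ⟨n, hn⟩ := (hW.union _ _).1 h
      exact (hW.union _ _).2 ⟨n, (hW.equiv n).symm hn⟩
    · intro x y z h h'
      obtain ⟨n, hn⟩ := (hW.union _ _).1 h
      obtain ⟨m, hm⟩ := (hW.union _ _).1 h'
      exact (hW.union _ _).2 ⟨max n m, (hW.equiv _).trans (hmono n _ (le_max_left _ _) _ hn)
        (hmono m _ (le_max_right _ _) _ hm)⟩
    · intro x
      have : {y | (x, y) ∈ B} = ⋃ n, {y | (x, y) ∈ D n} := by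
        ext y
        simp only [Set.mem_ofPred_eq, Set.mem_iUnion]
        exact hW.union x y
      rw [this]
      exact Set.countable_iUnion fun n => (hW.fin n x).countable

end Pool.Agent.Lib.HFC
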