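import Pool.Agent.Lib.HFC.LN

/-!
# Module HFC.Sel: selectors of finite Borel equivalence relations (MP_3091e6_lc)

PROOF. `K` is a `CBER` (finite sets are countable); `g` from `lusin_novikov`. Let `r : X → ℝ` be a measurable injection
(`MeasureTheory.exists_measurableEmbedding_real`). For every `x` there is `i` with `∀ j, r (g i x) ≤ r (g j x)` (the class of `x` is
finite and `{g i x}` is the class); let `i x` be the least one (`Nat.find`) and `t x = g (i x) x`. `K x y` implies `t x = t y`: both are
the element of the common class with the least value of `r`, `r` is injective. Measurable: `t` is equal to `g i` on the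
measurable set `{x | i x = i}` (`measurable_find`, or `Measurable` by a countable union of preimages); e.g.
`t ⁻¹' B = ⋃ i, {x | i x = i} ∩ g i ⁻¹' B`.
-/

set_option autoImplicit false

namespace Pool.Agent.Lib.HFC

theorem selector {X : Type} [MeasurableSpace X] [StandardBorelSpace X] {K : X → X → Prop}
    (hK : Equivalence K) (hm : MeasurableSet {p : X × X | K p.1 p.2})
    (hf : ∀ x, {y | K x y}.Finite) :
    ∃ t : X → X, Measurable t ∧ (∀ x, K x (t x)) ∧ ∀ x y, K x y → t x = t y := by
  classical
  obtain ⟨g, hg, hgE⟩ := lusin_novikov (E := K) ⟨hK, hm, fun x => (hf x).countable⟩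
  obtain ⟨r, hr⟩ := MeasureTheory.exists_measurableEmbedding_real X
  have hex : ∀ x, ∃ i, ∀ j, r (g i x) ≤ r (g j x) := by
    intro x
    obtain ⟨a, ha, hmin⟩ := Set.exists_min_image {y | K x y} r (hf x) ⟨x, hK.refl x⟩
    obtain ⟨i, hi⟩ := (hgE x a).1 ha
    refine ⟨i, fun j => ?_⟩
    rw [hi]
    exact hmin _ ((hgE x _).2 ⟨j, rfl⟩)
  have hfind : Measurable fun x => Nat.find (hex x) := by
    refine measurable_find hex fun k => ?_
    have h1 : {x | ∀ j, r (g k x) ≤ r (g j x)} = ⋂ j, {x | r (g k x) ≤ r (g j x)} := by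
      ext x
      simp
    rw [h1]
    exact MeasurableSet.iInter fun j =>
      measurableSet_le (hr.measurable.comp (hg k)) (hr.measurable.comp (hg j))
  have hle : ∀ x y, K x y → r (g (Nat.find (hex x)) x) ≤ r (g (Nat.find (hex y)) y) := by
    intro x y hxy
    have h1 : K x (g (Nat.find (hex y)) y) := hK.trans hxy ((hgE y _).2 ⟨_, rfl⟩)
    obtain ⟨j, hj⟩ := (hgE x _).1 h1
    rw [← hj]
    exact Nat.find_spec (hex x) j
  refine ⟨fun x => g (Nat.find (hex x)) x, ?_, fun x => (hgE x _).2 ⟨_, rfl⟩, fun x y hxy => ?_⟩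
  · have h1 : Measurable fun q : ℕ × X => g q.1 q.2 :=
      measurable_from_prod_countable_right fun i => hg i
    exact h1.comp (hfind.prodMk measurable_id)
  · exact hr.injective (le_antisymm (hle x y hxy) (hle y x (hK.symm hxy)))

end Pool.Agent.Lib.HFC
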