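import Pool.Agent.Lib.HFC.AnL
import Pool.Agent.Lib.HFC.FP

/-!
# Module HFC.SgA: sets in the σ-algebra generated by the analytic sets (MP_3091e6_lc)

PROOF of `countable_family0`: `generateFrom_induction` (`MeasurableSpace.generateFrom_induction` or `MeasurableSpace.GenerateMeasurable`
recursion): an analytic set: `A k = F`; `∅`; complement: `Fᶜ ∩ Y = Y \ (F ∩ Y)`, same family; union: join the families with
`Nat.unpair`. `countable_family`: join the families. `tree_family`: `tree_rep` for every `A k`, and `T p k = T_k p`.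
-/

set_option autoImplicit false

namespace Pool.Agent.Lib.HFC

theorem countable_family0 {Z : Type} [MeasurableSpace Z] {F : Set Z}
    (h : @MeasurableSet Z (MeasurableSpace.generateFrom {A : Set Z | An A}) F) :
    ∃ A : ℕ → Set Z, (∀ k, An (A k)) ∧ ∀ Y : Set Z, MeasurableSet Y →
      (∀ k, MeasurableSet (A k ∩ Y)) → MeasurableSet (F ∩ Y) := by
  refine MeasurableSpace.generateFrom_induction {A : Set Z | An A}
    (fun F _ => ∃ A : ℕ → Set Z, (∀ k, An (A k)) ∧ ∀ Y : Set Z, MeasurableSet Y →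
      (∀ k, MeasurableSet (A k ∩ Y)) → MeasurableSet (F ∩ Y)) ?_ ?_ ?_ ?_ F h
  · intro A hA _
    exact ⟨fun _ => A, fun _ => hA, fun Y _ hk => hk 0⟩
  · refine ⟨fun _ => ∅, fun _ => an_of_meas MeasurableSet.empty, fun Y _ _ => ?_⟩
    rw [Set.empty_inter]
    exact MeasurableSet.empty
  · rintro B _ ⟨A, hA, hB⟩
    refine ⟨A, hA, fun Y hY hk => ?_⟩
    have h1 : Bᶜ ∩ Y = Y \ (B ∩ Y) := by
      ext z
      simp only [Set.mem_inter_iff, Set.mem_compl_iff, Set.mem_sdiff]
      constructor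
      · rintro ⟨h1, h2⟩
        exact ⟨h2, fun h3 => h1 h3.1⟩
      · rintro ⟨h1, h2⟩
        exact ⟨fun h3 => h2 ⟨h3, h1⟩, h1⟩
    rw [h1]
    exact hY.diff (hB Y hY hk)
  · intro B _ hB
    choose A hA hB using hB
    refine ⟨fun k => A (Nat.unpair k).1 (Nat.unpair k).2, fun k => hA _ _, fun Y hY hk => ?_⟩
    rw [Set.iUnion_inter]
    refine MeasurableSet.iUnion fun i => hB i Y hY fun k => ?_
    have := hk (Nat.pair i k)
    simpa only [Nat.unpair_pair] using this

theorem countable_family {Z : Type} [MeasurableSpace Z] {F : ℕ → Set Z}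
    (h : ∀ n, @MeasurableSet Z (MeasurableSpace.generateFrom {A : Set Z | An A}) (F n)) :
    ∃ A : ℕ → Set Z, (∀ k, An (A k)) ∧ ∀ Y : Set Z, MeasurableSet Y →
      (∀ k, MeasurableSet (A k ∩ Y)) → ∀ n, MeasurableSet (F n ∩ Y) := by
  choose A hA hB using fun n => countable_family0 (h n)
  refine ⟨fun k => A (Nat.unpair k).1 (Nat.unpair k).2, fun k => hA _ _, fun Y hY hk n => ?_⟩
  refine hB n Y hY fun k => ?_
  have := hk (Nat.pair n k)
  simpa only [Nat.unpair_pair] using this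

/-- the same in terms of trees -/
theorem tree_family {Z : Type} [MeasurableSpace Z] [StandardBorelSpace Z] {F : ℕ → Set Z}
    (h : ∀ n, @MeasurableSet Z (MeasurableSpace.generateFrom {A : Set Z | An A}) (F n)) :
    ∃ T : ℕ → Z → Tree, (∀ k, Measurable (T k)) ∧ (∀ k z, Closed (T k z)) ∧
      ∀ Y : Set Z, MeasurableSet Y →
        (∀ k, MeasurableSet {z | z ∈ Y ∧ ∃ u, Br (T k z) u}) → ∀ n, MeasurableSet (F n ∩ Y) := by
  obtain ⟨A, hA, hB⟩ := countable_family h
  choose T hT1 hT2 hT3 using fun k => tree_rep (hA k)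
  refine ⟨T, hT1, hT2, fun Y hY hk => hB Y hY fun k => ?_⟩
  have h1 : A k ∩ Y = {z | z ∈ Y ∧ ∃ u, Br (T k z) u} := by
    ext z
    constructor
    · rintro ⟨h1, h2⟩
      exact ⟨h2, (hT3 k z).2 h1⟩
    · rintro ⟨h1, h2⟩
      exact ⟨(hT3 k z).1 h2, h1⟩
  rw [h1]
  exact hk k

end Pool.Agent.Lib.HFC
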