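import Pool.Agent.Lib.HFC.SgA
import Pool.Agent.Lib.HFC.RankM
import Pool.Agent.Lib.HFC.HFT

/-!
# Module HFC.SgB: the sets `Xa α` (MP_3091e6_lc)

`E` has classes `{g i x}`, `T k` are measurable families of trees on `X × X`.
PROOFS. `xa_meas`: `hasRank_child_meas` for `x ↦ T k (g i x, g j x)`, countable intersection. `xa_inv`: `g i y = g i' x` for some `i'`
(as `E x (g i y)`). `xa_branch`: `x ∈ Xa`, `E x y`: `x = g i x`, `y = g j x` for some `i j`. (→) a branch and a rank contradict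
`branch_acc`. (←) if `T k (x, y)` has no branch then `[]` has a rank `γ`; `γ = α` is excluded, `γ > α` also: `hasRank_below` gives
(a `TransGen` predecessor is in the tree) a node of rank `α`. So `γ < α`.
PROOF of `hfon_xa`: let `Y = {p | p.1 ∈ Xa α ∧ E p.1 p.2}`, measurable. `{z ∈ Y | T k z has a branch}` is measurable: by
`xa_branch` it is `{z ∈ Y | T k z [] = true}` minus the countable union over `γ < α` of `{HasRank (child (T k z)) [] γ}`. So
`{p | F n p.1 p.2} ∩ Y` is measurable (`hTF`), and `F' n x y = (x ∈ Xa α ∧ F n x y)` is a witness on `Xa α` (`F n x y → E x y`; `Xa` is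
invariant).
-/

set_option autoImplicit false

namespace Pool.Agent.Lib.HFC

variable {X : Type}

theorem SgBAux.ctbl_lt {α γ : Ordinal.{0}} (hα : Ctbl α) (h : γ < α) : Ctbl γ :=
  Set.Countable.mono (fun _ hδ => lt_trans hδ h) hα

/-- no node of the trees over the class of `x` has rank `α` -/
def Xa (g : ℕ → X → X) (T : ℕ → X × X → Tree) (α : Ordinal.{0}) : Set X :=
  {x | ∀ i j k s, T k (g i x, g j x) s = true → ¬ HasRank (child (T k (g i x, g j x))) s α}

theorem xa_meas [MeasurableSpace X] {g : ℕ → X → X} (hg : ∀ i, Measurable (g i))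
    {T : ℕ → X × X → Tree} (hT : ∀ k, Measurable (T k)) {α : Ordinal.{0}} (hα : Ctbl α) :
    MeasurableSet (Xa g T α) := by
  have h : Xa g T α = ⋂ i : ℕ, ⋂ j : ℕ, ⋂ k : ℕ, ⋂ s : List ℕ,
      ({x | T k (g i x, g j x) s = true} ∩
        {x | HasRank (child (T k (g i x, g j x))) s α})ᶜ := by
    ext x
    simp only [Xa, Set.mem_setOf_eq, Set.mem_iInter, Set.mem_compl_iff, Set.mem_inter_iff, not_and]
  rw [h]
  refine MeasurableSet.iInter fun i => MeasurableSet.iInter fun j => MeasurableSet.iInter fun k =>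
    MeasurableSet.iInter fun s => MeasurableSet.compl (MeasurableSet.inter ?_ ?_)
  · have h1 : Measurable fun x => T k (g i x, g j x) := (hT k).comp ((hg i).prodMk (hg j))
    exact (measurableSet_singleton true).preimage ((measurable_pi_apply s).comp h1)
  · have h1 : Measurable fun x => T k (g i x, g j x) := (hT k).comp ((hg i).prodMk (hg j))
    exact hasRank_child_meas h1 hα s

theorem xa_inv {E : X → X → Prop} (hE : Equivalence E) {g : ℕ → X → X}
    (hgE : ∀ x y, E x y ↔ ∃ i, g i x = y) {T : ℕ → X × X → Tree} {α : Ordinal.{0}} {x y : X}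
    (hx : x ∈ Xa g T α) (h : E x y) : y ∈ Xa g T α := by
  intro i j k s
  obtain ⟨i', hi'⟩ := (hgE x (g i y)).1 (hE.trans h ((hgE y (g i y)).2 ⟨i, rfl⟩))
  obtain ⟨j', hj'⟩ := (hgE x (g j y)).1 (hE.trans h ((hgE y (g j y)).2 ⟨j, rfl⟩))
  rw [← hi', ← hj']
  exact hx i' j' k s

theorem xa_branch {E : X → X → Prop} (hE : Equivalence E) {g : ℕ → X → X}
    (hgE : ∀ x y, E x y ↔ ∃ i, g i x = y) {T : ℕ → X × X → Tree} {α : Ordinal.{0}} {x y : X}
    (hx : x ∈ Xa g T α) (h : E x y) (k : ℕ) :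
    (∃ u, Br (T k (x, y)) u) ↔
      T k (x, y) [] = true ∧ ¬ ∃ γ < α, HasRank (child (T k (x, y))) [] γ := by
  obtain ⟨i, hi⟩ := (hgE x x).1 (hE.refl x)
  obtain ⟨j, hj⟩ := (hgE x y).1 h
  have hx' : ∀ s, T k (x, y) s = true → ¬ HasRank (child (T k (x, y))) s α := by
    intro s
    have := hx i j k s
    rwa [hi, hj] at this
  constructor
  · rintro ⟨u, hu⟩
    refine ⟨hu 0, ?_⟩
    rintro ⟨γ, _, hγ⟩
    exact branch_acc.1 (hasRank_acc hγ) ⟨u, hu⟩
  · rintro ⟨h0, hno⟩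
    by_contra hb
    obtain ⟨γ, hγ⟩ := hasRank_of_acc (branch_acc.2 hb)
    rcases lt_trichotomy γ α with h1 | h1 | h1
    · exact hno ⟨γ, h1, hγ⟩
    · rw [h1] at hγ
      exact hx' [] h0 hγ
    · obtain ⟨b, hb1, hb2⟩ := hasRank_below hγ h1
      obtain ⟨c, hc, _⟩ := Relation.TransGen.head'_iff.1 hb1
      exact hx' b hc.1 hb2

theorem hfon_xa [MeasurableSpace X] [StandardBorelSpace X] {E : X → X → Prop} (hE : CBER E)
    {g : ℕ → X → X} (hg : ∀ i, Measurable (g i)) (hgE : ∀ x y, E x y ↔ ∃ i, g i x = y)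
    {F : ℕ → X → X → Prop} (hF : Wit E F) {T : ℕ → X × X → Tree} (hT : ∀ k, Measurable (T k))
    (hTF : ∀ Y : Set (X × X), MeasurableSet Y →
      (∀ k, MeasurableSet {z | z ∈ Y ∧ ∃ u, Br (T k z) u}) →
        ∀ n, MeasurableSet ({p : X × X | F n p.1 p.2} ∩ Y)) {α : Ordinal.{0}} (hα : Ctbl α) :
    HFOn E (Xa g T α) := by
  have hEq := hE.equiv
  have hFE : ∀ n x y, F n x y → E x y := fun n x y h => (hF.union x y).2 ⟨n, h⟩
  have hY : MeasurableSet {p : X × X | p.1 ∈ Xa g T α ∧ E p.1 p.2} :=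
    ((xa_meas hg hT hα).preimage measurable_fst).inter hE.meas
  have hk : ∀ k, MeasurableSet
      {z : X × X | z ∈ {p : X × X | p.1 ∈ Xa g T α ∧ E p.1 p.2} ∧ ∃ u, Br (T k z) u} := by
    intro k
    haveI : Countable (Set.Iio α) := hα.to_subtype
    have h1 : {z : X × X | z ∈ {p : X × X | p.1 ∈ Xa g T α ∧ E p.1 p.2} ∧ ∃ u, Br (T k z) u} =
        {p : X × X | p.1 ∈ Xa g T α ∧ E p.1 p.2} ∩ ({z | T k z [] = true} ∩
          (⋃ γ : Set.Iio α, {z | HasRank (child (T k z)) [] γ.1})ᶜ) := by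
      ext z
      obtain ⟨x, y⟩ := z
      constructor
      · rintro ⟨⟨hx, hxy⟩, hb⟩
        obtain ⟨h2, h3⟩ := (xa_branch hEq hgE hx hxy k).1 hb
        refine ⟨⟨hx, hxy⟩, h2, ?_⟩
        rw [Set.mem_compl_iff, Set.mem_iUnion]
        rintro ⟨γ, hγ⟩
        exact h3 ⟨γ.1, γ.2, hγ⟩
      · rintro ⟨⟨hx, hxy⟩, h2, h3⟩
        refine ⟨⟨hx, hxy⟩, (xa_branch hEq hgE hx hxy k).2 ⟨h2, ?_⟩⟩
        rintro ⟨γ, hγ, hγ'⟩
        exact h3 (Set.mem_iUnion.2 ⟨⟨γ, hγ⟩, hγ'⟩)
    rw [h1]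
    refine hY.inter (MeasurableSet.inter ?_ (MeasurableSet.compl (MeasurableSet.iUnion
      fun γ => hasRank_child_meas (hT k) (SgBAux.ctbl_lt hα γ.2) [])))
    exact (measurableSet_singleton true).preimage ((measurable_pi_apply _).comp (hT k))
  have hm := hTF _ hY hk
  refine ⟨fun n x y => x ∈ Xa g T α ∧ F n x y, ?_, fun n => ?_⟩
  · exact
      { sub := fun n x y h => ⟨h.1, xa_inv hEq hgE h.1 (hFE n x y h.2), hFE n x y h.2⟩
        refl := fun n x h => ⟨h, (hF.equiv n).refl x⟩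
        symm := fun n x y h => ⟨xa_inv hEq hgE h.1 (hFE n x y h.2), (hF.equiv n).symm h.2⟩
        trans := fun n x y z h h' => ⟨h.1, (hF.equiv n).trans h.2 h'.2⟩
        fin := fun n x => (hF.fin n x).subset fun y h => h.2
        mono := fun n x y h => ⟨h.1, hF.mono n x y h.2⟩
        union := fun x y hx _ h => by
          obtain ⟨n, hn⟩ := (hF.union x y).1 h
          exact ⟨n, hx, hn⟩ }
  · have h1 : {p : X × X | p.1 ∈ Xa g T α ∧ F n p.1 p.2} =
        {p : X × X | F n p.1 p.2} ∩ {p : X × X | p.1 ∈ Xa g T α ∧ E p.1 p.2} := by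
      ext p
      constructor
      · rintro ⟨h2, h3⟩
        exact ⟨h3, h2, hFE n _ _ h3⟩
      · rintro ⟨h3, h2, _⟩
        exact ⟨h2, h3⟩
    rw [h1]
    exact hm n

end Pool.Agent.Lib.HFC
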