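import Pool.Agent.Lib.HFC.FP
import Pool.Agent.Lib.HFC.RankM
import Pool.Agent.Lib.HFC.LOr

/-!
# Module HFC.ShoenA: the trees of a `Σ¹₂` set (MP_3091e6_lc)

`K` is a tree representation of an analytic set `C ⊆ NN × NN` (`tree_rep2`), `TT K y z` is the section at `(y, z)`.
`RR K y L a` is the tree of the attempts to find `z` and an order preserving map `r : TT K y z → L` with values below `a`. A node
of length `n` is a list of codes `Nat.pair z_i r_i`, `i < n` (in the reverse order): `zs s` is the list of the `z_i` and `at' s i` is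
the entry with the number `i`; `r_i` is the value at the node number `i`, i.e. at `Denumerable.ofNat (List ℕ) i`, which has
length `≤ i < n`, so that the initial segment of `z` of length `n` decides whether this node belongs to `TT K y z`.

`mem K y q t`: `t ∈ TT K y z` for the sequences `z` which extend `q` (`t.length ≤ q.length`; `q` in the reverse order, so its
initial segment of length `k` is `q.drop (q.length - k)`).

PROOFS. `len_ofNat`: `t.length ≤ Encodable.encode t` by induction on `t` (`encode (a :: t) = succ (pair (encode a) (encode t))`,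
`Nat.right_le_pair`). `mem_res`: `(PiNat.res z n).drop (n - k) = PiNat.res z k` for `k ≤ n`. `zs_res`, `at_res`: for `s = PiNat.res u n`.
`rr_closed`: for `n :: s` the conditions for `i j < s.length` are conditions for `s` (the entries `i < s.length` of `n :: s` and `s`
agree; `mem K y (m :: q) t ↔ mem K y q t` if `t.length ≤ q.length`). `rr_nil`: no conditions. `rr_meas`: finitely many
conditions, each depends on finitely many coordinates of `y` and `L` (the set of the `y` with `PiNat.res y k = p` is open; write
`K (PiNat.res y k) q t = true` as a countable union over `p` of `{PiNat.res y k = p}`).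
`rr_branch`: (→) `u` a branch, `z i = (Nat.unpair (u i)).1`, `r t = (Nat.unpair (u (Encodable.encode t))).2`; for `t`, `t'` take
`n` larger than both codes. (←) `u i = Nat.pair (z i) (r (ofNat i))`.
-/

set_option autoImplicit false

namespace Pool.Agent.Lib.HFC

/-- the section of the tree `K` at `(y, z)` -/
def TT (K : List ℕ → List ℕ → Tree) (y z : NN) : Tree :=
  fun t => K (PiNat.res y t.length) (PiNat.res z t.length) t

/-- `t` belongs to `TT K y z` for the extensions `z` of `q` -/
def mem (K : List ℕ → List ℕ → Tree) (y : NN) (q t : List ℕ) : Prop :=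
  K (PiNat.res y t.length) (q.drop (q.length - t.length)) t = true

/-- the list of the first coordinates -/
def zs (s : List ℕ) : List ℕ := s.map fun e => (Nat.unpair e).1

/-- the second coordinate of the entry number `i` of the list `s` in the reverse order -/
def rs (s : List ℕ) (i : ℕ) : ℕ := (Nat.unpair (s.getD (s.length - 1 - i) 0)).2

/-- the `i`-th finite sequence -/
def nd (i : ℕ) : List ℕ := Denumerable.ofNat (List ℕ) i

/-- the condition on the nodes -/
def RC (K : List ℕ → List ℕ → Tree) (y : NN) (L : LOrd) (a : ℕ) (s : List ℕ) : Prop :=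
  (∀ i < s.length, mem K y (zs s) (nd i) → lt L (rs s i) a) ∧
    ∀ i < s.length, ∀ j < s.length, ∀ n, nd j = n :: nd i → mem K y (zs s) (nd i) →
      mem K y (zs s) (nd j) → lt L (rs s j) (rs s i)

open Classical in
/-- the tree of the attempts to find `z` and an order preserving map of `TT K y z` in `L` below `a` -/
noncomputable def RR (K : List ℕ → List ℕ → Tree) (y : NN) (L : LOrd) (a : ℕ) : Tree :=
  fun s => decide (RC K y L a s)

theorem len_ofNat (i : ℕ) : (nd i).length ≤ i := by
  have h : ∀ t : List ℕ, t.length ≤ Encodable.encode t := by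
    intro t
    induction t with
    | nil => simp
    | cons a t ih =>
      rw [Encodable.encode_list_cons, List.length_cons]
      have := Nat.right_le_pair (Encodable.encode a) (Encodable.encode t)
      omega
  have h1 := h (nd i)
  unfold nd at h1 ⊢
  rwa [Denumerable.encode_ofNat] at h1

theorem ShoenAAux.drop_res (z : NN) {n k : ℕ} (h : k ≤ n) :
    (PiNat.res z n).drop (n - k) = PiNat.res z k := by
  induction n with
  | zero =>
    have : k = 0 := by omega
    subst this; simp
  | succ n ih =>
    rcases Nat.lt_or_ge n k with h1 | h1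
    · have : k = n + 1 := by omega
      subst this; simp
    · rw [PiNat.res_succ, show n + 1 - k = (n - k) + 1 by omega, List.drop_succ_cons, ih h1]

theorem mem_res (K : List ℕ → List ℕ → Tree) (y z : NN) {n : ℕ} {t : List ℕ}
    (h : t.length ≤ n) : mem K y (PiNat.res z n) t ↔ TT K y z t = true := by
  unfold mem TT
  rw [PiNat.res_length, ShoenAAux.drop_res z h]

theorem mem_cons (K : List ℕ → List ℕ → Tree) (y : NN) (m : ℕ) {q t : List ℕ}
    (h : t.length ≤ q.length) : mem K y (m :: q) t ↔ mem K y q t := by
  unfold mem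
  rw [List.length_cons, show q.length + 1 - t.length = (q.length - t.length) + 1 by omega,
    List.drop_succ_cons]

theorem rs_cons (m : ℕ) {s : List ℕ} {i : ℕ} (h : i < s.length) :
    rs (m :: s) i = rs s i := by
  unfold rs
  rw [List.length_cons, show s.length + 1 - 1 - i = (s.length - 1 - i) + 1 by omega,
    List.getD_cons_succ]

theorem rs_last (m : ℕ) (s : List ℕ) : rs (m :: s) s.length = (Nat.unpair m).2 := by
  unfold rs
  rw [List.length_cons, show s.length + 1 - 1 - s.length = 0 by omega, List.getD_cons_zero]

theorem rr_iff (K : List ℕ → List ℕ → Tree) (y : NN) (L : LOrd) (a : ℕ) (s : List ℕ) :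
    RR K y L a s = true ↔ RC K y L a s := by
  classical
  unfold RR
  exact decide_eq_true_iff

theorem rr_closed (K : List ℕ → List ℕ → Tree) (y : NN) (L : LOrd) (a : ℕ) :
    Closed (RR K y L a) := by
  intro n s h
  rw [rr_iff] at h ⊢
  obtain ⟨h1, h2⟩ := h
  have hz : ∀ i < s.length, (mem K y (zs (n :: s)) (nd i) ↔ mem K y (zs s) (nd i)) := by
    intro i hi
    have e : zs (n :: s) = (Nat.unpair n).1 :: zs s := rfl
    have := len_ofNat i
    have h3 : (zs s).length = s.length := by unfold zs; rw [List.length_map]
    rw [e]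
    exact mem_cons K y _ (by omega)
  refine ⟨fun i hi hm => ?_, fun i hi j hj m hij hmi hmj => ?_⟩
  · have := h1 i (by rw [List.length_cons]; omega) ((hz i hi).2 hm)
    rwa [rs_cons n hi] at this
  · have := h2 i (by rw [List.length_cons]; omega) j (by rw [List.length_cons]; omega) m hij
      ((hz i hi).2 hmi) ((hz j hj).2 hmj)
    rwa [rs_cons n hi, rs_cons n hj] at this

theorem rr_nil (K : List ℕ → List ℕ → Tree) (y : NN) (L : LOrd) (a : ℕ) :
    RR K y L a [] = true := by
  rw [rr_iff]
  refine ⟨fun i hi => ?_, fun i hi => ?_⟩ <;> simp at hi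

theorem ShoenAAux.meas_res (k : ℕ) (l : List ℕ) : MeasurableSet {y : NN | PiNat.res y k = l} := by
  induction k generalizing l with
  | zero =>
    simp only [PiNat.res_zero]
    exact MeasurableSet.const _
  | succ k ih =>
    cases l with
    | nil =>
      have : {y : NN | PiNat.res y (k + 1) = []} = ∅ := by
        ext y; simp [PiNat.res_succ]
      rw [this]; exact MeasurableSet.empty
    | cons a l =>
      have : {y : NN | PiNat.res y (k + 1) = a :: l} =
          {y : NN | y k = a} ∩ {y : NN | PiNat.res y k = l} := by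
        ext y; simp [PiNat.res_succ]
      rw [this]
      exact ((measurable_pi_apply k) (measurableSet_singleton a)).inter (ih l)

theorem ShoenAAux.meas_mem (K : List ℕ → List ℕ → Tree) (q t : List ℕ) :
    MeasurableSet {y : NN | mem K y q t} := by
  have e : {y : NN | mem K y q t} = ⋃ p ∈ {p : List ℕ | K p (q.drop (q.length - t.length)) t = true},
      {y : NN | PiNat.res y t.length = p} := by
    ext y
    simp only [Set.mem_setOf_eq, Set.mem_iUnion, exists_prop]
    unfold mem
    constructor
    · intro h; exact ⟨_, h, rfl⟩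
    · rintro ⟨p, hp, rfl⟩; exact hp
  rw [e]
  exact MeasurableSet.biUnion (Set.to_countable _) fun p _ => ShoenAAux.meas_res _ _

theorem ShoenAAux.meas_lt (a b : ℕ) : MeasurableSet {L : LOrd | lt L a b} := by
  have e : {L : LOrd | lt L a b} = {L : LOrd | L a b = true} ∩ {L : LOrd | a ≠ b} := by
    ext L; rfl
  rw [e]
  apply MeasurableSet.inter
  · have h : Measurable fun L : LOrd => L a b :=
      (measurable_pi_apply b).comp (measurable_pi_apply a)
    exact h (measurableSet_singleton true)
  · exact MeasurableSet.const _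

theorem rr_meas (K : List ℕ → List ℕ → Tree) (s : List ℕ) :
    MeasurableSet {p : NN × LOrd × ℕ | RR K p.1 p.2.1 p.2.2 s = true} := by
  have e : {p : NN × LOrd × ℕ | RR K p.1 p.2.1 p.2.2 s = true} =
      (⋂ i ∈ {i | i < s.length}, ({p : NN × LOrd × ℕ | mem K p.1 (zs s) (nd i)}ᶜ ∪
        {p : NN × LOrd × ℕ | lt p.2.1 (rs s i) p.2.2})) ∩
      (⋂ i ∈ {i | i < s.length}, ⋂ j ∈ {j | j < s.length ∧ ∃ n, nd j = n :: nd i},
        ({p : NN × LOrd × ℕ | mem K p.1 (zs s) (nd i)}ᶜ ∪
        ({p : NN × LOrd × ℕ | mem K p.1 (zs s) (nd j)}ᶜ ∪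
        {p : NN × LOrd × ℕ | lt p.2.1 (rs s j) (rs s i)}))) := by
    ext p
    simp only [Set.mem_setOf_eq, Set.mem_inter_iff, Set.mem_iInter, Set.mem_union,
      Set.mem_compl_iff]
    rw [rr_iff]
    unfold RC
    constructor
    · rintro ⟨h1, h2⟩
      refine ⟨fun i hi => ?_, fun i hi j hj => ?_⟩
      · by_cases hm : mem K p.1 (zs s) (nd i)
        · exact Or.inr (h1 i hi hm)
        · exact Or.inl hm
      · obtain ⟨hj, n, hn⟩ := hj
        by_cases hm : mem K p.1 (zs s) (nd i)
        · by_cases hm' : mem K p.1 (zs s) (nd j)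
          · exact Or.inr (Or.inr (h2 i hi j hj n hn hm hm'))
          · exact Or.inr (Or.inl hm')
        · exact Or.inl hm
    · rintro ⟨h1, h2⟩
      refine ⟨fun i hi hm => ?_, fun i hi j hj n hn hm hm' => ?_⟩
      · rcases h1 i hi with h | h
        · exact absurd hm h
        · exact h
      · rcases h2 i hi j ⟨hj, n, hn⟩ with h | h | h
        · exact absurd hm h
        · exact absurd hm' h
        · exact h
  rw [e]
  have hmem : ∀ t, MeasurableSet {p : NN × LOrd × ℕ | mem K p.1 (zs s) t} := fun t =>
    measurable_fst (ShoenAAux.meas_mem K (zs s) t)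
  have hlt : ∀ a b, MeasurableSet {p : NN × LOrd × ℕ | lt p.2.1 a b} := fun a b =>
    (measurable_fst.comp measurable_snd) (ShoenAAux.meas_lt a b)
  have hlt' : ∀ a, MeasurableSet {p : NN × LOrd × ℕ | lt p.2.1 a p.2.2} := by
    intro a
    have e : {p : NN × LOrd × ℕ | lt p.2.1 a p.2.2} =
        ⋃ b : ℕ, ({p : NN × LOrd × ℕ | lt p.2.1 a b} ∩ {p : NN × LOrd × ℕ | p.2.2 = b}) := by
      ext p
      simp
    rw [e]
    exact MeasurableSet.iUnion fun b => (hlt a b).inter
      ((measurable_snd.comp measurable_snd) (measurableSet_singleton b))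
  apply MeasurableSet.inter
  · exact MeasurableSet.biInter (Set.to_countable _) fun i _ =>
      (hmem _).compl.union (hlt' _)
  · exact MeasurableSet.biInter (Set.to_countable _) fun i _ =>
      MeasurableSet.biInter (Set.to_countable _) fun j _ =>
        (hmem _).compl.union ((hmem _).compl.union (hlt _ _))

theorem ShoenAAux.zs_res (u : NN) (n : ℕ) :
    zs (PiNat.res u n) = PiNat.res (fun i => (Nat.unpair (u i)).1) n := by
  unfold zs
  induction n with
  | zero => simp
  | succ n ih => rw [PiNat.res_succ, PiNat.res_succ, List.map_cons, ih]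

theorem ShoenAAux.rs_res (u : NN) {n i : ℕ} (h : i < n) :
    rs (PiNat.res u n) i = (Nat.unpair (u i)).2 := by
  induction n with
  | zero => omega
  | succ n ih =>
    rw [PiNat.res_succ]
    rcases Nat.lt_or_ge i n with h1 | h1
    · rw [rs_cons (u n) (by rw [PiNat.res_length]; exact h1), ih h1]
    · have : i = n := by omega
      subst this
      have := rs_last (u i) (PiNat.res u i)
      rwa [PiNat.res_length] at this

theorem ShoenAAux.nd_enc (t : List ℕ) : nd (Encodable.encode t) = t := by
  unfold nd
  exact Denumerable.ofNat_encode t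

theorem ShoenAAux.len_le' (t : List ℕ) : t.length ≤ Encodable.encode t := by
  have := len_ofNat (Encodable.encode t)
  rwa [ShoenAAux.nd_enc] at this

theorem ShoenAAux.len_le (t : List ℕ) : t.length ≤ Encodable.encode t + 1 :=
  (ShoenAAux.len_le' t).trans (Nat.le_succ _)

theorem rr_branch (K : List ℕ → List ℕ → Tree) (y : NN) (L : LOrd) (a : ℕ) :
    (∃ u, Br (RR K y L a) u) ↔ ∃ (z : NN) (r : List ℕ → ℕ),
      (∀ t, TT K y z t = true → lt L (r t) a) ∧
        ∀ t' t, child (TT K y z) t' t → lt L (r t') (r t) := by
  constructor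
  · rintro ⟨u, hu⟩
    have hc : ∀ n, RC K y L a (PiNat.res u n) := fun n => (rr_iff K y L a _).1 (hu n)
    refine ⟨fun i => (Nat.unpair (u i)).1, fun t => (Nat.unpair (u (Encodable.encode t))).2,
      fun t ht => ?_, fun t' t hch => ?_⟩
    · have h1 := (hc (Encodable.encode t + 1)).1 (Encodable.encode t)
        (by rw [PiNat.res_length]; omega)
      rw [ShoenAAux.nd_enc, ShoenAAux.zs_res, mem_res K y _ (ShoenAAux.len_le t),
        ShoenAAux.rs_res u (Nat.lt_succ_self _)] at h1
      exact h1 ht
    · obtain ⟨h1, h2, n, rfl⟩ := hch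
      set N := Encodable.encode t + Encodable.encode (n :: t) + 1 with hN
      have h3 := (hc N).2 (Encodable.encode t) (by rw [PiNat.res_length]; omega)
        (Encodable.encode (n :: t)) (by rw [PiNat.res_length]; omega) n
        (by rw [ShoenAAux.nd_enc, ShoenAAux.nd_enc])
      rw [ShoenAAux.nd_enc, ShoenAAux.nd_enc, ShoenAAux.zs_res,
        mem_res K y _ ((ShoenAAux.len_le' t).trans (by omega)),
        mem_res K y _ ((ShoenAAux.len_le' (n :: t)).trans (by omega)),
        ShoenAAux.rs_res u (by omega), ShoenAAux.rs_res u (by omega)] at h3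
      exact h3 h2 h1
  · rintro ⟨z, r, h1, h2⟩
    refine ⟨fun i => Nat.pair (z i) (r (nd i)), fun n => ?_⟩
    rw [rr_iff]
    have hz : (fun i => (Nat.unpair (Nat.pair (z i) (r (nd i)))).1) = z := by
      funext i; rw [Nat.unpair_pair]
    refine ⟨fun i hi hm => ?_, fun i hi j hj m hij hmi hmj => ?_⟩
    · rw [PiNat.res_length] at hi
      rw [ShoenAAux.zs_res, hz, mem_res K y z ((len_ofNat i).trans hi.le)] at hm
      rw [ShoenAAux.rs_res _ hi, Nat.unpair_pair]
      exact h1 _ hm
    · rw [PiNat.res_length] at hi hj
      rw [ShoenAAux.zs_res, hz, mem_res K y z ((len_ofNat i).trans hi.le)] at hmi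
      rw [ShoenAAux.zs_res, hz, mem_res K y z ((len_ofNat j).trans hj.le)] at hmj
      rw [ShoenAAux.rs_res _ hi, ShoenAAux.rs_res _ hj, Nat.unpair_pair, Nat.unpair_pair]
      exact h2 _ _ ⟨hmj, hmi, m, hij⟩

end Pool.Agent.Lib.HFC
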