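import Pool.Agent.Lib.HFC.ShoenA

/-!
# Module HFC.ShoenB: isomorphism invariance (MP_3091e6_lc)

PROOF of `rr_bisim`. `IsLO L`, `IsLO L'`, `a`, `a'` in the domains, both of rank `γ`. Let `Z s s'` be: `RR K y L a s = true`,
`RR K y L' a' s' = true`, `s.length = s'.length`, `zs s = zs s'`, and for all `i < s.length` with `mem K y (zs s) (nd i)` there is `δ` with
`HasRank (lt L) (rs s i) δ`, `HasRank (lt L') (rs s' i) δ`. `Z` is symmetric in the two sides. Forth: let `e :: s` be a child of `s` and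
`n = s.length`. If `mem K y (zs (e :: s)) (nd n)` then `lt L (rs (e :: s) n) a`, so `r = rs (e :: s) n = (unpair e).2` has a rank `δ < γ`, and
there is `r'` with `lt L' r' a'` of rank `δ` (`lo_below`); otherwise `r' = 0`. Let `e' = Nat.pair (unpair e).1 r'`. Then
`RR K y L' a' (e' :: s') = true`: the conditions with `i, j < n` come from `s'` (`rs_cons`, `mem_cons`; `(nd i).length ≤ i ≤ n`), the
conditions which involve `n`: by `lo_rank_lt_iff` `lt L' x' y' ↔ rank < rank ↔ lt L x y` for the corresponding entries `x, y`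
(all of them are in the domains, being `<` something).
Then `hasRank_bisim`. `rr_bisim` for a node `s`: some `s'` with `Z s s'` exists, by induction on `s` (`rr_closed`, the forth
property; `Z [] []`). The statement for the root: `Z [] []`.
-/

set_option autoImplicit false

namespace Pool.Agent.Lib.HFC

namespace ShoenBAux

/-- the bisimulation -/
def Z (K : List ℕ → List ℕ → Tree) (y : NN) (L L' : LOrd) (a a' : ℕ) (s s' : List ℕ) : Prop :=
  RC K y L a s ∧ RC K y L' a' s' ∧ s.length = s'.length ∧ zs s = zs s' ∧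
    ∀ i < s.length, mem K y (zs s) (nd i) →
      ∃ δ, HasRank (lt L) (rs s i) δ ∧ HasRank (lt L') (rs s' i) δ

theorem Z.symm {K : List ℕ → List ℕ → Tree} {y : NN} {L L' : LOrd} {a a' : ℕ} {s s' : List ℕ}
    (h : Z K y L L' a a' s s') : Z K y L' L a' a s' s := by
  obtain ⟨h1, h2, h3, h4, h5⟩ := h
  refine ⟨h2, h1, h3.symm, h4.symm, ?_⟩
  intro i hi hm
  rw [← h4] at hm
  obtain ⟨δ, h6, h7⟩ := h5 i (by omega) hm
  exact ⟨δ, h7, h6⟩

theorem length_zs (s : List ℕ) : (zs s).length = s.length := by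
  simp [zs]

theorem forth (K : List ℕ → List ℕ → Tree) (y : NN) {L L' : LOrd} {a a' : ℕ}
    {γ : Ordinal.{0}} (hL : IsLO L) (hL' : IsLO L')
    (hr : HasRank (lt L) a γ) (hr' : HasRank (lt L') a' γ) {s s' : List ℕ} (e : ℕ)
    (h : Z K y L L' a a' s s') (he : RC K y L a (e :: s)) :
    ∃ e', Z K y L L' a a' (e :: s) (e' :: s') := by
  obtain ⟨h1, h2, h3, h4, h5⟩ := h
  -- the choice of the new value
  obtain ⟨r', hr1⟩ : ∃ r', mem K y (zs (e :: s)) (nd s.length) →
      lt L' r' a' ∧ ∃ δ, HasRank (lt L) (Nat.unpair e).2 δ ∧ HasRank (lt L') r' δ := by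
    by_cases hm : mem K y (zs (e :: s)) (nd s.length)
    · have h6 := he.1 s.length (by simp) hm
      rw [rs_last] at h6
      obtain ⟨δ, hδ, h7⟩ := (hasRank_iff.mp hr).1 _ h6
      obtain ⟨r', h8, h9⟩ := lo_below hL' hr' hδ
      exact ⟨r', fun _ => ⟨h8, δ, h7, h9⟩⟩
    · exact ⟨0, fun h => absurd h hm⟩
  refine ⟨Nat.pair (Nat.unpair e).1 r', ?_⟩
  have hz : zs (e :: s) = zs (Nat.pair (Nat.unpair e).1 r' :: s') := by
    unfold zs at h4 ⊢
    rw [List.map_cons, List.map_cons, h4, Nat.unpair_pair]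
  have hrs' : rs (Nat.pair (Nat.unpair e).1 r' :: s') s.length = r' := by
    rw [h3, rs_last, Nat.unpair_pair]
  have hmem : ∀ i < s.length, (mem K y (zs (e :: s)) (nd i) ↔ mem K y (zs s) (nd i)) := by
    intro i hi
    have h6 := len_ofNat i
    exact mem_cons K y (Nat.unpair e).1 (by rw [List.length_map]; omega)
  have hrank : ∀ i < (e :: s).length, mem K y (zs (e :: s)) (nd i) →
      ∃ δ, HasRank (lt L) (rs (e :: s) i) δ ∧
        HasRank (lt L') (rs (Nat.pair (Nat.unpair e).1 r' :: s') i) δ := by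
    intro i hi hm
    rw [List.length_cons] at hi
    rcases Nat.lt_succ_iff_lt_or_eq.1 hi with hi' | hi'
    · rw [rs_cons _ hi', rs_cons _ (by omega)]
      exact h5 i hi' ((hmem i hi').1 hm)
    · subst hi'
      rw [rs_last, hrs']
      exact (hr1 hm).2
  have hlt : ∀ i < (e :: s).length, mem K y (zs (e :: s)) (nd i) →
      lt L' (rs (Nat.pair (Nat.unpair e).1 r' :: s') i) a' := by
    intro i hi hm
    rw [List.length_cons] at hi
    rcases Nat.lt_succ_iff_lt_or_eq.1 hi with hi' | hi'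
    · rw [rs_cons _ (by omega)]
      refine h2.1 i (by omega) ?_
      rw [← h4]
      exact (hmem i hi').1 hm
    · subst hi'
      rw [hrs']
      exact (hr1 hm).1
  refine ⟨he, ⟨?_, ?_⟩, ?_, hz, hrank⟩
  · intro i hi hm
    rw [← hz] at hm
    exact hlt i (by rw [List.length_cons] at hi ⊢; omega) hm
  · intro i hi j hj n hn hmi hmj
    rw [← hz] at hmi hmj
    have hi' : i < (e :: s).length := by rw [List.length_cons] at hi ⊢; omega
    have hj' : j < (e :: s).length := by rw [List.length_cons] at hj ⊢; omega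
    obtain ⟨δi, h6, h7⟩ := hrank i hi' hmi
    obtain ⟨δj, h8, h9⟩ := hrank j hj' hmj
    have h10 := he.2 i hi' j hj' n hn hmi hmj
    have h11 := he.1 i hi' hmi
    have h12 := he.1 j hj' hmj
    have h13 := hlt i hi' hmi
    have h14 := hlt j hj' hmj
    have h15 := (lo_rank_lt_iff hL (hL.left _ _ (le_of_lt' h12)) (hL.left _ _ (le_of_lt' h11))
      h8 h6).1 h10
    exact (lo_rank_lt_iff hL' (hL'.left _ _ (le_of_lt' h14)) (hL'.left _ _ (le_of_lt' h13))
      h9 h7).2 h15
  · rw [List.length_cons, List.length_cons, h3]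

theorem bisim (K : List ℕ → List ℕ → Tree) (y : NN) {L L' : LOrd} {a a' : ℕ}
    {γ : Ordinal.{0}} (hL : IsLO L) (hL' : IsLO L')
    (hr : HasRank (lt L) a γ) (hr' : HasRank (lt L') a' γ) {s s' : List ℕ}
    {β : Ordinal.{0}} (hZ : Z K y L L' a a' s s') (hβ : HasRank (child (RR K y L a)) s β) :
    HasRank (child (RR K y L' a')) s' β := by
  refine hasRank_bisim (Z K y L L' a a') ?_ ?_ hZ hβ
  · rintro s s' t hZ ⟨ht, hs, n, rfl⟩
    rw [rr_iff] at ht
    obtain ⟨e', he'⟩ := forth K y hL hL' hr hr' n hZ ht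
    refine ⟨e' :: s', ⟨?_, ?_, e', rfl⟩, he'⟩
    · rw [rr_iff]
      exact he'.2.1
    · rw [rr_iff]
      exact hZ.2.1
  · rintro s s' t hZ ⟨ht, hs, n, rfl⟩
    rw [rr_iff] at ht
    obtain ⟨e', he'⟩ := forth K y hL' hL hr' hr n hZ.symm ht
    refine ⟨e' :: s, ⟨?_, ?_, e', rfl⟩, he'.symm⟩
    · rw [rr_iff]
      exact he'.2.1
    · rw [rr_iff]
      exact hZ.1

theorem Z_nil (K : List ℕ → List ℕ → Tree) (y : NN) (L L' : LOrd) (a a' : ℕ) :
    Z K y L L' a a' [] [] :=
  ⟨(rr_iff K y L a []).1 (rr_nil K y L a), (rr_iff K y L' a' []).1 (rr_nil K y L' a'), rfl, rfl,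
    fun i hi => absurd hi (Nat.not_lt_zero i)⟩

theorem ex_Z (K : List ℕ → List ℕ → Tree) (y : NN) {L L' : LOrd} {a a' : ℕ}
    {γ : Ordinal.{0}} (hL : IsLO L) (hL' : IsLO L')
    (hr : HasRank (lt L) a γ) (hr' : HasRank (lt L') a' γ) :
    ∀ s : List ℕ, RR K y L a s = true → ∃ s', Z K y L L' a a' s s' := by
  intro s
  induction s with
  | nil => exact fun _ => ⟨[], Z_nil K y L L' a a'⟩
  | cons e s ih =>
    intro h
    obtain ⟨s', hs'⟩ := ih (rr_closed K y L a e s h)
    obtain ⟨e', he'⟩ := forth K y hL hL' hr hr' e hs' ((rr_iff _ _ _ _ _).1 h)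
    exact ⟨e' :: s', he'⟩

end ShoenBAux

theorem rr_bisim (K : List ℕ → List ℕ → Tree) (y : NN) {L L' : LOrd} {a a' : ℕ}
    {γ : Ordinal.{0}} (hL : IsLO L) (hL' : IsLO L') (ha : L a a = true) (ha' : L' a' a' = true)
    (hr : HasRank (lt L) a γ) (hr' : HasRank (lt L') a' γ) {s : List ℕ} {β : Ordinal.{0}}
    (hs : RR K y L a s = true) (hβ : HasRank (child (RR K y L a)) s β) :
    ∃ s', RR K y L' a' s' = true ∧ HasRank (child (RR K y L' a')) s' β := by
  obtain ⟨s', hs'⟩ := ShoenBAux.ex_Z K y hL hL' hr hr' s hs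
  exact ⟨s', (rr_iff _ _ _ _ _).2 hs'.2.1, ShoenBAux.bisim K y hL hL' hr hr' hs' hβ⟩

theorem rr_bisim_root (K : List ℕ → List ℕ → Tree) (y : NN) {L L' : LOrd} {a a' : ℕ}
    {γ : Ordinal.{0}} (hL : IsLO L) (hL' : IsLO L') (ha : L a a = true) (ha' : L' a' a' = true)
    (hr : HasRank (lt L) a γ) (hr' : HasRank (lt L') a' γ) {β : Ordinal.{0}}
    (hβ : HasRank (child (RR K y L a)) [] β) : HasRank (child (RR K y L' a')) [] β :=
  ShoenBAux.bisim K y hL hL' hr hr' (ShoenBAux.Z_nil K y L L' a a') hβ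

end Pool.Agent.Lib.HFC
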