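import Pool.Agent.Lib.HFC.FP
import Pool.Agent.Lib.HFC.RankM
import Pool.Agent.Lib.HFC.SimL

/-!
# Module HFC.Univ: a universal pair of analytic sets whose union is everything (MP_3091e6_lc)

PROOF of `universal0`. `letI := upgradeStandardBorel U`. `U × NN` has a countable basis `O : ℕ → Set (U × NN)` of open sets,
with `O 0 = ∅` say (or any sequence of open sets such that every open set is the union of the `O n` contained in it;
`TopologicalSpace.exists_countable_basis`). Let `W = {p : NN × U | ∃ v, ∀ n, (p.2, v) ∉ O (p.1 n)}`: analytic (projection of a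
measurable set, `an_proj` or the definition). If `B ⊆ U` is measurable, then `B` is analytic: empty or the range of a
continuous `g : NN → U` (`MeasurableSet.analyticSet`); the set `F = {(u, v) | g v = u}` (or `∅`) is closed, its complement is a
union of sets `O n`: choose `c` with `⋃ n, O (c n) = Fᶜ` (if no `O n` is used take the constant index of `∅`). So
`(c, u) ∈ W ↔ ∃ v, (u, v) ∈ F ↔ u ∈ B`.
PROOF of `universal`. By `tree_rep` for `W` there is a measurable `T : NN × U → Tree` with `(∃ u', Br (T (c, u)) u') ↔ (c, u) ∈ W`.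
For `c : NN × NN` put `T1 = T (c.1, u)`, `T0 = T (c.2, u)`, and
`A = {(c, u, true) | ∃ S, Sim (child T0) (child T1) [] [] S} ∪ {(c, u, false) | ∃ S, Sim (child T1) (child T0) [] [] S}`.
Analytic: `an_proj` of a measurable set (`sim_meas` is in `Bd`; here it is a separate lemma `sim_meas'`), and union.
The second condition is `sim_total`. For a measurable `B` take `c.1` for `B`, `c.2` for `Bᶜ`: if `u ∈ B` then `T1` has a branch,
`T0` has none; `¬ Acc (child T1) []` gives `(c, u, true) ∈ A` (`sim_not_acc`), and `(c, u, false) ∈ A` would give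
`Acc (child T1) []` by `sim_acc` and `Acc (child T0) []` (`branch_acc`), a contradiction. Similarly for `u ∉ B`.
-/

set_option autoImplicit false

namespace Pool.Agent.Lib.HFC

theorem sim_meas' {Ω : Type} [MeasurableSpace Ω] {T T' : Ω → Tree} (hT : Measurable T)
    (hT' : Measurable T') {S : Ω → List ℕ → List ℕ → Bool} (hS : Measurable S) :
    MeasurableSet {ω | Sim (child (T ω)) (child (T' ω)) [] [] (S ω)} := by
  have hc : ∀ {T : Ω → Tree}, Measurable T → ∀ b c, Measurable (fun ω => child (T ω) b c) := by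
    intro T hT b c
    have h1 : ∀ s, Measurable (fun ω => T ω s = true) := fun s =>
      measurableSet_setOfPred.1
        ((measurableSet_singleton true).preimage ((measurable_pi_apply s).comp hT))
    exact (h1 b).and ((h1 c).and measurable_const)
  have hS1 : ∀ i j, Measurable (fun ω => S ω i j = true) := fun i j =>
    measurableSet_setOfPred.1 ((measurableSet_singleton true).preimage
      ((measurable_pi_apply j).comp ((measurable_pi_apply i).comp hS)))
  rw [measurableSet_setOfPred]
  refine Measurable.and (hS1 _ _) ?_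
  exact Measurable.forall fun b => Measurable.forall fun b' => Measurable.forall fun c =>
    (hS1 b b').imp ((hc hT c b).imp (Measurable.exists fun c' => (hc hT' c' b').and (hS1 c c')))

theorem universal0 (U : Type) [MeasurableSpace U] [StandardBorelSpace U] :
    ∃ W : Set (NN × U), An W ∧ ∀ B : Set U, MeasurableSet B → ∃ c, ∀ u, (c, u) ∈ W ↔ u ∈ B := by
  classical
  let := upgradeStandardBorel U
  obtain ⟨b, hbc, _, hb⟩ := TopologicalSpace.exists_countable_basis (U × NN)
  obtain ⟨O, hO⟩ := (hbc.insert ∅).exists_eq_range (Set.insert_nonempty _ _)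
  have hopen : ∀ n, IsOpen (O n) := by
    intro n
    have h1 : O n ∈ insert ∅ b := hO ▸ Set.mem_range_self n
    rcases h1 with h1 | h1
    · rw [h1]
      exact isOpen_empty
    · exact hb.isOpen h1
  refine ⟨{p | ∃ v, (p, v) ∈ {q : (NN × U) × NN | ∀ n, (q.1.2, q.2) ∉ O (q.1.1 n)}},
    ⟨_, ?_, rfl⟩, ?_⟩
  · have h2 : {q : (NN × U) × NN | ∀ n, (q.1.2, q.2) ∉ O (q.1.1 n)} =
        ⋂ n, (⋃ k, ({q : (NN × U) × NN | q.1.1 n = k} ∩
          (fun q : (NN × U) × NN => (q.1.2, q.2)) ⁻¹' O k))ᶜ := by
      ext q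
      simp
    rw [h2]
    refine MeasurableSet.iInter fun n => (MeasurableSet.iUnion fun k => ?_).compl
    refine MeasurableSet.inter ?_ ?_
    · exact (measurableSet_singleton k).preimage
        ((measurable_pi_apply n).comp (measurable_fst.comp measurable_fst))
    · exact (hopen k).measurableSet.preimage
        ((measurable_snd.comp measurable_fst).prodMk measurable_snd)
  · intro B hB
    obtain ⟨F, hF, hFB⟩ : ∃ F : Set (U × NN), IsClosed F ∧ ∀ u, (∃ v, (u, v) ∈ F) ↔ u ∈ B := by
      have h1 : MeasureTheory.AnalyticSet B := hB.analyticSet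
      rw [MeasureTheory.AnalyticSet] at h1
      rcases h1 with h1 | ⟨g, hg, rfl⟩
      · exact ⟨∅, isClosed_empty, fun u => by simp [h1]⟩
      · refine ⟨{p | g p.2 = p.1}, isClosed_eq (hg.comp continuous_snd) continuous_fst,
          fun u => Iff.rfl⟩
    obtain ⟨m0, hm0⟩ : (∅ : Set (U × NN)) ∈ Set.range O := hO ▸ Set.mem_insert _ _
    obtain ⟨c, hc⟩ := (Set.to_countable {n | O n ⊆ Fᶜ}).exists_eq_range
      ⟨m0, by simp [hm0]⟩
    refine ⟨c, fun u => ?_⟩
    rw [← hFB]
    refine exists_congr fun v => ⟨fun h => ?_, fun h n hn => ?_⟩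
    · by_contra hv
      obtain ⟨t, ht, hvt, htF⟩ := hb.exists_subset_of_mem_open
        (show (u, v) ∈ Fᶜ from hv) hF.isOpen_compl
      obtain ⟨m, hm⟩ : t ∈ Set.range O := hO ▸ Set.mem_insert_of_mem _ ht
      obtain ⟨n, hn⟩ : m ∈ Set.range c := hc ▸ (show O m ⊆ Fᶜ from hm ▸ htF)
      refine h n ?_
      change (u, v) ∈ O (c n)
      rw [hn, hm]
      exact hvt
    · have h3 : c n ∈ {n | O n ⊆ Fᶜ} := hc ▸ Set.mem_range_self n
      exact h3 hn h

/-- `A` is analytic, covers everything, and all Borel sets have codes -/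
structure Uni {U : Type} [MeasurableSpace U] (A : Set ((NN × NN) × U × Bool)) : Prop where
  an : An A
  tot : ∀ c u, (c, u, true) ∈ A ∨ (c, u, false) ∈ A
  code : ∀ B : Set U, MeasurableSet B → ∃ c, ∀ u, ((c, u, true) ∈ A ↔ u ∈ B) ∧
    ((c, u, false) ∈ A ↔ u ∉ B)

namespace UnivAux

theorem an_sim {U : Type} [MeasurableSpace U] [StandardBorelSpace U] {T : NN × U → Tree}
    (hT : Measurable T) (e : Bool) {f g : NN × NN → NN} (hf : Measurable f) (hg : Measurable g) :
    An {q : (NN × NN) × U × Bool | q.2.2 = e ∧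
      ∃ S, Sim (child (T (f q.1, q.2.1))) (child (T (g q.1, q.2.1))) [] [] S} := by
  have h1 : {q : (NN × NN) × U × Bool | q.2.2 = e ∧
      ∃ S, Sim (child (T (f q.1, q.2.1))) (child (T (g q.1, q.2.1))) [] [] S} =
      {z | ∃ S : List ℕ → List ℕ → Bool, (z, S) ∈
        {r : ((NN × NN) × U × Bool) × (List ℕ → List ℕ → Bool) | r.1.2.2 = e ∧
          Sim (child (T (f r.1.1, r.1.2.1))) (child (T (g r.1.1, r.1.2.1))) [] [] r.2}} := by
    ext z
    simp
  rw [h1]
  refine an_proj (an_of_meas ?_)
  refine MeasurableSet.inter (s₁ := {r : ((NN × NN) × U × Bool) × (List ℕ → List ℕ → Bool) |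
    r.1.2.2 = e}) ?_ ?_
  · exact (measurableSet_singleton e).preimage
      (measurable_snd.comp (measurable_snd.comp measurable_fst))
  · refine sim_meas' ?_ ?_ measurable_snd
    · exact hT.comp ((hf.comp (measurable_fst.comp measurable_fst)).prodMk
        (measurable_fst.comp (measurable_snd.comp measurable_fst)))
    · exact hT.comp ((hg.comp (measurable_fst.comp measurable_fst)).prodMk
        (measurable_fst.comp (measurable_snd.comp measurable_fst)))

end UnivAux

theorem universal (U : Type) [MeasurableSpace U] [StandardBorelSpace U] :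
    ∃ A : Set ((NN × NN) × U × Bool), Uni A := by
  obtain ⟨W, hW, hcode⟩ := universal0 U
  obtain ⟨T, hT, _, hTW⟩ := tree_rep hW
  refine ⟨{q | q.2.2 = true ∧
      ∃ S, Sim (child (T (q.1.2, q.2.1))) (child (T (q.1.1, q.2.1))) [] [] S} ∪
    {q | q.2.2 = false ∧
      ∃ S, Sim (child (T (q.1.1, q.2.1))) (child (T (q.1.2, q.2.1))) [] [] S}, ?_, ?_, ?_⟩
  · exact an_union (UnivAux.an_sim hT true measurable_snd measurable_fst)
      (UnivAux.an_sim hT false measurable_fst measurable_snd)
  · intro c u
    rcases sim_total (r := child (T (c.2, u))) (r' := child (T (c.1, u))) [] [] with h | h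
    · exact Or.inl (Or.inl ⟨rfl, h⟩)
    · exact Or.inr (Or.inr ⟨rfl, h⟩)
  · intro B hB
    obtain ⟨c1, hc1⟩ := hcode B hB
    obtain ⟨c0, hc0⟩ := hcode Bᶜ hB.compl
    have h1 : ∀ u, Acc (child (T (c1, u))) [] ↔ u ∉ B := fun u => by
      rw [branch_acc, hTW, hc1]
    have h0 : ∀ u, Acc (child (T (c0, u))) [] ↔ u ∈ B := fun u => by
      rw [branch_acc, hTW, hc0, Set.mem_compl_iff, not_not]
    have key1 : ∀ u, (∃ S, Sim (child (T (c0, u))) (child (T (c1, u))) [] [] S) ↔ u ∈ B := by
      intro u
      constructor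
      · rintro ⟨S, hS⟩
        by_contra hu
        exact hu ((h0 u).1 (sim_acc hS ((h1 u).2 hu)))
      · intro hu
        exact sim_not_acc fun h => (h1 u).1 h hu
    have key0 : ∀ u, (∃ S, Sim (child (T (c1, u))) (child (T (c0, u))) [] [] S) ↔ u ∉ B := by
      intro u
      constructor
      · rintro ⟨S, hS⟩ hu
        exact (h1 u).1 (sim_acc hS ((h0 u).2 hu)) hu
      · intro hu
        exact sim_not_acc fun h => hu ((h0 u).1 h)
    refine ⟨(c1, c0), fun u => ⟨?_, ?_⟩⟩
    · rw [← key1 u]
      simp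
    · rw [← key0 u]
      simp

end Pool.Agent.Lib.HFC
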